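import Mathlib

set_option linter.all false

section

/-! Closure rules for computable functions, computable predicates and c.e. predicates,
registered for `fun_prop`. -/

set_option autoImplicit false

namespace MP750S

open Classical

attribute [fun_prop] Computable ComputablePred REPred

section
variable {α β γ : Type} [Primcodable α] [Primcodable β] [Primcodable γ]

@[fun_prop] theorem c_id : Computable fun x : α => x := Computable.id
@[fun_prop] theorem c_const (c : β) : Computable fun _ : α => c := Computable.const c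
@[fun_prop] theorem c_comp {f : β → γ} {g : α → β} (hf : Computable f) (hg : Computable g) :
    Computable fun x => f (g x) := hf.comp hg
@[fun_prop] theorem c_fst {f : α → β × γ} (hf : Computable f) : Computable fun x => (f x).1 :=
  Computable.fst.comp hf
@[fun_prop] theorem c_snd {f : α → β × γ} (hf : Computable f) : Computable fun x => (f x).2 :=
  Computable.snd.comp hf
@[fun_prop] theorem c_pair {f : α → β} {g : α → γ} (hf : Computable f) (hg : Computable g) :
    Computable fun x => (f x, g x) := hf.pair hg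
@[fun_prop] theorem c_add {f g : α → ℕ} (hf : Computable f) (hg : Computable g) :
    Computable fun x => f x + g x := Primrec.nat_add.to_comp.comp hf hg
@[fun_prop] theorem c_tsub {f g : α → ℕ} (hf : Computable f) (hg : Computable g) :
    Computable fun x => f x - g x := Primrec.nat_sub.to_comp.comp hf hg
@[fun_prop] theorem c_mul {f g : α → ℕ} (hf : Computable f) (hg : Computable g) :
    Computable fun x => f x * g x := Primrec.nat_mul.to_comp.comp hf hg
@[fun_prop] theorem c_div {f g : α → ℕ} (hf : Computable f) (hg : Computable g) :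
    Computable fun x => f x / g x := Primrec.nat_div.to_comp.comp hf hg
@[fun_prop] theorem c_mod {f g : α → ℕ} (hf : Computable f) (hg : Computable g) :
    Computable fun x => f x % g x := Primrec.nat_mod.to_comp.comp hf hg
@[fun_prop] theorem c_max {f g : α → ℕ} (hf : Computable f) (hg : Computable g) :
    Computable fun x => max (f x) (g x) := Primrec.nat_max.to_comp.comp hf hg
@[fun_prop] theorem c_npair {f g : α → ℕ} (hf : Computable f) (hg : Computable g) :
    Computable fun x => Nat.pair (f x) (g x) := Primrec₂.natPair.to_comp.comp hf hg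
@[fun_prop] theorem c_unpair {f : α → ℕ} (hf : Computable f) :
    Computable fun x => Nat.unpair (f x) := Computable.unpair.comp hf
@[fun_prop] theorem c_encode {f : α → β} (hf : Computable f) :
    Computable fun x => Encodable.encode (f x) := Computable.encode.comp hf
@[fun_prop] theorem c_ofNat {δ : Type} [Denumerable δ] {f : α → ℕ} (hf : Computable f) :
    Computable fun x => Denumerable.ofNat δ (f x) := (Computable.ofNat δ).comp hf
@[fun_prop] theorem c_length {f : α → List β} (hf : Computable f) :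
    Computable fun x => (f x).length := Computable.list_length.comp hf
@[fun_prop] theorem c_cons {f : α → β} {g : α → List β} (hf : Computable f)
    (hg : Computable g) : Computable fun x => f x :: g x := Computable.list_cons.comp hf hg
@[fun_prop] theorem c_append {f g : α → List β} (hf : Computable f)
    (hg : Computable g) : Computable fun x => f x ++ g x := Computable.list_append.comp hf hg
@[fun_prop] theorem c_getD {f : α → List β} {g : α → ℕ} (d : β) (hf : Computable f)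
    (hg : Computable g) : Computable fun x => (f x).getD (g x) d :=
  (Primrec.list_getD d).to_comp.comp hf hg
@[fun_prop] theorem c_range {f : α → ℕ} (hf : Computable f) :
    Computable fun x => List.range (f x) := Primrec.list_range.to_comp.comp hf

variable {p q : α → Prop}

@[fun_prop] theorem p_const (P : Prop) : ComputablePred fun _ : α => P :=
  Computable.computablePred (Computable.const (decide P))
@[fun_prop] theorem p_comp {p : β → Prop} {g : α → β} (hp : ComputablePred p)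
    (hg : Computable g) : ComputablePred fun a => p (g a) :=
  Computable.computablePred (hp.decide.comp hg)
@[fun_prop] theorem p_and (hp : ComputablePred p) (hq : ComputablePred q) :
    ComputablePred fun a => p a ∧ q a :=
  Computable.computablePred
    ((Primrec.and.to_comp.comp hp.decide hq.decide).of_eq fun a => by simp)
@[fun_prop] theorem p_or (hp : ComputablePred p) (hq : ComputablePred q) :
    ComputablePred fun a => p a ∨ q a :=
  Computable.computablePred
    ((Primrec.or.to_comp.comp hp.decide hq.decide).of_eq fun a => by simp)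
@[fun_prop] theorem p_not (hp : ComputablePred p) : ComputablePred fun a => ¬ p a := hp.not
@[fun_prop] theorem p_imp (hp : ComputablePred p) (hq : ComputablePred q) :
    ComputablePred fun a => p a → q a := (p_or hp.not hq).of_eq fun a => by tauto
@[fun_prop] theorem p_iff (hp : ComputablePred p) (hq : ComputablePred q) :
    ComputablePred fun a => p a ↔ q a :=
  (p_and (p_imp hp hq) (p_imp hq hp)).of_eq fun a => by tauto
@[fun_prop] theorem p_eq {f g : α → β} (hf : Computable f) (hg : Computable g) :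
    ComputablePred fun a => f a = g a :=
  p_comp (p := fun q : β × β => q.1 = q.2) (PrimrecPred.computablePred Primrec.eq) (hf.pair hg)
@[fun_prop] theorem p_ne {f g : α → β} (hf : Computable f) (hg : Computable g) :
    ComputablePred fun a => f a ≠ g a := (p_eq hf hg).not
@[fun_prop] theorem p_lt {f g : α → ℕ} (hf : Computable f) (hg : Computable g) :
    ComputablePred fun a => f a < g a :=
  p_comp (p := fun q : ℕ × ℕ => q.1 < q.2) (PrimrecPred.computablePred Primrec.nat_lt)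
    (hf.pair hg)
theorem p_le {f g : α → ℕ} (hf : Computable f) (hg : Computable g) :
    ComputablePred fun a => f a ≤ g a := (p_lt hg hf).not.of_eq fun _ => not_lt

@[fun_prop] theorem c_ite {p : α → Prop} {d : ∀ a, Decidable (p a)} {f g : α → β}
    (hp : ComputablePred p) (hf : Computable f) (hg : Computable g) :
    Computable fun a => @ite _ (p a) (d a) (f a) (g a) :=
  (hp.decide.cond hf hg).of_eq fun a => by by_cases h : p a <;> simp [h]

/-- Bounded universal quantifier (use `Ball` / `Bex` inside formulas given to `fun_prop`). -/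
def Ball (n : ℕ) (P : ℕ → Prop) : Prop := ∀ j < n, P j

/-- Bounded existential quantifier. -/
def Bex (n : ℕ) (P : ℕ → Prop) : Prop := ∃ j < n, P j

@[fun_prop] theorem p_ball {n : α → ℕ} {P : α → ℕ → Prop} (hn : Computable n)
    (hP : ComputablePred fun z : α × ℕ => P z.1 z.2) :
    ComputablePred fun a => Ball (n a) (P a) := by
  have h := Computable.nat_rec (f := n) (g := fun _ => true)
    (h := fun a (q : ℕ × Bool) => q.2 && decide (P a q.1)) hn (Computable.const true)
    (Primrec.and.to_comp.comp (Computable.snd.comp Computable.snd)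
      (hP.decide.comp (Computable.fst.pair (Computable.fst.comp Computable.snd)))).to₂
  refine Computable.computablePred (h.of_eq fun a => ?_)
  generalize n a = m
  induction m with
  | zero => simp [Ball]
  | succ m ih =>
    simp only [ih]
    rw [Bool.eq_iff_iff]
    simp only [Bool.and_eq_true, decide_eq_true_eq, Ball]
    constructor
    · rintro ⟨h1, h2⟩ j hj
      rcases Nat.lt_succ_iff_lt_or_eq.1 hj with h | h
      · exact h1 j h
      · exact h ▸ h2
    · exact fun h => ⟨fun j hj => h j (by omega), h m (by omega)⟩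

@[fun_prop] theorem p_bex {n : α → ℕ} {P : α → ℕ → Prop} (hn : Computable n)
    (hP : ComputablePred fun z : α × ℕ => P z.1 z.2) :
    ComputablePred fun a => Bex (n a) (P a) :=
  (p_ball (P := fun a j => ¬ P a j) hn hP.not).not.of_eq fun a => by simp [Ball, Bex]

@[fun_prop] theorem p_mem {f : α → β} {l : α → List β} [Inhabited β] (hf : Computable f)
    (hl : Computable l) : ComputablePred fun a => f a ∈ l a := by
  have : ComputablePred fun a => Bex (l a).length fun j => (l a).getD j default = f a := by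
    fun_prop
  refine this.of_eq fun a => ?_
  simp only [Bex, List.mem_iff_getElem]
  constructor
  · rintro ⟨j, hj, h⟩
    exact ⟨j, hj, by rwa [List.getD_eq_getElem _ _ hj] at h⟩
  · rintro ⟨j, hj, h⟩
    exact ⟨j, hj, by rwa [List.getD_eq_getElem _ _ hj]⟩

/-- Recursion on naturals. -/
theorem c_rec {n : α → ℕ} {b : α → γ} {h : α → ℕ → γ → γ} (hn : Computable n)
    (hb : Computable b) (hh : Computable fun z : α × ℕ × γ => h z.1 z.2.1 z.2.2) :
    Computable fun a => Nat.rec (motive := fun _ => γ) (b a) (h a) (n a) :=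
  Computable.nat_rec (h := fun a (q : ℕ × γ) => h a q.1 q.2) hn hb hh.to₂

/-- Normal form of c.e. predicates. -/
theorem re_iff : REPred p ↔ ∃ R : α × ℕ → Prop, ComputablePred R ∧ ∀ a, p a ↔ ∃ n, R (a, n) := by
  constructor
  · intro h
    obtain ⟨c, hc⟩ := Nat.Partrec.Code.exists_code.1 h
    refine ⟨fun z => (Nat.Partrec.Code.evaln z.2 c (Encodable.encode z.1)).isSome = true, ?_, ?_⟩
    · refine p_eq (Primrec.option_isSome.to_comp.comp
        (Nat.Partrec.Code.primrec_evaln.to_comp.comp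
          ((Computable.snd.pair (Computable.const c)).pair (Computable.encode.comp
            Computable.fst)))) (Computable.const _)
    · intro a
      have h1 : p a ↔ (c.eval (Encodable.encode a)).Dom := by
        rw [hc]; simp [Part.assert]
      rw [h1, Part.dom_iff_mem]
      constructor
      · rintro ⟨x, hx⟩
        obtain ⟨k, hk⟩ := Nat.Partrec.Code.evaln_complete.1 hx
        exact ⟨k, by simpa using Option.isSome_iff_exists.2 ⟨x, hk⟩⟩
      · rintro ⟨k, hk⟩
        obtain ⟨x, hx⟩ := Option.isSome_iff_exists.1 hk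
        exact ⟨x, Nat.Partrec.Code.evaln_complete.2 ⟨k, hx⟩⟩
  · rintro ⟨R, hR, h⟩
    have h' : Partrec (fun x ↦ Nat.rfind fun n => Part.some (decide (R (x, n)))) :=
      Partrec.rfind hR.decide.partrec
    refine h'.dom_re.of_eq fun a => ?_
    simp [Nat.rfind_dom, h]

@[fun_prop] theorem r_const (P : Prop) : REPred fun _ : α => P := (p_const P).to_re
@[fun_prop] theorem r_comp {p : β → Prop} {g : α → β} (hp : REPred p)
    (hg : Computable g) : REPred fun a => p (g a) := Partrec.comp hp hg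
@[fun_prop] theorem r_and (hp : REPred p) (hq : REPred q) : REPred fun a => p a ∧ q a := by
  obtain ⟨R, hR, h⟩ := re_iff.1 hp
  obtain ⟨R', hR', h'⟩ := re_iff.1 hq
  refine re_iff.2 ⟨fun z => R (z.1, z.2.unpair.1) ∧ R' (z.1, z.2.unpair.2), by fun_prop, ?_⟩
  intro a
  rw [h, h']
  exact ⟨fun ⟨⟨n, h1⟩, m, h2⟩ => ⟨n.pair m, by simpa using ⟨h1, h2⟩⟩,
    fun ⟨n, h1, h2⟩ => ⟨⟨_, h1⟩, _, h2⟩⟩
@[fun_prop] theorem r_or (hp : REPred p) (hq : REPred q) : REPred fun a => p a ∨ q a := by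
  obtain ⟨R, hR, h⟩ := re_iff.1 hp
  obtain ⟨R', hR', h'⟩ := re_iff.1 hq
  refine re_iff.2 ⟨fun z => R z ∨ R' z, by fun_prop, fun a => ?_⟩
  rw [h, h', exists_or]
@[fun_prop] theorem r_imp (hp : ComputablePred p) (hq : REPred q) : REPred fun a => p a → q a :=
  (r_or hp.not.to_re hq).of_eq fun a => by tauto
@[fun_prop] theorem r_not (hp : ComputablePred p) : REPred fun a => ¬ p a := hp.not.to_re
@[fun_prop] theorem r_iff (hp : ComputablePred p) (hq : ComputablePred q) :
    REPred fun a => p a ↔ q a := (p_iff hp hq).to_re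
@[fun_prop] theorem r_eq {f g : α → β} (hf : Computable f) (hg : Computable g) :
    REPred fun a => f a = g a := (p_eq hf hg).to_re
@[fun_prop] theorem r_ne {f g : α → β} (hf : Computable f) (hg : Computable g) :
    REPred fun a => f a ≠ g a := (p_ne hf hg).to_re
@[fun_prop] theorem r_lt {f g : α → ℕ} (hf : Computable f) (hg : Computable g) :
    REPred fun a => f a < g a := (p_lt hf hg).to_re
@[fun_prop] theorem r_mem {f : α → β} {l : α → List β} [Inhabited β] (hf : Computable f)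
    (hl : Computable l) : REPred fun a => f a ∈ l a := (p_mem hf hl).to_re

@[fun_prop] theorem r_ex {P : α → β → Prop} (h : REPred fun z : α × β => P z.1 z.2) :
    REPred fun a => ∃ x, P a x := by
  obtain ⟨R, hR, h⟩ := re_iff.1 h
  by_cases hb : Nonempty β
  · obtain ⟨b⟩ := hb
    have hd : Computable fun n : ℕ => (Encodable.decode (α := β) n).getD b :=
      Computable.option_getD Computable.decode (Computable.const b)
    refine re_iff.2 ⟨fun z => R ((z.1, (Encodable.decode (α := β) z.2.unpair.1).getD b),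
      z.2.unpair.2), p_comp hR (((Computable.fst).pair (hd.comp (by fun_prop))).pair
        (by fun_prop)), fun a => ?_⟩
    constructor
    · rintro ⟨x, hx⟩
      obtain ⟨n, hn⟩ := (h (a, x)).1 hx
      exact ⟨(Encodable.encode x).pair n, by simpa using hn⟩
    · rintro ⟨n, hn⟩
      exact ⟨_, (h (a, _)).2 ⟨_, hn⟩⟩
  · exact (r_const False).of_eq fun a => ⟨False.elim, fun ⟨x, _⟩ => hb ⟨x⟩⟩

@[fun_prop] theorem r_ball {n : α → ℕ} {P : α → ℕ → Prop} (hn : Computable n)
    (hP : REPred fun z : α × ℕ => P z.1 z.2) : REPred fun a => Ball (n a) (P a) := by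
  obtain ⟨R, hR, h⟩ := re_iff.1 hP
  refine re_iff.2 ⟨fun z => Ball (n z.1) fun j => Bex z.2 fun k => R ((z.1, j), k),
    by fun_prop, fun a => ?_⟩
  constructor
  · intro ha
    have : ∀ j, ∃ k, j < n a → R ((a, j), k) := fun j => by
      by_cases hj : j < n a
      · obtain ⟨k, hk⟩ := (h (a, j)).1 (ha j hj)
        exact ⟨k, fun _ => hk⟩
      · exact ⟨0, fun h => absurd h hj⟩
    choose k hk using this
    refine ⟨(Finset.range (n a)).sup k + 1, fun j hj => ⟨k j, Nat.lt_succ_of_le ?_, hk j hj⟩⟩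
    exact Finset.le_sup (f := k) (Finset.mem_range.2 hj)
  · rintro ⟨m, hm⟩ j hj
    obtain ⟨k, _, hk⟩ := hm j hj
    exact (h (a, j)).2 ⟨k, hk⟩

@[fun_prop] theorem r_bex {n : α → ℕ} {P : α → ℕ → Prop} (hn : Computable n)
    (hP : REPred fun z : α × ℕ => P z.1 z.2) : REPred fun a => Bex (n a) (P a) := by
  unfold Bex
  exact r_ex (P := fun a j => j < n a ∧ P a j) (r_and (by fun_prop) hP)

/-- All members of a list. -/
def Lall {δ : Type} (l : List δ) (P : δ → Prop) : Prop := ∀ y ∈ l, P y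

theorem lall_iff {δ : Type} [Inhabited δ] (l : List δ) (P : δ → Prop) :
    (Ball l.length fun j => P (l.getD j default)) ↔ Lall l P := by
  constructor
  · intro h y hy
    obtain ⟨j, hj, rfl⟩ := List.mem_iff_getElem.1 hy
    have : P (l.getD j default) := h j hj
    rwa [List.getD_eq_getElem _ _ hj] at this
  · intro h j hj
    show P (l.getD j default)
    rw [List.getD_eq_getElem _ _ hj]
    exact h _ (List.getElem_mem hj)

@[fun_prop] theorem p_lall [Inhabited β] {l : α → List β} {P : α → β → Prop} (hl : Computable l)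
    (hP : ComputablePred fun z : α × β => P z.1 z.2) :
    ComputablePred fun a => Lall (l a) (P a) :=
  (p_ball (P := fun a j => P a ((l a).getD j default)) (c_length hl)
    (p_comp (g := fun z : α × ℕ => (z.1, (l z.1).getD z.2 default)) hP (by fun_prop))).of_eq
    fun a => lall_iff _ _

@[fun_prop] theorem r_lall [Inhabited β] {l : α → List β} {P : α → β → Prop} (hl : Computable l)
    (hP : REPred fun z : α × β => P z.1 z.2) : REPred fun a => Lall (l a) (P a) :=
  (r_ball (P := fun a j => P a ((l a).getD j default)) (c_length hl)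
    (r_comp (g := fun z : α × ℕ => (z.1, (l z.1).getD z.2 default)) hP (by fun_prop))).of_eq
    fun a => lall_iff _ _

/-- Uniformisation: a total c.e. relation contains the graph of a computable function. -/
theorem uniformize {R : α × β → Prop} (hR : REPred R) (ht : ∀ a, ∃ b, R (a, b)) :
    ∃ f : α → β, Computable f ∧ ∀ a, R (a, f a) := by
  obtain ⟨T, hT, h⟩ := re_iff.1 hR
  by_cases hb : Nonempty β
  · obtain ⟨b⟩ := hb
    have hd : Computable fun n : ℕ => (Encodable.decode (α := β) n).getD b :=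
      Computable.option_getD Computable.decode (Computable.const b)
    have hex : ∀ a, ∃ n : ℕ, T ((a, (Encodable.decode (α := β) n.unpair.1).getD b),
        n.unpair.2) := fun a => by
      obtain ⟨x, hx⟩ := ht a
      obtain ⟨n, hn⟩ := (h _).1 hx
      exact ⟨(Encodable.encode x).pair n, by simpa using hn⟩
    have hc := Computable.find (P := fun a (n : ℕ) => T ((a, (Encodable.decode (α := β)
      n.unpair.1).getD b), n.unpair.2)) (p_comp hT (((Computable.fst).pair
        (hd.comp (by fun_prop))).pair (by fun_prop))) hex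
    exact ⟨fun a => (Encodable.decode (α := β) (Nat.find (hex a)).unpair.1).getD b,
      hd.comp (by fun_prop), fun a => (h _).2 ⟨_, Nat.find_spec (hex a)⟩⟩
  · have : IsEmpty α := ⟨fun a => hb ⟨(ht a).choose⟩⟩
    exact ⟨fun a => isEmptyElim a, (Primrec.dom_finite _).to_comp, fun a => isEmptyElim a⟩

/-- Order on `ℕ`, and on a finite coded type. -/
class CLe (δ : Type) [Primcodable δ] [LE δ] : Prop where
  c : ComputablePred fun z : δ × δ => z.1 ≤ z.2

instance : CLe ℕ := ⟨p_le Computable.fst Computable.snd⟩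

instance {δ : Type} [Primcodable δ] [LE δ] [Finite δ] : CLe δ :=
  ⟨Computable.computablePred (Primrec.dom_finite _).to_comp⟩

@[fun_prop] theorem p_cle {δ : Type} [Primcodable δ] [LE δ] [CLe δ] {f g : α → δ}
    (hf : Computable f) (hg : Computable g) : ComputablePred fun a => f a ≤ g a :=
  p_comp CLe.c (hf.pair hg)

@[fun_prop] theorem r_cle {δ : Type} [Primcodable δ] [LE δ] [CLe δ] {f g : α → δ}
    (hf : Computable f) (hg : Computable g) : REPred fun a => f a ≤ g a := (p_cle hf hg).to_re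

end

end MP750S

end

section

/-! Forcing with computable systems of labelled gadgets: definitions. -/

set_option autoImplicit false

namespace MP750S

/-- All members of the list `D` are in `A`. -/
def Sub (D : List ℕ) (A : Set ℕ) : Prop := ∀ y ∈ D, y ∈ A

/-- The set of members of a list. -/
def lset (D : List ℕ) : Set ℕ := {y | y ∈ D}

/-- An enumeration operator applied to a set. -/
def app (P : ℕ × List ℕ → Prop) (A : Set ℕ) : Set ℕ := {x | ∃ D, Sub D A ∧ P (x, D)}

/-- Enumeration reducibility. -/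
def Red (A B : Set ℕ) : Prop := ∃ P, REPred P ∧ A = app P B

/-- A list read as a function with default value `0`. -/
def tb (k : List ℕ) (p : ℕ) : ℕ := k.getD p 0

/-- The table of gadget `g` in a family. -/
def row (A : List (List ℕ)) (g : ℕ) : List ℕ := A.getD g []

/-- The parameters of a family at the point `p`. -/
def cut (A : List (List ℕ)) (p g : ℕ) : ℕ := tb (row A g) p

/-- Code of a triple. -/
def cd (g s t : ℕ) : ℕ := Nat.pair g (Nat.pair s t)

/-- The universal labelled structure. -/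
structure Uni (M : Type) [Lattice M] [BoundedOrder M] [Primcodable M] where
  lab : ℕ → ℕ → M
  inU : ℕ → ℕ → Prop
  top : ℕ → ℕ
  bd : ℕ → ℕ
  bot_ne : (⊥ : M) ≠ ⊤
  prime : ∀ x y : M, x ⊓ y = ⊥ → x = ⊥ ∨ y = ⊥
  refl : ∀ u, lab u u = ⊤
  trans : ∀ u v w, lab u v ⊓ lab v w ≤ lab u w
  anti : ∀ u v, lab u v ≠ ⊥ → lab v u ≠ ⊥ → u = v
  zero_le : ∀ u, lab 0 u = ⊤
  in_zero : ∀ b, inU b 0
  in_mono : ∀ b b' u, b ≤ b' → inU b u → inU b' u
  in_lt : ∀ b u, inU b u → u < bd b
  in_top : ∀ b, inU b (top b)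
  le_top : ∀ b u, inU b u → lab u (top b) = ⊤
  top_ne : top 0 ≠ 0
  c_lab : Computable fun z : ℕ × ℕ => lab z.1 z.2
  c_inU : ComputablePred fun z : ℕ × ℕ => inU z.1 z.2
  c_top : Computable top
  c_bd : Computable bd
  univ : ∀ (Q : Type) [Fintype Q] (l : Q → Q → M) (q0 : Q), (∀ q, l q q = ⊤) →
    (∀ p q r, l p q ⊓ l q r ≤ l p r) → (∀ p q, l p q ≠ ⊥ → l q p ≠ ⊥ → p = q) →
    ∃ b0, ∀ b, b0 ≤ b → ∃ i : Q → ℕ, (∀ q, inU (b + 2) (i q)) ∧
      (∀ p q, lab (i p) (i q) = l p q) ∧ ∀ v q, inU b v → v ≠ 0 → lab v (i q) = l q0 q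

variable {M : Type} [Lattice M] [BoundedOrder M] [Primcodable M]

namespace Uni
variable (U : Uni M)

/-- The facts of the world `w` visible at level `a`. -/
def B (a : M) (w : ℕ → ℕ) : Set ℕ := {n | a ≤ U.lab n.unpair.2 (w n.unpair.1)}

/-- Pointwise order of worlds. -/
def Le (w w' : ℕ → ℕ) : Prop := ∀ g, U.lab (w g) (w' g) = ⊤

/-- `f` maps `U_b` to `U_b'` and does not decrease labels. -/
def Hom (b b' : ℕ) (f : ℕ → ℕ) : Prop :=
  (∀ p, U.inU b p → U.inU b' (f p)) ∧
    ∀ p q, U.inU b p → U.inU b q → U.lab p q ≤ U.lab (f p) (f q)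

/-- `f` maps `U_b` to `U_b'` and preserves labels. -/
def Emb (b b' : ℕ) (f : ℕ → ℕ) : Prop :=
  (∀ p, U.inU b p → U.inU b' (f p)) ∧
    ∀ p q, U.inU b p → U.inU b q → U.lab (f p) (f q) = U.lab p q

/-- `f` and `f'` agree on `U_b`. -/
def Agr (b : ℕ) (f f' : ℕ → ℕ) : Prop := ∀ p, U.inU b p → f p = f' p

/-- The state `u` fires a marker of level `a`. -/
def Fired (a : M) (u : ℕ) : Prop := a ≤ U.lab (U.top 0) u

end Uni

/-- A protected group. -/
def Prot (N c : ℕ) : Prop := c ≠ 0 ∧ (c - 1).unpair.1 < N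

/-- The raw data of a system. -/
structure Dat (M : Type) where
  fr : ℕ → ℕ
  idx : ℕ → ℕ
  lev : ℕ → M
  bud : ℕ → ℕ
  par : ℕ → ℕ
  hom : ℕ → ℕ → ℕ
  sup : ℕ × List ℕ → Prop
  grp : ℕ → ℕ
  N : ℕ

namespace Dat
variable (S : Dat M)

def Free (g : ℕ) : Prop := S.fr (S.idx g) = g

def Mark (g : ℕ) : Prop := S.lev g ≠ ⊥

def Live (g : ℕ) : Prop := S.Free g ∨ S.Mark g

/-- The world with parameters `x`. -/
def mkW (x : ℕ → ℕ) (g : ℕ) : ℕ := S.hom g (x (S.par g))

end Dat

/-- A system (forcing condition). -/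
structure Sys (U : Uni M) extends Dat M where
  c_fr : Computable fr
  c_idx : Computable idx
  c_lev : Computable lev
  c_bud : Computable bud
  c_par : Computable par
  c_hom : Computable fun z : ℕ × ℕ => hom z.1 z.2
  c_grp : Computable grp
  re_sup : REPred sup
  idx_fr : ∀ i, idx (fr i) = i
  disj : ∀ g, toDat.Free g → lev g = ⊥
  bud_fr : ∀ i, i ≤ bud (fr i)
  bud_big : ∀ k, ∃ n, ∀ g, n ≤ g → toDat.Live g → k ≤ bud g
  par_live : ∀ g, toDat.Live (par g)
  par_self : ∀ g, toDat.Live g → par g = g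
  hom_self : ∀ g u, toDat.Live g → U.inU (bud g) u → hom g u = u
  hom_lab : ∀ g p q, U.inU (bud (par g)) p → U.inU (bud (par g)) q →
    U.lab p q ≤ U.lab (hom g p) (hom g q)
  grp_free : ∀ g, toDat.Free g → grp g = 0
  grp_lt : ∀ g, grp g ≠ 0 → Prot N (grp g)
  grp_inf : ∀ c n, Prot N c → ∃ m, n ≤ m ∧ toDat.Mark m ∧ grp m = c
  grp_sup : ∀ m m' F, toDat.Mark m → toDat.Mark m' → grp m ≠ 0 → grp m = grp m' →
    sup (m, F) → sup (m', F)

namespace Sys
variable {U : Uni M} (S : Sys U)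

/-- Admissible parameters. -/
def Valid (x : ℕ → ℕ) : Prop := ∀ g, S.Live g → U.inU (S.bud g) (x g)

def World (w : ℕ → ℕ) : Prop := S.Valid w ∧ ∀ g, w g = S.hom g (w (S.par g))

/-- Fired markers outside `Z` are supported. -/
def Leg (Z : Set ℕ) (w : ℕ → ℕ) : Prop :=
  ∀ m, S.Mark m → m ∉ Z → U.Fired (S.lev m) (w m) → m ∈ app S.sup (U.B ⊤ w)

/-- Finite legal worlds. -/
def FL (Z : Set ℕ) (w : ℕ → ℕ) : Prop :=
  S.World w ∧ (∃ n, ∀ g, n ≤ g → S.Live g → w g = 0) ∧ S.Leg Z w

/-- Limits of finite legal worlds. -/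
def Lim (Z : Set ℕ) (w : ℕ → ℕ) : Prop :=
  S.World w ∧ ∀ n, ∃ w', S.FL Z w' ∧ U.Le w' w ∧ ∀ g < n, w' g = w g

/-- A parameter list that lives beyond `n` and has slack `n` on markers. -/
def PV (n : ℕ) (W : List ℕ) : Prop :=
  (∀ g, tb W g ≠ 0 → n ≤ g ∧ S.Live g) ∧ (∀ g, S.Free g → U.inU (S.bud g) (tb W g)) ∧
    ∀ g, S.Mark g → U.inU (S.bud g - n) (tb W g)

/-- A legal family over `U_b` that lives beyond `n`. -/
def Fam (b n : ℕ) (A : List (List ℕ)) : Prop :=
  (∀ g, row A g ≠ [] → n ≤ g ∧ S.Live g ∧ U.Hom b (S.bud g) (tb (row A g))) ∧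
    ∀ p, U.inU b p → S.Leg ∅ (S.mkW (cut A p))

/-- Soundness of the decoding operator `Q` on pairs of label `d`. -/
def DecN (P Q : ℕ × List ℕ → Prop) (d : M) : Prop :=
  ∀ w g s, S.FL ∅ w → S.Free g → U.inU (S.bud g) s → U.lab s (w g) = d →
    cd g s (w g) ∉ app Q (app P (U.B ⊤ w))

/-- Completeness of the decoding operator `Q` on pairs of label `d`. -/
def DecP (P Q : ℕ × List ℕ → Prop) (d : M) : Prop :=
  ∀ w g s t, S.World w → S.Free g → U.inU (S.bud g) s → U.inU (S.bud g) t → U.lab s t = d →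
    U.lab s (w g) = ⊤ → cd g s t ∈ app Q (app P (U.B ⊤ w))

/-- Pairs of label `d` are decoded from `app P (B ⊤ w)`. -/
def Dec (P : ℕ × List ℕ → Prop) (d : M) : Prop :=
  ∃ Q, REPred Q ∧ S.DecN P Q d ∧ S.DecP P Q d

/-- The goal `G` is richly attainable at the point `s` of `U_b`. -/
def Hyp (b s : ℕ) (G : ℕ × List ℕ × List ℕ → Prop) : Prop :=
  ∀ b1 e n, U.Emb b b1 (tb e) → ∃ g k1 k W F, S.Free g ∧ n ≤ g ∧ U.Hom b1 (S.bud g) (tb k1) ∧
    U.Agr b (tb k) (fun p => tb k1 (tb e p)) ∧ S.PV n W ∧ S.Leg ∅ (S.mkW (tb W)) ∧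
    tb W g = tb k s ∧ Sub F (U.B ⊤ (S.mkW (tb W))) ∧ G (g, k, F)

/-- The goal `G` is attained by a legal family beyond `n`. -/
def Con (b s : ℕ) (G : ℕ × List ℕ × List ℕ → Prop) (n : ℕ) : Prop :=
  ∃ g k A F, S.Free g ∧ S.Fam b n A ∧ row A g ≠ [] ∧ U.Agr b (tb (row A g)) (tb k) ∧
    Sub F (U.B ⊤ (S.mkW (cut A s))) ∧ G (g, k, F)

/-- Every supported group has a fired marker. -/
def Closed (w : ℕ → ℕ) : Prop :=
  ∀ m, S.Mark m → S.grp m ≠ 0 → m ∈ app S.sup (U.B ⊤ w) →
    ∃ m', S.Mark m' ∧ S.grp m' = S.grp m ∧ U.lab (U.top 0) (w m') = ⊤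

/-- The gadgets turned into markers by an activation. -/
def InZ (g : ℕ) : Prop := S.Free g ∧ S.idx g % 2 = 1

/-- The number attached to a new marker. -/
def xof (g : ℕ) : ℕ := (S.idx g / 2).unpair.1

end Sys

variable {U : Uni M}

/-- Extension of systems. -/
structure Ext (T S : Sys U) : Prop where
  free : ∀ g, T.Free g → S.Free g
  mark : ∀ g, T.Mark g → (S.Mark g ∧ T.lev g = S.lev g ∧ ∀ F, T.sup (g, F) ↔ S.sup (g, F)) ∨
    (S.Free g ∧ T.sup (g, []))
  bud : ∀ g, T.Live g → T.bud g ≤ S.bud g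
  world : ∀ w, T.World w → S.World w
  lim : ∀ Z w, T.FL Z w → S.Lim Z w
  grp : T.grp = S.grp
  N : T.N = S.N

/-- Weak extension (extension or activation). -/
structure WExt (T S : Sys U) : Prop where
  world : ∀ w, T.World w → S.World w
  lim : ∀ w, T.FL ∅ w → S.Lim ∅ w
  N : S.N ≤ T.N
  mark : ∀ m, T.Mark m → Prot S.N (T.grp m) →
    S.Mark m ∧ S.grp m = T.grp m ∧ ∀ F, T.sup (m, F) ↔ S.sup (m, F)

/-- The saturation invariant. -/
def Sat (S : Sys U) : Prop :=
  ∀ T, Ext T S → ∀ b s G, REPred G → U.inU b s → T.Hyp b s G → T.Con b s G 0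

/-- Data of a refinement of `S`. -/
structure RefD (S : Sys U) where
  fr : ℕ → ℕ
  idx : ℕ → ℕ
  lev : ℕ → M
  bud : ℕ → ℕ
  par : ℕ → ℕ
  hom : ℕ → ℕ → ℕ
  c_fr : Computable fr
  c_idx : Computable idx
  c_lev : Computable lev
  c_bud : Computable bud
  c_par : Computable par
  c_hom : Computable fun z : ℕ × ℕ => hom z.1 z.2
  idx_fr : ∀ i, idx (fr i) = i
  free : ∀ i, S.Free (fr i)
  mark : ∀ g, lev g ≠ ⊥ → lev g = S.lev g
  bud_le : ∀ g, (fr (idx g) = g ∨ lev g ≠ ⊥) → bud g ≤ S.bud g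
  bud_fr : ∀ i, i ≤ bud (fr i)
  bud_big : ∀ k, ∃ n, ∀ g, n ≤ g → lev g ≠ ⊥ → k ≤ bud g
  par_live : ∀ g, S.Live g → (fr (idx (par g)) = par g ∨ lev (par g) ≠ ⊥)
  hom_hom : ∀ g, S.Live g → U.Hom (bud (par g)) (S.bud g) (hom g)
  keep : ∀ g, (fr (idx g) = g ∨ lev g ≠ ⊥) → par g = g ∧ ∀ u, U.inU (bud g) u → hom g u = u
  grp_inf : ∀ c n, Prot S.N c → ∃ m, n ≤ m ∧ lev m ≠ ⊥ ∧ S.grp m = c
  legal : ∀ x : ℕ → ℕ, (∀ g, (fr (idx g) = g ∨ lev g ≠ ⊥) → U.inU (bud g) (x g)) →
    ∀ m, S.Mark m → lev m = ⊥ → U.Fired (S.lev m) (hom m (x (par m))) →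
    ∃ (n : ℕ) (y : ℕ → ℕ), (∀ g, y g = 0 ∨ (S.Live g ∧ y g = hom g (x (par g)))) ∧
      y m = hom m (x (par m)) ∧ (∀ g, n ≤ g → y g = 0) ∧ S.Leg ∅ (S.mkW y)

/-- What the refined system satisfies. -/
structure RefSpec (S : Sys U) (R : RefD S) (T : Sys U) : Prop where
  ext : Ext T S
  fr : T.fr = R.fr
  idx : T.idx = R.idx
  lev : T.lev = R.lev
  bud : T.bud = R.bud
  sup : T.sup = S.sup
  world : ∀ w, T.World w ↔ S.World w ∧ T.Valid w ∧ ∀ g, S.Live g → w g = R.hom g (w (R.par g))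

/-- Committing the finite world `W` on the gadgets below `n`. -/
structure ComSpec (S : Sys U) (W : List ℕ) (n : ℕ) (T : Sys U) : Prop where
  ext : Ext T S
  sup : T.sup = S.sup
  mark : ∀ g, T.Mark g ↔ S.Mark g ∧ n ≤ g
  lev : ∀ g, T.Mark g → T.lev g = S.lev g ∧ T.bud g = S.bud g - n
  free : ∀ g, T.Free g → n ≤ g ∧ T.bud g = S.bud g
  big : ∃ n', ∀ g, n' ≤ g → S.Free g → T.Free g
  world : ∀ w, T.World w ↔
    S.World w ∧ T.Valid w ∧ ∀ g, S.Live g → ¬ T.Live g → w g = tb W g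

/-- The result of a fusion with answers `(A, K, x)`. -/
structure FusSpec (S : Sys U) {β : Type} [Primcodable β]
    (Q : (ℕ × ℕ) × List (List ℕ) × List ℕ × β → Prop) (T : Sys U)
    (r : ℕ × ℕ → List (List ℕ) × List ℕ × β) : Prop where
  ext : Ext T S
  comp : Computable r
  sup : T.sup = S.sup
  ans : ∀ z, Q (z, r z)
  fam : ∀ z, ∃ n, z.1 ≤ n ∧ S.Fam z.1 n (r z).1 ∧ S.PV n (r z).2.1
  main : ∀ i, T.bud (T.fr i) = i ∧ S.idx (T.fr i) % 2 = 0
  kept : ∀ z g, tb (r z).2.1 g ≠ 0 → T.Mark g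
  mark : ∀ m, T.Mark m → S.Mark m ∧ T.lev m = S.lev m ∧ T.bud m = S.bud m ∧
    (S.grp m ≠ 0 ∨ ∃ z, tb (r z).2.1 m ≠ 0)
  dep : ∀ w z g, T.World w → row (r z).1 g ≠ [] → w g = cut (r z).1 (w (T.fr z.1)) g
  rest : ∀ w g, T.World w → S.Live g → w g ≠ 0 → T.Live g ∨ ∃ z, row (r z).1 g ≠ []

/-- Activation of the operator `P` at level `a`. -/
structure ActSpec (S : Sys U) (P : ℕ × List ℕ → Prop) (a : M) (T : Sys U) : Prop where
  a_ne : a ≠ ⊥
  free : ∀ g, T.Free g ↔ S.Free g ∧ S.idx g % 2 = 0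
  bud : T.bud = S.bud
  par : T.par = S.par
  hom : T.hom = S.hom
  N : T.N = S.N + 1
  inZ : ∀ g, S.InZ g → T.lev g = a ∧ T.grp g = Nat.pair S.N (S.xof g) + 1 ∧
    ∀ F, T.sup (g, F) ↔ P (S.xof g, F)
  off : ∀ g, ¬ S.InZ g → T.lev g = S.lev g ∧ T.grp g = S.grp g ∧
    ∀ F, T.sup (g, F) ↔ S.sup (g, F)

/-- Release of the markers of the last activation. -/
structure RelSpec (S S' T : Sys U) : Prop where
  ext : Ext T S
  fr : T.fr = S'.fr
  idx : T.idx = S'.idx
  lev : T.lev = S'.lev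
  bud : T.bud = S'.bud
  par : T.par = S'.par
  hom : T.hom = S'.hom
  sup : ∀ g F, T.sup (g, F) ↔ S'.sup (g, F) ∨ S.InZ g

/-- Annotation `(e, E, F, g, k, K)` of a unit. -/
abbrev AnT : Type := List ℕ × List ℕ × List ℕ × ℕ × List ℕ × List ℕ

def aE (x : AnT) : List ℕ := x.2.1
def aF (x : AnT) : List ℕ := x.2.2.1
def ag (x : AnT) : ℕ := x.2.2.2.1
def ak (x : AnT) : List ℕ := x.2.2.2.2.1
def aK (x : AnT) : List ℕ := x.2.2.2.2.2

/-- Annotated systems; unit `j` is annotated when `(an j).1 ≠ []`. -/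
structure Ann (S S' : Sys U) (P : ℕ × List ℕ → Prop) (a : M) (b s : ℕ)
    (G : ℕ × List ℕ × List ℕ → Prop) (T : Sys U) (an : ℕ → AnT) : Prop where
  ext : Ext T S
  wld : ∀ w, T.World w → S'.World w
  comp : Computable an
  odd : ∀ j, (an j).1 ≠ [] → j % 2 = 1
  hom : ∀ j, (an j).1 ≠ [] → U.Hom b (T.bud (T.fr j)) (tb (an j).1)
  rich : ∀ b1 e n, U.Emb b b1 (tb e) → ∃ j k1, (an j).1 ≠ [] ∧ n ≤ T.fr j ∧
    U.Hom b1 (T.bud (T.fr j)) (tb k1) ∧ U.Agr b (tb (an j).1) (fun p => tb k1 (tb e p)) ∧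
    T.PV n (aK (an j))
  kmark : ∀ j m, (an j).1 ≠ [] → tb (aK (an j)) m ≠ 0 → T.Mark m ∧
    U.inU (T.bud m) (tb (aK (an j)) m) ∧ m ∈ app T.sup (lset (aF (an j)))
  kfar : ∀ n, ∃ n', ∀ j m, (an j).1 ≠ [] → n' ≤ T.fr j → tb (aK (an j)) m ≠ 0 → n ≤ m
  src : ∀ j w, (an j).1 ≠ [] → T.World w → U.lab (tb (an j).1 s) (w (T.fr j)) = ⊤ →
    U.Le (tb (aK (an j))) w → Sub (aF (an j)) (U.B ⊤ w)
  esup : ∀ j, (an j).1 ≠ [] → Sub (aE (an j)) (app P (lset (aF (an j))))
  goal : ∀ j, (an j).1 ≠ [] → S'.Free (ag (an j)) ∧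
    ∃ F, Sub F (lset (aF (an j))) ∧ G (ag (an j), ak (an j), F)
  trk : ∀ j w p, (an j).1 ≠ [] → T.World w → U.inU b p → w (T.fr j) = tb (an j).1 p →
    w (ag (an j)) = tb (ak (an j)) p
  sl : ∀ w, T.FL ∅ w → (∀ j, (an j).1 ≠ [] →
    (∃ p, U.inU b p ∧ ¬ a ≤ U.lab s p ∧ U.lab (w (T.fr j)) (tb (an j).1 p) = ⊤) ∨
      Sub (aE (an j)) (app P (U.B ⊤ w))) → S'.Lim ∅ w
  dep : ∀ v, T.Live v → ∃ n, ∀ g p q, S'.Live g → T.par g = v → U.inU (T.bud v) p →
    U.inU (T.bud v) q → T.hom g p ≠ T.hom g q → g < n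

/-- The target `Tg (E, F, F')` holds above the point `p` of every annotated unit. -/
def Done (T : Sys U) (an : ℕ → AnT) (p : ℕ) (Tg : List ℕ × List ℕ × List ℕ → Prop) : Prop :=
  ∀ j w, (an j).1 ≠ [] → T.World w → U.lab (tb (an j).1 p) (w (T.fr j)) = ⊤ →
    ∃ F', Sub F' (U.B ⊤ w) ∧ Tg (aE (an j), aF (an j), F')

/-- The target is richly attainable at the point `p`. -/
def Att (T : Sys U) (an : ℕ → AnT) (b p : ℕ) (Tg : List ℕ × List ℕ × List ℕ → Prop) : Prop :=
  ∀ b1 e n, U.Emb b b1 (tb e) → ∃ j k1 W F', (an j).1 ≠ [] ∧ n ≤ T.fr j ∧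
    U.Hom b1 (T.bud (T.fr j)) (tb k1) ∧ U.Agr b (tb (an j).1) (fun q => tb k1 (tb e q)) ∧
    T.PV n W ∧ T.Leg ∅ (T.mkW (tb W)) ∧ tb W (T.fr j) = tb (an j).1 p ∧
    Sub F' (U.B ⊤ (T.mkW (tb W))) ∧ Tg (aE (an j), aF (an j), F')

/-- Target of the first absorption. -/
def TgF (z : List ℕ × List ℕ × List ℕ) : Prop := Sub z.2.1 (lset z.2.2)

/-- Target of the later absorptions. -/
def TgE (P : ℕ × List ℕ → Prop) (z : List ℕ × List ℕ × List ℕ) : Prop :=
  Sub z.1 (app P (lset z.2.2))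

/-- Case A of the series lemma. -/
def SerA (S : Sys U) (P Q : ℕ × List ℕ → Prop) (d d2 : M) : Prop :=
  ∀ b v t n, U.inU b v → U.inU b t → U.lab v t = d2 → ∃ g k s' t' W, S.Free g ∧ n ≤ g ∧
    U.Hom b (S.bud g) (tb k) ∧ U.inU (S.bud g) s' ∧ U.inU (S.bud g) t' ∧ U.lab s' t' = d ∧
    U.lab (tb k t) t' = ⊤ ∧ S.PV n W ∧ S.Leg ∅ (S.mkW (tb W)) ∧ tb W g = tb k v ∧
    cd g s' t' ∈ app Q (app P (U.B ⊤ (S.mkW (tb W))))

/-- Stage data of a fusion: stage `n` owns the interval `[D n, D (n+1))`, which holds the main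
gadget `u n`, the answer to the task `n.unpair` and the reserved markers `R n`. -/
structure Stage (S : Sys U) {β : Type} [Primcodable β]
    (Q : (ℕ × ℕ) × List (List ℕ) × List ℕ × β → Prop) (D u st : ℕ → ℕ)
    (r : ℕ × ℕ → List (List ℕ) × List ℕ × β) (R : ℕ → List ℕ) : Prop where
  c_u : Computable u
  c_st : Computable st
  c_r : Computable r
  c_R : Computable R
  st_iff : ∀ g n, st g = n ↔ D n ≤ g ∧ g < D (n + 1)
  le_D : ∀ n, n ≤ D n
  main : ∀ n, S.Free (u n) ∧ S.idx (u n) % 2 = 0 ∧ n ≤ S.bud (u n) ∧ st (u n) = n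
  ans : ∀ z, Q (z, r z)
  fam : ∀ z, S.Fam z.1 (u (Nat.pair z.1 z.2) + 1) (r z).1 ∧
    S.PV (u (Nat.pair z.1 z.2) + 1) (r z).2.1
  len : ∀ z, (r z).1.length ≤ D (Nat.pair z.1 z.2 + 1) ∧
    (r z).2.1.length ≤ D (Nat.pair z.1 z.2 + 1)
  km : ∀ z m, tb (r z).2.1 m ≠ 0 → S.Mark m ∧ row (r z).1 m = []
  res : ∀ n m, m ∈ R n → S.Mark m ∧ S.grp m ≠ 0 ∧ st m = n ∧ row (r n.unpair).1 m = []
  grp : ∀ n c, c < n → Prot S.N c → ∃ m ∈ R n, S.grp m = c

/-- The table attached to the unit `i`. -/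
def eof (i : ℕ) : List ℕ := Denumerable.ofNat (List ℕ) (i / 2).unpair.1

/-- The task `z` is an annotated unit. -/
def On (U : Uni M) (b : ℕ) (z : ℕ × ℕ) : Prop :=
  z.2 = 0 ∧ z.1 % 2 = 1 ∧ U.Emb b z.1 (tb (eof z.1))

/-- What an answer of the first fusion records. -/
def QI (S T0 : Sys U) (P : ℕ × List ℕ → Prop) (a : M) (b s : ℕ)
    (G : ℕ × List ℕ × List ℕ → Prop) (i : ℕ) (A : List (List ℕ)) (x : AnT) : Prop :=
  (∀ m, tb (aK x) m ≠ 0 → ¬ S.InZ m ∧ m ∈ app T0.sup (lset (aF x))) ∧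
  Sub (aF x) (U.B ⊤ (T0.mkW fun g => if row A g = [] then tb (aK x) g
    else cut A (tb x.1 s) g)) ∧
  Sub (aE x) (app P (lset (aF x))) ∧
  (T0.Free (ag x) ∧ ∃ F, Sub F (lset (aF x)) ∧ G (ag x, ak x, F)) ∧
  (row A (ag x) ≠ [] ∧ ∀ p, U.inU b p → cut A (tb x.1 p) (ag x) = tb (ak x) p) ∧
  ∀ z q, S.InZ z → T0.Mark z → U.inU i q → U.Fired a (cut A q z) →
    S.xof z ∈ aE x ∧ a ≤ U.lab (tb x.1 s) q

/-- What an answer of an absorption records. -/
def QA (T : Sys U) (an : ℕ → AnT) (b p : ℕ) (Tg : List ℕ × List ℕ × List ℕ → Prop)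
    (i : ℕ) (A : List (List ℕ)) (x : AnT) : Prop :=
  aK x = [] ∧ ∃ j, (an j).1 ≠ [] ∧ aE x = aE (an j) ∧ aF x = aF (an j) ∧ ag x = ag (an j) ∧
    ak x = ak (an j) ∧ row A (T.fr j) ≠ [] ∧
    (∀ q, U.inU b q → cut A (tb x.1 q) (T.fr j) = tb (an j).1 q) ∧
    (∃ F', Sub F' (U.B ⊤ (T.mkW (cut A (tb x.1 p)))) ∧ Tg (aE x, aF x, F')) ∧
    ∀ j', (an j').1 ≠ [] → j' ≠ j → row A (T.fr j') ≠ [] →
      (∀ q, U.inU i q → cut A q (T.fr j') = U.top (T.bud (T.fr j'))) ∧
      ∀ m, tb (aK (an j')) m ≠ 0 →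
        row A m ≠ [] ∧ ∀ q, U.inU i q → cut A q m = U.top (T.bud m)

/-- The supply handed to a fusion: records `R` on annotated units, nothing elsewhere. -/
def QF (U : Uni M) (b : ℕ) (R : ℕ → List (List ℕ) → AnT → Prop)
    (y : (ℕ × ℕ) × List (List ℕ) × List ℕ × AnT) : Prop :=
  aK y.2.2.2 = y.2.2.1 ∧ (On U b y.1 → y.2.2.2.1 = eof y.1.1 ∧ R y.1.1 y.2.1 y.2.2.2) ∧
    (¬ On U b y.1 → y.2.1 = [] ∧ y.2.2.1 = [] ∧ y.2.2.2.1 = [])

end MP750S

end

section

/-! Basic facts on worlds, limits and extensions. -/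

set_option autoImplicit false

namespace MP750S

theorem Sub.mono {D : List ℕ} {A B : Set ℕ} (h : Sub D A) (hAB : A ⊆ B) : Sub D B :=
  fun y hy => hAB (h y hy)

theorem sub_nil (A : Set ℕ) : Sub [] A := fun _ h => absurd h List.not_mem_nil

theorem sub_self (D : List ℕ) : Sub D (lset D) := fun _ h => h

theorem Sub.lset {D : List ℕ} {A : Set ℕ} (h : Sub D A) : lset D ⊆ A := h

theorem sub_append {D D' : List ℕ} {A : Set ℕ} : Sub (D ++ D') A ↔ Sub D A ∧ Sub D' A := by
  simp only [Sub, List.mem_append]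
  exact ⟨fun h => ⟨fun y hy => h y (Or.inl hy), fun y hy => h y (Or.inr hy)⟩,
    fun h y hy => hy.elim (h.1 y) (h.2 y)⟩

theorem app_mono {P : ℕ × List ℕ → Prop} {A B : Set ℕ} (h : A ⊆ B) : app P A ⊆ app P B :=
  fun _ ⟨D, h1, h2⟩ => ⟨D, h1.mono h, h2⟩

/-- Finitely many members of `app P A` have a common finite use. -/
theorem sub_app_use {P : ℕ × List ℕ → Prop} {A : Set ℕ} {E : List ℕ} (h : Sub E (app P A)) :
    ∃ F, Sub F A ∧ Sub E (app P (lset F)) := by
  induction E with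
  | nil => exact ⟨[], sub_nil _, sub_nil _⟩
  | cons x E ih =>
    obtain ⟨F, h1, h2⟩ := ih fun y hy => h y (List.mem_cons_of_mem _ hy)
    obtain ⟨D, h3, h4⟩ := h x List.mem_cons_self
    refine ⟨D ++ F, sub_append.2 ⟨h3, h1⟩, fun y hy => ?_⟩
    rcases List.mem_cons.1 hy with rfl | hy
    · exact ⟨D, fun z hz => List.mem_append_left _ hz, h4⟩
    · exact app_mono (fun z hz => List.mem_append_right _ hz) (h2 y hy)

@[simp] theorem tb_nil (p : ℕ) : tb [] p = 0 := by simp [tb]

@[simp] theorem row_nil (g : ℕ) : row [] g = [] := by simp [row]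

@[simp] theorem cut_nil (p g : ℕ) : cut [] p g = 0 := by simp [cut]

theorem tb_ge {k : List ℕ} {p : ℕ} (h : k.length ≤ p) : tb k p = 0 := by
  simp [tb, List.getElem?_eq_none h]

theorem lt_of_tb_ne {k : List ℕ} {p : ℕ} (h : tb k p ≠ 0) : p < k.length :=
  lt_of_not_ge fun h' => h (tb_ge h')

theorem row_ge {A : List (List ℕ)} {g : ℕ} (h : A.length ≤ g) : row A g = [] := by
  simp [row, List.getElem?_eq_none h]

theorem lt_of_row_ne {A : List (List ℕ)} {g : ℕ} (h : row A g ≠ []) : g < A.length :=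
  lt_of_not_ge fun h' => h (row_ge h')

theorem cut_of_row {A : List (List ℕ)} {g : ℕ} (h : row A g = []) (p : ℕ) : cut A p g = 0 := by
  simp [cut, h]

/-- The table of `f` below `n`. -/
def tab (n : ℕ) (f : ℕ → ℕ) : List ℕ := (List.range n).map f

theorem tab_length (n : ℕ) (f : ℕ → ℕ) : (tab n f).length = n := by simp [tab]

theorem tb_tab {n p : ℕ} (f : ℕ → ℕ) (h : p < n) : tb (tab n f) p = f p := by
  simp [tb, tab, h]

/-- A finitely supported function is a list. -/
theorem tb_tab_eq {n : ℕ} {f : ℕ → ℕ} (h : ∀ g, n ≤ g → f g = 0) : tb (tab n f) = f := by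
  funext g
  by_cases hg : g < n
  · exact tb_tab f hg
  · rw [tb_ge (by rw [tab_length]; omega), h g (by omega)]

/-- The family with rows `R g` below `n`. -/
def fam (n : ℕ) (R : ℕ → List ℕ) : List (List ℕ) := (List.range n).map R

theorem fam_length (n : ℕ) (R : ℕ → List ℕ) : (fam n R).length = n := by simp [fam]

theorem row_fam (n : ℕ) (R : ℕ → List ℕ) (g : ℕ) :
    row (fam n R) g = if g < n then R g else [] := by
  by_cases h : g < n
  · simp [row, fam, h]
  · rw [if_neg h, row_ge (by rw [fam_length]; omega)]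

theorem cd_inj {g s t g' s' t' : ℕ} (h : cd g s t = cd g' s' t') : g = g' ∧ s = s' ∧ t = t' := by
  simpa [cd, Nat.pair_eq_pair] using h

theorem eof_pair (e : List ℕ) (j : ℕ) : eof (2 * Nat.pair (Encodable.encode e) j + 1) = e := by
  have : (2 * Nat.pair (Encodable.encode e) j + 1) / 2 = Nat.pair (Encodable.encode e) j := by
    omega
  simp [eof, this]

/-- Every table is attached to arbitrarily large odd units. -/
theorem exists_unit (e : List ℕ) (n : ℕ) : ∃ j, n ≤ j ∧ j % 2 = 1 ∧ eof j = e :=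
  ⟨2 * Nat.pair (Encodable.encode e) n + 1,
    by have := Nat.right_le_pair (Encodable.encode e) n; omega, by omega, eof_pair e n⟩

theorem Prot.mono {N N' c : ℕ} (h : Prot N c) (hN : N ≤ N') : Prot N' c :=
  ⟨h.1, lt_of_lt_of_le h.2 hN⟩

variable {M : Type} [Lattice M] [BoundedOrder M] [Primcodable M]

namespace Uni
variable (U : Uni M)

theorem lab_zero {u : ℕ} (h : u ≠ 0) : U.lab u 0 = ⊥ := by
  by_contra h'
  exact h (U.anti u 0 h' (by rw [U.zero_le]; exact U.bot_ne.symm))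

theorem top_trans {u v w : ℕ} (h : U.lab u v = ⊤) (h' : U.lab v w = ⊤) : U.lab u w = ⊤ := by
  have := U.trans u v w
  rw [h, h', inf_idem] at this
  exact top_unique this

theorem le_right {u v w : ℕ} (h' : U.lab v w = ⊤) : U.lab u v ≤ U.lab u w := by
  have := U.trans u v w
  rwa [h', inf_top_eq] at this

theorem le_left {u v w : ℕ} (h : U.lab u v = ⊤) : U.lab v w ≤ U.lab u w := by
  have := U.trans u v w
  rwa [h, top_inf_eq] at this

theorem eq_zero_of_top {u : ℕ} (h : U.lab u 0 = ⊤) : u = 0 := by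
  by_contra h'
  exact U.bot_ne ((U.lab_zero h').symm.trans h)

theorem bd_pos (b : ℕ) : 0 < U.bd b := U.in_lt b 0 (U.in_zero b)

theorem not_fired_zero {a : M} (ha : a ≠ ⊥) : ¬ U.Fired a 0 := fun h =>
  ha (le_bot_iff.1 (by rwa [Fired, U.lab_zero U.top_ne] at h))

theorem fired_top (a : M) (b : ℕ) : U.Fired a (U.top b) := by
  rw [Fired, U.le_top b _ (U.in_mono 0 b _ (Nat.zero_le b) (U.in_top 0))]
  exact _root_.le_top

variable {U}

theorem Fired.up {a : M} {u v : ℕ} (h : U.Fired a u) (h' : U.lab u v = ⊤) : U.Fired a v :=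
  le_trans h (U.le_right h')

theorem Le.refl (w : ℕ → ℕ) : U.Le w w := fun _ => U.refl _

theorem Le.trans {w w' w'' : ℕ → ℕ} (h : U.Le w w') (h' : U.Le w' w'') : U.Le w w'' :=
  fun g => U.top_trans (h g) (h' g)

theorem Le.B {w w' : ℕ → ℕ} (h : U.Le w w') (a : M) : U.B a w ⊆ U.B a w' :=
  fun n hn => le_trans hn (U.le_right (h n.unpair.1))

theorem mem_B {a : M} {w : ℕ → ℕ} {g v : ℕ} : Nat.pair g v ∈ U.B a w ↔ a ≤ U.lab v (w g) := by
  simp [B]

/-- Finitely many facts depend on finitely many gadgets. -/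
theorem use_B {a : M} {w : ℕ → ℕ} {F : List ℕ} (h : Sub F (U.B a w)) :
    ∃ n, ∀ w' : ℕ → ℕ, (∀ g < n, w' g = w g) → Sub F (U.B a w') := by
  refine ⟨F.sum + 1, fun w' hw y hy => ?_⟩
  have h1 : y.unpair.1 ≤ y := Nat.unpair_left_le y
  have h2 : y ≤ F.sum := List.single_le_sum (fun _ _ => Nat.zero_le _) y hy
  have := h y hy
  simp only [B, Set.mem_ofPred_eq] at this ⊢
  rwa [hw _ (by omega)]

theorem use_app {a : M} {w : ℕ → ℕ} {P : ℕ × List ℕ → Prop} {E : List ℕ}
    (h : Sub E (app P (U.B a w))) :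
    ∃ n, ∀ w' : ℕ → ℕ, (∀ g < n, w' g = w g) → Sub E (app P (U.B a w')) := by
  obtain ⟨F, h1, h2⟩ := sub_app_use h
  obtain ⟨n, hn⟩ := use_B h1
  exact ⟨n, fun w' hw => h2.mono (app_mono (hn w' hw).lset)⟩

theorem Emb.hom {b b' : ℕ} {f : ℕ → ℕ} (h : U.Emb b b' f) : U.Hom b b' f :=
  ⟨h.1, fun p q hp hq => (h.2 p q hp hq).ge⟩

theorem Hom.mono {b b' b'' : ℕ} {f : ℕ → ℕ} (h : U.Hom b b' f) (hb : b' ≤ b'') :
    U.Hom b b'' f := ⟨fun p hp => U.in_mono _ _ _ hb (h.1 p hp), h.2⟩

theorem Emb.mono {b b' b'' : ℕ} {f : ℕ → ℕ} (h : U.Emb b b' f) (hb : b' ≤ b'') :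
    U.Emb b b'' f := ⟨fun p hp => U.in_mono _ _ _ hb (h.1 p hp), h.2⟩

theorem Hom.comp {b b' b'' : ℕ} {f g : ℕ → ℕ} (hg : U.Hom b' b'' g) (hf : U.Hom b b' f) :
    U.Hom b b'' fun p => g (f p) :=
  ⟨fun p hp => hg.1 _ (hf.1 p hp), fun p q hp hq =>
    (hf.2 p q hp hq).trans (hg.2 _ _ (hf.1 p hp) (hf.1 q hq))⟩

theorem Emb.comp {b b' b'' : ℕ} {f g : ℕ → ℕ} (hg : U.Emb b' b'' g) (hf : U.Emb b b' f) :
    U.Emb b b'' fun p => g (f p) :=
  ⟨fun p hp => hg.1 _ (hf.1 p hp), fun p q hp hq =>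
    (hg.2 _ _ (hf.1 p hp) (hf.1 q hq)).trans (hf.2 p q hp hq)⟩

theorem Hom.congr {b b' : ℕ} {f g : ℕ → ℕ} (h : U.Hom b b' f) (hfg : U.Agr b g f) :
    U.Hom b b' g :=
  ⟨fun p hp => hfg p hp ▸ h.1 p hp, fun p q hp hq => hfg p hp ▸ hfg q hq ▸ h.2 p q hp hq⟩

theorem Emb.congr {b b' : ℕ} {f g : ℕ → ℕ} (h : U.Emb b b' f) (hfg : U.Agr b g f) :
    U.Emb b b' g :=
  ⟨fun p hp => hfg p hp ▸ h.1 p hp, fun p q hp hq => hfg p hp ▸ hfg q hq ▸ h.2 p q hp hq⟩

theorem Hom.top {b b' : ℕ} {f : ℕ → ℕ} (h : U.Hom b b' f) {p q : ℕ} (hp : U.inU b p)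
    (hq : U.inU b q) (hpq : U.lab p q = ⊤) : U.lab (f p) (f q) = ⊤ :=
  top_unique (hpq ▸ h.2 p q hp hq)

theorem hom_const {b b' u : ℕ} (h : U.inU b' u) : U.Hom b b' fun _ => u :=
  ⟨fun _ _ => h, fun _ _ _ _ => by rw [U.refl]; exact _root_.le_top⟩

theorem emb_id {b b' : ℕ} (h : b ≤ b') : U.Emb b b' fun p => p :=
  ⟨fun _ hp => U.in_mono _ _ _ h hp, fun _ _ _ _ => rfl⟩

/-- The table of `f` on `U_b` agrees with `f` there and is not empty. -/
theorem agr_tab (b : ℕ) (f : ℕ → ℕ) : U.Agr b (tb (tab (U.bd b) f)) f :=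
  fun p hp => tb_tab f (U.in_lt b p hp)

theorem tab_ne (b : ℕ) (f : ℕ → ℕ) : tab (U.bd b) f ≠ [] := fun h => by
  have h1 := tab_length (U.bd b) f
  have h2 := U.bd_pos b
  rw [h] at h1
  simp at h1
  omega

theorem Emb.ne_zero {b b' : ℕ} {f : ℕ → ℕ} (h : U.Emb b b' f) {s : ℕ} (hs : U.inU b s)
    (h0 : s ≠ 0) : f s ≠ 0 := fun h' => by
  have := h.2 s 0 hs (U.in_zero b)
  rw [h', U.zero_le, U.lab_zero h0] at this
  exact U.bot_ne this.symm

theorem Emb.ne_nil {b b' : ℕ} {e : List ℕ} (h : U.Emb b b' (tb e)) : e ≠ [] := fun h' =>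
  h.ne_zero (U.in_mono 0 b _ (Nat.zero_le b) (U.in_top 0)) U.top_ne (by rw [h', tb_nil])

end Uni

namespace Sys
variable {U : Uni M} (S : Sys U)

theorem free_fr (i : ℕ) : S.Free (S.fr i) := by
  show S.fr (S.idx (S.fr i)) = S.fr i
  rw [S.idx_fr]

theorem fr_inj : Function.Injective S.fr := fun i j h => by
  rw [← S.idx_fr i, h, S.idx_fr]

/-- Free gadgets of large index are large. -/
theorem fr_big (n : ℕ) : ∃ i0, ∀ i, i0 ≤ i → n ≤ S.fr i := by
  refine ⟨(Finset.range n).sup S.idx + 1, fun i hi => le_of_not_gt fun h => ?_⟩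
  have := Finset.le_sup (f := S.idx) (Finset.mem_range.2 h)
  rw [S.idx_fr] at this
  omega

/-- Large free gadgets have large index. -/
theorem idx_big (n : ℕ) : ∃ g0, ∀ i, g0 ≤ S.fr i → n ≤ i := by
  refine ⟨(Finset.range n).sup S.fr + 1, fun i hi => le_of_not_gt fun h => ?_⟩
  have := Finset.le_sup (f := S.fr) (Finset.mem_range.2 h)
  omega

theorem exists_free (n b : ℕ) : ∃ g, S.Free g ∧ n ≤ g ∧ b ≤ S.bud g := by
  obtain ⟨i0, h⟩ := S.fr_big n
  exact ⟨S.fr (max i0 b), S.free_fr _, h _ (le_max_left _ _),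
    (le_max_right _ _).trans (S.bud_fr _)⟩

variable {S}

theorem not_mark {g : ℕ} (h : S.Free g) : ¬ S.Mark g := fun h' => h' (S.disj g h)

theorem mkW_live {x : ℕ → ℕ} (hx : S.Valid x) {g : ℕ} (hg : S.Live g) : S.mkW x g = x g := by
  show S.hom g (x (S.par g)) = x g
  rw [S.par_self g hg, S.hom_self g _ hg (hx g hg)]

theorem mkW_world {x : ℕ → ℕ} (hx : S.Valid x) : S.World (S.mkW x) :=
  ⟨fun g hg => by rw [mkW_live hx hg]; exact hx g hg,
    fun g => by rw [mkW_live hx (S.par_live g)]; rfl⟩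

theorem World.mkW {w : ℕ → ℕ} (h : S.World w) : S.mkW w = w := funext fun g => (h.2 g).symm

theorem mkW_congr {x y : ℕ → ℕ} (h : ∀ g, S.Live g → x g = y g) : S.mkW x = S.mkW y :=
  funext fun g => by
    show S.hom g (x (S.par g)) = S.hom g (y (S.par g))
    rw [h _ (S.par_live g)]

theorem World.ext {w w' : ℕ → ℕ} (h : S.World w) (h' : S.World w')
    (e : ∀ g, S.Live g → w g = w' g) : w = w' := by
  rw [← h.mkW, ← h'.mkW]; exact mkW_congr e

theorem mkW_mono {x y : ℕ → ℕ} (hx : S.Valid x) (hy : S.Valid y)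
    (h : ∀ g, S.Live g → U.lab (x g) (y g) = ⊤) : U.Le (S.mkW x) (S.mkW y) := fun g =>
  top_unique (h _ (S.par_live g) ▸
    S.hom_lab g _ _ (hx _ (S.par_live g)) (hy _ (S.par_live g)))

/-- To be below a world it is enough to be below it on live gadgets. -/
theorem mkW_le {x w : ℕ → ℕ} (hx : S.Valid x) (hw : S.World w)
    (h : ∀ g, S.Live g → U.lab (x g) (w g) = ⊤) : U.Le (S.mkW x) w := by
  have := mkW_mono hx hw.1 h
  rwa [hw.mkW] at this

theorem valid_zero : S.Valid fun _ => 0 := fun _ _ => U.in_zero _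

/-- Legality of `mkW x` from supports of the fired parameters. -/
theorem leg_mkW {Z : Set ℕ} {x : ℕ → ℕ} (hx : S.Valid x)
    (h : ∀ m, S.Mark m → m ∉ Z → U.Fired (S.lev m) (x m) →
      m ∈ app S.sup (U.B ⊤ (S.mkW x))) : S.Leg Z (S.mkW x) :=
  fun m hm hz hf => h m hm hz (by rwa [mkW_live hx (Or.inr hm)] at hf)

/-- No marker is fired when all marker parameters are `0`. -/
theorem leg_of_zero {Z : Set ℕ} {x : ℕ → ℕ} (hx : S.Valid x)
    (h : ∀ m, S.Mark m → x m = 0) : S.Leg Z (S.mkW x) :=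
  leg_mkW hx fun m hm _ hf => absurd (h m hm ▸ hf) (U.not_fired_zero hm)

theorem fl_mkW {Z : Set ℕ} {x : ℕ → ℕ} {n : ℕ} (hx : S.Valid x)
    (hn : ∀ g, n ≤ g → S.Live g → x g = 0) (hl : S.Leg Z (S.mkW x)) : S.FL Z (S.mkW x) :=
  ⟨mkW_world hx, ⟨n, fun g hg hv => by rw [mkW_live hx hv, hn g hg hv]⟩, hl⟩

theorem fl_zero (Z : Set ℕ) : S.FL Z (S.mkW fun _ => 0) :=
  fl_mkW (n := 0) valid_zero (fun _ _ _ => rfl) (leg_of_zero valid_zero fun _ _ => rfl)

theorem zero_le_world {w : ℕ → ℕ} (hw : S.World w) : U.Le (S.mkW fun _ => 0) w :=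
  mkW_le valid_zero hw fun _ _ => U.zero_le _

/-- Raising a world without changing markers keeps legality. -/
theorem Leg.raise {Z : Set ℕ} {w w' : ℕ → ℕ} (h : S.Leg Z w) (hle : U.Le w w')
    (hm : ∀ m, S.Mark m → w' m = w m) : S.Leg Z w' :=
  fun m h1 h2 h3 => app_mono (hle.B ⊤) (h m h1 h2 (hm m h1 ▸ h3))

/-- Raising one free gadget of a finite legal world. -/
theorem FL.raise {Z : Set ℕ} {w : ℕ → ℕ} (h : S.FL Z w) {g u : ℕ} (hg : S.Free g)
    (hu : U.inU (S.bud g) u) (hle : U.lab (w g) u = ⊤) :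
    ∃ w', S.FL Z w' ∧ U.Le w w' ∧ w' g = u ∧ ∀ g', S.Live g' → g' ≠ g → w' g' = w g' := by
  obtain ⟨hw, ⟨n, hn⟩, hl⟩ := h
  have hx : S.Valid (Function.update w g u) := fun g' hg' => by
    by_cases e : g' = g
    · subst e; rwa [Function.update_self]
    · rw [Function.update_of_ne e]; exact hw.1 g' hg'
  have ho : ∀ g', S.Live g' → g' ≠ g → S.mkW (Function.update w g u) g' = w g' :=
    fun g' hg' e => by rw [mkW_live hx hg', Function.update_of_ne e]
  have hL : U.Le w (S.mkW (Function.update w g u)) := by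
    have := mkW_mono hw.1 hx fun g' _ => by
      by_cases e : g' = g
      · subst e; rwa [Function.update_self]
      · rw [Function.update_of_ne e]; exact U.refl _
    rwa [hw.mkW] at this
  refine ⟨_, fl_mkW (n := max n (g + 1)) hx (fun g' h1 h2 => ?_) (hl.raise hL fun m hm => ?_),
    hL, by rw [mkW_live hx (Or.inl hg), Function.update_self], ho⟩
  · rw [Function.update_of_ne (by omega), hn g' (by omega) h2]
  · exact ho m (Or.inr hm) fun e => not_mark hg (e ▸ hm)

theorem FL.lim {Z : Set ℕ} {w : ℕ → ℕ} (h : S.FL Z w) : S.Lim Z w :=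
  ⟨h.1, fun _ => ⟨w, h, Uni.Le.refl w, fun _ _ => rfl⟩⟩

theorem Lim.leg {Z : Set ℕ} {w : ℕ → ℕ} (h : S.Lim Z w) : S.Leg Z w := fun m h1 h2 h3 => by
  obtain ⟨w', h4, h5, h6⟩ := h.2 (m + 1)
  exact app_mono (h5.B ⊤) (h4.2.2 m h1 h2 (by rwa [h6 m (Nat.lt_succ_self m)]))

/-- A world approximated by limit worlds is a limit world. -/
theorem lim_of_lim {Z : Set ℕ} {w : ℕ → ℕ} (hw : S.World w)
    (h : ∀ n, ∃ w', S.Lim Z w' ∧ U.Le w' w ∧ ∀ g < n, w' g = w g) : S.Lim Z w :=
  ⟨hw, fun n => by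
    obtain ⟨w', h1, h2, h3⟩ := h n
    obtain ⟨w'', h4, h5, h6⟩ := h1.2 n
    exact ⟨w'', h4, h5.trans h2, fun g hg => (h6 g hg).trans (h3 g hg)⟩⟩

theorem PV.mono {n n' : ℕ} {W : List ℕ} (h : S.PV n W) (hn : n' ≤ n) : S.PV n' W :=
  ⟨fun g hg => ⟨hn.trans (h.1 g hg).1, (h.1 g hg).2⟩, h.2.1,
    fun g hg => U.in_mono _ _ _ (by omega) (h.2.2 g hg)⟩

theorem PV.valid {n : ℕ} {W : List ℕ} (h : S.PV n W) : S.Valid (tb W) := fun g hg =>
  hg.elim (h.2.1 g) fun hm => U.in_mono _ _ _ (Nat.sub_le _ _) (h.2.2 g hm)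

theorem pv_nil (n : ℕ) : S.PV n [] :=
  ⟨fun _ h => absurd (tb_nil _) h, fun _ _ => by rw [tb_nil]; exact U.in_zero _,
    fun _ _ => by rw [tb_nil]; exact U.in_zero _⟩

theorem PV.fl {n : ℕ} {W : List ℕ} (h : S.PV n W) (hl : S.Leg ∅ (S.mkW (tb W))) :
    S.FL ∅ (S.mkW (tb W)) := fl_mkW (n := W.length) h.valid (fun _ hg _ => tb_ge hg) hl

theorem Fam.mono {b n n' : ℕ} {A : List (List ℕ)} (h : S.Fam b n A) (hn : n' ≤ n) :
    S.Fam b n' A := ⟨fun g hg => ⟨hn.trans (h.1 g hg).1, (h.1 g hg).2⟩, h.2⟩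

theorem Fam.valid {b n : ℕ} {A : List (List ℕ)} (h : S.Fam b n A) {p : ℕ} (hp : U.inU b p) :
    S.Valid (cut A p) := fun g _ => by
  by_cases e : row A g = []
  · rw [cut_of_row e]; exact U.in_zero _
  · exact (h.1 g e).2.2.1 p hp

theorem Fam.lab {b n : ℕ} {A : List (List ℕ)} (h : S.Fam b n A) {p q : ℕ} (hp : U.inU b p)
    (hq : U.inU b q) (g : ℕ) : U.lab p q ≤ U.lab (cut A p g) (cut A q g) := by
  by_cases e : row A g = []
  · rw [cut_of_row e, cut_of_row e, U.refl]; exact le_top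
  · exact (h.1 g e).2.2.2 p q hp hq

theorem Fam.fl {b n : ℕ} {A : List (List ℕ)} (h : S.Fam b n A) {p : ℕ} (hp : U.inU b p) :
    S.FL ∅ (S.mkW (cut A p)) :=
  fl_mkW (n := A.length) (h.valid hp) (fun _ hg _ => cut_of_row (row_ge hg) p) (h.2 p hp)

theorem fam_nil (b n : ℕ) : S.Fam b n [] :=
  ⟨fun _ h => absurd (row_nil _) h, fun p _ =>
    leg_of_zero (fun g _ => by rw [cut_nil]; exact U.in_zero _) fun _ _ => cut_nil _ _⟩

/-- The family that moves one free gadget along `f`. -/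
theorem fam_one {b n g : ℕ} {f : ℕ → ℕ} (hg : S.Free g) (hn : n ≤ g)
    (hf : U.Hom b (S.bud g) f) : ∃ A, S.Fam b n A ∧ row A g ≠ [] ∧
      (∀ p, U.inU b p → cut A p g = f p) ∧ ∀ g', g' ≠ g → row A g' = [] := by
  have hr : ∀ g', row (fam (g + 1) fun g' => if g' = g then tab (U.bd b) f else []) g' =
      if g' = g then tab (U.bd b) f else [] := fun g' => by
    rw [row_fam]
    split_ifs with h1 h2 h3
    all_goals first | rfl | omega
  have h1 : ∀ g', row (fam (g + 1) fun g' => if g' = g then tab (U.bd b) f else []) g' ≠ [] →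
      n ≤ g' ∧ S.Live g' ∧ U.Hom b (S.bud g')
        (tb (row (fam (g + 1) fun g' => if g' = g then tab (U.bd b) f else []) g')) :=
    fun g' h => by
      rw [hr] at h ⊢
      by_cases e : g' = g
      · subst e
        rw [if_pos rfl]
        exact ⟨hn, Or.inl hg, hf.congr (Uni.agr_tab b f)⟩
      · exact absurd (if_neg e) h
  refine ⟨_, ⟨h1, fun p hp => leg_of_zero (fun g' _ => ?_) fun m hm => cut_of_row ?_ p⟩,
    by rw [hr, if_pos rfl]; exact Uni.tab_ne b f, fun p hp => ?_, fun g' e => by rw [hr, if_neg e]⟩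
  · by_cases e : row (fam (g + 1) fun g' => if g' = g then tab (U.bd b) f else []) g' = []
    · rw [cut_of_row e]; exact U.in_zero _
    · exact (h1 g' e).2.2.1 p hp
  · rw [hr, if_neg fun e : m = g => not_mark hg (e ▸ hm)]
  · rw [cut, hr, if_pos rfl]; exact Uni.agr_tab b f p hp

end Sys

variable {U : Uni M} {R S T : Sys U}

theorem Ext.refl (S : Sys U) : Ext S S :=
  ⟨fun _ h => h, fun _ h => Or.inl ⟨h, rfl, fun _ => Iff.rfl⟩, fun _ _ => le_rfl, fun _ h => h,
    fun _ _ h => h.lim, rfl, rfl⟩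

theorem Ext.live (h : Ext T S) {g : ℕ} (hg : T.Live g) : S.Live g :=
  hg.elim (fun h1 => Or.inl (h.free g h1)) fun h1 =>
    (h.mark g h1).elim (fun h2 => Or.inr h2.1) fun h2 => Or.inl h2.1

theorem Ext.lim' (h : Ext T S) {Z : Set ℕ} {w : ℕ → ℕ} (hw : T.Lim Z w) : S.Lim Z w :=
  Sys.lim_of_lim (h.world w hw.1) fun n => by
    obtain ⟨w', h1, h2⟩ := hw.2 n
    exact ⟨w', h.lim Z w' h1, h2⟩

theorem Ext.trans (h : Ext T S) (h' : Ext S R) : Ext T R where
  free g hg := h'.free g (h.free g hg)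
  mark g hg := by
    rcases h.mark g hg with ⟨h1, h2, h3⟩ | ⟨h1, h2⟩
    · rcases h'.mark g h1 with ⟨h4, h5, h6⟩ | ⟨h4, h5⟩
      · exact Or.inl ⟨h4, h2.trans h5, fun F => (h3 F).trans (h6 F)⟩
      · exact Or.inr ⟨h4, (h3 _).2 h5⟩
    · exact Or.inr ⟨h'.free g h1, h2⟩
  bud g hg := (h.bud g hg).trans (h'.bud g (h.live hg))
  world w hw := h'.world w (h.world w hw)
  lim Z w hw := h'.lim' (h.lim Z w hw)
  grp := h.grp.trans h'.grp
  N := h.N.trans h'.N

theorem Ext.wext (h : Ext T S) : WExt T S where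
  world := h.world
  lim := h.lim ∅
  N := h.N.ge
  mark m hm hp := by
    rcases h.mark m hm with ⟨h1, _, h3⟩ | ⟨h1, _⟩
    · exact ⟨h1, by rw [h.grp], h3⟩
    · exact absurd (by rw [h.grp]; exact S.grp_free m h1) hp.1

theorem WExt.lim' (h : WExt T S) {w : ℕ → ℕ} (hw : T.Lim ∅ w) : S.Lim ∅ w :=
  Sys.lim_of_lim (h.world w hw.1) fun n => by
    obtain ⟨w', h1, h2⟩ := hw.2 n
    exact ⟨w', h.lim w' h1, h2⟩

theorem WExt.trans (h : WExt T S) (h' : WExt S R) : WExt T R where
  world w hw := h'.world w (h.world w hw)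
  lim w hw := h'.lim' (h.lim w hw)
  N := h'.N.trans h.N
  mark m hm hp := by
    obtain ⟨h1, h2, h3⟩ := h.mark m hm (hp.mono h'.N)
    obtain ⟨h4, h5, h6⟩ := h'.mark m h1 (h2 ▸ hp)
    exact ⟨h4, h5.trans h2, fun F => (h3 F).trans (h6 F)⟩

theorem Sat.ext (hS : Sat S) (h : Ext T S) : Sat T := fun T' h' => hS T' (h'.trans h)

/-- Soundness of a decoding holds on limit worlds. -/
theorem Sys.DecN.lim {P Q : ℕ × List ℕ → Prop} {d : M} (h : S.DecN P Q d) {w : ℕ → ℕ}
    {g s : ℕ} (hw : S.Lim ∅ w) (hg : S.Free g) (hs : U.inU (S.bud g) s)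
    (hd : U.lab s (w g) = d) : cd g s (w g) ∉ app Q (app P (U.B ⊤ w)) := by
  rintro ⟨D, h1, h2⟩
  obtain ⟨n, hn⟩ := Uni.use_app h1
  obtain ⟨w', h3, _, h4⟩ := hw.2 (max n (g + 1))
  have e : w' g = w g := h4 g (by omega)
  exact h w' g s h3 hg hs (e ▸ hd) ⟨D, hn w' fun g' hg' => h4 g' (by omega), e ▸ h2⟩

theorem Sys.Dec.ext {P : ℕ × List ℕ → Prop} {d : M} (h : S.Dec P d) (hT : Ext T S) :
    T.Dec P d := by
  obtain ⟨Q, h1, h2, h3⟩ := h
  exact ⟨Q, h1, fun w g s hw hg hs hd => h2.lim (hT.lim ∅ w hw) (hT.free g hg)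
      (U.in_mono _ _ _ (hT.bud g (Or.inl hg)) hs) hd,
    fun w g s t hw hg hs ht => h3 w g s t (hT.world w hw) (hT.free g hg)
      (U.in_mono _ _ _ (hT.bud g (Or.inl hg)) hs) (U.in_mono _ _ _ (hT.bud g (Or.inl hg)) ht)⟩

theorem ComSpec.live {W : List ℕ} {n : ℕ} (h : ComSpec S W n T) {g : ℕ} (hg : T.Live g) :
    n ≤ g := hg.elim (fun h1 => (h.free g h1).1) fun h1 => ((h.mark g).1 h1).2

/-- After an empty commitment, parameters that vanish off the live gadgets give the same world. -/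
theorem ComSpec.mkW {n : ℕ} (h : ComSpec S [] n T) {x : ℕ → ℕ} (hx : T.Valid x)
    (h0 : ∀ g, S.Live g → ¬ T.Live g → x g = 0) : T.mkW x = S.mkW x := by
  have hw := (h.world _).1 (Sys.mkW_world hx)
  rw [← hw.1.mkW]
  refine Sys.mkW_congr fun g hg => ?_
  by_cases e : T.Live g
  · exact Sys.mkW_live hx e
  · rw [hw.2.2 g hg e, tb_nil, h0 g hg e]

/-- After an empty commitment at `n`, finite legal worlds are given by lists beyond `n`. -/
theorem ComSpec.list {n : ℕ} (h : ComSpec S [] n T) {w : ℕ → ℕ} (hw : T.FL ∅ w) :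
    ∃ W, S.PV n W ∧ S.mkW (tb W) = w ∧ S.Leg ∅ w ∧ ∀ g, S.Live g → tb W g = w g := by
  classical
  obtain ⟨k, hk⟩ := hw.2.1
  obtain ⟨h1, h2, h3⟩ := (h.world w).1 hw.1
  have e : tb (tab k fun g => if T.Live g then w g else 0) = fun g => if T.Live g then w g else 0 :=
    tb_tab_eq fun g hg => by
      split_ifs with h4
      · exact hk g hg h4
      · rfl
  have e2 : ∀ g, S.Live g → (if T.Live g then w g else 0) = w g := fun g hg => by
    split_ifs with h4
    · rfl
    · rw [h3 g hg h4, tb_nil]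
  refine ⟨tab k fun g => if T.Live g then w g else 0, ⟨fun g hg => ?_, fun g hg => ?_,
    fun g hg => ?_⟩, ?_, (h.ext.lim ∅ w hw).leg, fun g hg => ?_⟩
  all_goals rw [e] at *
  · have h4 : T.Live g := by
      by_contra h4
      exact hg (if_neg h4)
    exact ⟨h.live h4, h.ext.live h4⟩
  · show U.inU _ (if T.Live g then w g else 0)
    rw [e2 g (Or.inl hg)]; exact h1.1 g (Or.inl hg)
  · show U.inU _ (if T.Live g then w g else 0)
    split_ifs with h4
    · have h5 : T.Mark g := h4.resolve_left fun h5 => Sys.not_mark (h.ext.free g h5) hg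
      rw [← (h.lev g h5).2]; exact h2 g h4
    · exact U.in_zero _
  · exact (Sys.mkW_congr e2).trans h1.mkW
  · exact e2 g hg

end MP750S

end

section

/-! `fun_prop` rules for the notions of `Defs`. -/

set_option autoImplicit false

namespace MP750S

open Classical

variable {α : Type} [Primcodable α]

/-- Turns a goal `REPred p` with `p` a computable predicate into `ComputablePred p`. -/
theorem r_of_p {p : α → Prop} (h : ComputablePred p) : REPred p := h.to_re

@[fun_prop] theorem c_tb {k : α → List ℕ} {p : α → ℕ} (hk : Computable k) (hp : Computable p) :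
    Computable fun a => tb (k a) (p a) := c_getD 0 hk hp
@[fun_prop] theorem c_row {A : α → List (List ℕ)} {g : α → ℕ} (hA : Computable A)
    (hg : Computable g) : Computable fun a => row (A a) (g a) := c_getD [] hA hg
@[fun_prop] theorem c_cut {A : α → List (List ℕ)} {p g : α → ℕ} (hA : Computable A)
    (hp : Computable p) (hg : Computable g) : Computable fun a => cut (A a) (p a) (g a) :=
  c_tb (c_row hA hg) hp
@[fun_prop] theorem c_cd {g s t : α → ℕ} (hg : Computable g) (hs : Computable s)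
    (ht : Computable t) : Computable fun a => cd (g a) (s a) (t a) :=
  c_npair hg (c_npair hs ht)
@[fun_prop] theorem c_aE {x : α → AnT} (h : Computable x) : Computable fun a => aE (x a) := by
  unfold aE; fun_prop
@[fun_prop] theorem c_aF {x : α → AnT} (h : Computable x) : Computable fun a => aF (x a) := by
  unfold aF; fun_prop
@[fun_prop] theorem c_ag {x : α → AnT} (h : Computable x) : Computable fun a => ag (x a) := by
  unfold ag; fun_prop
@[fun_prop] theorem c_ak {x : α → AnT} (h : Computable x) : Computable fun a => ak (x a) := by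
  unfold ak; fun_prop
@[fun_prop] theorem c_aK {x : α → AnT} (h : Computable x) : Computable fun a => aK (x a) := by
  unfold aK; fun_prop
@[fun_prop] theorem c_eof {i : α → ℕ} (h : Computable i) : Computable fun a => eof (i a) := by
  unfold eof; fun_prop
@[fun_prop] theorem p_prot {N c : α → ℕ} (hN : Computable N) (hc : Computable c) :
    ComputablePred fun a => Prot (N a) (c a) := by
  unfold Prot; fun_prop
@[fun_prop] theorem r_prot {N c : α → ℕ} (hN : Computable N) (hc : Computable c) :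
    REPred fun a => Prot (N a) (c a) := (p_prot hN hc).to_re

@[fun_prop] theorem r_lset {x : α → ℕ} {D : α → List ℕ} (hx : Computable x)
    (hD : Computable D) : REPred fun a => x a ∈ lset (D a) := r_mem hx hD

/-- `Sub` of a list in a uniformly c.e. set. -/
theorem r_sub {D : α → List ℕ} {A : α → Set ℕ} (hD : Computable D)
    (hA : REPred fun z : α × ℕ => z.2 ∈ A z.1) : REPred fun a => Sub (D a) (A a) :=
  r_lall (P := fun a y => y ∈ A a) hD hA

/-- Membership in `app P` of a uniformly c.e. set. -/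
theorem r_app {P : ℕ × List ℕ → Prop} {x : α → ℕ} {A : α → Set ℕ} (hP : REPred P)
    (hx : Computable x) (hA : REPred fun z : α × ℕ => z.2 ∈ A z.1) :
    REPred fun a => x a ∈ app P (A a) :=
  r_ex (P := fun a D => Sub D (A a) ∧ P (x a, D)) (r_and
    (r_sub (A := fun z : α × List ℕ => A z.1) Computable.snd
      (r_comp (g := fun z : (α × List ℕ) × ℕ => (z.1.1, z.2)) hA (by fun_prop)))
    (r_comp hP (by fun_prop)))

@[fun_prop] theorem r_sub_lset {D F : α → List ℕ} (hD : Computable D) (hF : Computable F) :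
    REPred fun a => Sub (D a) (lset (F a)) := r_sub hD (by fun_prop)

theorem r_app_lset {P : ℕ × List ℕ → Prop} {x : α → ℕ} {F : α → List ℕ} (hP : REPred P)
    (hx : Computable x) (hF : Computable F) : REPred fun a => x a ∈ app P (lset (F a)) :=
  r_app hP hx (by fun_prop)

theorem r_sub_app_lset {P : ℕ × List ℕ → Prop} {E F : α → List ℕ} (hP : REPred P)
    (hE : Computable E) (hF : Computable F) : REPred fun a => Sub (E a) (app P (lset (F a))) :=
  r_sub hE (r_app_lset hP (by fun_prop) (by fun_prop))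

variable {M : Type} [Lattice M] [BoundedOrder M] [Primcodable M] {U : Uni M}

@[fun_prop] theorem c_lab {u v : α → ℕ} (hu : Computable u) (hv : Computable v) :
    Computable fun a => U.lab (u a) (v a) := U.c_lab.comp (hu.pair hv)
@[fun_prop] theorem c_top {b : α → ℕ} (hb : Computable b) :
    Computable fun a => U.top (b a) := U.c_top.comp hb
@[fun_prop] theorem c_bd {b : α → ℕ} (hb : Computable b) :
    Computable fun a => U.bd (b a) := U.c_bd.comp hb
@[fun_prop] theorem p_inU {b u : α → ℕ} (hb : Computable b) (hu : Computable u) :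
    ComputablePred fun a => U.inU (b a) (u a) := p_comp U.c_inU (hb.pair hu)
@[fun_prop] theorem r_inU {b u : α → ℕ} (hb : Computable b) (hu : Computable u) :
    REPred fun a => U.inU (b a) (u a) := (p_inU hb hu).to_re

theorem allU_iff (b : ℕ) (P : ℕ → Prop) :
    (Ball (U.bd b) fun p => U.inU b p → P p) ↔ ∀ p, U.inU b p → P p :=
  ⟨fun h p hp => h p (U.in_lt b p hp) hp, fun h p _ => h p⟩

/-- Quantifier over `U_b` of a computable predicate. -/
theorem p_allU {b : α → ℕ} {P : α → ℕ → Prop} (hb : Computable b)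
    (hP : ComputablePred fun z : α × ℕ => P z.1 z.2) :
    ComputablePred fun a => ∀ p, U.inU (b a) p → P a p :=
  (p_ball (P := fun a p => U.inU (b a) p → P a p) (c_bd hb)
    (p_imp (by fun_prop) hP)).of_eq fun a => allU_iff _ _

/-- Quantifier over `U_b` of a c.e. predicate. -/
theorem r_allU {b : α → ℕ} {P : α → ℕ → Prop} (hb : Computable b)
    (hP : REPred fun z : α × ℕ => P z.1 z.2) : REPred fun a => ∀ p, U.inU (b a) p → P a p :=
  (r_ball (P := fun a p => U.inU (b a) p → P a p) (c_bd hb)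
    (r_imp (by fun_prop) hP)).of_eq fun a => allU_iff _ _

/-- Quantifier over the nonzero entries of a list. -/
theorem r_allNZ {K : α → List ℕ} {P : α → ℕ → Prop} (hK : Computable K)
    (hP : REPred fun z : α × ℕ => P z.1 z.2) : REPred fun a => ∀ m, tb (K a) m ≠ 0 → P a m :=
  (r_ball (P := fun a m => tb (K a) m ≠ 0 → P a m) (c_length hK)
    (r_imp (by fun_prop) hP)).of_eq fun a =>
      ⟨fun h m hm => h m (lt_of_tb_ne hm) hm, fun h m _ => h m⟩

/-- Quantifier over the nonempty rows of a family. -/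
theorem r_allRow {A : α → List (List ℕ)} {P : α → ℕ → Prop} (hA : Computable A)
    (hP : REPred fun z : α × ℕ => P z.1 z.2) : REPred fun a => ∀ g, row (A a) g ≠ [] → P a g :=
  (r_ball (P := fun a g => row (A a) g ≠ [] → P a g) (c_length hA)
    (r_imp (by fun_prop) hP)).of_eq fun a =>
      ⟨fun h m hm => h m (lt_of_row_ne hm) hm, fun h m _ => h m⟩

theorem p_agr {b : α → ℕ} {f g : α → ℕ → ℕ} (hb : Computable b)
    (hf : Computable fun z : α × ℕ => f z.1 z.2) (hg : Computable fun z : α × ℕ => g z.1 z.2) :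
    ComputablePred fun a => U.Agr (b a) (f a) (g a) := p_allU hb (p_eq hf hg)

theorem p_emb' {b b' : α → ℕ} {f : α → ℕ → ℕ} (hb : Computable b) (hb' : Computable b')
    (hf : Computable fun z : α × ℕ => f z.1 z.2) :
    ComputablePred fun a => U.Emb (b a) (b' a) (f a) := by
  refine (p_and (p_allU (U := U) (P := fun a p => U.inU (b' a) (f a p)) hb (by fun_prop))
    (p_allU (U := U) (P := fun a p => ∀ q, U.inU (b a) q → U.lab (f a p) (f a q) = U.lab p q) hb
      (p_allU (by fun_prop) (p_eq (c_lab ?_ ?_) (by fun_prop))))).of_eq fun a => ?_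
  · exact c_comp (g := fun z : (α × ℕ) × ℕ => z.1) hf (by fun_prop)
  · exact c_comp (g := fun z : (α × ℕ) × ℕ => (z.1.1, z.2)) hf (by fun_prop)
  · exact and_congr Iff.rfl ⟨fun h p q hp hq => h p hp q hq, fun h p hp q hq => h p q hp hq⟩

@[fun_prop] theorem p_emb {b b' : α → ℕ} {k : α → List ℕ} (hb : Computable b)
    (hb' : Computable b') (hk : Computable k) :
    ComputablePred fun a => U.Emb (b a) (b' a) (tb (k a)) := p_emb' hb hb' (by fun_prop)

@[fun_prop] theorem p_on {b : ℕ} {z : α → ℕ × ℕ} (hz : Computable z) :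
    ComputablePred fun a => On U b (z a) := by
  unfold On; fun_prop

section
variable (S : Sys U)
@[fun_prop] theorem c_fr {g : α → ℕ} (h : Computable g) : Computable fun a => S.fr (g a) :=
  S.c_fr.comp h
@[fun_prop] theorem c_idx {g : α → ℕ} (h : Computable g) : Computable fun a => S.idx (g a) :=
  S.c_idx.comp h
@[fun_prop] theorem c_lev {g : α → ℕ} (h : Computable g) : Computable fun a => S.lev (g a) :=
  S.c_lev.comp h
@[fun_prop] theorem c_bud {g : α → ℕ} (h : Computable g) : Computable fun a => S.bud (g a) :=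
  S.c_bud.comp h
@[fun_prop] theorem c_par {g : α → ℕ} (h : Computable g) : Computable fun a => S.par (g a) :=
  S.c_par.comp h
@[fun_prop] theorem c_grp {g : α → ℕ} (h : Computable g) : Computable fun a => S.grp (g a) :=
  S.c_grp.comp h
@[fun_prop] theorem c_hom {g u : α → ℕ} (h : Computable g) (hu : Computable u) :
    Computable fun a => S.hom (g a) (u a) := S.c_hom.comp (h.pair hu)
@[fun_prop] theorem p_free {g : α → ℕ} (h : Computable g) :
    ComputablePred fun a => S.Free (g a) := by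
  unfold Dat.Free; fun_prop
@[fun_prop] theorem p_mark {g : α → ℕ} (h : Computable g) :
    ComputablePred fun a => S.Mark (g a) := by
  unfold Dat.Mark; fun_prop
@[fun_prop] theorem p_live {g : α → ℕ} (h : Computable g) :
    ComputablePred fun a => S.Live (g a) := p_or (p_free S h) (p_mark S h)
@[fun_prop] theorem p_inZ {g : α → ℕ} (h : Computable g) :
    ComputablePred fun a => S.InZ (g a) := by
  unfold Sys.InZ; fun_prop
@[fun_prop] theorem c_xof {g : α → ℕ} (h : Computable g) : Computable fun a => S.xof (g a) := by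
  unfold Sys.xof; fun_prop
@[fun_prop] theorem r_free {g : α → ℕ} (h : Computable g) : REPred fun a => S.Free (g a) :=
  (p_free S h).to_re
@[fun_prop] theorem r_mark {g : α → ℕ} (h : Computable g) : REPred fun a => S.Mark (g a) :=
  (p_mark S h).to_re
@[fun_prop] theorem r_live {g : α → ℕ} (h : Computable g) : REPred fun a => S.Live (g a) :=
  (p_live S h).to_re
@[fun_prop] theorem r_inZ {g : α → ℕ} (h : Computable g) : REPred fun a => S.InZ (g a) :=
  (p_inZ S h).to_re
@[fun_prop] theorem r_sup {g : α → ℕ} {F : α → List ℕ} (h : Computable g) (hF : Computable F) :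
    REPred fun a => S.sup (g a, F a) := r_comp S.re_sup (h.pair hF)

/-- The world with uniformly computable parameters is uniformly computable. -/
theorem c_mkW {x : α → ℕ → ℕ} (hx : Computable fun z : α × ℕ => x z.1 z.2) :
    Computable fun z : α × ℕ => S.mkW (x z.1) z.2 :=
  c_hom S Computable.snd
    (c_comp (g := fun z : α × ℕ => (z.1, S.par z.2)) hx (by fun_prop))

@[fun_prop] theorem r_pv {n : α → ℕ} {W : α → List ℕ} (hn : Computable n) (hW : Computable W) :
    REPred fun a => S.PV (n a) (W a) := by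
  refine (r_allNZ (P := fun a g => (n a ≤ g ∧ S.Live g) ∧ (S.Free g → U.inU (S.bud g)
    (tb (W a) g)) ∧ (S.Mark g → U.inU (S.bud g - n a) (tb (W a) g))) hW
      (by fun_prop)).of_eq fun a => ⟨fun h => ⟨fun g hg => (h g hg).1, fun g hg => ?_,
        fun g hg => ?_⟩, fun h g hg => ⟨h.1 g hg, h.2.1 g, h.2.2 g⟩⟩
  · by_cases e : tb (W a) g = 0
    · rw [e]; exact U.in_zero _
    · exact (h g e).2.1 hg
  · by_cases e : tb (W a) g = 0
    · rw [e]; exact U.in_zero _
    · exact (h g e).2.2 hg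
end

variable [Finite M]

theorem p_hom' {b b' : α → ℕ} {f : α → ℕ → ℕ} (hb : Computable b) (hb' : Computable b')
    (hf : Computable fun z : α × ℕ => f z.1 z.2) :
    ComputablePred fun a => U.Hom (b a) (b' a) (f a) := by
  refine (p_and (p_allU (U := U) (P := fun a p => U.inU (b' a) (f a p)) hb (by fun_prop))
    (p_allU (U := U) (P := fun a p => ∀ q, U.inU (b a) q → U.lab p q ≤ U.lab (f a p) (f a q)) hb
      (p_allU (by fun_prop) (p_cle (by fun_prop) (c_lab ?_ ?_))))).of_eq fun a => ?_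
  · exact c_comp (g := fun z : (α × ℕ) × ℕ => z.1) hf (by fun_prop)
  · exact c_comp (g := fun z : (α × ℕ) × ℕ => (z.1.1, z.2)) hf (by fun_prop)
  · exact and_congr Iff.rfl ⟨fun h p q hp hq => h p hp q hq, fun h p hp q hq => h p q hp hq⟩

@[fun_prop] theorem p_hom {b b' : α → ℕ} {k : α → List ℕ} (hb : Computable b)
    (hb' : Computable b') (hk : Computable k) :
    ComputablePred fun a => U.Hom (b a) (b' a) (tb (k a)) := p_hom' hb hb' (by fun_prop)
@[fun_prop] theorem r_hom {b b' : α → ℕ} {k : α → List ℕ} (hb : Computable b)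
    (hb' : Computable b') (hk : Computable k) :
    REPred fun a => U.Hom (b a) (b' a) (tb (k a)) := (p_hom hb hb' hk).to_re
@[fun_prop] theorem p_fired {c : α → M} {u : α → ℕ} (hc : Computable c) (hu : Computable u) :
    ComputablePred fun a => U.Fired (c a) (u a) := by
  unfold Uni.Fired; fun_prop

/-- Membership in `B c` of a uniformly computable world. -/
theorem r_B {c : M} {w : α → ℕ → ℕ} (hw : Computable fun z : α × ℕ => w z.1 z.2) :
    REPred fun z : α × ℕ => z.2 ∈ U.B c (w z.1) :=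
  r_cle (f := fun _ => c) (g := fun z : α × ℕ => U.lab z.2.unpair.2 (w z.1 z.2.unpair.1))
    (by fun_prop) (c_lab (by fun_prop)
      (c_comp (g := fun z : α × ℕ => (z.1, z.2.unpair.1)) hw (by fun_prop)))

variable (S : Sys U)

theorem r_sub_B {c : M} {F : α → List ℕ} {x : α → ℕ → ℕ} (hF : Computable F)
    (hx : Computable fun z : α × ℕ => x z.1 z.2) :
    REPred fun a => Sub (F a) (U.B c (S.mkW (x a))) :=
  r_sub hF (r_B (w := fun a => S.mkW (x a)) (c_mkW S hx))

theorem r_sub_app_B {P : ℕ × List ℕ → Prop} {c : M} {E : α → List ℕ} {x : α → ℕ → ℕ}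
    (hP : REPred P) (hE : Computable E) (hx : Computable fun z : α × ℕ => x z.1 z.2) :
    REPred fun a => Sub (E a) (app P (U.B c (S.mkW (x a)))) :=
  r_sub hE (r_app (A := fun z : α × ℕ => U.B c (S.mkW (x z.1))) hP Computable.snd
    (r_B (w := fun z : α × ℕ => S.mkW (x z.1)) (c_mkW S (x := fun z : α × ℕ => x z.1)
      (c_comp (g := fun z : (α × ℕ) × ℕ => (z.1.1, z.2)) hx (by fun_prop)))))

@[fun_prop] theorem r_fam {b n : α → ℕ} {A : α → List (List ℕ)} (hb : Computable b)
    (hn : Computable n) (hA : Computable A) : REPred fun a => S.Fam (b a) (n a) (A a) := by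
  have h1 : REPred fun a => ∀ g, row (A a) g ≠ [] →
      n a ≤ g ∧ S.Live g ∧ U.Hom (b a) (S.bud g) (tb (row (A a) g)) := r_allRow hA (by fun_prop)
  have h2 : REPred fun a => ∀ p, U.inU (b a) p → ∀ m, row (A a) m ≠ [] → (S.Mark m ∧
      U.Fired (S.lev m) (cut (A a) p m)) → m ∈ app S.sup (U.B ⊤ (S.mkW (cut (A a) p))) :=
    r_allU hb (r_allRow (by fun_prop) (r_imp (by fun_prop)
      (r_app (A := fun z : (α × ℕ) × ℕ => U.B ⊤ (S.mkW (cut (A z.1.1) z.1.2))) S.re_sup
        (by fun_prop) (r_B (w := fun z : (α × ℕ) × ℕ => S.mkW (cut (A z.1.1) z.1.2))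
          (c_mkW S (x := fun z : (α × ℕ) × ℕ => cut (A z.1.1) z.1.2) (by fun_prop))))))
  refine (r_and h1 h2).of_eq fun a => and_congr_right fun h => ?_
  have hv : ∀ p, U.inU (b a) p → S.Valid (cut (A a) p) := fun p hp g _ => by
    by_cases e : row (A a) g = []
    · rw [cut_of_row e]; exact U.in_zero _
    · exact (h g e).2.2.1 p hp
  refine ⟨fun h3 p hp => Sys.leg_mkW (hv p hp) fun m hm _ hf => h3 p hp m (fun e => ?_) ⟨hm, hf⟩,
    fun h3 p hp m _ hm => h3 p hp m hm.1 (Set.notMem_empty _) ?_⟩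
  · exact U.not_fired_zero hm (cut_of_row e p ▸ hf)
  · rw [Sys.mkW_live (hv p hp) (Or.inr hm.1)]; exact hm.2

omit [Finite M] in
/-- The supply `QF` is c.e. when the record is. -/
theorem r_QF {b : ℕ} {R : ℕ → List (List ℕ) → AnT → Prop}
    (hR : REPred fun z : ℕ × List (List ℕ) × AnT => R z.1 z.2.1 z.2.2) : REPred (QF U b R) := by
  unfold QF
  refine r_and (by fun_prop) (r_and (r_imp (by fun_prop) (r_and (by fun_prop) ?_))
    (r_imp (by fun_prop) (by fun_prop)))
  exact r_comp (g := fun y : (ℕ × ℕ) × List (List ℕ) × List ℕ × AnT => (y.1.1, y.2.1, y.2.2.2))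
    hR (by fun_prop)

end MP750S

end
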