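import Pool.Agent.Mg.F750bb3.Gef4572

set_option linter.all false

/-! The list of codes of finite labelled structures and the universal structure. -/

set_option autoImplicit false

namespace MP750S

open Classical

variable {M : Type} [Lattice M] [BoundedOrder M] [Primcodable M] [Finite M] {U : Uni M}

@[fun_prop] theorem uni_c_inf {α : Type} [Primcodable α] {f g : α → M} (hf : Computable f)
    (hg : Computable g) : Computable fun a => f a ⊓ g a :=
  c_comp (f := fun z : M × M => z.1 ⊓ z.2) (Primrec.dom_finite _).to_comp (hf.pair hg)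

/-- The table and the base point coded by `c`. -/
def uniDec (M : Type) [Primcodable M] (c : ℕ) : List (List M) × ℕ :=
  (Encodable.decode (α := List (List M) × ℕ) c).getD ([], 0)

omit [Lattice M] [BoundedOrder M] [Finite M] in
@[fun_prop] theorem uni_c_dec {α : Type} [Primcodable α] {f : α → ℕ} (hf : Computable f) :
    Computable fun a => uniDec M (f a) :=
  c_comp (Computable.option_getD Computable.decode (Computable.const _)) hf

/-- An entry of the table coded by `c`. -/
def uniM (M : Type) [Lattice M] [BoundedOrder M] [Primcodable M] (c p q : ℕ) : M :=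
  ((uniDec M c).1.getD p []).getD q ⊥

omit [Finite M] in
@[fun_prop] theorem uni_c_M {α : Type} [Primcodable α] {c p q : α → ℕ} (hc : Computable c)
    (hp : Computable p) (hq : Computable q) : Computable fun a => uniM M (c a) (p a) (q a) := by
  unfold uniM; fun_prop

/-- The table coded by `c` is a labelled structure. -/
def uniOk (M : Type) [Lattice M] [BoundedOrder M] [Primcodable M] (c : ℕ) : Prop :=
  Ball (uniDec M c).1.length fun p => Ball (uniDec M c).1.length fun q =>
    (uniM M c p q ≠ ⊥ → uniM M c q p ≠ ⊥ → p = q) ∧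
      Ball (uniDec M c).1.length fun r => uniM M c p q ⊓ uniM M c q r ≤ uniM M c p r

@[fun_prop] theorem uni_p_ok {α : Type} [Primcodable α] {c : α → ℕ} (hc : Computable c) :
    ComputablePred fun a => uniOk M (c a) := by
  refine p_comp (p := uniOk M) ?_ hc
  unfold uniOk; fun_prop

/-- The labelled structure coded by `c`. -/
noncomputable def uniL (M : Type) [Lattice M] [BoundedOrder M] [Primcodable M] (c p q : ℕ) : M :=
  if p = q then ⊤ else
    if uniOk M c ∧ p < (uniDec M c).1.length ∧ q < (uniDec M c).1.length then uniM M c p q else ⊥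

theorem stCodes : StCodes M := by
  refine ⟨uniL M, fun c => (uniDec M c).2, ?_, by fun_prop, fun c p => if_pos rfl, ?_, ?_, ?_⟩
  · unfold uniL; fun_prop
  · intro c p q r
    by_cases hpr : p = r
    · simp [uniL, hpr]
    by_cases hpq : p = q
    · subst hpq; exact inf_le_right
    by_cases hqr : q = r
    · subst hqr; exact inf_le_left
    unfold uniL
    rw [if_neg hpr, if_neg hpq, if_neg hqr]
    by_cases h1 : uniOk M c ∧ p < (uniDec M c).1.length ∧ q < (uniDec M c).1.length
    · by_cases h2 : uniOk M c ∧ q < (uniDec M c).1.length ∧ r < (uniDec M c).1.length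
      · rw [if_pos h1, if_pos h2, if_pos ⟨h1.1, h1.2.1, h2.2.2⟩]
        exact (h1.1 p h1.2.1 q h1.2.2).2 r h2.2.2
      · rw [if_neg h2]; simp
    · rw [if_neg h1]; simp
  · intro c p q h1 h2
    by_contra hpq
    unfold uniL at h1 h2
    rw [if_neg hpq] at h1
    rw [if_neg (Ne.symm hpq)] at h2
    by_cases h : uniOk M c ∧ p < (uniDec M c).1.length ∧ q < (uniDec M c).1.length
    · rw [if_pos h] at h1
      rw [if_pos ⟨h.1, h.2.2, h.2.1⟩] at h2
      exact hpq ((h.1 p h.2.1 q h.2.2).1 h1 h2)
    · exact h1 (if_neg h)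
  · intro Q _ m q0 hr ht ha
    let e := Fintype.equivFin Q
    let mat : List (List M) := List.ofFn fun p => List.ofFn fun q => m (e.symm p) (e.symm q)
    have hd : uniDec M (Encodable.encode (mat, (e q0 : ℕ))) = (mat, (e q0 : ℕ)) := by
      simp [uniDec]
    have hl : mat.length = Fintype.card Q := by simp [mat]
    have hm : ∀ p q : Fin (Fintype.card Q),
        uniM M (Encodable.encode (mat, (e q0 : ℕ))) p q = m (e.symm p) (e.symm q) := by
      intro p q
      unfold uniM
      rw [hd]
      simp [mat]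
    have hok : uniOk M (Encodable.encode (mat, (e q0 : ℕ))) := by
      unfold uniOk
      rw [hd]
      simp only [hl]
      intro p hp q hq
      refine ⟨fun h1 h2 => ?_, fun r hr => ?_⟩
      · have := ha _ _ (hm ⟨p, hp⟩ ⟨q, hq⟩ ▸ h1) (hm ⟨q, hq⟩ ⟨p, hp⟩ ▸ h2)
        simpa using this
      · have := ht (e.symm ⟨p, hp⟩) (e.symm ⟨q, hq⟩) (e.symm ⟨r, hr⟩)
        rwa [← hm, ← hm, ← hm] at this
    refine ⟨Encodable.encode (mat, (e q0 : ℕ)), fun q => e q, congrArg Prod.snd hd,
      fun p q => ?_⟩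
    unfold uniL
    by_cases hpq : p = q
    · subst hpq; rw [if_pos rfl, hr]
    · rw [if_neg (fun h => hpq (e.injective (Fin.ext h))), if_pos, hm]
      · simp
      · rw [hd]
        simp only [hl]
        exact ⟨hok, (e p).2, (e q).2⟩

/-- The point of block `j`, code `c` and index `p`. -/
def uniPt (j c p : ℕ) : ℕ := Nat.pair j (Nat.pair c p) + 1

/-- Block of a point. -/
def uniJ (u : ℕ) : ℕ := (u - 1).unpair.1

/-- Code of a point. -/
def uniC (u : ℕ) : ℕ := (u - 1).unpair.2.unpair.1

/-- Index of a point. -/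
def uniP (u : ℕ) : ℕ := (u - 1).unpair.2.unpair.2

@[simp] theorem uni_j (j c p : ℕ) : uniJ (uniPt j c p) = j := by simp [uniJ, uniPt]
@[simp] theorem uni_c (j c p : ℕ) : uniC (uniPt j c p) = c := by simp [uniC, uniPt]
@[simp] theorem uni_p (j c p : ℕ) : uniP (uniPt j c p) = p := by simp [uniP, uniPt]
theorem uni_ne (j c p : ℕ) : uniPt j c p ≠ 0 := Nat.succ_ne_zero _

theorem uni_eta {u : ℕ} (h : u ≠ 0) : uniPt (uniJ u) (uniC u) (uniP u) = u := by
  simp only [uniPt, uniJ, uniC, uniP, Nat.pair_unpair]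
  omega

theorem uni_pair_le {a b a' b' : ℕ} (h : a ≤ a') (h' : b ≤ b') :
    Nat.pair a b ≤ Nat.pair a' b' := by
  have h1 : Nat.pair a b ≤ Nat.pair a' b := by
    rcases h.lt_or_eq with h | h
    · exact (Nat.pair_lt_pair_left b h).le
    · rw [h]
  have h2 : Nat.pair a' b ≤ Nat.pair a' b' := by
    rcases h'.lt_or_eq with h | h
    · exact (Nat.pair_lt_pair_right a' h).le
    · rw [h]
  exact h1.trans h2

theorem uni_pt_le {j c p B : ℕ} (hj : j ≤ B) (hc : c ≤ B) (hp : p ≤ B) :
    uniPt j c p ≤ uniPt B B B := Nat.succ_le_succ (uni_pair_le hj (uni_pair_le hc hp))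

/-- Labels of the universal structure. -/
noncomputable def uniLab (l : ℕ → ℕ → ℕ → M) (base : ℕ → ℕ) (u v : ℕ) : M :=
  if u = 0 then ⊤ else if v = 0 then ⊥ else
    if uniJ u < uniJ v then l (uniC v) (base (uniC v)) (uniP v) else
      if uniJ u = uniJ v ∧ uniC u = uniC v then l (uniC v) (uniP u) (uniP v) else ⊥

/-- The finite parts of the universal structure. -/
def uniIn (base : ℕ → ℕ) (b u : ℕ) : Prop :=
  u = 0 ∨ (uniJ u < b ∧ uniC u < b ∧ uniP u < b) ∨ Bex (b + 1) fun j => u = uniPt j 0 (base 0)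

omit [Primcodable M] [Finite M] in
theorem uni_lab_lt {l : ℕ → ℕ → ℕ → M} {base : ℕ → ℕ} {u v : ℕ} (hu : u ≠ 0) (hv : v ≠ 0)
    (h : uniJ u < uniJ v) : uniLab l base u v = l (uniC v) (base (uniC v)) (uniP v) := by
  unfold uniLab
  rw [if_neg hu, if_neg hv, if_pos h]

omit [Primcodable M] [Finite M] in
theorem uni_lab_eq {l : ℕ → ℕ → ℕ → M} {base : ℕ → ℕ} {u v : ℕ} (hu : u ≠ 0) (hv : v ≠ 0)
    (h : uniJ u = uniJ v) (h' : uniC u = uniC v) :
    uniLab l base u v = l (uniC v) (uniP u) (uniP v) := by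
  unfold uniLab
  rw [if_neg hu, if_neg hv, if_neg (by omega), if_pos ⟨h, h'⟩]

omit [Primcodable M] [Finite M] in
theorem uni_lab_cases {l : ℕ → ℕ → ℕ → M} {base : ℕ → ℕ} {u v : ℕ} (hu : u ≠ 0) :
    uniLab l base u v = ⊥ ∨ (v ≠ 0 ∧ (uniJ u < uniJ v ∨ (uniJ u = uniJ v ∧ uniC u = uniC v))) := by
  by_cases hv : v = 0
  · left; unfold uniLab; rw [if_neg hu, if_pos hv]
  by_cases h1 : uniJ u < uniJ v
  · exact Or.inr ⟨hv, Or.inl h1⟩
  by_cases h2 : uniJ u = uniJ v ∧ uniC u = uniC v
  · exact Or.inr ⟨hv, Or.inr h2⟩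
  · left; unfold uniLab; rw [if_neg hu, if_neg hv, if_neg h1, if_neg h2]

theorem uni_in_j {base : ℕ → ℕ} {b u : ℕ} (h : uniIn base b u) (hu : u ≠ 0) : uniJ u ≤ b := by
  rcases h with h | h | ⟨j, hj, h⟩
  · exact absurd h hu
  · exact h.1.le
  · rw [h, uni_j]; omega

omit [Finite M] in
theorem uni_main (h : StCodes M) : StUni M := by
  intro hne hpr
  obtain ⟨l, base, cl, cb, hr, ht, ha, hu⟩ := h
  have hz : ∀ u, uniLab l base 0 u = ⊤ := fun u => if_pos rfl
  have hrefl : ∀ u, uniLab l base u u = ⊤ := fun u => by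
    by_cases h : u = 0
    · rw [h, hz]
    · rw [uni_lab_eq h h rfl rfl, hr]
  refine ⟨{
    lab := uniLab l base
    inU := uniIn base
    top := fun b => uniPt b 0 (base 0)
    bd := fun b => uniPt (b + base 0) (b + base 0) (b + base 0) + 1
    bot_ne := hne
    prime := hpr
    refl := hrefl
    trans := ?_
    anti := ?_
    zero_le := hz
    in_zero := fun b => Or.inl rfl
    in_mono := ?_
    in_lt := ?_
    in_top := fun b => Or.inr (Or.inr ⟨b, Nat.lt_succ_self b, rfl⟩)
    le_top := ?_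
    top_ne := uni_ne _ _ _
    c_lab := ?_
    c_inU := ?_
    c_top := ?_
    c_bd := ?_
    univ := ?_ }⟩
  · intro u v w
    by_cases h0 : u = 0
    · rw [h0, hz w]; exact le_top
    rcases uni_lab_cases (l := l) (base := base) (v := v) h0 with h | ⟨hv, h⟩
    · rw [h]; simp
    rcases uni_lab_cases (l := l) (base := base) (v := w) hv with h' | ⟨hw, h'⟩
    · rw [h']; simp
    rcases h' with h' | ⟨h1, h2⟩
    · rw [uni_lab_lt hv hw h', uni_lab_lt h0 hw (by omega)]
      exact inf_le_right
    · rcases h with h | ⟨h3, h4⟩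
      · rw [uni_lab_lt h0 hv h, uni_lab_eq hv hw h1 h2, uni_lab_lt h0 hw (by omega), h2]
        exact ht _ _ _ _
      · rw [uni_lab_eq h0 hv h3 h4, uni_lab_eq hv hw h1 h2,
          uni_lab_eq h0 hw (h3.trans h1) (h4.trans h2), h2]
        exact ht _ _ _ _
  · intro u v h1 h2
    by_cases h0 : u = 0
    · by_contra hv
      have hv' : v ≠ 0 := fun e => hv (h0.trans e.symm)
      rcases uni_lab_cases (l := l) (base := base) (v := u) hv' with h | ⟨h, _⟩
      · exact h2 h
      · exact h h0
    rcases uni_lab_cases (l := l) (base := base) (v := v) h0 with h | ⟨hv, h⟩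
    · exact absurd h h1
    rcases uni_lab_cases (l := l) (base := base) (v := u) hv with h' | ⟨_, h'⟩
    · exact absurd h' h2
    have hj : uniJ u = uniJ v := by omega
    have hc : uniC u = uniC v := by omega
    rw [uni_lab_eq h0 hv hj hc] at h1
    rw [uni_lab_eq hv h0 hj.symm hc.symm, hc] at h2
    rw [← uni_eta h0, ← uni_eta hv, hj, hc, ha _ _ _ h1 h2]
  · rintro b b' u hb (h | h | ⟨j, hj, h⟩)
    · exact Or.inl h
    · exact Or.inr (Or.inl (by omega))
    · exact Or.inr (Or.inr ⟨j, by omega, h⟩)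
  · intro b u h
    by_cases h0 : u = 0
    · omega
    refine Nat.lt_succ_of_le ?_
    rcases h with h | h | ⟨j, hj, h⟩
    · exact absurd h h0
    · rw [← uni_eta h0]; exact uni_pt_le (by omega) (by omega) (by omega)
    · rw [h]; exact uni_pt_le (by omega) (by omega) (by omega)
  · intro b u h
    by_cases h0 : u = 0
    · rw [h0, hz]
    by_cases hj : uniJ u < b
    · rw [uni_lab_lt h0 (uni_ne _ _ _) (by rw [uni_j]; exact hj), uni_c, uni_p, hr]
    · rcases h with h | h | ⟨j, hj', h⟩
      · exact absurd h h0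
      · exact absurd h.1 hj
      · rw [h, uni_j] at hj
        rw [h, show j = b by omega, hrefl]
  · have h1 : Computable fun z : ℕ × ℕ => l (uniC z.2) (base (uniC z.2)) (uniP z.2) :=
      c_comp (g := fun z : ℕ × ℕ => (uniC z.2, base (uniC z.2), uniP z.2)) cl
        (by unfold uniC uniP; fun_prop)
    have h2 : Computable fun z : ℕ × ℕ => l (uniC z.2) (uniP z.1) (uniP z.2) :=
      c_comp (g := fun z : ℕ × ℕ => (uniC z.2, uniP z.1, uniP z.2)) cl
        (by unfold uniC uniP; fun_prop)
    unfold uniLab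
    refine c_ite (by fun_prop) (by fun_prop) (c_ite (by fun_prop) (by fun_prop)
      (c_ite ?_ h1 (c_ite ?_ h2 (by fun_prop))))
    · unfold uniJ; fun_prop
    · unfold uniJ uniC; fun_prop
  · unfold uniIn uniJ uniC uniP uniPt; fun_prop
  · unfold uniPt; fun_prop
  · unfold uniPt; fun_prop
  · intro Q _ m q0 h1 h2 h3
    obtain ⟨c, i, hb, hi⟩ := hu Q m q0 h1 h2 h3
    refine ⟨c + Finset.univ.sup i, fun b hb0 => ⟨fun q => uniPt (b + 1) c (i q), fun q => ?_,
      fun p q => ?_, fun v q hv h0 => ?_⟩⟩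
    · have : i q ≤ Finset.univ.sup i := Finset.le_sup (Finset.mem_univ q)
      refine Or.inr (Or.inl ?_)
      rw [uni_j, uni_c, uni_p]
      omega
    · rw [uni_lab_eq (uni_ne _ _ _) (uni_ne _ _ _) (by simp) (by simp), uni_c, uni_p, uni_p, hi]
    · have := uni_in_j hv h0
      rw [uni_lab_lt h0 (uni_ne _ _ _) (by rw [uni_j]; omega), uni_c, uni_p, hb, hi]

theorem stUni (h : StCodes M) : StUni M := uni_main h

end MP750S
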