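import Mathlib

set_option linter.all false

section

/-! Definitions for the interval construction in the enumeration degrees. -/

set_option autoImplicit false

namespace Pool.Agent.MP_750bb3_lc

open Set

/-- r.e. sets of axioms. -/
def RE (W : ℕ × List ℕ → Prop) : Prop :=
  ∃ g : ℕ × List ℕ →. Unit, Partrec g ∧ ∀ p, W p ↔ (g p).Dom

/-- application of an arbitrary set of axioms -/
def App (W : ℕ × List ℕ → Prop) (Z : Set ℕ) : Set ℕ :=
  {x | ∃ D : List ℕ, (∀ y ∈ D, y ∈ Z) ∧ W (x, D)}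

/-- enumeration reducibility -/
def Red (A B : Set ℕ) : Prop := ∃ W, RE W ∧ ∀ x, x ∈ A ↔ x ∈ App W B

/-- join of two sets -/
def jn (A B : Set ℕ) : Set ℕ := {z | (z % 2 = 0 ∧ z / 2 ∈ A) ∨ (z % 2 = 1 ∧ z / 2 ∈ B)}

section table
variable {L : Type} [Lattice L] [BoundedOrder L]

def End (d : ℕ → ℕ → L) (h : ℕ → ℕ) : Prop := ∀ x y, d x y ≤ d (h x) (h y)

def Free (d : ℕ → ℕ → L) (c : L) (x y : ℕ) : Prop :=
  ∀ u v, c ≤ d u v → ∃ h, End d h ∧ h x = u ∧ h y = v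

structure IsTab (d : ℕ → ℕ → L) : Prop where
  refl : ∀ x, d x x = ⊤
  symm : ∀ x y, d x y = d y x
  tri : ∀ x y z, d x y ⊓ d y z ≤ d x z
  chain : ∀ x y a b, a ⊓ b ≤ d x y → ∃ u v w, a ≤ d x u ∧ b ≤ d u v ∧ a ≤ d v w ∧ b ≤ d w y
  gen : ∀ c, ∃ x y, d x y = c ∧ Free d c x y
  core : ∀ n x y, ¬ n ≤ d x y →
    ∃ x' y' c, n ≤ d x x' ∧ n ≤ d y y' ∧ ¬ n ≤ c ∧ Free d c x' y'

end table

/-- values at a location -/
inductive Th : Type
  | bot : Th
  | mid : ℕ → Th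
  | top : Th

namespace Th

def rel (r : ℕ → ℕ → Prop) : Th → Th → Prop
  | bot, _ => True
  | mid _, bot => False
  | mid x, mid y => r x y
  | mid _, top => True
  | top, bot => False
  | top, mid _ => False
  | top, top => True

def map (h : ℕ → ℕ) : Th → Th
  | bot => bot
  | mid x => mid (h x)
  | top => top

def code : Th → ℕ
  | bot => 0
  | mid x => x + 2
  | top => 1

def inb (r : ℕ) : Th → Prop
  | bot => True
  | mid x => x < r
  | top => True

end Th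

abbrev Cfg : Type := ℕ → Th

def InB (b : ℕ → ℕ) (T : Cfg) : Prop := ∀ i, (T i).inb (b i)

def Unb (b : ℕ → ℕ) : Prop := ∀ r, {i | b i ≤ r}.Finite

def trunc (N : ℕ) (T : Cfg) : Cfg := fun j => if j < N then T j else Th.bot

open Classical in
noncomputable def cfg (k η : ℕ) (Z : Set ℕ) : Cfg :=
  fun j => if j = k then Th.mid η else if j ∈ Z then Th.top else Th.bot

structure Good (σ : Set ℕ → Set ℕ) : Prop where
  mono : ∀ S S', S ⊆ S' → σ S ⊆ σ S'
  fin : ∀ S x, x ∈ σ S → ∃ N, x ∈ σ (S ∩ Iio N)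
  dec : ∃ g : ℕ → ℕ, Computable g ∧ ∀ S x, x ∈ S ↔ g x ∈ σ S

def Iv (lo hi : Set ℕ) : Prop := ∃ σ, Good σ ∧ σ ∅ = lo ∧ σ univ = hi

inductive Loc : Type
  | const : Th → Loc
  | via : ℕ → (ℕ → ℕ) → Loc

def Loc.ev : Loc → Cfg → Th
  | .const c, _ => c
  | .via k h, T => (T k).map h

def app (t : ℕ → Loc) (T : Cfg) : Cfg := fun j => (t j).ev T

abbrev Op : Type := Set ℕ → Cfg → Set ℕ

def Det {ι : Type} (I : ι → Prop) (Y Z : ι → Set ℕ) : Prop :=
  ∀ i, I i → ∀ x ∈ Y i, ∃ D : List ℕ, (∀ y ∈ D, y ∈ Z i) ∧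
    ∀ i', I i' → (∀ y ∈ D, y ∈ Z i') → x ∈ Y i'

section ops
variable {L : Type} [Lattice L] [BoundedOrder L]

def cle (d : ℕ → ℕ → L) (n : L) (T T' : Cfg) : Prop :=
  ∀ j, Th.rel (fun x y => n ≤ d x y) (T j) (T' j)

def X (d : ℕ → ℕ → L) (n : L) (T : Cfg) : Set ℕ :=
  {z | ∃ i θ, z = Nat.pair i (Th.code θ) ∧ Th.rel (fun x y => n ≤ d x y) θ (T i)}

structure Cont (d : ℕ → ℕ → L) (F : Op) : Prop where
  mono : ∀ S S' T T', S ⊆ S' → cle d ⊤ T T' → F S T ⊆ F S' T'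
  fin : ∀ S T x, x ∈ F S T → ∃ N, x ∈ F (S ∩ Iio N) (trunc N T)

structure Thin (d : ℕ → ℕ → L) (b b' : ℕ → ℕ) (t : ℕ → Loc) : Prop where
  hom : ∀ j k h, t j = .via k h → End d h ∧ ∀ x < b' k, h x < b j
  cb : ∀ j c, t j = .const c → c.inb (b j)
  cfin : {j | ∃ x, t j = .const (.mid x)}.Finite
  ffin : ∀ k, {j | ∃ h, t j = .via k h}.Finite
  main : ∀ k, ∃ j, t j = .via k id
  unb : Unb b'

def Test (d : ℕ → ℕ → L) (b : ℕ → ℕ) (O : Op) (l : L) : Prop :=
  ∃ lo hi b' t ζ ζ', Iv lo hi ∧ Thin d b b' t ∧ l ≤ d ζ ζ' ∧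
    {k | ¬ O lo (app t (cfg k ζ ∅)) ⊆ O hi (app t (cfg k ζ' univ))}.Infinite

end ops

/-- families used in the fusion arguments -/
structure Fam (U : ℕ → Set ℕ → Set ℕ → Set ℕ) : Prop where
  mono : ∀ k S S' Z Z', S ⊆ S' → Z ⊆ insert k Z' → U k S Z ⊆ U k S' Z'
  fin : ∀ k S Z η, η ∈ U k S Z → ∃ N, η ∈ U k S (Z ∩ Iio N)

structure St : Type where
  lo : Set ℕ
  hi : Set ℕ
  Y : Set ℕ
  Z : Set ℕ
  iv : Iv lo hi
  inf : Y.Infinite
  disj : Disjoint Y Z

def St.le (P' P : St) : Prop :=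
  P.lo ⊆ P'.lo ∧ P'.hi ⊆ P.hi ∧ P'.Y ⊆ P.Y ∧ P.Z ⊆ P'.Z ∧ P'.Z ⊆ P.Z ∪ P.Y

def St.In (U : ℕ → Set ℕ → Set ℕ → Set ℕ) (P : St) : Set ℕ :=
  {η | {k | k ∈ P.Y ∧ η ∉ U k P.lo P.Z}.Finite}

def St.Out (U : ℕ → Set ℕ → Set ℕ → Set ℕ) (P : St) : Set ℕ :=
  {η | {k | k ∈ P.Y ∧ η ∈ U k P.hi (P.Z ∪ P.Y)}.Finite}

/-! statements proved in separate files -/

def RedReflStm : Prop := ∀ A : Set ℕ, Red A A

def RedAdvStm : Prop := ∀ (F C Y : Set ℕ) (g : ℕ → ℕ), Computable g → Red F C →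
  (∀ x, x ∈ Y ↔ ∃ D : List ℕ, (∀ y ∈ D, y ∈ C) ∧ g (Encodable.encode (x, D)) ∈ F) → Red Y C

def ReEnumStm : Prop := ∃ Wn : ℕ → ℕ × List ℕ → Prop, ∀ W, RE W → ∃ e, Wn e = W

def TabStm : Prop := ∀ (L : Type) [Lattice L] [BoundedOrder L] [Countable L],
  ∃ d : ℕ → ℕ → L, IsTab d

end Pool.Agent.MP_750bb3_lc

end

section

/-! Basic facts on enumeration reducibility. -/

set_option autoImplicit false

namespace Pool.Agent.MP_750bb3_lc

open Nat.Partrec (Code)
open Encodable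

theorem re_iff {W : ℕ × List ℕ → Prop} : RE W ↔ REPred W := by
  constructor
  · rintro ⟨g, hg, h⟩
    exact hg.dom_re.of_eq fun p => (h p).symm
  · intro h
    exact ⟨_, h, fun p => by simp [Part.dom_iff_mem]⟩

theorem rep_code {α : Type} [Primcodable α] {P : α → Prop} (hP : REPred P) :
    ∃ c : Code, ∀ a, P a ↔ (c.eval (encode a)).Dom := by
  obtain ⟨c, hc⟩ := Code.exists_code.mp hP
  refine ⟨c, fun a => ?_⟩
  rw [hc]
  simp [Part.dom_iff_mem]

theorem rep_comp {α β : Type} [Primcodable α] [Primcodable β] {P : β → Prop} {f : α → β}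
    (hP : REPred P) (hf : Computable f) : REPred fun a => P (f a) :=
  Partrec.comp hP hf

theorem rep_and {α : Type} [Primcodable α] {P Q : α → Prop} (hP : REPred P) (hQ : REPred Q) :
    REPred fun a => P a ∧ Q a := by
  have h : Partrec fun a => (Part.assert (P a) fun _ => Part.some ()).bind
      fun _ => Part.assert (Q a) fun _ => Part.some () :=
    Partrec.bind hP (Partrec.comp hQ Computable.fst).to₂
  exact h.dom_re.of_eq fun a => by simp [Part.dom_iff_mem]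

theorem rep_ex {α β : Type} [Primcodable α] [Primcodable β] {P : α × β → Prop}
    (hP : REPred P) : REPred fun a => ∃ b, P (a, b) := by
  obtain ⟨c, hc⟩ := rep_code hP
  have h1 : Computable₂ fun (a : α) (t : ℕ) =>
      (decode (α := β) t.unpair.2).bind fun b => Code.evaln t.unpair.1 c (encode (a, b)) := by
    refine Primrec.to_comp ?_
    refine Primrec.option_bind (Primrec.decode.comp (Primrec.snd.comp
      (Primrec.unpair.comp Primrec.snd))) ?_
    exact Code.primrec_evaln.comp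
      (((Primrec.fst.comp (Primrec.unpair.comp (Primrec.snd.comp Primrec.fst))).pair
        (Primrec.const c)).pair
        (Primrec.encode.comp ((Primrec.fst.comp Primrec.fst).pair Primrec.snd)))
  refine (Partrec.rfindOpt h1).dom_re.of_eq fun a => ?_
  rw [Nat.rfindOpt_dom]
  constructor
  · rintro ⟨t, x, hx⟩
    rw [Option.mem_def, Option.bind_eq_some_iff] at hx
    obtain ⟨b, -, hb⟩ := hx
    exact ⟨b, (hc _).2 (Part.dom_iff_mem.2 ⟨x, Code.evaln_sound hb⟩)⟩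
  · rintro ⟨b, hb⟩
    obtain ⟨x, hx⟩ := Part.dom_iff_mem.1 ((hc _).1 hb)
    obtain ⟨k, hk⟩ := Code.evaln_complete.mp hx
    refine ⟨Nat.pair k (encode b), x, ?_⟩
    rw [Nat.unpair_pair, encodek]
    exact hk

theorem red_refl : RedReflStm := by
  intro A
  refine ⟨fun p => p.2 = [p.1], re_iff.2 ?_, fun x => ?_⟩
  · refine (PrimrecPred.computablePred ?_).to_re
    exact Primrec.eq.comp Primrec.snd (Primrec.list_cons.comp Primrec.fst (Primrec.const []))
  · constructor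
    · intro hx
      exact ⟨[x], by simpa using hx, rfl⟩
    · rintro ⟨D, hD, h⟩
      dsimp only at h
      subst h
      exact hD x (by simp)

theorem re_enum : ReEnumStm := by
  refine ⟨fun e p => ((Denumerable.ofNat Code e).eval (encode p)).Dom, fun W hW => ?_⟩
  obtain ⟨c, hc⟩ := rep_code (re_iff.1 hW)
  refine ⟨encode c, funext fun p => propext ?_⟩
  show ((Denumerable.ofNat Code (encode c)).eval (encode p)).Dom ↔ W p
  rw [Denumerable.ofNat_encode]
  exact (hc p).symm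

theorem red_adv : RedAdvStm := by
  rintro F C Y g hg ⟨V, hV, hF⟩ hY
  refine ⟨fun p => ∃ q : List ℕ × List ℕ,
    p.2 = q.1 ++ q.2 ∧ V (g (encode (p.1, q.1)), q.2), re_iff.2 ?_, fun x => ?_⟩
  · refine rep_ex (P := fun r : (ℕ × List ℕ) × (List ℕ × List ℕ) =>
      r.1.2 = r.2.1 ++ r.2.2 ∧ V (g (encode (r.1.1, r.2.1)), r.2.2)) (rep_and ?_ ?_)
    · refine (PrimrecPred.computablePred ?_).to_re
      exact Primrec.eq.comp (Primrec.snd.comp Primrec.fst)
        (Primrec.list_append.comp (Primrec.fst.comp Primrec.snd) (Primrec.snd.comp Primrec.snd))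
    · refine rep_comp (re_iff.1 hV) (Computable.pair (hg.comp ?_) ?_)
      · exact (Primrec.encode.comp ((Primrec.fst.comp Primrec.fst).pair
          (Primrec.fst.comp Primrec.snd))).to_comp
      · exact (Primrec.snd.comp Primrec.snd).to_comp
  · rw [hY]
    constructor
    · rintro ⟨D, hD, h⟩
      obtain ⟨E, hE, hV'⟩ := (hF _).1 h
      refine ⟨D ++ E, fun y hy => ?_, (D, E), rfl, hV'⟩
      rcases List.mem_append.1 hy with hy | hy
      · exact hD y hy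
      · exact hE y hy
    · rintro ⟨E, hE, ⟨D, D'⟩, h1, h2⟩
      dsimp only at h1 h2
      subst h1
      exact ⟨D, fun y hy => hE y (List.mem_append_left _ hy),
        (hF _).2 ⟨D', fun y hy => hE y (List.mem_append_right _ hy), h2⟩⟩

end Pool.Agent.MP_750bb3_lc

end
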