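import Pool.Agent.Mg.F750bb3.Gef4572
import Pool.Agent.Mg.F750bb3.G5bc40e
import Pool.Agent.Mg.F750bb3.G0f7a58

set_option linter.all false

section

/-! The steps put together. -/

set_option autoImplicit false

namespace MP750S

variable {M : Type} [Lattice M] [BoundedOrder M] [Primcodable M] {U : Uni M}

theorem stFus (hA : StFusA U) (hB : StFusB U) : StFus U := fun S β _ Q hQ hS => by
  obtain ⟨D, u, st, r, R, h⟩ := hA S β Q hQ hS
  obtain ⟨T, hT⟩ := hB S β Q D u st r R h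
  exact ⟨T, r, hT⟩

theorem stActSat (easy : StEasy U) (rel : StRel U) (fus : StFus U) (iR : StInitR U)
    (iA : StInitA U) (iB : StInitB U) (iC : StInitC U) (att : StAtt0 U) (aR : StAbsR U)
    (aA : StAbsA U) (aB : StAbsB U) (aC : StAbsC U) (fail : StFail U) (extr : StExtract U) :
    StActSat U := by
  intro S S1 P a hS hP hact hno S' hS' b s G hG hs hyp
  by_cases hs0 : s = 0
  · exact easy S' b s G hs (Or.inl hs0) hyp
  have ha := hact.a_ne
  obtain ⟨T0, h0⟩ := rel S S1 S' P a hact hS'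
  obtain ⟨T1, r1, h1⟩ := fus T0 AnT _ (r_QF (iR S T0 P a b s G hP hG ha))
    (iA S S1 S' T0 P a b s G hact hS' h0 hs hyp)
  have a1 := iB S S' T0 T1 P a b s G r1 h0 hs h1 (iC S S1 S' T0 T1 P a b s G r1 hact hS' h0 hs hs0 h1)
  have absorb : ∀ T an p Tg, REPred Tg → U.inU b p → Ann S S' P a b s G T an → Att T an b p Tg →
      ((∀ j, aK (an j) = []) ∨ (p = s ∧ ∀ z, Tg z → Sub z.2.1 (lset z.2.2))) →
      ∃ T' an', Ann S S' P a b s G T' an' ∧ (∀ j, aK (an' j) = []) ∧ Done T' an' p Tg ∧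
        ∀ p' Tg', U.inU b p' → Done T an p' Tg' → Done T' an' p' Tg' :=
    fun T an p Tg hTg hp hA hatt hC => by
      obtain ⟨T', r, h⟩ := fus T AnT _ (r_QF (aR T an b p Tg hA.comp hTg))
        (aA S S' T P a b s G an p Tg hS hTg hs hp hA hatt)
      exact ⟨T', _, aB S S' T T' P a b s G an p Tg r hs hp hA hC h
        (aC S S' T T' P a b s G an p Tg r ha hs0 hs hA h)⟩
  obtain ⟨T2, an2, a2, k2, _⟩ := absorb T1 _ s TgF (by unfold TgF; fun_prop) hs a1
    (att S S' T1 P a b s G _ hs a1) (Or.inr ⟨rfl, fun _ h => h⟩)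
  have hE : REPred (TgE P) := r_sub_app_lset hP (by fun_prop) (by fun_prop)
  have main : ∀ n, ∃ T an, Ann S S' P a b s G T an ∧ (∀ j, aK (an j) = []) ∧
      ∀ p, p < n → U.inU b p → a ≤ U.lab s p → Done T an p (TgE P) := fun n => by
    induction n with
    | zero => exact ⟨T2, an2, a2, k2, fun _ h => absurd h (Nat.not_lt_zero _)⟩
    | succ n ih =>
      obtain ⟨T, an, hA, hK, hD⟩ := ih
      by_cases h : U.inU b n ∧ a ≤ U.lab s n ∧ n ≠ s
      · have hatt : Att T an b n (TgE P) := by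
          by_contra hn
          obtain ⟨T', t1, t2⟩ := fail S S' T P a b s G an n hP hs h.1 h.2.2
            (fun e => ha (le_bot_iff.1 (e ▸ h.2.1))) hA hK hn
          exact hno _ h.2.1 T' (t1.trans hA.ext) t2
        obtain ⟨T', an', b1, b2, b3, b4⟩ := absorb T an n _ hE h.1 hA hatt (Or.inl hK)
        refine ⟨T', an', b1, b2, fun p hp h2 h3 => ?_⟩
        rcases Nat.lt_succ_iff_lt_or_eq.1 hp with h4 | rfl
        · exact b4 p _ h2 (hD p h4 h2 h3)
        · exact b3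
      · refine ⟨T, an, hA, hK, fun p hp h2 h3 => ?_⟩
        rcases Nat.lt_succ_iff_lt_or_eq.1 hp with h4 | rfl
        · exact hD p h4 h2 h3
        · obtain rfl : p = s := by
            by_contra e
            exact h ⟨h2, h3, e⟩
          exact fun j w hj hw h5 => ⟨aF (an j), hA.src j w hj hw h5
            (by rw [hK]; exact Uni.le_nil w), hA.esup j hj⟩
  obtain ⟨T, an, hA, hK, hD⟩ := main (U.bd b)
  exact extr S S' T P a b s G an ha hs0 hs hA hK fun p hp => hD p (U.in_lt b p hp) hp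

theorem stM (lev : StLevel U) (dec : StDecode U) (act : StAct U) (actW : StActW U)
    (sat : StActSat U) : StM U := by
  intro S P a0 hS hP h0
  obtain ⟨S1, a, h1, h2, h3⟩ := lev S P hS hP
  obtain ⟨S2, h4, h5⟩ := dec S1 P a h2
  have hS2 := hS.ext (h4.trans h1)
  by_cases ha : a = ⊥
  · obtain ⟨T, hT⟩ := act S2 P a0 hP h0
    obtain ⟨w1, w2⟩ := actW S2 T P a0 hT
    exact ⟨T, sat S2 T P a0 hS2 hP hT fun d _ T' e => h3 d (ha ▸ bot_le) T' (e.trans h4),
      w1.trans (h4.trans h1).wext, fun w l c => Or.inl (w2 w l c)⟩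
  · obtain ⟨T, hT⟩ := act S2 P a hP ha
    obtain ⟨w1, w2⟩ := actW S2 T P a hT
    exact ⟨T, sat S2 T P a hS2 hP hT fun d hd T' e => h3 d hd T' (e.trans h4),
      w1.trans (h4.trans h1).wext, fun w l c => Or.inr ⟨a, ha, w2 w l c, h5 w (w1.lim' l)⟩⟩

theorem red_B [Finite M] {c d : M} (h : c ≤ d) (w : ℕ → ℕ) : Red (U.B c w) (U.B d w) := by
  refine ⟨fun z => ∃ v, c ≤ U.lab z.1.unpair.2 v ∧ z.2 = [Nat.pair z.1.unpair.1 v], by fun_prop,
    Set.ext fun n => ⟨fun hn => ⟨[Nat.pair n.unpair.1 (w n.unpair.1)], fun y hy => ?_,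
      w n.unpair.1, hn, rfl⟩, ?_⟩⟩
  · rw [List.mem_singleton.1 hy, Uni.mem_B, U.refl]; exact le_top
  · rintro ⟨D, h1, v, h2, h3⟩
    obtain rfl : D = [Nat.pair n.unpair.1 v] := h3
    exact (le_inf h2 (h.trans (Uni.mem_B.1 (h1 _ (List.mem_singleton.2 rfl))))).trans
      (U.trans _ _ _)

theorem stMain [Finite M] (base : StBase U) (easy : StEasy U) (hT : StT U) (hM : StM U)
    (gen : StGen U) : StMain U := by
  intro a0 h0
  obtain ⟨S0, hS0⟩ := base
  have sat : Sat S0 := fun T e b s G _ hs h => easy T b s G hs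
    (Or.inr fun m hm => ((e.mark m hm).resolve_left fun h' => hS0 m h'.1).2) h
  obtain ⟨Wn, hW⟩ := Pool.Agent.MP_750bb3_lc.re_enum
  obtain ⟨f, hf⟩ := exists_surjective_nat (ℕ × M × M)
  obtain ⟨w, hw⟩ := gen S0 (fun n w => REPred (Wn (f n).1) →
    (¬ (f n).2.1 ≤ (f n).2.2 → U.B (f n).2.1 w ≠ app (Wn (f n).1) (U.B (f n).2.2 w)) ∧
    (Red (app (Wn (f n).1) (U.B ⊤ w)) (U.B a0 w) ∨ ∃ a, a ≠ ⊥ ∧
      Red (app (Wn (f n).1) (U.B ⊤ w)) (U.B a w) ∧ Red (U.B a w) (app (Wn (f n).1) (U.B ⊤ w))))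
    sat fun n S hS => by
      by_cases hP : REPred (Wn (f n).1)
      · obtain ⟨S1, e1, h1⟩ : ∃ S1, Ext S1 S ∧ ∀ w, S1.Lim ∅ w → ¬ (f n).2.1 ≤ (f n).2.2 →
            U.B (f n).2.1 w ≠ app (Wn (f n).1) (U.B (f n).2.2 w) := by
          by_cases h : (f n).2.1 ≤ (f n).2.2
          · exact ⟨S, Ext.refl S, fun _ _ h' => absurd h h'⟩
          · obtain ⟨T, t1, t2⟩ := hT S _ _ _ hS h hP
            exact ⟨T, t1, fun w l _ => t2 w l⟩
        obtain ⟨T, t1, t2, t3⟩ := hM S1 _ a0 (hS.ext e1) hP h0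
        exact ⟨T, t1, t2.trans e1.wext, fun w l c _ => ⟨h1 w (t2.lim' l), t3 w l c⟩⟩
      · exact ⟨S, hS, (Ext.refl S).wext, fun _ _ _ h => absurd h hP⟩
  refine ⟨w, fun c d => ⟨fun h => red_B h w, ?_⟩, ?_⟩
  · rintro ⟨P, hP, e⟩
    obtain ⟨i, rfl⟩ := hW P (Pool.Agent.MP_750bb3_lc.re_iff.2 hP)
    obtain ⟨n, hn⟩ := hf (i, c, d)
    have := hw n
    rw [hn] at this
    by_contra h
    exact (this hP).1 h e
  · rintro C ⟨P, hP, rfl⟩
    obtain ⟨i, rfl⟩ := hW P (Pool.Agent.MP_750bb3_lc.re_iff.2 hP)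
    obtain ⟨n, hn⟩ := hf (i, ⊥, ⊥)
    have := hw n
    rw [hn] at this
    exact (this hP).2

end MP750S

end

section

/-! The level of an operator, decoding, the base system and the generic chain. -/

set_option autoImplicit false

namespace MP750S

variable {M : Type} [Lattice M] [BoundedOrder M] [Primcodable M] {U : Uni M}

theorem not_dec_top (S : Sys U) (P : ℕ × List ℕ → Prop) : ¬ S.Dec P ⊤ := by
  rintro ⟨Q, _, h1, h2⟩
  have hw := Sys.fl_zero (S := S) ∅
  have e : S.mkW (fun _ => 0) (S.fr 0) = 0 := Sys.mkW_live Sys.valid_zero (Or.inl (S.free_fr 0))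
  refine h1 _ _ 0 hw (S.free_fr 0) (U.in_zero _) (U.zero_le _) ?_
  rw [e]
  exact h2 _ _ 0 0 hw.1 (S.free_fr 0) (U.in_zero _) (U.in_zero _) (U.refl 0) (U.zero_le _)

theorem stLevel [Finite M] (hA : StSerA U) (hB : StSerB U) : StLevel U := by
  classical
  intro S P hS hP
  have := Fintype.ofFinite M
  let f : Sys U → ℕ := fun T => (Finset.univ.filter fun d => T.Dec P d).card
  have hb : ∀ T, f T ≤ Fintype.card M := fun T => Finset.card_le_univ _
  obtain ⟨S1, h1, h2⟩ : ∃ S1, Ext S1 S ∧ ∀ T, Ext T S → f T ≤ f S1 := by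
    have hex : ∃ n, ∃ T, Ext T S ∧ f T + n = Fintype.card M :=
      ⟨Fintype.card M - f S, S, Ext.refl S, by have := hb S; omega⟩
    obtain ⟨S1, h1, h2⟩ := Nat.find_spec hex
    refine ⟨S1, h1, fun T hT => ?_⟩
    have := Nat.find_min' hex (m := Fintype.card M - f T) ⟨T, hT, by have := hb T; omega⟩
    have := hb T
    omega
  have hmax : ∀ T d, Ext T S1 → T.Dec P d → S1.Dec P d := fun T d hT hd => by
    have e := Finset.eq_of_subset_of_card_le (s := Finset.univ.filter fun d => S1.Dec P d)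
      (t := Finset.univ.filter fun d => T.Dec P d)
      (fun c hc => by
        simp only [Finset.mem_filter, Finset.mem_univ, true_and] at hc ⊢
        exact hc.ext hT) (h2 T (hT.trans h1))
    have : d ∈ Finset.univ.filter fun d => S1.Dec P d := by
      rw [e]; simpa using hd
    simpa using this
  have ser : ∀ d d1 d2, ¬ S1.Dec P d1 → ¬ S1.Dec P d2 → d1 ⊓ d2 ≤ d → ¬ S1.Dec P d := by
    rintro d d1 d2 n1 n2 hle ⟨Q, hQ, q1, q2⟩
    by_cases h : SerA S1 P Q d d2
    · obtain ⟨T, t1, t2⟩ := hA S1 P Q d d2 (hS.ext h1) hP hQ q1 h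
      exact n2 (hmax T _ t1 t2)
    · obtain ⟨T, t1, t2⟩ := hB S1 P Q d d1 d2 hP hQ q2 hle h
      exact n1 (hmax T _ t1 t2)
  have ha : ¬ S1.Dec P ((Finset.univ.filter fun d => ¬ S1.Dec P d).inf id) :=
    Finset.inf_induction (p := fun d => ¬ S1.Dec P d) (not_dec_top S1 P)
      (fun x hx y hy => ser _ x y hx hy le_rfl) fun d hd => by simpa using hd
  refine ⟨S1, _, h1, fun d hd => ?_, fun d hd T hT h =>
    ser d _ _ ha ha (by rwa [inf_idem]) (hmax T d hT h)⟩
  by_contra h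
  exact hd (Finset.inf_le (f := id) (by simpa using h))

omit [Lattice M] [BoundedOrder M] in
/-- A c.e. predicate with a parameter from a finite type. -/
theorem r_fin {α : Type} [Primcodable α] [Finite M] {Q : M → α → Prop} (h : ∀ d, REPred (Q d)) :
    REPred fun z : M × α => Q z.1 z.2 := by
  have := Fintype.ofFinite M
  have key : ∀ l : List M, REPred fun z : M × α => ∃ d ∈ l, z.1 = d ∧ Q d z.2 := fun l => by
    induction l with
    | nil => exact (r_const False).of_eq fun z => by simp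
    | cons d l ih =>
      exact (r_or (r_and (p := fun z : M × α => z.1 = d) (by fun_prop)
        (r_comp (h d) Computable.snd)) ih).of_eq fun z => by
          simp only [List.mem_cons, exists_eq_or_imp]
  exact (key Finset.univ.toList).of_eq fun z => by simp

/-- Finitely many monotone demands have a common finite use. -/
theorem use_ball {X : Set ℕ} {Φ : ℕ → List ℕ → Prop}
    (mono : ∀ t D D', Sub D (lset D') → Φ t D → Φ t D') (n : ℕ)
    (h : ∀ t < n, ∃ D, Sub D X ∧ Φ t D) : ∃ D, Sub D X ∧ ∀ t < n, Φ t D := by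
  induction n with
  | zero => exact ⟨[], sub_nil _, fun _ h => absurd h (Nat.not_lt_zero _)⟩
  | succ n ih =>
    obtain ⟨D, h1, h2⟩ := ih fun t ht => h t (by omega)
    obtain ⟨D', h3, h4⟩ := h n (Nat.lt_succ_self n)
    refine ⟨D ++ D', sub_append.2 ⟨h1, h3⟩, fun t ht => ?_⟩
    rcases Nat.lt_succ_iff_lt_or_eq.1 ht with h5 | rfl
    · exact mono _ _ _ (fun _ => List.mem_append_left _) (h2 t h5)
    · exact mono _ _ _ (fun _ => List.mem_append_right _) h4

theorem stDecode [Finite M] (hc : StCopy U) : StDecode U := by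
  intro S P a hd
  obtain ⟨T, c, h1, h2, h3, h4⟩ := hc S
  have : ∀ d, ∃ Q : ℕ × List ℕ → Prop, REPred Q ∧ (¬ a ≤ d → S.DecN P Q d ∧ S.DecP P Q d) :=
    fun d => by
      by_cases h : a ≤ d
      · exact ⟨fun _ => False, r_const _, fun h' => absurd h h'⟩
      · obtain ⟨Q, q⟩ := hd d h
        exact ⟨Q, q.1, fun _ => q.2⟩
  choose Q hQ hQ' using this
  have hQ2 := r_fin hQ
  refine ⟨T, h1, fun w hw => ⟨fun z => ∀ t, U.inU (T.bud (T.par z.1.unpair.1)) t →
    ¬ a ≤ U.lab z.1.unpair.2 (T.hom z.1.unpair.1 t) → ∃ s, U.inU (T.bud (T.par z.1.unpair.1)) s ∧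
      ¬ a ≤ U.lab s t ∧ ∃ D, Sub D (lset z.2) ∧ Q (U.lab s t) (cd (c (T.par z.1.unpair.1)) s t, D),
    ?_, Set.ext fun n => ?_⟩⟩
  · refine r_allU (by fun_prop) (r_imp (by fun_prop) (r_ex (r_and (by fun_prop)
      (r_and (by fun_prop) (r_ex (r_and (by fun_prop) ?_))))))
    have h := r_comp (g := fun y : ((((ℕ × List ℕ) × ℕ) × ℕ) × List ℕ) => (U.lab y.1.2 y.1.1.2,
      (cd (c (T.par y.1.1.1.1.unpair.1)) y.1.2 y.1.1.2, y.2))) hQ2 (by fun_prop)
    exact h
  have hv := T.par_live n.unpair.1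
  have hS := h1.lim' hw
  have hin : ∀ t, U.inU (T.bud (T.par n.unpair.1)) t → U.inU (S.bud (c (T.par n.unpair.1))) t :=
    fun t ht => U.in_mono _ _ _ (h3 _ hv).2 ht
  have h0 := hw.1.1 _ hv
  constructor
  · intro hn
    have hn' : a ≤ U.lab n.unpair.2 (T.hom n.unpair.1 (w (T.par n.unpair.1))) := by
      rw [← hw.1.2]; exact hn
    obtain ⟨D, d1, d2⟩ := use_ball (X := app P (U.B ⊤ w)) (Φ := fun t D' =>
      U.inU (T.bud (T.par n.unpair.1)) t → ¬ a ≤ U.lab n.unpair.2 (T.hom n.unpair.1 t) →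
      ∃ s, U.inU (T.bud (T.par n.unpair.1)) s ∧ ¬ a ≤ U.lab s t ∧
        ∃ D, Sub D (lset D') ∧ Q (U.lab s t) (cd (c (T.par n.unpair.1)) s t, D))
      (fun t D D' h h' ht hb => by
        obtain ⟨s, s1, s2, E, s3, s4⟩ := h' ht hb
        exact ⟨s, s1, s2, E, s3.mono h.lset, s4⟩) (U.bd (T.bud (T.par n.unpair.1))) fun t _ => by
        by_cases ht : U.inU (T.bud (T.par n.unpair.1)) t ∧
          ¬ a ≤ U.lab n.unpair.2 (T.hom n.unpair.1 t)
        · have hl : ¬ a ≤ U.lab (w (T.par n.unpair.1)) t := fun h =>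
            ht.2 ((le_inf hn' (h.trans (T.hom_lab _ _ _ h0 ht.1))).trans (U.trans _ _ _))
          obtain ⟨D, d1, d2⟩ := (hQ' _ hl).2 w _ _ t hS.1 (h3 _ hv).1 (hin _ h0) (hin _ ht.1) rfl
            (by rw [h4 _ w hv hw.1]; exact U.refl _)
          exact ⟨D, d1, fun _ _ => ⟨_, h0, hl, D, sub_self D, d2⟩⟩
        · exact ⟨[], sub_nil _, fun h h' => absurd ⟨h, h'⟩ ht⟩
    exact ⟨D, d1, fun t ht => d2 t (U.in_lt _ _ ht) ht⟩
  · rintro ⟨D, d1, d2⟩
    by_contra hn
    obtain ⟨s, s1, s2, E, s3, s4⟩ := d2 _ h0 (by rw [← hw.1.2]; exact hn)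
    refine (hQ' _ s2).1.lim hS (h3 _ hv).1 (hin _ s1) (by rw [h4 _ w hv hw.1]) ?_
    rw [h4 _ w hv hw.1]
    exact ⟨E, s3.mono d1.lset, s4⟩

theorem stBase : StBase U :=
  ⟨{ fr := fun i => i, idx := fun i => i, lev := fun _ => ⊥, bud := fun i => i, par := fun i => i
     hom := fun _ u => u, sup := fun _ => False, grp := fun _ => 0, N := 0
     c_fr := Computable.id, c_idx := Computable.id, c_lev := Computable.const _
     c_bud := Computable.id, c_par := Computable.id, c_hom := Computable.snd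
     c_grp := Computable.const _, re_sup := r_const _, idx_fr := fun _ => rfl
     disj := fun _ _ => rfl, bud_fr := fun _ => le_rfl, bud_big := fun k => ⟨k, fun _ h _ => h⟩
     par_live := fun _ => Or.inl rfl, par_self := fun _ _ => rfl, hom_self := fun _ _ _ _ => rfl
     hom_lab := fun _ _ _ _ _ => le_rfl, grp_free := fun _ _ => rfl
     grp_lt := fun _ h => absurd rfl h, grp_inf := fun _ _ h => absurd h.2 (Nat.not_lt_zero _)
     grp_sup := fun _ _ _ _ _ _ _ h => h }, fun _ h => h rfl⟩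

theorem WExt.refl (S : Sys U) : WExt S S := (Ext.refl S).wext

theorem stGen (hs : StStep U) : StGen U := by
  intro S0 ρ h0 hρ
  choose T hT1 hT2 hT3 using hρ
  choose St hS1 hS2 hS3 using hs
  let C : ℕ → {S : Sys U // Sat S} := fun n => Nat.rec ⟨S0, h0⟩
    (fun k S => ⟨St (T k S.1 S.2) k k.unpair.1, (hT1 k S.1 S.2).ext (hS1 _ _ _)⟩) n
  let R : ℕ → Sys U := fun k => T k (C k).1 (C k).2
  have e1 : ∀ k, WExt (R k) (C k).1 := fun k => hT2 k _ _
  have e2 : ∀ k, Ext (C (k + 1)).1 (R k) := fun k => hS1 _ _ _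
  have e3 : ∀ k j, k ≤ j → WExt (C j).1 (C k).1 := fun k j h => by
    induction h with
    | refl => exact WExt.refl _
    | step _ ih => exact ((e2 _).wext.trans (e1 _)).trans ih
  have e4 : ∀ k j, k < j → WExt (C j).1 (R k) := fun k j h => (e3 _ _ h).trans (e2 k).wext
  let z : ℕ → ℕ → ℕ := fun j => (C j).1.mkW fun _ => 0
  have hz : ∀ j, (C j).1.World (z j) := fun j => Sys.mkW_world Sys.valid_zero
  let w : ℕ → ℕ := fun g => z (g + 2) g
  have dec : ∀ j v g, (C j).1.World v → g + 2 ≤ j → v g = w g := fun j v g hv hg =>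
    hS2 (R (g + 1)) (g + 1) _ v (z (g + 2)) g ((e3 _ _ hg).world v hv) (hz (g + 2))
      (Nat.lt_succ_self g)
  have wor : ∀ (S : Sys U) k, (∀ j, k ≤ j → S.World (z j)) → S.World w := fun S k h =>
    ⟨fun g hg => by
      rw [← dec (max k (g + 2)) _ g (hz _) (le_max_right _ _)]
      exact (h _ (le_max_left _ _)).1 g hg,
    fun g => by
      rw [← dec (max k (max (g + 2) (S.par g + 2))) _ g (hz _) (by omega),
        ← dec (max k (max (g + 2) (S.par g + 2))) _ (S.par g) (hz _) (by omega)]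
      exact (h _ (le_max_left _ _)).2 g⟩
  have wc : ∀ j, (C j).1.World w := fun j => wor _ j fun i hi => (e3 _ _ hi).world _ (hz i)
  refine ⟨w, fun k => hT3 k (C k).1 (C k).2 w ?_ fun m hm hg hsup => ?_⟩
  · refine Sys.lim_of_lim ((e4 k (k + 1) (Nat.lt_succ_self k)).world w (wc (k + 1))) fun n =>
      ⟨z (max (k + 1) (n + 2)), (e4 k _ (by omega)).lim _ (Sys.fl_zero ∅),
        Sys.zero_le_world (wc _), fun g hg => dec _ _ g (hz _) (by omega)⟩
  · obtain ⟨F, f1, f2⟩ := hsup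
    obtain ⟨n, hn⟩ := Uni.use_B f1
    obtain ⟨j, hj1, hj2⟩ : ∃ j : ℕ, j.unpair.1 = (R k).grp m ∧ max (k + 1) (n + 2) ≤ j :=
      ⟨Nat.pair ((R k).grp m) (max (k + 1) (n + 2)), by simp, Nat.right_le_pair _ _⟩
    have e5 : WExt (R j) (R k) := (e1 j).trans (e4 k j (by omega))
    have hp := (R k).grp_lt m hg
    obtain ⟨m1, _, a1, a2⟩ := (R j).grp_inf _ 0 (hp.mono e5.N)
    obtain ⟨b1, b2, b3⟩ := e5.mark m1 a1 (a2 ▸ hp)
    obtain ⟨m', c1, c2, c3⟩ := hS3 (R j) j j.unpair.1 ⟨m1, a1, a2.trans hj1.symm, F,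
      hn _ fun g hg => dec j _ g ((e1 j).world _ (Sys.mkW_world Sys.valid_zero)) (by omega),
      (b3 F).2 ((R k).grp_sup m m1 F hm b1 hg (b2.trans a2).symm f2)⟩
    obtain ⟨d1, d2, _⟩ := e5.mark m' c1 (by rw [c2, hj1]; exact hp)
    exact ⟨m', d1, d2.trans (c2.trans hj1), c3 w (wc (j + 1))⟩

end MP750S

end

section

/-! Annotated systems from fusions, and the first attainable target. -/

set_option autoImplicit false

namespace MP750S

variable {M : Type} [Lattice M] [BoundedOrder M] [Primcodable M] {U : Uni M}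

theorem mkW_one {T : Sys U} {v g : ℕ} (h : T.par g = v) (p : ℕ) :
    T.mkW (Function.update (fun _ => 0) v p) g = T.hom g p := by
  show T.hom g (Function.update (fun _ => 0) v p (T.par g)) = _
  rw [h, Function.update_self]

theorem stInitB : StInitB U := by
  intro S S' T0 T P a b s G r hr hs hf hsl
  refine ⟨hf.ext.trans hr.ext, fun w hw => (hr.world w).1 (hf.ext.world w hw), ?_,
    fun j hj => (hf.unit hj).1, fun j hj => ?_, fun b1 e n he => ?_, fun j m hj hm => ?_,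
    fun n => ?_, fun j w hj hw h1 h2 => ?_, fun j hj => (hf.unit hj).2.2.1.2.2.1,
    fun j hj => ?_, fun j w p hj hw hp h1 => ?_, hsl, fun v _ => ?_⟩
  · have := hf.comp
    fun_prop
  · rw [(hf.main j).1]; exact (hf.unit hj).2.1.hom
  · obtain ⟨j, k1, h⟩ := hf.rich n he
    exact ⟨j, k1, by rw [hf.aK]; exact h⟩
  · have h1 := ((hf.unit hj).2.2.1.1 m hm).2
    rw [hf.aK] at hm ⊢
    have h2 := hf.kept _ m hm
    obtain ⟨n, _, _, h3⟩ := hf.fam (j, 0)
    refine ⟨h2, ?_, by rw [hf.sup]; exact h1⟩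
    rw [(hf.mark m h2).2.2.1]
    exact h3.valid m (Or.inr (hf.mark m h2).1)
  · obtain ⟨g0, hg⟩ := T.idx_big n
    refine ⟨g0, fun j m _ h1 hm => ?_⟩
    rw [hf.aK] at hm
    obtain ⟨n', h2, _, h3⟩ := hf.fam (j, 0)
    exact (hg j h1).trans (le_trans h2 (h3.1 m hm).1)
  · obtain ⟨_, he, hq, hA⟩ := hf.unit hj
    obtain ⟨n', _, _, h3⟩ := hf.fam (j, 0)
    refine hq.2.1.mono (Uni.Le.B (Sys.mkW_le (fun g hg => ?_) (hf.ext.world w hw)
      fun g _ => ?_) ⊤)
    · split_ifs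
      · rw [hf.aK]; exact h3.valid g hg
      · exact hA.valid (he.1 s hs) g hg
    · split_ifs with e
      · exact h2 g
      · rw [hf.dep w (j, 0) g hw e]
        exact top_unique (h1 ▸ hA.lab (he.1 s hs) (hf.inU hw j) g)
  · have := (hf.unit hj).2.2.1.2.2.2.1
    exact ⟨(hr.free _).1 this.1, this.2⟩
  · have := (hf.unit hj).2.2.1.2.2.2.2.1
    rw [hf.dep w (j, 0) _ hw this.1]
    show cut _ (w (T.fr j)) _ = _
    rw [h1]; exact this.2 p hp
  · obtain ⟨n, hn⟩ := hf.dep_fin v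
    exact ⟨n, fun g p q hg h1 hp hq hne => hn g p q ((hr.live g).2 hg) hp hq
      (by rwa [mkW_one h1, mkW_one h1])⟩

theorem stAbsB : StAbsB U := by
  intro S S' T T' P a b s G an p Tg r hs hp ha hC hf hsl
  have hK : ∀ j, aK (r (j, 0)).2.2 = [] := fun j => by
    by_cases h : On U b (j, 0)
    · exact (hf.unit (hf.of_on h).1).2.2.1.1
    · rw [hf.aK]; exact ((hf.ans (j, 0)).2.2 h).2.1
  have up : ∀ i j w q, (r (i, 0)).2.2.1 ≠ [] → T'.World w → U.inU b q →
      row (r (i, 0)).1 (T.fr j) ≠ [] →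
      cut (r (i, 0)).1 (tb (r (i, 0)).2.2.1 q) (T.fr j) = tb (an j).1 q →
      U.lab (tb (r (i, 0)).2.2.1 q) (w (T'.fr i)) = ⊤ → U.lab (tb (an j).1 q) (w (T.fr j)) = ⊤ :=
    fun i j w q hi hw hq h1 h2 h3 => by
      obtain ⟨_, he, _, hA⟩ := hf.unit hi
      rw [← h2, hf.dep w (i, 0) _ hw h1]
      exact top_unique (h3 ▸ hA.lab (he.1 q hq) (hf.inU hw i) _)
  have dn : Done T' (fun j => (r (j, 0)).2.2) p Tg := fun i w hi hw h1 => by
    obtain ⟨_, he, ⟨_, j, _, _, _, _, _, _, _, ⟨F', h2, h3⟩, _⟩, _⟩ := hf.unit hi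
    exact ⟨F', h2.mono ((hf.cut_le hw (he.1 p hp) h1).B ⊤), h3⟩
  refine ⟨⟨hf.ext.trans ha.ext, fun w hw => ha.wld w (hf.ext.world w hw), ?_,
    fun j hj => (hf.unit hj).1, fun j hj => ?_, fun b1 e n he => ?_,
    fun j m _ hm => absurd (by rw [hK, tb_nil]) hm,
    fun n => ⟨0, fun j m _ _ hm => absurd (by rw [hK, tb_nil]) hm⟩, fun i w hi hw h1 _ => ?_,
    fun i hi => ?_, fun i hi => ?_, fun i w q hi hw hq h1 => ?_, hsl, fun v _ => ?_⟩,
    hK, dn, fun p' Tg' hp' hd i w hi hw h1 => ?_⟩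
  · have := hf.comp
    fun_prop
  · rw [(hf.main j).1]; exact (hf.unit hj).2.1.hom
  · obtain ⟨j, k1, h⟩ := hf.rich n he
    exact ⟨j, k1, by rw [hf.aK]; exact h⟩
  · rcases hC with hC | ⟨rfl, hC⟩
    · obtain ⟨_, _, ⟨_, j, hj, _, e2, _, _, h2, h3, _⟩, _⟩ := hf.unit hi
      rw [e2]
      exact ha.src j w hj (hf.ext.world w hw) (up i j w s hi hw hs h2 (h3 s hs) h1)
        (by rw [hC]; exact Uni.le_nil w)
    · obtain ⟨F', h2, h3⟩ := dn i w hi hw h1
      exact (hC _ h3).mono h2.lset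
  · obtain ⟨_, _, ⟨_, j, hj, e1, e2, _⟩, _⟩ := hf.unit hi
    rw [e1, e2]; exact ha.esup j hj
  · obtain ⟨_, _, ⟨_, j, hj, _, e2, e3, e4, _⟩, _⟩ := hf.unit hi
    rw [e2, e3, e4]; exact ha.goal j hj
  · obtain ⟨_, _, ⟨_, j, hj, _, _, e3, e4, h2, h3, _⟩, _⟩ := hf.unit hi
    rw [e3, e4]
    refine ha.trk j w q hj (hf.ext.world w hw) hq ?_
    rw [hf.dep w (i, 0) _ hw h2]
    show cut _ (w (T'.fr i)) _ = _
    rw [h1]; exact h3 q hq
  · obtain ⟨n, hn⟩ := hf.dep_fin v
    have : ∀ g', ∃ n', T.Live g' → ∀ g p q, S'.Live g → T.par g = g' → U.inU (T.bud g') p →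
        U.inU (T.bud g') q → T.hom g p ≠ T.hom g q → g < n' := fun g' => by
      by_cases h : T.Live g'
      · obtain ⟨n', h'⟩ := ha.dep g' h
        exact ⟨n', fun _ => h'⟩
      · exact ⟨0, fun h' => absurd h' h⟩
    choose N hN using this
    refine ⟨(Finset.range n).sup N, fun g p q hg h1 hp hq hne => ?_⟩
    have wp := hf.ext.world _ (Sys.mkW_world (Sys.valid_one hp))
    have wq := hf.ext.world _ (Sys.mkW_world (Sys.valid_one hq))
    rw [← mkW_one h1, ← mkW_one h1, wp.2 g, wq.2 g] at hne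
    have h2 := hn (T.par g) p q (T.par_live g) hp hq fun e => hne (by rw [e])
    exact lt_of_lt_of_le (hN _ (T.par_live g) g _ _ hg rfl (wp.1 _ (T.par_live g))
      (wq.1 _ (T.par_live g)) hne) (Finset.le_sup (f := N) (Finset.mem_range.2 h2))
  · obtain ⟨_, _, ⟨_, j, hj, e1, e2, _, _, h2, h3, _⟩, _⟩ := hf.unit hi
    obtain ⟨F', h4, h5⟩ := hd j w hj (hf.ext.world w hw) (up i j w p' hi hw hp' h2 (h3 p' hp') h1)
    exact ⟨F', h4, by rw [e1, e2]; exact h5⟩

theorem stAtt0 : StAtt0 U := by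
  intro S S' T P a b s G an hs ha b1 e n he
  obtain ⟨j, k1, hj, h1, h2, h3, h4⟩ := ha.rich b1 e n he
  have hW : tb (tab (max (aK (an j)).length (T.fr j + 1))
      (Function.update (tb (aK (an j))) (T.fr j) (tb (an j).1 s))) =
      Function.update (tb (aK (an j))) (T.fr j) (tb (an j).1 s) :=
    tb_tab_eq fun g hg => by rw [Function.update_of_ne (by omega), tb_ge (by omega)]
  have hf := T.free_fr j
  have hpv : T.PV n (tab (max (aK (an j)).length (T.fr j + 1))
      (Function.update (tb (aK (an j))) (T.fr j) (tb (an j).1 s))) := by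
    refine ⟨fun g hg => ?_, fun g hg => ?_, fun g hg => ?_⟩ <;> rw [hW] at *
    · by_cases e : g = T.fr j
      · exact e ▸ ⟨h1, Or.inl hf⟩
      · rw [Function.update_of_ne e] at hg; exact h4.1 g hg
    · by_cases e : g = T.fr j
      · subst e; rw [Function.update_self]; exact (ha.hom j hj).1 s hs
      · rw [Function.update_of_ne e]; exact h4.2.1 g hg
    · rw [Function.update_of_ne fun e : g = T.fr j => Sys.not_mark hf (e ▸ hg)]
      exact h4.2.2 g hg
  have hv := hpv.valid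
  have hF : Sub (aF (an j)) (U.B ⊤ (T.mkW (tb (tab (max (aK (an j)).length (T.fr j + 1))
      (Function.update (tb (aK (an j))) (T.fr j) (tb (an j).1 s)))))) := by
    refine ha.src j _ hj (Sys.mkW_world hv) ?_ fun g => ?_
    · rw [Sys.mkW_live hv (Or.inl hf), hW, Function.update_self]; exact U.refl _
    · by_cases e : tb (aK (an j)) g = 0
      · rw [e]; exact U.zero_le _
      · have hm := (ha.kmark j g hj e).1
        rw [Sys.mkW_live hv (Or.inr hm), hW,
          Function.update_of_ne fun e : g = T.fr j => Sys.not_mark hf (e ▸ hm)]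
        exact U.refl _
  refine ⟨j, k1, _, aF (an j), hj, h1, h2, h3, hpv, Sys.leg_mkW hv fun m hm _ h5 => ?_,
    by rw [hW, Function.update_self], hF, sub_self _⟩
  rw [hW, Function.update_of_ne fun e : m = T.fr j => Sys.not_mark hf (e ▸ hm)] at h5
  exact app_mono hF.lset
    (ha.kmark j m hj fun e => U.not_fired_zero hm (e ▸ h5)).2.2

end MP750S

end

section

/-! Failure of an absorption gives a decoding; the final annotated system gives a family. -/

set_option autoImplicit false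

namespace MP750S

variable {M : Type} [Lattice M] [BoundedOrder M] [Primcodable M] {U : Uni M}

theorem stFail [Finite M] (h3 : StV3 U) (hc : StCom U) (hd : StDF U) : StFail U := by
  intro S S' T P a b s G an p hP hs hp hps hl ha hK hn
  unfold Att at hn
  push Not at hn
  obtain ⟨b1, e, n, he, hn⟩ := hn
  obtain ⟨T0, h0⟩ := hc T [] n (Sys.pv_nil 0) (Nat.zero_le n)
    (Sys.leg_of_zero (Sys.pv_nil 0).valid fun _ _ => tb_nil _)
  have hcomp := ha.comp
  suffices h : ∃ T', Ext T' T0 ∧ T'.Dec P (U.lab s p) from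
    h.imp fun T' h => ⟨h.1.trans h0.ext, h.2⟩
  refine hd T0 P (U.lab s p) (fun y => ∃ j, ∃ k1 : List ℕ, (an j).1 ≠ [] ∧
    T0.Free (T.fr j) ∧ row y.2.1 (T.fr j) ≠ [] ∧ U.Hom b1 (T.bud (T.fr j)) (tb k1) ∧
    U.Agr b (tb (an j).1) (fun q => tb k1 (tb e q)) ∧
    U.lab (cut y.2.1 y.1.2.2 (T.fr j)) (tb (an j).1 p) = ⊤ ∧ y.2.2 = aE (an j)) hP ?_ ?_ ?_
  · refine r_ex (r_ex (r_and (by fun_prop) (r_and (by fun_prop) (r_and (by fun_prop)
      (r_and (by fun_prop) (r_and (p_agr ?_ ?_ ?_).to_re (by fun_prop))))))) <;> fun_prop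
  · intro i s' t' n' hs' ht' hst
    obtain ⟨b2, κ, h, hκ, hh, e1, e2⟩ := h3 b1 i (tb e s) (tb e p) s' t' (he.1 s hs) (he.1 p hp)
      hs' ht' (by
        rw [he.2 p s hp hs]
        by_contra h
        exact hps (U.anti p s h hl)) (by rw [he.2 s p hs hp, hst])
    obtain ⟨n0, hn0⟩ := h0.big
    obtain ⟨j, k2, hj, g1, g2, g3, _⟩ := ha.rich b2 (tab (U.bd b) fun q => κ (tb e q)) (max n0 n')
      ((hκ.comp he).congr (Uni.agr_tab b _))
    have hf : T0.Free (T.fr j) := hn0 _ (by omega) (T.free_fr j)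
    have g4 : ∀ q, U.inU b q → tb (an j).1 q = tb k2 (κ (tb e q)) := fun q hq => by
      rw [g3 q hq]; exact congrArg _ (Uni.agr_tab b _ q hq)
    obtain ⟨A, a1, a2, a3, _⟩ := Sys.fam_one (b := i) (n := n') (f := fun q => tb k2 (h q)) hf
      (by omega) (by rw [(h0.free _ hf).2]; exact g2.comp hh)
    refine ⟨A, aE (an j), ⟨j, tab (U.bd b1) fun q => tb k2 (κ q), hj, hf, a2,
      (g2.comp hκ.hom).congr (Uni.agr_tab b1 _), fun q hq => ?_, ?_, rfl⟩, a1, ?_⟩
    · rw [g4 q hq]; exact (Uni.agr_tab b1 (fun q => tb k2 (κ q)) _ (he.1 q hq)).symm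
    · show U.lab (cut A t' _) _ = ⊤
      rw [a3 t' ht', g4 p hp]
      exact g2.top (hh.1 t' ht') (hκ.1 _ (he.1 p hp)) e2
    · refine (ha.esup j hj).mono (app_mono (ha.src j _ hj
        (h0.ext.world _ (Sys.mkW_world (a1.valid hs'))) ?_ ?_).lset)
      · rw [Sys.mkW_live (a1.valid hs') (Or.inl hf), a3 s' hs', g4 s hs]
        exact g2.top (hκ.1 _ (he.1 s hs)) (hh.1 s' hs') e1
      · rw [hK]; exact Uni.le_nil _
  · rintro i s' t' A E w ⟨j, k1, hj, hf, a2, g2, g3, g4, rfl⟩ _ _ _ _ hw hA hE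
    obtain ⟨w', w1, w2, w3, _⟩ := hw.raise hf (u := tb (an j).1 p)
      (by rw [(h0.free _ hf).2]; exact (ha.hom j hj).1 p hp) (by rw [hA _ a2]; exact g4)
    obtain ⟨W, v1, v2, v3, v4⟩ := h0.list w1
    obtain ⟨F', f1, f2⟩ := sub_app_use (hE.mono (app_mono (w2.B ⊤)))
    exact hn j k1 W F' hj (h0.free _ hf).1 g2 g3 v1 (v2.symm ▸ v3)
      ((v4 _ (Or.inl (T.free_fr j))).trans w3) (v2.symm ▸ f1) f2

theorem stFamily : StFamily U := by
  classical
  intro S b n c w hc hw hlab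
  have : ∀ p, ∃ (w' : ℕ → ℕ) (k : ℕ), U.inU b p → S.FL ∅ w' ∧ U.Le w' (w p) ∧
      (∀ g < n, w' g = w p g) ∧ ∀ g, k ≤ g → S.Live g → w' g = 0 := fun p => by
    by_cases hp : U.inU b p
    · obtain ⟨w', h1, h2, h3⟩ := (hw p hp).1.2 n
      obtain ⟨k, hk⟩ := h1.2.1
      exact ⟨w', k, fun _ => ⟨h1, h2, h3, hk⟩⟩
    · exact ⟨c, 0, fun h => absurd h hp⟩
  choose w' k hk using this
  obtain ⟨n2, hn2, hk2⟩ : ∃ n2, n ≤ n2 ∧ ∀ p, U.inU b p → k p ≤ n2 :=
    ⟨max n ((Finset.range (U.bd b)).sup k), le_max_left _ _, fun p hp => le_trans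
      (Finset.le_sup (f := k) (Finset.mem_range.2 (U.in_lt b p hp))) (le_max_right _ _)⟩
  obtain ⟨c', c1, c2, c3⟩ := hc.2 n2
  obtain ⟨n3, hn3⟩ := c1.2.1
  let x : ℕ → ℕ → ℕ := fun p g => if g < n2 then w p g else c' g
  let A := fam (max n2 n3) fun g => if S.Live g then tab (U.bd b) (fun p => x p g) else []
  have hx : ∀ p g, U.inU b p → S.Live g → cut A p g = x p g := fun p g hp hg => by
    rw [cut, row_fam]
    split_ifs with h
    · exact Uni.agr_tab b _ p hp
    · rw [tb_nil]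
      show 0 = if g < n2 then w p g else c' g
      rw [if_neg (by omega), hn3 g (by omega) hg]
  have hv : ∀ p, U.inU b p → S.Valid (cut A p) := fun p hp g hg => by
    rw [hx p g hp hg]
    show U.inU _ (if g < n2 then w p g else c' g)
    split_ifs
    · exact (hw p hp).1.1.1 g hg
    · exact c1.1.1 g hg
  have l1 : ∀ p, U.inU b p → U.Le (w' p) (S.mkW (cut A p)) := fun p hp => by
    rw [← (hk p hp).1.1.mkW]
    refine Sys.mkW_mono (hk p hp).1.1.1 (hv p hp) fun g hg => ?_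
    rw [hx p g hp hg]
    show U.lab _ (if g < n2 then w p g else c' g) = ⊤
    split_ifs with h
    · exact (hk p hp).2.1 g
    · rw [(hk p hp).2.2.2 g (by have := hk2 p hp; omega) hg]; exact U.zero_le _
  have l2 : ∀ p, U.inU b p → U.Le c' (S.mkW (cut A p)) := fun p hp => by
    rw [← c1.1.mkW]
    refine Sys.mkW_mono c1.1.1 (hv p hp) fun g hg => ?_
    rw [hx p g hp hg]
    show U.lab _ (if g < n2 then w p g else c' g) = ⊤
    split_ifs with h
    · exact U.top_trans (c2 g) ((hw p hp).2.1 g)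
    · exact U.refl _
  refine ⟨A, ⟨fun g hg => ?_, fun p hp => Sys.leg_mkW (hv p hp) fun m hm hz hf => ?_⟩,
    fun g hg hl => ?_, fun p g hp hg hl => ?_⟩
  · have hl : S.Live g := by
      by_contra h
      apply hg
      rw [row_fam, if_neg h, ite_self]
    refine ⟨Nat.zero_le _, hl, fun p hp => hv p hp g hl, fun p q hp hq => ?_⟩
    show _ ≤ U.lab (cut A p g) (cut A q g)
    rw [hx p g hp hl, hx q g hq hl]
    show _ ≤ U.lab (if g < n2 then w p g else c' g) (if g < n2 then w q g else c' g)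
    split_ifs
    · exact hlab p q g hp hq
    · rw [U.refl]; exact le_top
  · rw [hx p m hp (Or.inr hm)] at hf
    change U.Fired _ (if m < n2 then w p m else c' m) at hf
    by_cases h1 : m < n
    · rw [if_pos (by omega), ← (hk p hp).2.2.1 m h1] at hf
      exact app_mono ((l1 p hp).B ⊤) ((hk p hp).1.2.2 m hm hz hf)
    · refine app_mono ((l2 p hp).B ⊤) (c1.2.2 m hm hz ?_)
      split_ifs at hf with h2
      · rwa [(hw p hp).2.2 m (by omega) (Or.inr hm), ← c3 m h2] at hf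
      · exact hf
  · rw [row_fam, if_pos (by omega), if_pos hl]; exact Uni.tab_ne b _
  · rw [hx p g hp hl]; exact if_pos (by omega)

theorem stExtract (hF : StFamily U) : StExtract U := by
  intro S S' T P a b s G an ha hs0 hs hA hK hD
  obtain ⟨j, _, hj, _⟩ := hA.rich b (tab (U.bd b) fun p => p) 0
    ((Uni.emb_id le_rfl).congr (Uni.agr_tab b _))
  have hf := T.free_fr j
  have he := hA.hom j hj
  have lim : ∀ u, U.inU (T.bud (T.fr j)) u → (u = 0 ∨ ∃ p, U.inU b p ∧ u = tb (an j).1 p) →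
      S'.Lim ∅ (T.mkW (Function.update (fun _ => 0) (T.fr j) u)) := fun u hu hp => by
    have hv := Sys.valid_one hu
    refine hA.sl _ (Sys.fl_mkW (n := T.fr j + 1) hv
      (fun g hg _ => Function.update_of_ne (by omega) _ _) (Sys.leg_of_zero hv fun m hm =>
        Function.update_of_ne (fun e : m = T.fr j => Sys.not_mark hf (e ▸ hm)) _ _))
      fun j' hj' => ?_
    rw [Sys.mkW_live hv (Or.inl (T.free_fr j'))]
    by_cases e : j' = j
    · subst e
      rw [Function.update_self]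
      rcases hp with rfl | ⟨p, hp, rfl⟩
      · exact Or.inl ⟨0, U.in_zero b, Uni.not_le_zero ha hs0, U.zero_le _⟩
      · by_cases h : a ≤ U.lab s p
        · obtain ⟨F', h1, h2⟩ := hD p hp h j' _ hj' (Sys.mkW_world hv)
            (by rw [Sys.mkW_live hv (Or.inl hf), Function.update_self]; exact U.refl _)
          exact Or.inr (Sub.mono h2 (app_mono h1.lset))
        · exact Or.inl ⟨p, hp, h, U.refl _⟩
    · rw [Function.update_of_ne fun e' => e (T.fr_inj e')]
      exact Or.inl ⟨0, U.in_zero b, Uni.not_le_zero ha hs0, U.zero_le _⟩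
  obtain ⟨n0, hn0⟩ := hA.dep _ (Or.inl hf)
  obtain ⟨hg, F, f1, f2⟩ := hA.goal j hj
  have hv : ∀ p, U.inU b p → T.Valid (Function.update (fun _ => 0) (T.fr j) (tb (an j).1 p)) :=
    fun p hp => Sys.valid_one (he.1 p hp)
  have hval : ∀ p, U.inU b p → T.mkW (Function.update (fun _ => 0) (T.fr j) (tb (an j).1 p))
      (T.fr j) = tb (an j).1 p := fun p hp => by
    rw [Sys.mkW_live (hv p hp) (Or.inl hf), Function.update_self]
  obtain ⟨n1, hn1⟩ := Uni.use_B (f1.mono (hA.src j _ hj (Sys.mkW_world (hv s hs))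
    (by rw [hval s hs]; exact U.refl _) (by rw [hK]; exact Uni.le_nil _)).lset)
  refine Exists.elim (hF S' b (max (max n0 (ag (an j) + 1))
    ((Finset.range n1).sup S'.par + 1)) (T.mkW (Function.update (fun _ => 0) (T.fr j) 0))
    (fun p => T.mkW (Function.update (fun _ => 0) (T.fr j) (tb (an j).1 p)))
    (lim 0 (U.in_zero _) (Or.inl rfl)) (fun p hp => ⟨lim _ (he.1 p hp) (Or.inr ⟨p, hp, rfl⟩),
      Sys.mkW_mono (Sys.valid_one (U.in_zero _)) (hv p hp) fun g _ => by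
        rw [Function.update_eq_self]; exact U.zero_le _, fun g h1 h2 => ?_⟩) fun p q g hp hq => ?_)
    fun A ⟨a1, a2, a3⟩ => ?_
  rotate_right
  · refine ⟨ag (an j), ak (an j), A, F, hg, a1, a2 _ (by omega) (Or.inl hg), fun p hp => ?_,
      hn1 _ fun g h1 => ?_, f2⟩
    · exact (a3 p _ hp (by omega) (Or.inl hg)).trans
        (hA.trk j _ p hj (Sys.mkW_world (hv p hp)) hp (hval p hp))
    · have := Finset.le_sup (f := S'.par) (Finset.mem_range.2 h1)
      rw [(hA.wld _ (Sys.mkW_world (hv s hs))).2 g, ← a3 s _ hs (by omega) (S'.par_live g)]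
      rfl
  · by_cases e : T.par g = T.fr j
    · rw [mkW_one e, mkW_one e]
      by_contra h
      have := hn0 g _ _ h2 e (he.1 p hp) (U.in_zero _) h
      omega
    · show T.hom g (Function.update (fun _ => 0) (T.fr j) _ (T.par g)) =
        T.hom g (Function.update (fun _ => 0) (T.fr j) _ (T.par g))
      rw [Function.update_of_ne e, Function.update_of_ne e]
  · refine le_trans ?_ (T.hom_lab g _ _ (hv p hp _ (T.par_live g)) (hv q hq _ (T.par_live g)))
    by_cases e : T.par g = T.fr j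
    · rw [e, Function.update_self, Function.update_self]; exact he.2 p q hp hq
    · rw [Function.update_of_ne e, Function.update_of_ne e, U.refl]; exact le_top

end MP750S

end

section

/-! Refinements of a system. -/

set_option autoImplicit false

namespace MP750S

variable {M : Type} [Lattice M] [BoundedOrder M] [Primcodable M] [Finite M] {U : Uni M}

omit [Finite M] in
theorem ref_free {S : Sys U} (R : RefD S) {g : ℕ} (h : R.fr (R.idx g) = g) : S.Free g :=
  h ▸ R.free (R.idx g)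

omit [Finite M] in
theorem ref_mark {S : Sys U} (R : RefD S) {g : ℕ} (h : R.lev g ≠ ⊥) : S.Mark g :=
  fun e => h ((R.mark g h).trans e)

omit [Finite M] in
theorem ref_live {S : Sys U} (R : RefD S) {g : ℕ} (h : R.fr (R.idx g) = g ∨ R.lev g ≠ ⊥) :
    S.Live g := h.imp (ref_free R) (ref_mark R)

/-- The refined system. -/
def ref_sys (S : Sys U) (R : RefD S) : Sys U where
  fr := R.fr
  idx := R.idx
  lev := R.lev
  bud := R.bud
  par g := R.par (S.par g)
  hom g u := S.hom g (R.hom (S.par g) u)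
  sup := S.sup
  grp := S.grp
  N := S.N
  c_fr := R.c_fr
  c_idx := R.c_idx
  c_lev := R.c_lev
  c_bud := R.c_bud
  c_par := R.c_par.comp S.c_par
  c_hom := c_hom S Computable.fst
    (R.c_hom.comp ((S.c_par.comp Computable.fst).pair Computable.snd))
  c_grp := S.c_grp
  re_sup := S.re_sup
  idx_fr := R.idx_fr
  disj g h := by
    by_contra e
    exact Sys.not_mark (ref_free R h) (ref_mark R e)
  bud_fr := R.bud_fr
  bud_big k := by
    obtain ⟨n, hn⟩ := R.bud_big k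
    refine ⟨max n ((Finset.range k).sup R.fr + 1), fun g hg h => ?_⟩
    rcases h with h | h
    · have h' : R.fr (R.idx g) = g := h
      have h1 : k ≤ R.idx g := le_of_not_gt fun hlt => by
        have := Finset.le_sup (f := R.fr) (Finset.mem_range.2 hlt)
        omega
      have h2 := R.bud_fr (R.idx g)
      rw [h'] at h2
      exact h1.trans h2
    · exact hn g (le_trans (le_max_left _ _) hg) h
  par_live g := R.par_live _ (S.par_live g)
  par_self g h := by
    show R.par (S.par g) = g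
    rw [S.par_self g (ref_live R h), (R.keep g h).1]
  hom_self g u h hu := by
    show S.hom g (R.hom (S.par g) u) = u
    rw [S.par_self g (ref_live R h), (R.keep g h).2 u hu]
    exact S.hom_self g u (ref_live R h) (U.in_mono _ _ _ (R.bud_le g h) hu)
  hom_lab g p q hp hq :=
    ((R.hom_hom _ (S.par_live g)).2 p q hp hq).trans
      (S.hom_lab g _ _ ((R.hom_hom _ (S.par_live g)).1 p hp) ((R.hom_hom _ (S.par_live g)).1 q hq))
  grp_free g h := S.grp_free g (ref_free R h)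
  grp_lt := S.grp_lt
  grp_inf := R.grp_inf
  grp_sup m m' F h h' := S.grp_sup m m' F (ref_mark R h) (ref_mark R h')

omit [Finite M] in
theorem ref_world (S : Sys U) (R : RefD S) (w : ℕ → ℕ) : (ref_sys S R).World w ↔
    S.World w ∧ (ref_sys S R).Valid w ∧ ∀ g, S.Live g → w g = R.hom g (w (R.par g)) := by
  constructor
  · rintro ⟨h1, h2⟩
    have h3 : ∀ g, S.Live g → U.inU (S.bud g) (R.hom g (w (R.par g))) := fun g hg =>
      (R.hom_hom g hg).1 _ (h1 _ (R.par_live g hg))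
    have h4 : ∀ g, S.Live g → w g = R.hom g (w (R.par g)) := fun g hg => by
      have e : w g = S.hom g (R.hom (S.par g) (w (R.par (S.par g)))) := h2 g
      rw [S.par_self g hg, S.hom_self g _ hg (h3 g hg)] at e
      exact e
    refine ⟨⟨fun g hg => by rw [h4 g hg]; exact h3 g hg, fun g => ?_⟩, h1, h4⟩
    rw [h4 _ (S.par_live g)]
    exact h2 g
  · rintro ⟨h1, h2, h3⟩
    refine ⟨h2, fun g => ?_⟩
    show w g = S.hom g (R.hom (S.par g) (w (R.par (S.par g))))
    rw [← h3 _ (S.par_live g)]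
    exact h1.2 g

omit [Finite M] in
theorem ref_lim (S : Sys U) (R : RefD S) (Z : Set ℕ) (w : ℕ → ℕ) (h : (ref_sys S R).FL Z w) :
    S.Lim Z w := by
  classical
  obtain ⟨hw, ⟨nT, hT⟩, hl⟩ := h
  obtain ⟨hS, hv, hR⟩ := (ref_world S R w).1 hw
  refine ⟨hS, fun n0 => ?_⟩
  obtain ⟨n2, h2⟩ := Uni.use_app (U := U) (a := ⊤) (w := w) (P := S.sup)
    (E := (List.range nT).filter fun m => R.lev m ≠ ⊥ ∧ m ∉ Z ∧ U.Fired (R.lev m) (w m))
    (fun m hm => by
      have := (List.mem_filter.1 hm).2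
      simp only [decide_eq_true_eq] at this
      exact hl m this.1 this.2.1 this.2.2)
  have hy : ∀ m, ∃ (n : ℕ) (y : ℕ → ℕ), (∀ g, y g = 0 ∨ (S.Live g ∧ y g = w g)) ∧
      (∀ g, n ≤ g → y g = 0) ∧ S.Leg ∅ (S.mkW y) ∧
      (S.Mark m → R.lev m = ⊥ → U.Fired (S.lev m) (w m) → y m = w m) := by
    intro m
    by_cases hc : S.Mark m ∧ R.lev m = ⊥ ∧ U.Fired (S.lev m) (w m)
    · obtain ⟨c1, c2, c3⟩ := hc
      obtain ⟨n, y, a1, a2, a3, a4⟩ := R.legal w hv m c1 c2 (hR m (Or.inr c1) ▸ c3)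
      refine ⟨n, y, fun g => (a1 g).imp_right fun a => ⟨a.1, ?_⟩, a3, a4, fun _ _ _ => ?_⟩
      · rw [a.2, ← hR g a.1]
      · rw [a2, ← hR m (Or.inr c1)]
    · exact ⟨0, fun _ => 0, fun _ => Or.inl rfl, fun _ _ => rfl,
        Sys.leg_of_zero Sys.valid_zero fun _ _ => rfl, fun a b c => absurd ⟨a, b, c⟩ hc⟩
  choose nm ym y1 y2 y3 y4 using hy
  set n1 := (Finset.range (max n0 n2)).sup S.par + 1 with hn1
  set Y : ℕ → ℕ := fun g => if g < n1 ∨ ∃ m, m < n1 ∧ ym m g ≠ 0 then w g else 0 with hY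
  have Yw : ∀ g, (g < n1 ∨ ∃ m, m < n1 ∧ ym m g ≠ 0) → Y g = w g := fun g hg => if_pos hg
  have Y0 : ∀ g, ¬ (g < n1 ∨ ∃ m, m < n1 ∧ ym m g ≠ 0) → Y g = 0 := fun g hg => if_neg hg
  have vY : S.Valid Y := fun g hg => by
    by_cases c : g < n1 ∨ ∃ m, m < n1 ∧ ym m g ≠ 0
    · rw [Yw g c]; exact hS.1 g hg
    · rw [Y0 g c]; exact U.in_zero _
  have vy : ∀ m, S.Valid (ym m) := fun m g hg => by
    rcases y1 m g with e | e
    · rw [e]; exact U.in_zero _
    · rw [e.2]; exact hS.1 g hg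
  have agr : ∀ g, g < max n0 n2 → S.mkW Y g = w g := fun g hg => by
    have : S.par g < n1 := Nat.lt_succ_of_le (Finset.le_sup (f := S.par) (Finset.mem_range.2 hg))
    show S.hom g (Y (S.par g)) = w g
    rw [Yw _ (Or.inl this)]
    exact (hS.2 g).symm
  refine ⟨S.mkW Y, Sys.fl_mkW (n := max n1 ((Finset.range n1).sup nm)) vY (fun g hg _ => ?_)
    (Sys.leg_mkW vY fun m hm hz hf => ?_), Sys.mkW_le vY hS fun g _ => ?_,
    fun g hg => agr g (lt_of_lt_of_le hg (le_max_left _ _))⟩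
  · refine Y0 g ?_
    rintro (c | ⟨m, c1, c2⟩)
    · omega
    · have := Finset.le_sup (f := nm) (Finset.mem_range.2 c1)
      exact c2 (y2 m g (by omega))
  · have c : m < n1 ∨ ∃ m', m' < n1 ∧ ym m' m ≠ 0 := by
      by_contra c
      exact U.not_fired_zero hm (Y0 m c ▸ hf)
    rw [Yw m c] at hf
    by_cases hr : R.lev m = ⊥
    · obtain ⟨m', c1, c2⟩ : ∃ m', m' < n1 ∧ ym m' m = w m := by
        rcases c with c | ⟨m', c1, c2⟩
        · exact ⟨m, c, y4 m hm hr hf⟩
        · exact ⟨m', c1, ((y1 m' m).resolve_left c2).2⟩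
      have hle : U.Le (S.mkW (ym m')) (S.mkW Y) := Sys.mkW_mono (vy m') vY fun g _ => by
        by_cases e : ym m' g = 0
        · rw [e]; exact U.zero_le _
        · rw [Yw g (Or.inr ⟨m', c1, e⟩), ((y1 m' g).resolve_left e).2]; exact U.refl _
      refine app_mono (hle.B ⊤) (y3 m' m hm (Set.notMem_empty _) ?_)
      rwa [Sys.mkW_live (vy m') (Or.inr hm), c2]
    · have hlt : m < nT := lt_of_not_ge fun hge =>
        U.not_fired_zero hm (hT m hge (Or.inr hr) ▸ hf)
      refine h2 _ (fun g hg => agr g (lt_of_lt_of_le hg (le_max_right _ _))) m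
        (List.mem_filter.2 ⟨List.mem_range.2 hlt, ?_⟩)
      simp only [decide_eq_true_eq]
      exact ⟨hr, hz, (R.mark m hr).symm ▸ hf⟩
  · by_cases c : g < n1 ∨ ∃ m, m < n1 ∧ ym m g ≠ 0
    · rw [Yw g c]; exact U.refl _
    · rw [Y0 g c]; exact U.zero_le _

theorem stRef : StRef U := fun S R =>
  ⟨ref_sys S R,
    { ext :=
        { free := fun _ h => ref_free R h
          mark := fun g h => Or.inl ⟨ref_mark R h, R.mark g h, fun _ => Iff.rfl⟩
          bud := fun g h => R.bud_le g h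
          world := fun w h => ((ref_world S R w).1 h).1
          lim := ref_lim S R
          grp := rfl
          N := rfl }
      fr := rfl
      idx := rfl
      lev := rfl
      bud := rfl
      sup := rfl
      world := ref_world S R }⟩

end MP750S

end

section

/-! The first fusion: the record is c.e. and can always be supplied. -/

set_option autoImplicit false

namespace MP750S

variable {M : Type} [Lattice M] [BoundedOrder M] [Primcodable M] [Finite M] {U : Uni M}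

theorem stInitR : StInitR U := by
  intro S T0 P a b s G hP hG ha
  unfold QI
  refine r_and ?_ (r_and ?_ (r_and ?_ (r_and (r_and (by fun_prop) ?_) (r_and (r_and
    (by fun_prop) ?_) ?_))))
  · exact r_allNZ (P := fun (z : ℕ × List (List ℕ) × AnT) m =>
      ¬ S.InZ m ∧ m ∈ app T0.sup (lset (aF z.2.2))) (by fun_prop)
      (r_and (by fun_prop) (r_app_lset T0.re_sup (by fun_prop) (by fun_prop)))
  · exact r_sub_B T0 (x := fun (z : ℕ × List (List ℕ) × AnT) g =>
      if row z.2.1 g = [] then tb (aK z.2.2) g else cut z.2.1 (tb z.2.2.1 s) g) (by fun_prop)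
      (c_ite (by fun_prop) (by fun_prop) (by fun_prop))
  · exact r_sub_app_lset hP (by fun_prop) (by fun_prop)
  · exact r_ex (P := fun (z : ℕ × List (List ℕ) × AnT) F =>
      Sub F (lset (aF z.2.2)) ∧ G (ag z.2.2, ak z.2.2, F))
      (r_and (by fun_prop) (r_comp hG (by fun_prop)))
  · exact r_allU (P := fun (z : ℕ × List (List ℕ) × AnT) p =>
      cut z.2.1 (tb z.2.2.1 p) (ag z.2.2) = tb (ak z.2.2) p) (by fun_prop) (by fun_prop)
  · refine (r_allRow (A := fun z : ℕ × List (List ℕ) × AnT => z.2.1)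
      (P := fun (z : ℕ × List (List ℕ) × AnT) m => ∀ q, U.inU z.1 q →
        (S.InZ m ∧ T0.Mark m ∧ U.Fired a (cut z.2.1 q m)) →
          S.xof m ∈ aE z.2.2 ∧ a ≤ U.lab (tb z.2.2.1 s) q) (by fun_prop)
      (r_allU (by fun_prop) (r_imp (by fun_prop) (r_and (by fun_prop) (by fun_prop))))).of_eq
      fun z => ⟨fun h m q h1 h2 h3 h4 => h m (fun e => ?_) q h3 ⟨h1, h2, h4⟩,
        fun h m _ q h3 h4 => h m q h4.1 h4.2.1 h3 h4.2.2⟩
    exact U.not_fired_zero ha (cut_of_row e q ▸ h4)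

omit [Finite M] in
theorem stInitA (h : StV1 U) : StInitA U := by
  classical
  intro S S1 S' T0 P a b s G hact hext hrel hs hyp z n
  by_cases ho : On U b z
  swap
  · exact ⟨[], [], ([], [], [], 0, [], []), ⟨rfl, fun h' => absurd h' ho, fun _ => ⟨rfl, rfl, rfl⟩⟩,
      Sys.fam_nil _ _, Sys.pv_nil _, fun m hm => absurd (tb_nil m) hm⟩
  obtain ⟨i, t⟩ := z
  have he : U.Emb b i (tb (eof i)) := ho.2.2
  have hes : U.inU i (tb (eof i) s) := he.1 s hs
  obtain ⟨n0, hn0⟩ := h i _ hes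
  have hk' : ∀ c, ∃ k : ℕ → ℕ, n0 ≤ c → U.Hom i c k ∧
      (∀ v, U.inU (c - 2) v → U.lab v (k (tb (eof i) s)) = ⊤) ∧
      ∀ q, U.inU i q → U.lab (U.top 0) (k q) = U.lab (tb (eof i) s) q := fun c => by
    by_cases hc : n0 ≤ c
    · obtain ⟨k, hk⟩ := hn0 c hc
      exact ⟨k, fun _ => hk⟩
    · exact ⟨id, fun h' => absurd h' hc⟩
  choose κ hκ using hk'
  obtain ⟨n1, hn1⟩ := S'.bud_big n0
  obtain ⟨g, k1, k, W, F, hg, hgn, hk1, hk, hW, hleg, hWg, hF, hG⟩ :=
    hyp i (eof i) (max n (max n1 2)) he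
  let Fd : ℕ → Prop := fun m => S'.Mark m ∧ U.Fired (S'.lev m) (tb W m)
  have fd_ne : ∀ m, Fd m → tb W m ≠ 0 := fun m hm e => U.not_fired_zero hm.1 (e ▸ hm.2)
  have fd_g : ∀ m, S'.Mark m → m ≠ g := fun m hm e => Sys.not_mark hg (e ▸ hm)
  have fd_sup : ∀ m, Fd m → m ∈ app S'.sup (U.B ⊤ (S'.mkW (tb W))) := fun m hm =>
    hleg m hm.1 (Set.notMem_empty _) (by rw [Sys.mkW_live hW.valid (Or.inr hm.1)]; exact hm.2)
  have hbud : ∀ m, tb W m ≠ 0 → n0 ≤ S'.bud m := fun m hm =>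
    hn1 m (by have := (hW.1 m hm).1; omega) (hW.1 m hm).2
  -- the family
  obtain ⟨A, hA⟩ : ∃ A : List (List ℕ), ∀ m,
      (m = g ∧ row A m = tab (U.bd i) (tb k1)) ∨
      (m ≠ g ∧ row A m = [] ∧ (tb W m = 0 ∨ (Fd m ∧ ¬ S.InZ m))) ∨
      (m ≠ g ∧ Fd m ∧ S.InZ m ∧ row A m = tab (U.bd i) (κ (S'.bud m))) ∨
      (m ≠ g ∧ tb W m ≠ 0 ∧ ¬ Fd m ∧ row A m = tab (U.bd i) fun _ => tb W m) := by
    refine ⟨fam (max (g + 1) W.length) fun m => if m = g then tab (U.bd i) (tb k1) else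
      if tb W m = 0 then [] else if Fd m then (if S.InZ m then tab (U.bd i) (κ (S'.bud m)) else [])
      else tab (U.bd i) fun _ => tb W m, fun m => ?_⟩
    rw [row_fam]
    by_cases e1 : m = g
    · exact Or.inl ⟨e1, by rw [if_pos (by omega), if_pos e1]⟩
    by_cases e2 : tb W m = 0
    · refine Or.inr (Or.inl ⟨e1, ?_, Or.inl e2⟩)
      rw [if_neg e1, if_pos e2, ite_self]
    have e0 : m < max (g + 1) W.length := by have := lt_of_tb_ne e2; omega
    rw [if_pos e0, if_neg e1, if_neg e2]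
    by_cases e3 : Fd m
    · rw [if_pos e3]
      by_cases e4 : S.InZ m
      · exact Or.inr (Or.inr (Or.inl ⟨e1, e3, e4, if_pos e4⟩))
      · exact Or.inr (Or.inl ⟨e1, if_neg e4, Or.inr ⟨e3, e4⟩⟩)
    · exact Or.inr (Or.inr (Or.inr ⟨e1, e2, e3, if_neg e3⟩))
  -- the kept markers
  obtain ⟨K, hK⟩ : ∃ K : List ℕ, ∀ m, tb K m = if Fd m ∧ ¬ S.InZ m then tb W m else 0 :=
    ⟨tab W.length fun m => if Fd m ∧ ¬ S.InZ m then tb W m else 0, fun m => by
      rw [tb_tab_eq fun g' hg' => by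
        split_ifs
        · exact tb_ge hg'
        · rfl]⟩
  have hK1 : ∀ m, tb K m ≠ 0 → Fd m ∧ ¬ S.InZ m := fun m hm => by
    by_contra e
    exact hm (by rw [hK, if_neg e])
  have hK2 : ∀ m, tb K m = tb W m ∨ tb K m = 0 := fun m => by
    rw [hK]; split_ifs <;> simp
  have hrowg : row A g = tab (U.bd i) (tb k1) := by
    rcases hA g with h1 | h1 | h1 | h1
    · exact h1.2
    all_goals exact absurd rfl h1.1
  have hrows : ∀ m, row A m ≠ [] → max n (max n1 2) ≤ m ∧ S'.Live m ∧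
      U.Hom i (S'.bud m) (tb (row A m)) := fun m hm => by
    rcases hA m with ⟨rfl, h1⟩ | ⟨_, h1, _⟩ | ⟨_, h1, _, h2⟩ | ⟨_, h1, _, h2⟩
    · exact ⟨hgn, Or.inl hg, h1 ▸ hk1.congr (Uni.agr_tab i _)⟩
    · exact absurd h1 hm
    · exact ⟨(hW.1 m (fd_ne m h1)).1, Or.inr h1.1,
        h2 ▸ (hκ _ (hbud m (fd_ne m h1))).1.congr (Uni.agr_tab i _)⟩
    · exact ⟨(hW.1 m h1).1, (hW.1 m h1).2,
        h2 ▸ (Uni.hom_const (hW.valid m (hW.1 m h1).2)).congr (Uni.agr_tab i _)⟩
  have hval : ∀ p, U.inU i p → T0.Valid (cut A p) := fun p hp m _ => by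
    by_cases e : row A m = []
    · rw [cut_of_row e]; exact U.in_zero _
    · rw [hrel.bud]; exact (hrows m e).2.2.1 p hp
  -- a fired row of a marker is one of the released markers
  have hfire : ∀ m q, S'.Mark m → U.inU i q → U.Fired (S'.lev m) (cut A q m) →
      Fd m ∧ S.InZ m ∧ cut A q m = κ (S'.bud m) q := fun m q hm hq hf => by
    rcases hA m with ⟨h1, _⟩ | ⟨_, h1, _⟩ | ⟨_, h1, h2, h3⟩ | ⟨_, _, h1, h2⟩
    · exact absurd h1 (fd_g m hm)
    · exact absurd (cut_of_row h1 q ▸ hf) (U.not_fired_zero hm)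
    · exact ⟨h1, h2, by rw [cut, h3]; exact Uni.agr_tab i _ q hq⟩
    · refine absurd ⟨hm, ?_⟩ h1
      have : cut A q m = tb W m := by rw [cut, h2]; exact Uni.agr_tab i (fun _ => tb W m) q hq
      exact this ▸ hf
  -- the finite uses
  obtain ⟨E, hE1, hE2⟩ : ∃ E : List ℕ, Sub E (app P (U.B ⊤ (S'.mkW (tb W)))) ∧
      ∀ m, Fd m → S.InZ m → S.xof m ∈ E := by
    refine ⟨((List.range W.length).filter fun m => Fd m ∧ S.InZ m).map S.xof, fun y hy => ?_,
      fun m h1 h2 => List.mem_map.2 ⟨m, List.mem_filter.2 ⟨List.mem_range.2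
        (lt_of_tb_ne (fd_ne m h1)), decide_eq_true ⟨h1, h2⟩⟩, rfl⟩⟩
    obtain ⟨m, hm, rfl⟩ := List.mem_map.1 hy
    have h1 : Fd m ∧ S.InZ m := of_decide_eq_true (List.mem_filter.1 hm).2
    obtain ⟨D, h2, h3⟩ := fd_sup m h1.1
    exact ⟨D, h2, ((hact.newMark hext h1.2 h1.1.1).2 D).1 h3⟩
  obtain ⟨F', hF'1, hF'2⟩ := sub_app_use hE1
  obtain ⟨F'', hF''1, hF''2⟩ := sub_app_use (P := S'.sup) (A := U.B ⊤ (S'.mkW (tb W)))
    (E := (List.range W.length).filter fun m => Fd m) fun y hy =>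
      fd_sup y (of_decide_eq_true (List.mem_filter.1 hy).2)
  -- the world of the record lies above `W`
  have hy : ∀ m, S'.Live m → U.inU (S'.bud m)
      (if row A m = [] then tb K m else cut A (tb (eof i) s) m) ∧
      U.lab (tb W m) (if row A m = [] then tb K m else cut A (tb (eof i) s) m) = ⊤ :=
    fun m hm => by
    refine ⟨?_, ?_⟩
    · split_ifs with e
      · rcases hK2 m with h1 | h1
        · rw [h1]; exact hW.valid m hm
        · rw [h1]; exact U.in_zero _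
      · exact (hrows m e).2.2.1 _ hes
    rcases hA m with ⟨rfl, h1⟩ | ⟨_, h1, h2 | h2⟩ | ⟨_, h1, _, h2⟩ | ⟨_, _, _, h2⟩
    · rw [if_neg (h1 ▸ Uni.tab_ne i _), cut, h1, Uni.agr_tab i _ _ hes, hWg, hk s hs]
      exact U.refl _
    · rw [h2]; exact U.zero_le _
    · rw [if_pos h1, hK, if_pos h2]; exact U.refl _
    · rw [if_neg (h2 ▸ Uni.tab_ne i _), cut, h2, Uni.agr_tab i _ _ hes]
      exact (hκ _ (hbud m (fd_ne m h1))).2.1 _
        (U.in_mono _ _ _ (by omega) (hW.2.2 m h1.1))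
    · rw [if_neg (h2 ▸ Uni.tab_ne i _), cut, h2, Uni.agr_tab i (fun _ => tb W m) _ hes]
      exact U.refl _
  have hle : U.Le (S'.mkW (tb W)) (S'.mkW fun m =>
      if row A m = [] then tb K m else cut A (tb (eof i) s) m) :=
    Sys.mkW_mono hW.valid (fun m hm => (hy m hm).1) fun m hm => (hy m hm).2
  refine ⟨A, K, (eof i, E, F ++ F' ++ F'', g, k, K), ⟨rfl, fun _ => ⟨rfl, ?_, ?_, ?_, ⟨?_, F, ?_, hG⟩,
    ⟨?_, ?_⟩, ?_⟩, fun h' => absurd ho h'⟩, ⟨fun m hm => ?_, fun p hp => ?_⟩, ?_, fun m hm => ?_⟩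
  · intro m hm
    have h1 := hK1 m hm
    obtain ⟨D, h2, h3⟩ := hF''2 m (List.mem_filter.2 ⟨List.mem_range.2
      (lt_of_tb_ne (fd_ne m h1.1)), decide_eq_true h1.1⟩)
    exact ⟨h1.2, D, fun y hy => List.mem_append_right _ (h2 y hy), (hrel.sup m D).2 (Or.inl h3)⟩
  · show Sub (F ++ F' ++ F'') (U.B ⊤ (T0.mkW fun m =>
      if row A m = [] then tb K m else cut A (tb (eof i) s) m))
    rw [hrel.mkW]
    exact (sub_append.2 ⟨sub_append.2 ⟨hF, hF'1⟩, hF''1⟩).mono (hle.B ⊤)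
  · exact hF'2.mono (app_mono fun y hy => List.mem_append_left _ (List.mem_append_right _ hy))
  · exact (hrel.free g).2 hg
  · exact fun y hy => List.mem_append_left _ (List.mem_append_left _ hy)
  · show row A g ≠ []
    rw [hrowg]; exact Uni.tab_ne i _
  · intro p hp
    show cut A (tb (eof i) p) g = tb k p
    rw [cut, hrowg, Uni.agr_tab i _ _ (he.1 p hp), hk p hp]
  · intro m q h1 h2 hq hf
    have h3 := (hrel.mark m).1 h2
    have h4 := (hact.newMark hext h1 h3).1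
    obtain ⟨h5, _, h6⟩ := hfire m q h3 hq (h4 ▸ hf)
    refine ⟨hE2 m h5 h1, ?_⟩
    show a ≤ U.lab (tb (eof i) s) q
    rw [← (hκ _ (hbud m (fd_ne m h5))).2.2 q hq, ← h6]
    exact hf
  · obtain ⟨h1, h2, h3⟩ := hrows m hm
    exact ⟨by omega, (hrel.live m).2 h2, hrel.bud ▸ h3⟩
  · refine Sys.leg_mkW (hval p hp) fun m hm _ hf => ?_
    exact ⟨[], sub_nil _, (hrel.sup m []).2 (Or.inr
      (hfire m p ((hrel.mark m).1 hm) hp (hrel.lev ▸ hf)).2.1)⟩
  · have hW' : S'.PV n W := hW.mono (le_max_left _ _)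
    refine (hrel.pv n K).2 ⟨fun m hm => hW'.1 m (fd_ne m (hK1 m hm).1), fun m hm => ?_,
      fun m hm => ?_⟩
    · rcases hK2 m with h1 | h1
      · rw [h1]; exact hW'.2.1 m hm
      · rw [h1]; exact U.in_zero _
    · rcases hK2 m with h1 | h1
      · rw [h1]; exact hW'.2.2 m hm
      · rw [h1]; exact U.in_zero _
  · obtain ⟨h1, h2⟩ := hK1 m hm
    refine ⟨(hrel.mark m).2 h1.1, ?_⟩
    rcases hA m with ⟨h3, _⟩ | ⟨_, h3, _⟩ | ⟨_, _, h3, _⟩ | ⟨_, _, h3, _⟩
    · exact absurd h3 (fd_g m h1.1)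
    · exact h3
    · exact absurd h3 h2
    · exact absurd h1 h3

end MP750S

end

section

/-! The supply of answers of an absorption. -/

set_option autoImplicit false

namespace MP750S

open Classical

variable {M : Type} [Lattice M] [BoundedOrder M] [Primcodable M] [Finite M] {U : Uni M}

theorem stAbsR : StAbsR U := by
  intro T an b p Tg han hT
  have h1 : REPred fun y : (ℕ × List (List ℕ) × AnT) × ℕ => ∀ q, U.inU b q →
      cut y.1.2.1 (tb y.1.2.2.1 q) (T.fr y.2) = tb (an y.2).1 q :=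
    r_allU (b := fun _ => b) (by fun_prop) (by fun_prop)
  have h2 : REPred fun y : (ℕ × List (List ℕ) × AnT) × ℕ => ∃ F',
      Sub F' (U.B ⊤ (T.mkW (cut y.1.2.1 (tb y.1.2.2.1 p)))) ∧
        Tg (aE y.1.2.2, aF y.1.2.2, F') :=
    r_ex (r_and (r_sub_B T (x := fun v : ((ℕ × List (List ℕ) × AnT) × ℕ) × List ℕ =>
      cut v.1.1.2.1 (tb v.1.1.2.2.1 p)) (by fun_prop) (by fun_prop)) (r_comp hT (by fun_prop)))
  have h3 : REPred fun y : (ℕ × List (List ℕ) × AnT) × ℕ => ∀ g, row y.1.2.1 g ≠ [] →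
      (T.Free g ∧ (an (T.idx g)).1 ≠ [] ∧ T.idx g ≠ y.2) →
      (∀ q, U.inU y.1.1 q → cut y.1.2.1 q g = U.top (T.bud g)) ∧
      ∀ m, tb (aK (an (T.idx g))) m ≠ 0 →
        row y.1.2.1 m ≠ [] ∧ ∀ q, U.inU y.1.1 q → cut y.1.2.1 q m = U.top (T.bud m) :=
    r_allRow (by fun_prop) (r_imp (by fun_prop) (r_and (r_allU (by fun_prop) (by fun_prop))
      (r_allNZ (by fun_prop) (r_and (by fun_prop) (r_allU (by fun_prop) (by fun_prop))))))
  have h4 : REPred fun y : (ℕ × List (List ℕ) × AnT) × ℕ => ∀ j', (an j').1 ≠ [] → j' ≠ y.2 →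
      row y.1.2.1 (T.fr j') ≠ [] →
      (∀ q, U.inU y.1.1 q → cut y.1.2.1 q (T.fr j') = U.top (T.bud (T.fr j'))) ∧
      ∀ m, tb (aK (an j')) m ≠ 0 →
        row y.1.2.1 m ≠ [] ∧ ∀ q, U.inU y.1.1 q → cut y.1.2.1 q m = U.top (T.bud m) := by
    refine h3.of_eq fun y => ⟨fun h j' a1 a2 a3 => ?_, fun h g a1 a2 => ?_⟩
    · have := h (T.fr j') a3
      rw [T.idx_fr] at this
      exact this ⟨T.free_fr j', a1, a2⟩
    · have e : T.fr (T.idx g) = g := a2.1
      have := h (T.idx g) a2.2.1 a2.2.2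
      rw [e] at this
      exact this a1
  unfold QA
  exact r_and (by fun_prop) (r_ex (r_and (by fun_prop) (r_and (by fun_prop) (r_and (by fun_prop)
    (r_and (by fun_prop) (r_and (by fun_prop) (r_and (by fun_prop)
      (r_and h1 (r_and h2 h4)))))))))

omit [Finite M] in
theorem stAbsH (h : StConN U) : StAbsH U := by
  intro T an b p Tg i e n hS han hT hp hA he
  have hG : REPred fun y : ℕ × List ℕ × List ℕ => ∃ j, (an j).1 ≠ [] ∧ y.1 = T.fr j ∧
      U.Agr b (tb (an j).1) (fun q => tb y.2.1 (tb e q)) ∧ Tg (aE (an j), aF (an j), y.2.2) :=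
    r_ex (r_and (by fun_prop) (r_and (by fun_prop) (r_and
      (p_agr (b := fun _ => b) (by fun_prop) (by fun_prop) (by fun_prop)).to_re
      (r_comp hT (by fun_prop)))))
  obtain ⟨g, k, A, F, -, h1, h2, h3, h4, j, h5, h6, h7, h8⟩ :=
    h T i (tb e p) _ n hS hG (he.1 p hp) fun b1 e1 n1 he1 => by
      have ae := Uni.agr_tab (U := U) b fun q => tb e1 (tb e q)
      obtain ⟨j, k1, W, F', a1, a2, a3, a4, a5, a6, a7, a8, a9⟩ :=
        hA b1 _ n1 ((he1.comp he).congr ae)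
      have ak := Uni.agr_tab (U := U) i fun q => tb k1 (tb e1 q)
      have a10 : U.Agr b (tb (an j).1)
          fun q => tb (tab (U.bd i) fun q => tb k1 (tb e1 q)) (tb e q) := fun q hq => by
        rw [a4 q hq]
        show tb k1 (tb _ q) = tb _ (tb e q)
        rw [ae q hq, ak _ (he.1 q hq)]
      exact ⟨T.fr j, k1, _, W, F', T.free_fr j, a2, a3, ak, a5, a6, a7.trans (a10 p hp), a8,
        j, a1, rfl, a10, a9⟩
  obtain rfl : g = T.fr j := h6
  exact ⟨j, A, F, h5, h1, h2, fun q hq => (h3 _ (he.1 q hq)).trans (h7 q hq).symm, h4, h8⟩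

omit [Finite M] in
/-- Raising a family to the top on a bounded set of live gadgets. -/
theorem absa_raise {T : Sys U} {i n : ℕ} {A0 : List (List ℕ)} (h0 : T.Fam i n A0)
    (X : ℕ → Prop) (N : ℕ) (hX : ∀ g, X g → n ≤ g ∧ T.Live g ∧ g < N) :
    ∃ A, (∀ g, ¬ X g → row A g = row A0 g) ∧
      (∀ g, X g → row A g ≠ [] ∧ ∀ q, U.inU i q → cut A q g = U.top (T.bud g)) ∧
      (∀ g, row A g ≠ [] → n ≤ g ∧ T.Live g ∧ U.Hom i (T.bud g) (tb (row A g))) ∧
      ∀ q, U.inU i q → T.Valid (cut A q) ∧ U.Le (T.mkW (cut A0 q)) (T.mkW (cut A q)) := by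
  obtain ⟨A, hA⟩ : ∃ A, ∀ g, row A g =
      if X g then tab (U.bd i) (fun _ => U.top (T.bud g)) else row A0 g := by
    refine ⟨fam (N + A0.length) fun g => if X g then tab (U.bd i) (fun _ => U.top (T.bud g))
      else row A0 g, fun g => (row_fam _ _ g).trans ?_⟩
    by_cases e : g < N + A0.length
    · exact if_pos e
    · rw [if_neg e, if_neg fun h => by have := (hX g h).2.2; omega, row_ge (by omega)]
  have h1 : ∀ g, ¬ X g → row A g = row A0 g := fun g h => by rw [hA, if_neg h]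
  have h2 : ∀ g, X g → row A g ≠ [] ∧ ∀ q, U.inU i q → cut A q g = U.top (T.bud g) :=
    fun g h => by
      unfold cut
      rw [hA, if_pos h]
      exact ⟨Uni.tab_ne _ _, Uni.agr_tab i _⟩
  have h3 : ∀ g, row A g ≠ [] → n ≤ g ∧ T.Live g ∧ U.Hom i (T.bud g) (tb (row A g)) := by
    intro g hg
    by_cases e : X g
    · exact ⟨(hX g e).1, (hX g e).2.1, (Uni.hom_const (U.in_top _)).congr (h2 g e).2⟩
    · rw [h1 g e] at hg ⊢
      exact h0.1 g hg
  refine ⟨A, h1, h2, h3, fun q hq => ?_⟩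
  have h4 : T.Valid (cut A q) := fun g _ => by
    by_cases e : row A g = []
    · rw [cut_of_row e]; exact U.in_zero _
    · exact (h3 g e).2.2.1 q hq
  refine ⟨h4, Sys.mkW_mono (h0.valid hq) h4 fun g hg => ?_⟩
  by_cases e : X g
  · rw [(h2 g e).2 q hq]
    exact U.le_top _ _ (h0.valid hq g hg)
  · unfold cut
    rw [h1 g e, U.refl]

omit [Finite M] in
theorem stAbsA (h : StAbsH U) : StAbsA U := by
  intro S S' T P a b s G an p Tg hS hT hs hp hA hatt z n
  by_cases ho : On U b z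
  swap
  · exact ⟨[], [], ([], [], [], 0, [], []), ⟨rfl, fun h' => absurd h' ho, fun _ => ⟨rfl, rfl, rfl⟩⟩,
      Sys.fam_nil _ _, Sys.pv_nil _, fun m hm => absurd (tb_nil m) hm⟩
  obtain ⟨n', hn'⟩ := hA.kfar n
  have he := ho.2.2
  obtain ⟨j, A0, F', h1, h2, h3, h4, h5, h6⟩ :=
    h T an b p Tg z.1 (eof z.1) (max n n') (hS.ext hA.ext) hA.comp hT hp hatt he
  obtain ⟨X1, hX1⟩ : ∃ X1 : ℕ → Prop, ∀ g, X1 g ↔
    T.Free g ∧ (an (T.idx g)).1 ≠ [] ∧ T.idx g ≠ j ∧ row A0 g ≠ [] := ⟨_, fun _ => Iff.rfl⟩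
  obtain ⟨X2, hX2⟩ : ∃ X2 : ℕ → Prop, ∀ m, X2 m ↔
    ∃ g, X1 g ∧ tb (aK (an (T.idx g))) m ≠ 0 := ⟨_, fun _ => Iff.rfl⟩
  have m2 : ∀ m, X2 m → T.Mark m := fun m hm => by
    obtain ⟨g, a1, a2⟩ := (hX2 m).1 hm
    exact (hA.kmark _ m ((hX1 g).1 a1).2.1 a2).1
  obtain ⟨A, r1, r2, r3, r4⟩ := absa_raise (h2.mono (le_max_left n n')) (fun g => X1 g ∨ X2 g)
    (A0.length + (Finset.range A0.length).sup fun g => (aK (an (T.idx g))).length)
    fun g hg => by
      rcases hg with hg | hg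
      · obtain ⟨a1, -, -, a2⟩ := (hX1 g).1 hg
        have := (h2.1 g a2).1
        have := lt_of_row_ne a2
        exact ⟨by omega, Or.inl a1, by omega⟩
      · obtain ⟨g', a1, a2⟩ := (hX2 g).1 hg
        obtain ⟨a3, a4, -, a5⟩ := (hX1 g').1 a1
        have a6 : T.fr (T.idx g') = g' := a3
        have a7 := (h2.1 g' a5).1
        have a8 := lt_of_tb_ne a2
        have a9 := Finset.le_sup (f := fun g => (aK (an (T.idx g))).length)
          (Finset.mem_range.2 (lt_of_row_ne a5))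
        exact ⟨hn' _ g a4 (by omega) a2, Or.inr (m2 g hg), by omega⟩
  have nj : ¬ (X1 (T.fr j) ∨ X2 (T.fr j)) := fun h' =>
    h'.elim (fun h' => ((hX1 _).1 h').2.2.1 (T.idx_fr j))
      fun h' => Sys.not_mark (T.free_fr j) (m2 _ h')
  refine ⟨A, [], (eof z.1, aE (an j), aF (an j), ag (an j), ak (an j), []),
    ⟨rfl, fun _ => ⟨rfl, rfl, j, h1, rfl, rfl, rfl, rfl, by rwa [r1 _ nj], fun q hq => ?_,
      ⟨F', h5.mono ((r4 _ (he.1 p hp)).2.B ⊤), h6⟩, fun j' a1 a2 a3 => ?_⟩,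
      fun h' => absurd ho h'⟩, ⟨r3, fun q hq => ?_⟩, Sys.pv_nil _,
    fun m hm => absurd (tb_nil m) hm⟩
  · rw [← h4 q hq]
    unfold cut
    rw [r1 _ nj]
  · have a4 : X1 (T.fr j') := by
      by_cases e : X1 (T.fr j') ∨ X2 (T.fr j')
      · exact e.resolve_right fun h' => Sys.not_mark (T.free_fr j') (m2 _ h')
      · refine (hX1 _).2 ⟨T.free_fr j', ?_, ?_, r1 _ e ▸ a3⟩
        · rwa [T.idx_fr]
        · rwa [T.idx_fr]
    exact ⟨(r2 _ (Or.inl a4)).2, fun m hm =>
      r2 m (Or.inr ((hX2 m).2 ⟨_, a4, by rwa [T.idx_fr]⟩))⟩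
  · obtain ⟨v1, v2⟩ := r4 q hq
    refine Sys.leg_mkW v1 fun m hm hz hf => ?_
    by_cases e : X1 m ∨ X2 m
    · obtain ⟨g, a1, a2⟩ := (hX2 m).1
        (e.resolve_left fun h' => Sys.not_mark ((hX1 m).1 h').1 hm)
      obtain ⟨a3, a4, -, -⟩ := (hX1 g).1 a1
      have a6 : T.fr (T.idx g) = g := a3
      refine app_mono (hA.src _ _ a4 (Sys.mkW_world v1) ?_ fun g' => ?_).lset
        (hA.kmark _ m a4 a2).2.2
      · have a7 := (hA.hom _ a4).1 s hs
        rw [a6] at a7 ⊢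
        rw [Sys.mkW_live v1 (Or.inl a3), (r2 g (Or.inl a1)).2 q hq]
        exact U.le_top _ _ a7
      · by_cases e' : tb (aK (an (T.idx g))) g' = 0
        · rw [e']; exact U.zero_le _
        · obtain ⟨a7, a8, -⟩ := hA.kmark _ g' a4 e'
          rw [Sys.mkW_live v1 (Or.inr a7), (r2 g' (Or.inr ((hX2 g').2 ⟨g, a1, e'⟩))).2 q hq]
          exact U.le_top _ _ a8
    · refine app_mono (v2.B ⊤) (h2.2 q hq m hm hz ?_)
      rw [Sys.mkW_live (h2.valid hq) (Or.inr hm)]
      unfold cut at hf ⊢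
      rwa [r1 m e] at hf

end MP750S

end

section

/-! Strong interval embeddings of finite lattices. -/

set_option autoImplicit false

namespace MP750S

theorem main_uni {M : Type} [Lattice M] [BoundedOrder M] [Primcodable M] [Finite M] (U : Uni M) :
    StMain U := by
  have com : StCom U := stCom stRef
  have fus : StFus U := stFus stFusA (fusc stRef)
  have df : StDF U := stDF fus
  have con : StConN U := stConN com
  exact stMain stBase stEasy (stT stV0 com)
    (stM (stLevel (stSerA con df) (stSerB stV2 com df)) (stDecode (stCopy stRef)) stAct stActW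
      (stActSat stEasy stRel fus stInitR (stInitA stV1) stInitB stInitC stAtt0 stAbsR
        (stAbsA (stAbsH con)) stAbsB stAbsC (stFail stV3 com df) (stExtract stFamily)))
    (stGen (stStep com))

/-- A set reducible to the empty set is reducible to every set. -/
theorem red_of_empty {A B : Set ℕ} (h : Red A ∅) : Red A B := by
  obtain ⟨P, hP, rfl⟩ := h
  refine ⟨fun z => P (z.1, []), r_comp hP (by fun_prop), Set.ext fun x => ⟨?_, ?_⟩⟩
  · rintro ⟨D, h1, h2⟩
    obtain rfl : D = [] := List.eq_nil_iff_forall_not_mem.2 fun y hy => h1 y hy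
    exact ⟨[], sub_nil _, h2⟩
  · rintro ⟨D, _, h2⟩
    exact ⟨[], sub_nil _, h2⟩

theorem strong (L : Type) [Lattice L] [BoundedOrder L] [Finite L] : ∃ f : L → Set ℕ,
    ¬ Red (f ⊥) ∅ ∧ (∀ x y, x ≤ y ↔ Red (f x) (f y)) ∧
    ∀ C, Red C (f ⊤) → Red C (f ⊥) ∨ ∃ x, Red C (f x) ∧ Red (f x) C := by
  have : Finite (WithBot L) := inferInstanceAs (Finite (Option L))
  have := Fintype.ofFinite (WithBot L)
  let _ : Primcodable (WithBot L) := Primcodable.ofEquiv _ (Fintype.equivFin (WithBot L))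
  obtain ⟨U⟩ := stUni (M := WithBot L) stCodes WithBot.bot_ne_coe fun x y h => by
    induction x with
    | bot => exact Or.inl rfl
    | coe x =>
      induction y with
      | bot => exact Or.inr rfl
      | coe y => exact absurd ((WithBot.coe_inf x y).trans h) WithBot.coe_ne_bot
  obtain ⟨w, h1, h2⟩ := main_uni U ((⊥ : L) : WithBot L) WithBot.coe_ne_bot
  refine ⟨fun x => U.B (x : WithBot L) w, fun h => ?_,
    fun x y => WithBot.coe_le_coe.symm.trans (h1 _ _), fun C hC => (h2 C hC).imp id ?_⟩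
  · exact WithBot.coe_ne_bot (le_bot_iff.1 ((h1 _ ⊥).2 (red_of_empty h)))
  · rintro ⟨a, ha, h⟩
    induction a with
    | bot => exact absurd rfl ha
    | coe a => exact ⟨a, h⟩

end MP750S

end
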