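import Pool.Agent.Mg.F750bb3.G5bc40e

set_option linter.all false

section

set_option autoImplicit false

namespace Pool.Agent.MP_750bb3_lc

namespace TableAux

variable {L : Type} [Lattice L] [BoundedOrder L]

/-- the equations of the table built from gadgets -/
structure Gad (d : ℕ → ℕ → L) (x y : ℕ → ℕ) (a b : ℕ → L) : Prop where
  hx : ∀ s, x s ≤ s
  hy : ∀ s, y s ≤ s
  hab : ∀ s, a s ⊓ b s ≤ d (x s) (y s)
  refl : ∀ z, d z z = ⊤
  symm : ∀ z w, d z w = d w z
  o1 : ∀ s z, z < 3 * s + 1 → d z (3 * s + 1) = d z (x s) ⊓ a s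
  o2 : ∀ s z, z < 3 * s + 1 → d z (3 * s + 2) = d z (x s) ⊓ (a s ⊓ b s)
  o3 : ∀ s z, z < 3 * s + 1 → d z (3 * s + 3) = d z (y s) ⊓ b s
  i12 : ∀ s, d (3 * s + 1) (3 * s + 2) = b s
  i23 : ∀ s, d (3 * s + 2) (3 * s + 3) = a s
  i13 : ∀ s, d (3 * s + 1) (3 * s + 3) = a s ⊓ b s
  surj : ∀ x' y' a' b', a' ⊓ b' ≤ d x' y' → ∃ s, x s = x' ∧ y s = y' ∧ a s = a' ∧ b s = b'

section build
variable (e : ℕ → L × L)

def gx (s : ℕ) : ℕ := (Nat.unpair (Nat.unpair s).1).1
def gy0 (s : ℕ) : ℕ := (Nat.unpair (Nat.unpair s).1).2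
def ga (s : ℕ) : L := (e (Nat.unpair s).2).1
def gb (s : ℕ) : L := (e (Nat.unpair s).2).2

open Classical in
noncomputable def gy (D : ℕ → ℕ → L) (s : ℕ) : ℕ :=
  if ga e s ⊓ gb e s ≤ D (gx s) (gy0 s) then gy0 s else gx s

noncomputable def an0 (D : ℕ → ℕ → L) (s w : ℕ) : ℕ := if w = 3 * s + 3 then gy e D s else gx s

def wt0 (s w : ℕ) : L :=
  if w = 3 * s + 1 then ga e s else if w = 3 * s + 2 then ga e s ⊓ gb e s else gb e s

def inn (s z w : ℕ) : L :=
  if z = w then ⊤ else if z + w = 6 * s + 3 then gb e s else if z + w = 6 * s + 5 then ga e s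
    else ga e s ⊓ gb e s

noncomputable def DD : ℕ → ℕ → ℕ → L
  | 0 => fun _ _ => ⊤
  | s + 1 => fun z w =>
    if z < 3 * s + 1 then
      (if w < 3 * s + 1 then DD s z w else DD s z (an0 e (DD s) s w) ⊓ wt0 e s w)
    else (if w < 3 * s + 1 then DD s w (an0 e (DD s) s z) ⊓ wt0 e s z else inn e s z w)

noncomputable def dd (z w : ℕ) : L := DD e (z + w) z w

lemma DD_stab (s k z w : ℕ) (hz : z < 3 * s + 1) (hw : w < 3 * s + 1) :
    DD e (s + k) z w = DD e s z w := by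
  induction k with
  | zero => rfl
  | succ k ih =>
    rw [← ih, ← Nat.add_assoc, DD]
    simp only
    rw [if_pos (by omega), if_pos (by omega)]

lemma dd_eq (s z w : ℕ) (hz : z < 3 * s + 1) (hw : w < 3 * s + 1) : dd e z w = DD e s z w := by
  rw [dd, ← DD_stab e (z + w) s z w (by omega) (by omega), Nat.add_comm (z + w) s,
    DD_stab e s _ z w hz hw]

lemma DD_symm (s z w : ℕ) : DD e s z w = DD e s w z := by
  induction s generalizing z w with
  | zero => rfl
  | succ s ih =>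
    rw [DD]
    simp only
    by_cases hz : z < 3 * s + 1 <;> by_cases hw : w < 3 * s + 1
    · simp only [if_pos hz, if_pos hw]; exact ih z w
    · simp only [if_pos hz, if_neg hw]
    · simp only [if_neg hz, if_pos hw]
    · simp only [if_neg hz, if_neg hw, inn, Nat.add_comm z w, eq_comm (a := z) (b := w)]

lemma DD_refl (s z : ℕ) : DD e s z z = ⊤ := by
  induction s with
  | zero => rfl
  | succ s ih =>
    rw [DD]
    simp only
    by_cases hz : z < 3 * s + 1
    · simp only [if_pos hz]; exact ih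
    · simp only [if_neg hz, inn, if_true]

lemma gx_le (s : ℕ) : gx s ≤ s := (Nat.unpair_left_le _).trans (Nat.unpair_left_le _)
lemma gy0_le (s : ℕ) : gy0 s ≤ s := (Nat.unpair_right_le _).trans (Nat.unpair_left_le _)

lemma gy_le (D : ℕ → ℕ → L) (s : ℕ) : gy e D s ≤ s := by
  unfold gy; split_ifs
  · exact gy0_le s
  · exact gx_le s

lemma dd_old (s z w : ℕ) (hz : z < 3 * s + 1) (hw : 3 * s + 1 ≤ w) (hw' : w < 3 * s + 4) :
    dd e z w = dd e z (an0 e (DD e s) s w) ⊓ wt0 e s w := by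
  have h1 : an0 e (DD e s) s w < 3 * s + 1 := by
    have := gy_le e (DD e s) s
    have := gx_le s
    unfold an0; split_ifs <;> omega
  rw [dd_eq e (s + 1) z w (by omega) (by omega), dd_eq e s z _ hz h1, DD]
  simp only
  rw [if_pos hz, if_neg (by omega)]

lemma dd_new (s z w : ℕ) (hz : 3 * s + 1 ≤ z) (hz' : z < 3 * s + 4) (hw : 3 * s + 1 ≤ w)
    (hw' : w < 3 * s + 4) : dd e z w = inn e s z w := by
  rw [dd_eq e (s + 1) z w (by omega) (by omega), DD]
  simp only
  rw [if_neg (by omega), if_neg (by omega)]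

lemma gad (he : Function.Surjective e) :
    Gad (dd e) gx (fun s => gy e (DD e s) s) (ga e) (gb e) where
  hx := gx_le
  hy s := gy_le e _ s
  hab s := by
    have := gx_le s
    have := gy0_le s
    unfold gy; split_ifs with h
    · rwa [dd_eq e s _ _ (by omega) (by omega)]
    · rw [dd, DD_refl]; exact le_top
  refl z := DD_refl e _ z
  symm z w := by rw [dd, dd, Nat.add_comm, DD_symm]
  o1 s z hz := by
    rw [dd_old e s z _ hz (by omega) (by omega), an0, wt0, if_neg (by omega), if_pos rfl]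
  o2 s z hz := by
    rw [dd_old e s z _ hz (by omega) (by omega), an0, wt0, if_neg (by omega), if_neg (by omega),
      if_pos rfl]
  o3 s z hz := by
    rw [dd_old e s z _ hz (by omega) (by omega), an0, wt0, if_pos rfl, if_neg (by omega),
      if_neg (by omega)]
  i12 s := by
    rw [dd_new e s _ _ (by omega) (by omega) (by omega) (by omega), inn, if_neg (by omega),
      if_pos (by omega)]
  i23 s := by
    rw [dd_new e s _ _ (by omega) (by omega) (by omega) (by omega), inn, if_neg (by omega),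
      if_neg (by omega), if_pos (by omega)]
  i13 s := by
    rw [dd_new e s _ _ (by omega) (by omega) (by omega) (by omega), inn, if_neg (by omega),
      if_neg (by omega), if_neg (by omega)]
  surj x' y' a' b' h := by
    obtain ⟨k, hk⟩ := he (a', b')
    have h1 : gx (Nat.pair (Nat.pair x' y') k) = x' := by simp [gx]
    have h2 : gy0 (Nat.pair (Nat.pair x' y') k) = y' := by simp [gy0]
    have h3 : ga e (Nat.pair (Nat.pair x' y') k) = a' := by simp [ga, hk]
    have h4 : gb e (Nat.pair (Nat.pair x' y') k) = b' := by simp [gb, hk]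
    refine ⟨Nat.pair (Nat.pair x' y') k, h1, ?_, h3, h4⟩
    have h5 := gx_le (Nat.pair (Nat.pair x' y') k)
    have h6 := gy0_le (Nat.pair (Nat.pair x' y') k)
    simp only [gy]
    rw [if_pos, h2]
    rw [← dd_eq e _ _ _ (by omega) (by omega), h1, h2, h3, h4]
    exact h

end build

variable {d : ℕ → ℕ → L} {x y : ℕ → ℕ} {a b : ℕ → L}

def an (x y : ℕ → ℕ) (s i : ℕ) : ℕ := if i = 3 then y s else x s

def wt (a b : ℕ → L) (s i : ℕ) : L := if i = 1 then a s else if i = 2 then a s ⊓ b s else b s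

lemma cases_pt (s w : ℕ) (hw : w < 3 * (s + 1) + 1) :
    w < 3 * s + 1 ∨ ∃ i, (i = 1 ∨ i = 2 ∨ i = 3) ∧ w = 3 * s + i := by
  by_cases h : w < 3 * s + 1
  · exact Or.inl h
  · exact Or.inr ⟨w - 3 * s, by omega, by omega⟩

namespace Gad
variable (G : Gad d x y a b)
include G

lemma an_lt (s i : ℕ) : an x y s i < 3 * s + 1 := by
  have := G.hx s
  have := G.hy s
  unfold an; split_ifs <;> omega

lemma old (s z i : ℕ) (hz : z < 3 * s + 1) (hi : i = 1 ∨ i = 2 ∨ i = 3) :
    d z (3 * s + i) = d z (an x y s i) ⊓ wt a b s i := by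
  rcases hi with rfl | rfl | rfl
  · simpa [an, wt] using G.o1 s z hz
  · simpa [an, wt] using G.o2 s z hz
  · simpa [an, wt] using G.o3 s z hz

lemma wt_le (s i : ℕ) (hi : i = 1 ∨ i = 2 ∨ i = 3) : wt a b s i ≤ d (an x y s i) (3 * s + i) := by
  rw [G.old s _ i (G.an_lt s i) hi, G.refl]; simp

lemma i21 (s : ℕ) : d (3 * s + 2) (3 * s + 1) = b s := by rw [G.symm, G.i12]
lemma i32 (s : ℕ) : d (3 * s + 3) (3 * s + 2) = a s := by rw [G.symm, G.i23]
lemma i31 (s : ℕ) : d (3 * s + 3) (3 * s + 1) = a s ⊓ b s := by rw [G.symm, G.i13]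
lemma hba (s : ℕ) : a s ⊓ b s ≤ d (y s) (x s) := by rw [G.symm]; exact G.hab s

lemma f1 (s i j : ℕ) (hi : i = 1 ∨ i = 2 ∨ i = 3) (hj : j = 1 ∨ j = 2 ∨ j = 3) :
    wt a b s i ⊓ wt a b s j ≤ d (3 * s + i) (3 * s + j) := by
  rcases hi with rfl | rfl | rfl <;> rcases hj with rfl | rfl | rfl <;>
    simp [wt, G.refl, G.i12, G.i21, G.i23, G.i32, G.i13, G.i31, inf_le_of_left_le,
      inf_le_of_right_le]

lemma f2 (s i j : ℕ) (hi : i = 1 ∨ i = 2 ∨ i = 3) (hj : j = 1 ∨ j = 2 ∨ j = 3) :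
    wt a b s i ⊓ d (3 * s + i) (3 * s + j) ≤ wt a b s j ⊓ d (an x y s i) (an x y s j) := by
  have h1 := G.hab s
  have h2 := G.hba s
  have h3 : b s ⊓ a s ≤ d (y s) (x s) := by rw [inf_comm]; exact h2
  rcases hi with rfl | rfl | rfl <;> rcases hj with rfl | rfl | rfl <;>
    simp [wt, an, G.refl, G.i12, G.i21, G.i23, G.i32, G.i13, G.i31, inf_le_of_left_le,
      inf_le_of_right_le, h1, h2, h3]

lemma f3 (s i j k : ℕ) (hi : i = 1 ∨ i = 2 ∨ i = 3) (hj : j = 1 ∨ j = 2 ∨ j = 3)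
    (hk : k = 1 ∨ k = 2 ∨ k = 3) :
    d (3 * s + i) (3 * s + j) ⊓ d (3 * s + j) (3 * s + k) ≤ d (3 * s + i) (3 * s + k) := by
  rcases hi with rfl | rfl | rfl <;> rcases hj with rfl | rfl | rfl <;>
    rcases hk with rfl | rfl | rfl <;>
    simp [G.refl, G.i12, G.i21, G.i23, G.i32, G.i13, G.i31, inf_le_of_left_le,
      inf_le_of_right_le]

lemma tri_aux (s : ℕ) : ∀ p q r, p < 3 * s + 1 → q < 3 * s + 1 → r < 3 * s + 1 →
    d p q ⊓ d q r ≤ d p r := by
  induction s with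
  | zero =>
    intro p q r hp _ hr
    obtain rfl : p = 0 := by omega
    obtain rfl : r = 0 := by omega
    rw [G.refl]; exact le_top
  | succ s ih =>
    have oon : ∀ p q k, p < 3 * s + 1 → q < 3 * s + 1 → (k = 1 ∨ k = 2 ∨ k = 3) →
        d p q ⊓ d q (3 * s + k) ≤ d p (3 * s + k) := by
      intro p q k hp hq hk
      rw [G.old s q k hq hk, G.old s p k hp hk, ← inf_assoc]
      exact inf_le_inf_right _ (ih _ _ _ hp hq (G.an_lt s k))
    have onn : ∀ p j k, p < 3 * s + 1 → (j = 1 ∨ j = 2 ∨ j = 3) → (k = 1 ∨ k = 2 ∨ k = 3) →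
        d p (3 * s + j) ⊓ d (3 * s + j) (3 * s + k) ≤ d p (3 * s + k) := by
      intro p j k hp hj hk
      rw [G.old s p j hp hj, G.old s p k hp hk, inf_assoc]
      refine (inf_le_inf_left _ (G.f2 s j k hj hk)).trans ?_
      rw [inf_comm (wt a b s k), ← inf_assoc]
      exact inf_le_inf_right _ (ih _ _ _ hp (G.an_lt s j) (G.an_lt s k))
    intro p q r hp hq hr
    rcases cases_pt s p hp with hp | ⟨i, hi, rfl⟩ <;>
      rcases cases_pt s q hq with hq | ⟨j, hj, rfl⟩ <;>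
      rcases cases_pt s r hr with hr | ⟨k, hk, rfl⟩
    · exact ih p q r hp hq hr
    · exact oon p q k hp hq hk
    · rw [G.symm _ r, G.old s p j hp hj, G.old s r j hr hj, G.symm r]
      exact (inf_le_inf inf_le_left inf_le_left).trans (ih _ _ _ hp (G.an_lt s j) hr)
    · exact onn p j k hp hj hk
    · rw [G.symm _ q, G.symm q r, G.symm _ r, inf_comm]
      exact oon r q i hr hq hi
    · rw [G.symm _ q, G.old s q i hq hi, G.old s q k hq hk]
      exact (inf_le_inf inf_le_right inf_le_right).trans (G.f1 s i k hi hk)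
    · rw [G.symm (3 * s + i) (3 * s + j), G.symm _ r, G.symm _ r, inf_comm]
      exact onn r j i hr hj hi
    · exact G.f3 s i j k hi hj hk

lemma tri (p q r : ℕ) : d p q ⊓ d q r ≤ d p r :=
  G.tri_aux (p + q + r) p q r (by omega) (by omega) (by omega)

omit G in
def HomOn (d : ℕ → ℕ → L) (s : ℕ) (h : ℕ → ℕ) : Prop :=
  ∀ p q, p < 3 * s + 1 → q < 3 * s + 1 → d p q ≤ d (h p) (h q)

lemma ext1 (s : ℕ) (h : ℕ → ℕ) (hh : HomOn d s h) :
    ∃ h', HomOn d (s + 1) h' ∧ ∀ w, w < 3 * s + 1 → h' w = h w := by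
  have hx := G.hx s
  have hy := G.hy s
  obtain ⟨t, h1, h2, h3, h4⟩ := G.surj (h (x s)) (h (y s)) (a s) (b s)
    ((G.hab s).trans (hh _ _ (by omega) (by omega)))
  set h' : ℕ → ℕ := fun w => if w < 3 * s + 1 then h w else 3 * t + (w - 3 * s) with hh'
  have eo : ∀ w, w < 3 * s + 1 → h' w = h w := fun w hw => if_pos hw
  have en : ∀ i, (i = 1 ∨ i = 2 ∨ i = 3) → h' (3 * s + i) = 3 * t + i := by
    intro i hi
    simp only [hh']
    rw [if_neg (by omega), Nat.add_sub_cancel_left]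
  have ha : ∀ i, an x y t i = h (an x y s i) := by
    intro i; unfold an; split_ifs
    · exact h2
    · exact h1
  have hw : ∀ i, wt a b t i = wt a b s i := by
    intro i; unfold wt; rw [h3, h4]
  have on : ∀ p k, p < 3 * s + 1 → (k = 1 ∨ k = 2 ∨ k = 3) →
      d p (3 * s + k) ≤ d (h' p) (h' (3 * s + k)) := by
    intro p k hp hk
    rw [eo p hp, en k hk, G.old s p k hp hk]
    refine le_trans (inf_le_inf (hh _ _ hp (G.an_lt s k)) ?_) (G.tri _ (h (an x y s k)) _)
    rw [← ha, ← hw]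
    exact G.wt_le t k hk
  refine ⟨h', fun p q hp hq => ?_, eo⟩
  rcases cases_pt s p hp with hp | ⟨i, hi, rfl⟩ <;> rcases cases_pt s q hq with hq | ⟨j, hj, rfl⟩
  · rw [eo p hp, eo q hq]; exact hh p q hp hq
  · exact on p j hp hj
  · rw [G.symm, G.symm (h' _)]; exact on q i hq hi
  · rw [en i hi, en j hj]
    rcases hi with rfl | rfl | rfl <;> rcases hj with rfl | rfl | rfl <;>
      simp [G.refl, G.i12, G.i21, G.i23, G.i32, G.i13, G.i31, h3, h4]

lemma proj (N : ℕ) (h : ℕ → ℕ) (hh : HomOn d N h) :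
    ∃ h', End d h' ∧ ∀ w, w < 3 * N + 1 → h' w = h w := by
  choose st hst1 hst2 using G.ext1
  let F : (k : ℕ) → {g : ℕ → ℕ // HomOn d (N + k) g} := fun k =>
    Nat.rec ⟨h, hh⟩ (fun k g => ⟨st (N + k) g.1 g.2, hst1 _ _ _⟩) k
  have stab : ∀ k j w, w < 3 * (N + k) + 1 → (F (k + j)).1 w = (F k).1 w := by
    intro k j w hw
    induction j with
    | zero => rfl
    | succ j ih =>
      rw [← ih]
      exact hst2 (N + (k + j)) (F (k + j)).1 (F (k + j)).2 w (by omega)
  refine ⟨fun w => (F w).1 w, fun p q => ?_, fun w hw => ?_⟩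
  · have h1 := stab p q p (by omega)
    have h2 := stab q p q (by omega)
    rw [Nat.add_comm q p] at h2
    simp only
    rw [← h1, ← h2]
    exact (F (p + q)).2 p q (by omega) (by omega)
  · have := stab 0 w w (by omega)
    rw [Nat.zero_add] at this
    exact this

lemma cut (N : ℕ) (S : ℕ → Prop) (c : L)
    (hS : ∀ p q, p < 3 * N + 1 → q < 3 * N + 1 → ¬ S p → S q → d p q ≤ c)
    (p q : ℕ) (hp : p < 3 * N + 1) (hq : q < 3 * N + 1) (h1 : ¬ S p) (h2 : S q) :
    Free d c p q := by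
  classical
  intro u v huv
  obtain ⟨h, he, hh⟩ := G.proj N (fun w => if S w then v else u) (by
    intro p q hp hq
    by_cases h1 : S p <;> by_cases h2 : S q <;> simp only [h1, h2, if_true, if_false]
    · rw [G.refl]; exact le_top
    · rw [G.symm, G.symm v]; exact (hS q p hq hp h2 h1).trans huv
    · exact (hS p q hp hq h1 h2).trans huv
    · rw [G.refl]; exact le_top)
  exact ⟨h, he, by rw [hh p hp, if_neg h1], by rw [hh q hq, if_pos h2]⟩

lemma hom1 (s p q : ℕ) (hp : p < 3 * s + 1 ∨ p = 3 * s + 3) (hq : q = 3 * s + 1 ∨ q = 3 * s + 2) :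
    Free d (a s) p q := by
  refine G.cut (s + 1) (fun w => w = 3 * s + 1 ∨ w = 3 * s + 2) _ ?_ p q (by omega) (by omega)
    (by omega) hq
  intro p q hp _ h1 h2
  have hp' : p < 3 * s + 1 ∨ p = 3 * s + 3 := by omega
  rcases hp' with hp | rfl <;> rcases h2 with rfl | rfl
  · rw [G.o1 s p hp]; exact inf_le_right
  · rw [G.o2 s p hp]; exact inf_le_right.trans inf_le_left
  · rw [G.i31]; exact inf_le_left
  · rw [G.i32]

lemma hom2 (s p q : ℕ) (hp : p < 3 * s + 1 ∨ p = 3 * s + 1) (hq : q = 3 * s + 2 ∨ q = 3 * s + 3) :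
    Free d (b s) p q := by
  refine G.cut (s + 1) (fun w => w = 3 * s + 2 ∨ w = 3 * s + 3) _ ?_ p q (by omega) (by omega)
    (by omega) hq
  intro p q hp _ h1 h2
  have hp' : p < 3 * s + 1 ∨ p = 3 * s + 1 := by omega
  rcases hp' with hp | rfl <;> rcases h2 with rfl | rfl
  · rw [G.o2 s p hp]; exact inf_le_right.trans inf_le_right
  · rw [G.o3 s p hp]; exact inf_le_right
  · rw [G.i12]
  · rw [G.i13]; exact inf_le_right

omit G in
def Core (d : ℕ → ℕ → L) (n : L) (p q : ℕ) : Prop :=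
  ∃ x' y' c, n ≤ d p x' ∧ n ≤ d q y' ∧ ¬ n ≤ c ∧ Free d c x' y'

lemma core_symm {n : L} {p q : ℕ} (h : Core d n p q) : Core d n q p := by
  obtain ⟨x', y', c, h1, h2, h3, h4⟩ := h
  refine ⟨y', x', c, h2, h1, h3, fun u v huv => ?_⟩
  obtain ⟨h, he, h5, h6⟩ := h4 v u (by rw [G.symm]; exact huv)
  exact ⟨h, he, h6, h5⟩

lemma core_of_free {n c : L} {p q : ℕ} (hc : ¬ n ≤ c) (h : Free d c p q) : Core d n p q :=
  ⟨p, q, c, by rw [G.refl]; exact le_top, by rw [G.refl]; exact le_top, hc, h⟩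

lemma core_aux (n : L) (s : ℕ) : ∀ p q, p < 3 * s + 1 → q < 3 * s + 1 → ¬ n ≤ d p q →
    Core d n p q := by
  induction s with
  | zero =>
    intro p q hp hq h
    obtain rfl : p = 0 := by omega
    obtain rfl : q = 0 := by omega
    rw [G.refl] at h
    exact absurd le_top h
  | succ s ih =>
    have hor : ¬ n ≤ a s ⊓ b s → ¬ n ≤ a s ∨ ¬ n ≤ b s := by
      intro h; rw [le_inf_iff] at h; exact not_and_or.1 h
    have on : ∀ p k, p < 3 * s + 1 → (k = 1 ∨ k = 2 ∨ k = 3) → ¬ n ≤ d p (3 * s + k) →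
        Core d n p (3 * s + k) := by
      intro p k hp hk h
      by_cases hw : n ≤ wt a b s k
      · obtain ⟨x', y', c, h1, h2, h3, h4⟩ := ih p (an x y s k) hp (G.an_lt s k)
          (fun h' => h (by rw [G.old s p k hp hk]; exact le_inf h' hw))
        refine ⟨x', y', c, h1, le_trans (le_inf ?_ h2) (G.tri _ (an x y s k) _), h3, h4⟩
        rw [G.symm]
        exact hw.trans (G.wt_le s k hk)
      · rcases hk with rfl | rfl | rfl
        · exact G.core_of_free hw (G.hom1 s _ _ (Or.inl hp) (Or.inl rfl))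
        · rcases hor hw with h' | h'
          · exact G.core_of_free h' (G.hom1 s _ _ (Or.inl hp) (Or.inr rfl))
          · exact G.core_of_free h' (G.hom2 s _ _ (Or.inl hp) (Or.inl rfl))
        · exact G.core_of_free hw (G.hom2 s _ _ (Or.inl hp) (Or.inr rfl))
    have c12 : ¬ n ≤ b s → Core d n (3 * s + 1) (3 * s + 2) := fun h =>
      G.core_of_free h (G.hom2 s _ _ (Or.inr rfl) (Or.inl rfl))
    have c32 : ¬ n ≤ a s → Core d n (3 * s + 3) (3 * s + 2) := fun h =>
      G.core_of_free h (G.hom1 s _ _ (Or.inr rfl) (Or.inr rfl))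
    have c13 : ¬ n ≤ a s ⊓ b s → Core d n (3 * s + 1) (3 * s + 3) := fun h => by
      rcases hor h with h' | h'
      · exact G.core_symm (G.core_of_free h' (G.hom1 s _ _ (Or.inr rfl) (Or.inl rfl)))
      · exact G.core_of_free h' (G.hom2 s _ _ (Or.inr rfl) (Or.inr rfl))
    intro p q hp hq h
    rcases cases_pt s p hp with hp | ⟨i, hi, rfl⟩ <;> rcases cases_pt s q hq with hq | ⟨j, hj, rfl⟩
    · exact ih p q hp hq h
    · exact on p j hp hj h
    · exact G.core_symm (on q i hq hi (by rw [G.symm]; exact h))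
    · rcases hi with rfl | rfl | rfl <;> rcases hj with rfl | rfl | rfl
      · rw [G.refl] at h; exact absurd le_top h
      · exact c12 (by rwa [G.i12] at h)
      · exact c13 (by rwa [G.i13] at h)
      · exact G.core_symm (c12 (by rwa [G.i21] at h))
      · rw [G.refl] at h; exact absurd le_top h
      · exact G.core_symm (c32 (by rwa [G.i23] at h))
      · exact G.core_symm (c13 (by rwa [G.i31] at h))
      · exact c32 (by rwa [G.i32] at h)
      · rw [G.refl] at h; exact absurd le_top h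

lemma isTab : IsTab d where
  refl := G.refl
  symm := G.symm
  tri := G.tri
  chain p q a' b' h := by
    obtain ⟨s, rfl, rfl, rfl, rfl⟩ := G.surj p q a' b' h
    refine ⟨3 * s + 1, 3 * s + 2, 3 * s + 3, ?_, (G.i12 s).ge, (G.i23 s).ge, ?_⟩
    · exact G.wt_le s 1 (Or.inl rfl)
    · rw [G.symm]; exact G.wt_le s 3 (Or.inr (Or.inr rfl))
  gen c := by
    obtain ⟨s, h1, -, rfl, -⟩ := G.surj 0 0 c c (by rw [G.refl]; exact le_top)
    refine ⟨0, 3 * s + 1, ?_, G.hom1 s _ _ (Or.inl (by omega)) (Or.inl rfl)⟩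
    rw [G.o1 s 0 (by omega), h1, G.refl, top_inf_eq]
  core n p q h := G.core_aux n (p + q) p q (by omega) (by omega) h

end Gad

end TableAux

theorem tab_exists : TabStm := by
  intro L _ _ _
  obtain ⟨e, he⟩ := exists_surjective_nat (L × L)
  exact ⟨_, (TableAux.gad e he).isTab⟩

end Pool.Agent.MP_750bb3_lc

end

section

set_option autoImplicit false

namespace Pool.Agent.MP_750bb3_lc

namespace TabUAux

open TableAux

variable {K K' : Type} [Lattice K] [BoundedOrder K] [Lattice K'] [BoundedOrder K']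

def HomOn (π : K' → K) (d' : ℕ → ℕ → K') (d : ℕ → ℕ → K) (s : ℕ) (h : ℕ → ℕ) : Prop :=
  ∀ p q, p < 3 * s + 1 → q < 3 * s + 1 → π (d' p q) ≤ d (h p) (h q)

def FreeU (π : K' → K) (d' : ℕ → ℕ → K') (d : ℕ → ℕ → K) (c : K') (p q : ℕ) : Prop :=
  ∀ u v, π c ≤ d u v → ∃ g : ℕ → ℕ, (∀ z w, π (d' z w) ≤ d (g z) (g w)) ∧ g p = u ∧ g q = v

def CoreU (π : K' → K) (d' : ℕ → ℕ → K') (d : ℕ → ℕ → K) (n : K') (p q : ℕ) : Prop :=
  ∃ p' q' c, n ≤ d' p p' ∧ n ≤ d' q q' ∧ ¬ n ≤ c ∧ FreeU π d' d c p' q'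

variable {d' : ℕ → ℕ → K'} {x y : ℕ → ℕ} {a b : ℕ → K'} {d : ℕ → ℕ → K} {π : K' → K}

lemma ext1 (G : Gad d' x y a b) (hd : IsTab d) (hπ : Monotone π)
    (hπ2 : ∀ u v, π u ⊓ π v ≤ π (u ⊓ v)) (s : ℕ) (h : ℕ → ℕ) (hh : HomOn π d' d s h) :
    ∃ h', HomOn π d' d (s + 1) h' ∧ ∀ w, w < 3 * s + 1 → h' w = h w := by
  have hx := G.hx s
  have hy := G.hy s
  have hm : ∀ p q : K', π (p ⊓ q) ≤ π p ⊓ π q := fun p q =>
    le_inf (hπ inf_le_left) (hπ inf_le_right)
  obtain ⟨u, v, w, h1, h2, h3, h4⟩ := hd.chain (h (x s)) (h (y s)) (π (a s)) (π (b s))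
    ((hπ2 _ _).trans ((hπ (G.hab s)).trans (hh _ _ (by omega) (by omega))))
  set h' : ℕ → ℕ := fun z => if z < 3 * s + 1 then h z else if z = 3 * s + 1 then u else
    if z = 3 * s + 2 then v else w with hh'
  have eo : ∀ z, z < 3 * s + 1 → h' z = h z := fun z hz => if_pos hz
  have e1 : h' (3 * s + 1) = u := by
    simp only [hh']
    rw [if_neg (by omega), if_pos trivial]
  have e2 : h' (3 * s + 2) = v := by
    simp only [hh']
    rw [if_neg (by omega), if_neg (by omega), if_pos trivial]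
  have e3 : h' (3 * s + 3) = w := by
    simp only [hh']
    rw [if_neg (by omega), if_neg (by omega), if_neg (by omega)]
  have hw : ∀ k, (k = 1 ∨ k = 2 ∨ k = 3) →
      π (wt a b s k) ≤ d (h (an x y s k)) (h' (3 * s + k)) := by
    intro k hk
    rcases hk with rfl | rfl | rfl
    · rw [e1]; exact h1
    · rw [e2]
      exact (hm (a s) (b s)).trans ((inf_le_inf h1 h2).trans (hd.tri _ _ _))
    · rw [e3, hd.symm]; exact h4
  have on : ∀ p k, p < 3 * s + 1 → (k = 1 ∨ k = 2 ∨ k = 3) →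
      π (d' p (3 * s + k)) ≤ d (h' p) (h' (3 * s + k)) := by
    intro p k hp hk
    rw [eo p hp, G.old s p k hp hk]
    exact (hm _ _).trans ((inf_le_inf (hh _ _ hp (G.an_lt s k)) (hw k hk)).trans (hd.tri _ _ _))
  have n12 : π (d' (3 * s + 1) (3 * s + 2)) ≤ d (h' (3 * s + 1)) (h' (3 * s + 2)) := by
    rw [G.i12, e1, e2]; exact h2
  have n23 : π (d' (3 * s + 2) (3 * s + 3)) ≤ d (h' (3 * s + 2)) (h' (3 * s + 3)) := by
    rw [G.i23, e2, e3]; exact h3
  have n13 : π (d' (3 * s + 1) (3 * s + 3)) ≤ d (h' (3 * s + 1)) (h' (3 * s + 3)) := by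
    rw [G.i13, e1, e3]
    refine (hm (a s) (b s)).trans ?_
    rw [inf_comm]
    exact (inf_le_inf h2 h3).trans (hd.tri _ _ _)
  refine ⟨h', fun p q hp hq => ?_, eo⟩
  rcases cases_pt s p hp with hp | ⟨i, hi, rfl⟩ <;> rcases cases_pt s q hq with hq | ⟨j, hj, rfl⟩
  · rw [eo p hp, eo q hq]; exact hh p q hp hq
  · exact on p j hp hj
  · rw [G.symm, hd.symm]; exact on q i hq hi
  · rcases hi with rfl | rfl | rfl <;> rcases hj with rfl | rfl | rfl
    · rw [hd.refl]; exact le_top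
    · exact n12
    · exact n13
    · rw [G.symm, hd.symm]; exact n12
    · rw [hd.refl]; exact le_top
    · exact n23
    · rw [G.symm, hd.symm]; exact n13
    · rw [G.symm, hd.symm]; exact n23
    · rw [hd.refl]; exact le_top

lemma proj (G : Gad d' x y a b) (hd : IsTab d) (hπ : Monotone π)
    (hπ2 : ∀ u v, π u ⊓ π v ≤ π (u ⊓ v)) (N : ℕ) (h : ℕ → ℕ) (hh : HomOn π d' d N h) :
    ∃ g : ℕ → ℕ, (∀ z w, π (d' z w) ≤ d (g z) (g w)) ∧ ∀ w, w < 3 * N + 1 → g w = h w := by
  choose st hst1 hst2 using ext1 G hd hπ hπ2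
  let F : (k : ℕ) → {g : ℕ → ℕ // HomOn π d' d (N + k) g} := fun k =>
    Nat.rec ⟨h, hh⟩ (fun k g => ⟨st (N + k) g.1 g.2, hst1 _ _ _⟩) k
  have stab : ∀ k j w, w < 3 * (N + k) + 1 → (F (k + j)).1 w = (F k).1 w := by
    intro k j w hw
    induction j with
    | zero => rfl
    | succ j ih =>
      rw [← ih]
      exact hst2 (N + (k + j)) (F (k + j)).1 (F (k + j)).2 w (by omega)
  refine ⟨fun w => (F w).1 w, fun p q => ?_, fun w hw => ?_⟩
  · have h1 := stab p q p (by omega)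
    have h2 := stab q p q (by omega)
    rw [Nat.add_comm q p] at h2
    simp only
    rw [← h1, ← h2]
    exact (F (p + q)).2 p q (by omega) (by omega)
  · have := stab 0 w w (by omega)
    rw [Nat.zero_add] at this
    exact this

lemma cut (G : Gad d' x y a b) (hd : IsTab d) (hπ : Monotone π)
    (hπ2 : ∀ u v, π u ⊓ π v ≤ π (u ⊓ v)) (N : ℕ) (S : ℕ → Prop) (c : K')
    (hS : ∀ p q, p < 3 * N + 1 → q < 3 * N + 1 → ¬ S p → S q → d' p q ≤ c)
    (p q : ℕ) (hp : p < 3 * N + 1) (hq : q < 3 * N + 1) (h1 : ¬ S p) (h2 : S q) :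
    FreeU π d' d c p q := by
  classical
  intro u v huv
  obtain ⟨h, he, hh⟩ := proj G hd hπ hπ2 N (fun w => if S w then v else u) (by
    intro p q hp hq
    by_cases h1 : S p <;> by_cases h2 : S q <;> simp only [h1, h2, if_true, if_false]
    · rw [hd.refl]; exact le_top
    · rw [G.symm, hd.symm]; exact (hπ (hS q p hq hp h2 h1)).trans huv
    · exact (hπ (hS p q hp hq h1 h2)).trans huv
    · rw [hd.refl]; exact le_top)
  exact ⟨h, he, by rw [hh p hp, if_neg h1], by rw [hh q hq, if_pos h2]⟩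

lemma hom1 (G : Gad d' x y a b) (hd : IsTab d) (hπ : Monotone π)
    (hπ2 : ∀ u v, π u ⊓ π v ≤ π (u ⊓ v)) (s p q : ℕ) (hp : p < 3 * s + 1 ∨ p = 3 * s + 3)
    (hq : q = 3 * s + 1 ∨ q = 3 * s + 2) : FreeU π d' d (a s) p q := by
  refine cut G hd hπ hπ2 (s + 1) (fun w => w = 3 * s + 1 ∨ w = 3 * s + 2) _ ?_ p q (by omega)
    (by omega) (by omega) hq
  intro p q hp _ h1 h2
  have hp' : p < 3 * s + 1 ∨ p = 3 * s + 3 := by omega
  rcases hp' with hp | rfl <;> rcases h2 with rfl | rfl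
  · rw [G.o1 s p hp]; exact inf_le_right
  · rw [G.o2 s p hp]; exact inf_le_right.trans inf_le_left
  · rw [G.i31]; exact inf_le_left
  · rw [G.i32]

lemma hom2 (G : Gad d' x y a b) (hd : IsTab d) (hπ : Monotone π)
    (hπ2 : ∀ u v, π u ⊓ π v ≤ π (u ⊓ v)) (s p q : ℕ) (hp : p < 3 * s + 1 ∨ p = 3 * s + 1)
    (hq : q = 3 * s + 2 ∨ q = 3 * s + 3) : FreeU π d' d (b s) p q := by
  refine cut G hd hπ hπ2 (s + 1) (fun w => w = 3 * s + 2 ∨ w = 3 * s + 3) _ ?_ p q (by omega)
    (by omega) (by omega) hq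
  intro p q hp _ h1 h2
  have hp' : p < 3 * s + 1 ∨ p = 3 * s + 1 := by omega
  rcases hp' with hp | rfl <;> rcases h2 with rfl | rfl
  · rw [G.o2 s p hp]; exact inf_le_right.trans inf_le_right
  · rw [G.o3 s p hp]; exact inf_le_right
  · rw [G.i12]
  · rw [G.i13]; exact inf_le_right

lemma core_symm (hd : IsTab d) {n : K'} {p q : ℕ} (h : CoreU π d' d n p q) :
    CoreU π d' d n q p := by
  obtain ⟨x', y', c, h1, h2, h3, h4⟩ := h
  refine ⟨y', x', c, h2, h1, h3, fun u v huv => ?_⟩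
  obtain ⟨h, he, h5, h6⟩ := h4 v u (by rw [hd.symm]; exact huv)
  exact ⟨h, he, h6, h5⟩

lemma core_of_free (G : Gad d' x y a b) {n c : K'} {p q : ℕ} (hc : ¬ n ≤ c)
    (h : FreeU π d' d c p q) : CoreU π d' d n p q :=
  ⟨p, q, c, by rw [G.refl]; exact le_top, by rw [G.refl]; exact le_top, hc, h⟩

lemma core_aux (G : Gad d' x y a b) (hd : IsTab d) (hπ : Monotone π)
    (hπ2 : ∀ u v, π u ⊓ π v ≤ π (u ⊓ v)) (n : K') (s : ℕ) :
    ∀ p q, p < 3 * s + 1 → q < 3 * s + 1 → ¬ n ≤ d' p q → CoreU π d' d n p q := by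
  induction s with
  | zero =>
    intro p q hp hq h
    obtain rfl : p = 0 := by omega
    obtain rfl : q = 0 := by omega
    rw [G.refl] at h
    exact absurd le_top h
  | succ s ih =>
    have hor : ¬ n ≤ a s ⊓ b s → ¬ n ≤ a s ∨ ¬ n ≤ b s := by
      intro h; rw [le_inf_iff] at h; exact not_and_or.1 h
    have H1 := hom1 G hd hπ hπ2 s
    have H2 := hom2 G hd hπ hπ2 s
    have on : ∀ p k, p < 3 * s + 1 → (k = 1 ∨ k = 2 ∨ k = 3) → ¬ n ≤ d' p (3 * s + k) →
        CoreU π d' d n p (3 * s + k) := by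
      intro p k hp hk h
      by_cases hw : n ≤ wt a b s k
      · obtain ⟨x', y', c, h1, h2, h3, h4⟩ := ih p (an x y s k) hp (G.an_lt s k)
          (fun h' => h (by rw [G.old s p k hp hk]; exact le_inf h' hw))
        refine ⟨x', y', c, h1, le_trans (le_inf ?_ h2) (G.tri _ (an x y s k) _), h3, h4⟩
        rw [G.symm]
        exact hw.trans (G.wt_le s k hk)
      · rcases hk with rfl | rfl | rfl
        · exact core_of_free G hw (H1 _ _ (Or.inl hp) (Or.inl rfl))
        · rcases hor hw with h' | h'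
          · exact core_of_free G h' (H1 _ _ (Or.inl hp) (Or.inr rfl))
          · exact core_of_free G h' (H2 _ _ (Or.inl hp) (Or.inl rfl))
        · exact core_of_free G hw (H2 _ _ (Or.inl hp) (Or.inr rfl))
    have c12 : ¬ n ≤ b s → CoreU π d' d n (3 * s + 1) (3 * s + 2) := fun h =>
      core_of_free G h (H2 _ _ (Or.inr rfl) (Or.inl rfl))
    have c32 : ¬ n ≤ a s → CoreU π d' d n (3 * s + 3) (3 * s + 2) := fun h =>
      core_of_free G h (H1 _ _ (Or.inr rfl) (Or.inr rfl))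
    have c13 : ¬ n ≤ a s ⊓ b s → CoreU π d' d n (3 * s + 1) (3 * s + 3) := fun h => by
      rcases hor h with h' | h'
      · exact core_symm hd (core_of_free G h' (H1 _ _ (Or.inr rfl) (Or.inl rfl)))
      · exact core_of_free G h' (H2 _ _ (Or.inr rfl) (Or.inr rfl))
    intro p q hp hq h
    rcases cases_pt s p hp with hp | ⟨i, hi, rfl⟩ <;> rcases cases_pt s q hq with hq | ⟨j, hj, rfl⟩
    · exact ih p q hp hq h
    · exact on p j hp hj h
    · exact core_symm hd (on q i hq hi (by rw [G.symm]; exact h))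
    · rcases hi with rfl | rfl | rfl <;> rcases hj with rfl | rfl | rfl
      · rw [G.refl] at h; exact absurd le_top h
      · exact c12 (by rwa [G.i12] at h)
      · exact c13 (by rwa [G.i13] at h)
      · exact core_symm hd (c12 (by rwa [G.i21] at h))
      · rw [G.refl] at h; exact absurd le_top h
      · exact core_symm hd (c32 (by rwa [G.i23] at h))
      · exact core_symm hd (c13 (by rwa [G.i31] at h))
      · exact c32 (by rwa [G.i32] at h)
      · rw [G.refl] at h; exact absurd le_top h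

end TabUAux

theorem gad_core {K K' : Type} [Lattice K] [BoundedOrder K] [Lattice K'] [BoundedOrder K']
    {d' : ℕ → ℕ → K'} {x y : ℕ → ℕ} {a b : ℕ → K'} (G : TableAux.Gad d' x y a b)
    {d : ℕ → ℕ → K} (hd : IsTab d) (π : K' → K) (hπ : Monotone π)
    (hπ2 : ∀ u v, π u ⊓ π v ≤ π (u ⊓ v)) (n : K') (p q : ℕ) (h : ¬ n ≤ d' p q) :
    ∃ p' q' c, n ≤ d' p p' ∧ n ≤ d' q q' ∧ ¬ n ≤ c ∧ ∀ u v, π c ≤ d u v →
      ∃ g : ℕ → ℕ, (∀ z w, π (d' z w) ≤ d (g z) (g w)) ∧ g p' = u ∧ g q' = v :=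
  TabUAux.core_aux G hd hπ hπ2 n (p + q) p q (by omega) (by omega) h

end Pool.Agent.MP_750bb3_lc

end
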