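import Pool.Agent.Mg.F750bb3.G5bc40e

set_option linter.all false

section

set_option autoImplicit false

namespace Pool.Agent.MP_750bb3_lc

open Set

/-! joins -/

@[simp] theorem mem_jn_left {A B : Set ℕ} {x : ℕ} : 2 * x ∈ jn A B ↔ x ∈ A := by
  have h1 : 2 * x % 2 = 0 := by omega
  have h2 : 2 * x / 2 = x := by omega
  simp [jn, h2]

@[simp] theorem mem_jn_right {A B : Set ℕ} {x : ℕ} : 2 * x + 1 ∈ jn A B ↔ x ∈ B := by
  have h1 : (2 * x + 1) % 2 = 1 := by omega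
  have h2 : (2 * x + 1) / 2 = x := by omega
  simp [jn, h2]

theorem jn_cases {A B : Set ℕ} {z : ℕ} (h : z ∈ jn A B) :
    (∃ x, z = 2 * x ∧ x ∈ A) ∨ (∃ x, z = 2 * x + 1 ∧ x ∈ B) := by
  rcases h with ⟨h1, h2⟩ | ⟨h1, h2⟩
  · exact Or.inl ⟨z / 2, by omega, h2⟩
  · exact Or.inr ⟨z / 2, by omega, h2⟩

theorem jn_mono {A A' B B' : Set ℕ} (h1 : A ⊆ A') (h2 : B ⊆ B') : jn A B ⊆ jn A' B' := by
  intro z hz
  rcases hz with ⟨a, b⟩ | ⟨a, b⟩
  · exact Or.inl ⟨a, h1 b⟩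
  · exact Or.inr ⟨a, h2 b⟩

theorem good_jn (C : Set ℕ) : Good (fun S => jn C S) where
  mono := fun _ _ h => jn_mono subset_rfl h
  fin := by
    intro S z hz
    rcases jn_cases hz with ⟨x, rfl, hx⟩ | ⟨x, rfl, hx⟩
    · exact ⟨0, by simpa using hx⟩
    · exact ⟨x + 1, by simpa using hx⟩
  dec := ⟨fun x => 2 * x + 1,
    (Primrec.succ.comp (Primrec.nat_mul.comp (Primrec.const 2) Primrec.id)).to_comp,
    fun S x => mem_jn_right.symm⟩

theorem good_id : Good (fun S => S) where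
  mono := fun _ _ h => h
  fin := fun _ x hx => ⟨x + 1, hx, by simp⟩
  dec := ⟨id, Computable.id, fun _ _ => Iff.rfl⟩

theorem Good.fin_sub {σ : Set ℕ → Set ℕ} (h : Good σ) (S : Set ℕ) (N0 : ℕ) :
    ∃ N, σ S ∩ Iio N0 ⊆ σ (S ∩ Iio N) := by
  induction N0 with
  | zero => exact ⟨0, by intro x hx; simp at hx⟩
  | succ n ih =>
    obtain ⟨N, hN⟩ := ih
    by_cases hn : n ∈ σ S
    · obtain ⟨N1, h1⟩ := h.fin S n hn
      refine ⟨max N N1, fun x hx => ?_⟩
      rcases Nat.lt_succ_iff_lt_or_eq.1 hx.2 with hl | rfl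
      · exact h.mono _ _ (inter_subset_inter_right _ (Iio_subset_Iio (le_max_left _ _)))
          (hN ⟨hx.1, hl⟩)
      · exact h.mono _ _ (inter_subset_inter_right _ (Iio_subset_Iio (le_max_right _ _))) h1
    · refine ⟨N, fun x hx => ?_⟩
      rcases Nat.lt_succ_iff_lt_or_eq.1 hx.2 with hl | rfl
      · exact hN ⟨hx.1, hl⟩
      · exact absurd hx.1 hn

theorem Good.comp {σ τ : Set ℕ → Set ℕ} (h : Good σ) (h' : Good τ) : Good (fun S => σ (τ S)) where
  mono := fun _ _ hs => h.mono _ _ (h'.mono _ _ hs)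
  fin := by
    intro S x hx
    obtain ⟨N0, h0⟩ := h.fin _ x hx
    obtain ⟨N, hN⟩ := h'.fin_sub S N0
    exact ⟨N, h.mono _ _ hN h0⟩
  dec := by
    obtain ⟨g, hg, hg'⟩ := h.dec
    obtain ⟨g', hh, hh'⟩ := h'.dec
    exact ⟨fun x => g (g' x), hg.comp hh, fun S x => (hh' S x).trans (hg' _ _)⟩

theorem Iv.map {σ : Set ℕ → Set ℕ} (h : Good σ) {lo hi : Set ℕ} (hv : Iv lo hi) :
    Iv (σ lo) (σ hi) := by
  obtain ⟨τ, h1, rfl, rfl⟩ := hv
  exact ⟨_, h.comp h1, rfl, rfl⟩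

theorem iv_all : Iv ∅ univ := ⟨_, good_id, rfl, rfl⟩

/-! values -/

namespace Th

theorem code_inj {a b : Th} (h : a.code = b.code) : a = b := by
  cases a <;> cases b <;> simp_all [code]

@[simp] theorem rel_bot (r : ℕ → ℕ → Prop) (a : Th) : rel r bot a := by cases a <;> trivial
@[simp] theorem rel_top (r : ℕ → ℕ → Prop) (a : Th) : rel r a top := by cases a <;> trivial
@[simp] theorem rel_mid (r : ℕ → ℕ → Prop) (x y : ℕ) : rel r (mid x) (mid y) ↔ r x y := Iff.rfl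
@[simp] theorem rel_mid_bot (r : ℕ → ℕ → Prop) (x : ℕ) : ¬ rel r (mid x) bot := fun h => h
@[simp] theorem rel_top_bot (r : ℕ → ℕ → Prop) : ¬ rel r top bot := fun h => h
@[simp] theorem rel_top_mid (r : ℕ → ℕ → Prop) (x : ℕ) : ¬ rel r top (mid x) := fun h => h
@[simp] theorem map_bot (h : ℕ → ℕ) : map h bot = bot := rfl
@[simp] theorem map_top (h : ℕ → ℕ) : map h top = top := rfl
@[simp] theorem map_mid (h : ℕ → ℕ) (x : ℕ) : map h (mid x) = mid (h x) := rfl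
@[simp] theorem map_id' (a : Th) : map id a = a := by cases a <;> rfl
theorem map_map (h h' : ℕ → ℕ) (a : Th) : map h (map h' a) = map (h ∘ h') a := by cases a <;> rfl

theorem rel_refl {r : ℕ → ℕ → Prop} (hr : ∀ x, r x x) (a : Th) : rel r a a := by
  cases a <;> simp [hr]

theorem rel_trans {r : ℕ → ℕ → Prop} (hr : ∀ x y z, r x y → r y z → r x z) {a b c : Th}
    (h1 : rel r a b) (h2 : rel r b c) : rel r a c := by
  cases a <;> cases b <;> cases c <;> simp_all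
  exact hr _ _ _ h1 h2

theorem rel_imp {r r' : ℕ → ℕ → Prop} (hr : ∀ x y, r x y → r' x y) {a b : Th}
    (h : rel r a b) : rel r' a b := by
  cases a <;> cases b <;> simp_all

theorem rel_map {r : ℕ → ℕ → Prop} {h : ℕ → ℕ} (hr : ∀ x y, r x y → r (h x) (h y)) {a b : Th}
    (h1 : rel r a b) : rel r (map h a) (map h b) := by
  cases a <;> cases b <;> simp_all

theorem inb_mono {r r' : ℕ} (h : r ≤ r') {a : Th} (ha : a.inb r) : a.inb r' := by
  cases a
  · trivial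
  · exact lt_of_lt_of_le ha h
  · trivial

theorem inb_map {r r' : ℕ} {h : ℕ → ℕ} (hh : ∀ x < r, h x < r') {a : Th} (ha : a.inb r) :
    (map h a).inb r' := by
  cases a
  · trivial
  · exact hh _ ha
  · trivial

end Th

/-! determination -/

namespace Det
variable {ι : Type} {I : ι → Prop} {Y Z V : ι → Set ℕ}

theorem of_one (h : ∀ i, I i → ∀ x ∈ Y i, (∀ i', I i' → x ∈ Y i') ∨
    ∃ y ∈ Z i, ∀ i', I i' → y ∈ Z i' → x ∈ Y i') : Det I Y Z := by
  intro i hi x hx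
  rcases h i hi x hx with h1 | ⟨y, hy, h1⟩
  · exact ⟨[], by simp, fun i' hi' _ => h1 i' hi'⟩
  · exact ⟨[y], by simpa using hy, fun i' hi' h2 => h1 i' hi' (h2 y (by simp))⟩

theorem of_iff (g : ℕ → ℕ) (h : ∀ i, I i → ∀ x, x ∈ Y i ↔ g x ∈ Z i) : Det I Y Z :=
  of_one fun i hi x hx => Or.inr ⟨g x, (h i hi x).1 hx, fun i' hi' h2 => (h i' hi' x).2 h2⟩

theorem refl : Det I Y Y := of_iff id fun _ _ _ => Iff.rfl

theorem list (h : Det I Y Z) (i : ι) (hi : I i) (E : List ℕ) (hE : ∀ y ∈ E, y ∈ Y i) :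
    ∃ D : List ℕ, (∀ y ∈ D, y ∈ Z i) ∧ ∀ i', I i' → (∀ y ∈ D, y ∈ Z i') → ∀ y ∈ E, y ∈ Y i' := by
  induction E with
  | nil => exact ⟨[], by simp, by simp⟩
  | cons a E ih =>
    obtain ⟨D, h1, h2⟩ := ih fun y hy => hE y (List.mem_cons_of_mem _ hy)
    obtain ⟨D', h3, h4⟩ := h i hi a (hE a (by simp))
    refine ⟨D' ++ D, ?_, ?_⟩
    · intro y hy
      rcases List.mem_append.1 hy with h5 | h5
      · exact h3 y h5
      · exact h1 y h5
    · intro i' hi' h5 y hy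
      rcases List.mem_cons.1 hy with rfl | h6
      · exact h4 i' hi' fun z hz => h5 z (List.mem_append_left _ hz)
      · exact h2 i' hi' (fun z hz => h5 z (List.mem_append_right _ hz)) y h6

theorem trans (h1 : Det I Y Z) (h2 : Det I Z V) : Det I Y V := by
  intro i hi x hx
  obtain ⟨E, hE, h3⟩ := h1 i hi x hx
  obtain ⟨D, hD, h4⟩ := h2.list i hi E hE
  exact ⟨D, hD, fun i' hi' h5 => h3 i' hi' (h4 i' hi' h5)⟩

theorem left : Det I Y (fun i => jn (Y i) (Z i)) := of_iff (fun x => 2 * x) fun _ _ _ => by simp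

theorem right : Det I Z (fun i => jn (Y i) (Z i)) :=
  of_iff (fun x => 2 * x + 1) fun _ _ _ => by simp

theorem pair (h1 : Det I Y V) (h2 : Det I Z V) : Det I (fun i => jn (Y i) (Z i)) V := by
  intro i hi z hz
  rcases jn_cases hz with ⟨x, rfl, hx⟩ | ⟨x, rfl, hx⟩
  · obtain ⟨D, h3, h4⟩ := h1 i hi x hx
    exact ⟨D, h3, fun i' hi' h5 => by simpa using h4 i' hi' h5⟩
  · obtain ⟨D, h3, h4⟩ := h2 i hi x hx
    exact ⟨D, h3, fun i' hi' h5 => by simpa using h4 i' hi' h5⟩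

theorem inter (h1 : Det I Y V) (h2 : Det I Z V) : Det I (fun i => Y i ∩ Z i) V := by
  intro i hi x hx
  obtain ⟨D, h3, h4⟩ := h1 i hi x hx.1
  obtain ⟨D', h5, h6⟩ := h2 i hi x hx.2
  refine ⟨D ++ D', ?_, fun i' hi' h7 => ⟨h4 i' hi' fun y hy => h7 y (List.mem_append_left _ hy),
    h6 i' hi' fun y hy => h7 y (List.mem_append_right _ hy)⟩⟩
  intro y hy
  rcases List.mem_append.1 hy with h | h
  · exact h3 y h
  · exact h5 y h

theorem comp {κ : Type} {J : κ → Prop} (h : Det I Y Z) (g : κ → ι) (hg : ∀ k, J k → I (g k)) :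
    Det J (fun k => Y (g k)) (fun k => Z (g k)) := by
  intro k hk x hx
  obtain ⟨D, h1, h2⟩ := h (g k) (hg k hk) x hx
  exact ⟨D, h1, fun k' hk' h3 => h2 (g k') (hg k' hk') h3⟩

theorem congr {Y' Z' : ι → Set ℕ} (h : Det I Y Z) (h1 : ∀ i, I i → Y i = Y' i)
    (h2 : ∀ i, I i → Z i = Z' i) : Det I Y' Z' := by
  intro i hi x hx
  obtain ⟨D, h3, h4⟩ := h i hi x (by rw [h1 i hi]; exact hx)
  refine ⟨D, by rw [← h2 i hi]; exact h3, fun i' hi' h5 => ?_⟩
  rw [← h1 i' hi']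
  exact h4 i' hi' (by rw [h2 i' hi']; exact h5)

theorem app (W : ℕ × List ℕ → Prop) : Det I (fun i => App W (Z i)) Z := by
  intro i _ x hx
  obtain ⟨D, h1, h2⟩ := hx
  exact ⟨D, h1, fun i' _ h3 => ⟨D, h3, h2⟩⟩

end Det

theorem App_mono (W : ℕ × List ℕ → Prop) {Z Z' : Set ℕ} (h : Z ⊆ Z') : App W Z ⊆ App W Z' := by
  rintro x ⟨D, h1, h2⟩
  exact ⟨D, fun y hy => h (h1 y hy), h2⟩

/-! configurations -/

variable {L : Type} [Lattice L] [BoundedOrder L] {d : ℕ → ℕ → L}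

theorem IsTab.rrefl (hd : IsTab d) (n : L) (x : ℕ) : n ≤ d x x := by rw [hd.refl]; exact le_top

theorem IsTab.rtrans (hd : IsTab d) (n : L) (x y z : ℕ) (h1 : n ≤ d x y) (h2 : n ≤ d y z) :
    n ≤ d x z := (le_inf h1 h2).trans (hd.tri x y z)

theorem IsTab.rsymm (hd : IsTab d) {n : L} {x y : ℕ} (h1 : n ≤ d x y) : n ≤ d y x := by
  rw [hd.symm]; exact h1

theorem cle_refl (hd : IsTab d) (n : L) (T : Cfg) : cle d n T T :=
  fun _ => Th.rel_refl (hd.rrefl n) _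

theorem cle_trans (hd : IsTab d) {n : L} {T T' T'' : Cfg} (h1 : cle d n T T')
    (h2 : cle d n T' T'') : cle d n T T'' :=
  fun j => Th.rel_trans (hd.rtrans n) (h1 j) (h2 j)

omit [BoundedOrder L] in
theorem cle_imp {n m : L} (h : n ≤ m) {T T' : Cfg} (h1 : cle d m T T') : cle d n T T' :=
  fun j => Th.rel_imp (fun _ _ h2 => h.trans h2) (h1 j)

theorem trunc_le (hd : IsTab d) (n : L) (N : ℕ) (T : Cfg) : cle d n (trunc N T) T := by
  intro j
  unfold trunc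
  split_ifs
  · exact Th.rel_refl (hd.rrefl n) _
  · simp

theorem trunc_mono (hd : IsTab d) (n : L) {N N' : ℕ} (h : N ≤ N') (T : Cfg) :
    cle d n (trunc N T) (trunc N' T) := by
  intro j
  unfold trunc
  split_ifs with h1 h2
  · exact Th.rel_refl (hd.rrefl n) _
  · omega
  · simp
  · simp

omit [BoundedOrder L] in
theorem mem_X {n : L} {T : Cfg} {i : ℕ} {θ : Th} :
    Nat.pair i θ.code ∈ X d n T ↔ Th.rel (fun x y => n ≤ d x y) θ (T i) := by
  constructor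
  · rintro ⟨i', θ', h1, h2⟩
    obtain ⟨rfl, h3⟩ := Nat.pair_eq_pair.1 h1
    rw [Th.code_inj h3]; exact h2
  · exact fun h => ⟨i, θ, rfl, h⟩

theorem X_mono (hd : IsTab d) {n : L} {T T' : Cfg} (h : cle d n T T') : X d n T ⊆ X d n T' := by
  rintro z ⟨i, θ, rfl, h1⟩
  exact ⟨i, θ, rfl, Th.rel_trans (hd.rtrans n) h1 (h i)⟩

omit [BoundedOrder L] in
theorem X_sup (n m : L) (T : Cfg) : X d (n ⊔ m) T = X d n T ∩ X d m T := by
  ext z
  constructor
  · rintro ⟨i, θ, rfl, h⟩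
    exact ⟨mem_X.2 (Th.rel_imp (fun _ _ h2 => le_sup_left.trans h2) h),
      mem_X.2 (Th.rel_imp (fun _ _ h2 => le_sup_right.trans h2) h)⟩
  · rintro ⟨⟨i, θ, rfl, h⟩, h2⟩
    rw [mem_X] at h2 ⊢
    revert h h2
    cases θ <;> cases T i <;> simp
    exact fun a b => ⟨a, b⟩

theorem det_X_le (hd : IsTab d) {n m : L} (h : n ≤ m) {ι : Type} (I : ι → Prop) (T : ι → Cfg) :
    Det I (fun i => X d n (T i)) (fun i => X d m (T i)) := by
  refine Det.of_one ?_
  rintro i _ z ⟨j, θ, rfl, h1⟩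
  refine Or.inr ⟨Nat.pair j (T i j).code, mem_X.2 (Th.rel_refl (hd.rrefl m) _), ?_⟩
  intro i' _ h2
  rw [mem_X] at h2 ⊢
  exact Th.rel_trans (hd.rtrans n) h1 (Th.rel_imp (fun _ _ h3 => h.trans h3) h2)

/-! thinnings -/

omit [BoundedOrder L] in
theorem End.rel {h : ℕ → ℕ} (hh : End d h) (n : L) (x y : ℕ) (h1 : n ≤ d x y) :
    n ≤ d (h x) (h y) := h1.trans (hh x y)

omit [BoundedOrder L] in
theorem End.id : End d id := fun _ _ => le_rfl

omit [BoundedOrder L] in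
theorem End.comp {h h' : ℕ → ℕ} (hh : End d h) (hh' : End d h') : End d (h ∘ h') :=
  fun x y => (hh' x y).trans (hh _ _)

theorem app_const {t : ℕ → Loc} {j : ℕ} {c : Th} (h : t j = .const c) (T : Cfg) :
    app t T j = c := by simp [app, h, Loc.ev]

theorem app_via {t : ℕ → Loc} {j k : ℕ} {g : ℕ → ℕ} (h : t j = .via k g) (T : Cfg) :
    app t T j = (T k).map g := by simp [app, h, Loc.ev]

theorem Thin.app_cle (hd : IsTab d) {b b' : ℕ → ℕ} {t : ℕ → Loc} (ht : Thin d b b' t) {n : L}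
    {T T' : Cfg} (h : cle d n T T') : cle d n (app t T) (app t T') := by
  intro j
  cases hj : t j with
  | const c => rw [app_const hj, app_const hj]; exact Th.rel_refl (hd.rrefl n) _
  | via k g =>
    rw [app_via hj, app_via hj]
    exact Th.rel_map ((ht.hom j k g hj).1.rel n) (h k)

omit [BoundedOrder L] in
theorem Thin.app_inb {b b' : ℕ → ℕ} {t : ℕ → Loc} (ht : Thin d b b' t) {T : Cfg}
    (h : InB b' T) : InB b (app t T) := by
  intro j
  cases hj : t j with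
  | const c => rw [app_const hj]; exact ht.cb j c hj
  | via k g => rw [app_via hj]; exact Th.inb_map (ht.hom j k g hj).2 (h k)

def Loc.src : Loc → ℕ
  | .const _ => 0
  | .via k _ => k

theorem trunc_app (hd : IsTab d) (n : L) (t : ℕ → Loc) (T : Cfg) (N0 : ℕ) :
    ∃ N, cle d n (trunc N0 (app t T)) (app t (trunc N T)) := by
  refine ⟨(Finset.range N0).sup (fun j => (t j).src) + 1, fun j => ?_⟩
  unfold trunc
  split_ifs with h1
  · have h2 : (t j).src ≤ (Finset.range N0).sup (fun j => (t j).src) :=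
      Finset.le_sup (f := fun j => (t j).src) (Finset.mem_range.2 h1)
    cases hj : t j with
    | const c => rw [app_const hj, app_const hj]; exact Th.rel_refl (hd.rrefl n) _
    | via k g =>
      rw [app_via hj, app_via hj]
      rw [hj] at h2
      have h3 : k < (Finset.range N0).sup (fun j => (t j).src) + 1 := Nat.lt_succ_of_le h2
      rw [if_pos h3]
      exact Th.rel_refl (hd.rrefl n) _
  · simp

theorem Cont.comp (hd : IsTab d) {F : Op} (hF : Cont d F) {σ : Set ℕ → Set ℕ} (hσ : Good σ)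
    {b b' : ℕ → ℕ} {t : ℕ → Loc} (ht : Thin d b b' t) :
    Cont d (fun S T => F (σ S) (app t T)) where
  mono := fun _ _ _ _ h1 h2 => hF.mono _ _ _ _ (hσ.mono _ _ h1) (ht.app_cle hd h2)
  fin := by
    intro S T x hx
    obtain ⟨N0, h0⟩ := hF.fin _ _ x hx
    obtain ⟨N1, h1⟩ := hσ.fin_sub S N0
    obtain ⟨N2, h2⟩ := trunc_app hd ⊤ t T N0
    refine ⟨max N1 N2, hF.mono _ _ _ _ (h1.trans (hσ.mono _ _ ?_))
      (cle_trans hd h2 (ht.app_cle hd (trunc_mono hd ⊤ (le_max_right _ _) T))) h0⟩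
    exact inter_subset_inter_right _ (Iio_subset_Iio (le_max_left _ _))

theorem Cont.fin_sub (hd : IsTab d) {F : Op} (hF : Cont d F) (S : Set ℕ) (T : Cfg) (E : List ℕ)
    (hE : ∀ y ∈ E, y ∈ F S T) : ∃ N, ∀ y ∈ E, y ∈ F (S ∩ Iio N) (trunc N T) := by
  induction E with
  | nil => exact ⟨0, by simp⟩
  | cons a E ih =>
    obtain ⟨N, h1⟩ := ih fun y hy => hE y (List.mem_cons_of_mem _ hy)
    obtain ⟨N', h2⟩ := hF.fin S T a (hE a (by simp))
    refine ⟨max N N', fun y hy => ?_⟩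
    rcases List.mem_cons.1 hy with rfl | h3
    · exact hF.mono _ _ _ _ (inter_subset_inter_right _ (Iio_subset_Iio (le_max_right _ _)))
        (trunc_mono hd ⊤ (le_max_right _ _) T) h2
    · exact hF.mono _ _ _ _ (inter_subset_inter_right _ (Iio_subset_Iio (le_max_left _ _)))
        (trunc_mono hd ⊤ (le_max_left _ _) T) (h1 y h3)

theorem Cont.appW (hd : IsTab d) {F : Op} (hF : Cont d F) (W : ℕ × List ℕ → Prop) :
    Cont d (fun S T => App W (F S T)) where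
  mono := fun _ _ _ _ h1 h2 => App_mono W (hF.mono _ _ _ _ h1 h2)
  fin := by
    rintro S T x ⟨D, h1, h2⟩
    obtain ⟨N, hN⟩ := hF.fin_sub hd S T D h1
    exact ⟨N, D, hN, h2⟩

theorem Cont.jn {F G : Op} (hF : Cont d F) (hG : Cont d G) :
    Cont d (fun S T => jn (F S T) (G S T)) where
  mono := fun _ _ _ _ h1 h2 => jn_mono (hF.mono _ _ _ _ h1 h2) (hG.mono _ _ _ _ h1 h2)
  fin := by
    intro S T z hz
    rcases jn_cases hz with ⟨x, rfl, hx⟩ | ⟨x, rfl, hx⟩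
    · obtain ⟨N, hN⟩ := hF.fin S T x hx
      exact ⟨N, by simpa using hN⟩
    · obtain ⟨N, hN⟩ := hG.fin S T x hx
      exact ⟨N, by simpa using hN⟩

theorem cont_X (hd : IsTab d) (n : L) : Cont d (fun _ T => X d n T) where
  mono := fun _ _ _ _ _ h2 => X_mono hd (cle_imp le_top h2)
  fin := by
    rintro S T z ⟨i, θ, rfl, h⟩
    refine ⟨i + 1, mem_X.2 ?_⟩
    simpa [trunc] using h

theorem cont_S : Cont d (fun S _ => S) where
  mono := fun _ _ _ _ h _ => h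
  fin := fun _ _ x hx => ⟨x + 1, hx, by simp⟩

def Loc.cmp (t' : ℕ → Loc) : Loc → Loc
  | .const c => .const c
  | .via k h => match t' k with
    | .const c => .const (c.map h)
    | .via k' h' => .via k' (h ∘ h')

def cmp (t t' : ℕ → Loc) : ℕ → Loc := fun j => (t j).cmp t'

theorem app_cmp (t t' : ℕ → Loc) (T : Cfg) : app (cmp t t') T = app t (app t' T) := by
  funext j
  cases hj : t j with
  | const c => simp [app, cmp, hj, Loc.cmp, Loc.ev]
  | via k h =>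
    cases hk : t' k with
    | const c => simp [app, cmp, hj, hk, Loc.cmp, Loc.ev]
    | via k' h' => simp [app, cmp, hj, hk, Loc.cmp, Loc.ev, Th.map_map]

theorem cmp_via {t t' : ℕ → Loc} {j k' : ℕ} {g : ℕ → ℕ} (h : cmp t t' j = .via k' g) :
    ∃ k h h', t j = .via k h ∧ t' k = .via k' h' ∧ g = h ∘ h' := by
  cases hj : t j with
  | const c => simp [cmp, hj, Loc.cmp] at h
  | via k h0 =>
    cases hk : t' k with
    | const c => simp [cmp, hj, hk, Loc.cmp] at h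
    | via k'' h' =>
      simp only [cmp, hj, hk, Loc.cmp, Loc.via.injEq] at h
      exact ⟨k, h0, h', rfl, by rw [hk, h.1], h.2.symm⟩

theorem cmp_const {t t' : ℕ → Loc} {j : ℕ} {c : Th} (h : cmp t t' j = .const c) :
    t j = .const c ∨ ∃ k h c', t j = .via k h ∧ t' k = .const c' ∧ c = c'.map h := by
  cases hj : t j with
  | const c => simpa [cmp, hj, Loc.cmp] using h
  | via k h0 =>
    cases hk : t' k with
    | const c' =>
      simp only [cmp, hj, hk, Loc.cmp, Loc.const.injEq] at h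
      exact Or.inr ⟨k, h0, c', rfl, hk, h.symm⟩
    | via k'' h' => simp [cmp, hj, hk, Loc.cmp] at h

omit [BoundedOrder L] in
theorem Thin.cmp {b b' b'' : ℕ → ℕ} {t t' : ℕ → Loc} (ht : Thin d b b' t)
    (ht' : Thin d b' b'' t') : Thin d b b'' (cmp t t') where
  hom := by
    intro j k' g h
    obtain ⟨k, h0, h', h1, h2, rfl⟩ := cmp_via h
    exact ⟨(ht.hom j k h0 h1).1.comp (ht'.hom k k' h' h2).1,
      fun x hx => (ht.hom j k h0 h1).2 _ ((ht'.hom k k' h' h2).2 x hx)⟩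
  cb := by
    intro j c h
    rcases cmp_const h with h1 | ⟨k, h0, c', h1, h2, rfl⟩
    · exact ht.cb j c h1
    · exact Th.inb_map (ht.hom j k h0 h1).2 (ht'.cb k c' h2)
  cfin := by
    refine (ht.cfin.union (ht'.cfin.biUnion fun k _ => ht.ffin k)).subset ?_
    rintro j ⟨x, h⟩
    rcases cmp_const h with h1 | ⟨k, h0, c', h1, h2, h3⟩
    · exact Or.inl ⟨x, h1⟩
    · refine Or.inr (mem_biUnion (x := k) ?_ ⟨h0, h1⟩)
      cases c' with
      | bot => simp at h3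
      | mid y => exact ⟨y, h2⟩
      | top => simp at h3
  ffin := by
    intro k'
    refine ((ht'.ffin k').biUnion fun k _ => ht.ffin k).subset ?_
    rintro j ⟨g, h⟩
    obtain ⟨k, h0, h', h1, h2, _⟩ := cmp_via h
    exact mem_biUnion (x := k) ⟨h', h2⟩ ⟨h0, h1⟩
  main := by
    intro k'
    obtain ⟨k, hk⟩ := ht'.main k'
    obtain ⟨j, hj⟩ := ht.main k
    exact ⟨j, by simp [MP_750bb3_lc.cmp, hj, hk, Loc.cmp]⟩
  unb := ht'.unb

def idL : ℕ → Loc := fun j => .via j id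

@[simp] theorem app_idL (T : Cfg) : app idL T = T := by
  funext j; simp [app, idL, Loc.ev]

omit [BoundedOrder L] in
theorem thin_idL {b b' : ℕ → ℕ} (h : ∀ i, b' i ≤ b i) (hu : Unb b') : Thin d b b' idL where
  hom := by
    intro j k g hj
    simp only [idL, Loc.via.injEq] at hj
    obtain ⟨rfl, rfl⟩ := hj
    exact ⟨End.id, fun x hx => lt_of_lt_of_le hx (h _)⟩
  cb := by intro j c hj; simp [idL] at hj
  cfin := by simp [idL]
  ffin := by
    intro k
    refine (finite_singleton k).subset ?_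
    rintro j ⟨g, hj⟩
    simp only [idL, Loc.via.injEq] at hj
    exact hj.1
  main := fun k => ⟨k, rfl⟩
  unb := hu

omit [BoundedOrder L] in
theorem Test.of_ext {b b' : ℕ → ℕ} {t : ℕ → Loc} (ht : Thin d b b' t) {σ : Set ℕ → Set ℕ}
    (hσ : Good σ) {O : Op} {l : L} (h : Test d b' (fun S T => O (σ S) (app t T)) l) :
    Test d b O l := by
  obtain ⟨lo, hi, b'', t', ζ, ζ', h1, h2, h3, h4⟩ := h
  refine ⟨σ lo, σ hi, b'', MP_750bb3_lc.cmp t t', ζ, ζ', h1.map hσ, ht.cmp h2, h3, ?_⟩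
  simpa only [app_cmp] using h4

theorem det_X_app (hd : IsTab d) {b b' : ℕ → ℕ} {t : ℕ → Loc} (ht : Thin d b b' t) (n : L)
    {ι : Type} (I : ι → Prop) (T : ι → Cfg) :
    Det I (fun i => X d n (app t (T i))) (fun i => X d n (T i)) := by
  refine Det.of_one ?_
  rintro i _ z ⟨j, θ, rfl, h1⟩
  cases hj : t j with
  | const c =>
    refine Or.inl fun i' _ => mem_X.2 ?_
    rw [app_const hj] at h1 ⊢
    exact h1
  | via k g =>
    refine Or.inr ⟨Nat.pair k (T i k).code, mem_X.2 (Th.rel_refl (hd.rrefl n) _), ?_⟩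
    intro i' _ h2
    rw [mem_X] at h2 ⊢
    rw [app_via hj] at h1 ⊢
    exact Th.rel_trans (hd.rtrans n) h1 (Th.rel_map ((ht.hom j k g hj).1.rel n) h2)

omit [BoundedOrder L] in
theorem det_X_main {b b' : ℕ → ℕ} {t : ℕ → Loc} (ht : Thin d b b' t) (n : L)
    {ι : Type} (I : ι → Prop) (T : ι → Cfg) :
    Det I (fun i => X d n (T i)) (fun i => X d n (app t (T i))) := by
  refine Det.of_one ?_
  rintro i _ z ⟨k, θ, rfl, h1⟩
  obtain ⟨j, hj⟩ := ht.main k
  refine Or.inr ⟨Nat.pair j θ.code, mem_X.2 ?_, ?_⟩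
  · rw [app_via hj]; simpa using h1
  · intro i' _ h2
    rw [mem_X] at h2 ⊢
    rw [app_via hj] at h2
    simpa using h2

/-! special configurations -/

theorem cfg_self (k η : ℕ) (Z : Set ℕ) : cfg k η Z k = Th.mid η := by simp [cfg]

theorem cfg_mem {k j : ℕ} (η : ℕ) {Z : Set ℕ} (h : j ≠ k) (hj : j ∈ Z) : cfg k η Z j = Th.top := by
  simp [cfg, h, hj]

theorem cfg_nmem {k j : ℕ} (η : ℕ) {Z : Set ℕ} (h : j ≠ k) (hj : j ∉ Z) :
    cfg k η Z j = Th.bot := by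
  simp [cfg, h, hj]

omit [BoundedOrder L] in
theorem cfg_cle {n : L} {k η η' : ℕ} {Z Z' : Set ℕ} (h : n ≤ d η η') (hZ : Z ⊆ insert k Z') :
    cle d n (cfg k η Z) (cfg k η' Z') := by
  intro j
  by_cases hj : j = k
  · subst hj; rw [cfg_self, cfg_self]; exact h
  · by_cases h1 : j ∈ Z
    · rw [cfg_mem η' hj ((mem_insert_iff.1 (hZ h1)).resolve_left hj)]; simp
    · rw [cfg_nmem η hj h1]; simp

theorem fam_of_cont (hd : IsTab d) {O : Op} (hO : Cont d O) (x : ℕ → ℕ) :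
    Fam (fun k S Z => {η | x k ∈ O S (cfg k η Z)}) where
  mono := fun k _ _ _ _ h1 h2 η hη => hO.mono _ _ _ _ h1 (cfg_cle (hd.rrefl ⊤ η) h2) hη
  fin := by
    intro k S Z η hη
    obtain ⟨N, hN⟩ := hO.fin _ _ _ hη
    refine ⟨N, hO.mono _ _ _ _ inter_subset_left ?_ hN⟩
    intro j
    unfold trunc
    split_ifs with h1
    · by_cases hj : j = k
      · subst hj; rw [cfg_self, cfg_self]; exact hd.rrefl _ _
      · by_cases h2 : j ∈ Z
        · rw [cfg_mem η hj (show j ∈ Z ∩ Iio N from ⟨h2, h1⟩)]; simp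
        · rw [cfg_nmem η hj h2]; simp
    · simp

end Pool.Agent.MP_750bb3_lc

end

section

/-! Splitting of intervals and the fusion lemmas. -/

set_option autoImplicit false

namespace Pool.Agent.MP_750bb3_lc

open Set

theorem iv_sub {lo hi : Set ℕ} (h : Iv lo hi) : lo ⊆ hi := by
  obtain ⟨σ, hσ, rfl, rfl⟩ := h
  exact hσ.mono _ _ (empty_subset _)

theorem jn_mono_Fu {A A' B B' : Set ℕ} (hA : A ⊆ A') (hB : B ⊆ B') : jn A B ⊆ jn A' B' := by
  rintro z (⟨h1, h2⟩ | ⟨h1, h2⟩)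
  · exact Or.inl ⟨h1, hA h2⟩
  · exact Or.inr ⟨h1, hB h2⟩

theorem iv_split {lo hi : Set ℕ} (h : Iv lo hi) : ∃ m, Iv lo m ∧ Iv m hi := by
  obtain ⟨σ, hσ, rfl, rfl⟩ := h
  obtain ⟨g, hg, hd⟩ := hσ.dec
  refine ⟨σ (jn ∅ univ), ⟨fun S => σ (jn ∅ S), ⟨?_, ?_, ?_⟩, ?_, rfl⟩,
    ⟨fun S => σ (jn S univ), ⟨?_, ?_, ?_⟩, rfl, ?_⟩⟩
  · exact fun S S' h => hσ.mono _ _ (jn_mono_Fu Subset.rfl h)
  · intro S x hx
    obtain ⟨N, hN⟩ := hσ.fin _ _ hx
    refine ⟨N, hσ.mono _ _ ?_ hN⟩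
    rintro z ⟨⟨h1, h2⟩ | ⟨h1, h2⟩, h3⟩
    · exact Or.inl ⟨h1, h2⟩
    · exact Or.inr ⟨h1, h2, lt_of_le_of_lt (Nat.div_le_self z 2) h3⟩
  · refine ⟨fun x => g (2 * x + 1), hg.comp Primrec.nat_double_succ.to_comp, fun S x => ?_⟩
    rw [← hd]
    have e1 : (2 * x + 1) % 2 = 1 := by omega
    have e2 : (2 * x + 1) / 2 = x := by omega
    simp [jn, e1, e2]
  · have : jn ∅ ∅ = ∅ := by
      ext z
      simp [jn]
    simp only [this]
  · exact fun S S' h => hσ.mono _ _ (jn_mono_Fu h Subset.rfl)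
  · intro S x hx
    obtain ⟨N, hN⟩ := hσ.fin _ _ hx
    refine ⟨N, hσ.mono _ _ ?_ hN⟩
    rintro z ⟨⟨h1, h2⟩ | ⟨h1, h2⟩, h3⟩
    · exact Or.inl ⟨h1, h2, lt_of_le_of_lt (Nat.div_le_self z 2) h3⟩
    · exact Or.inr ⟨h1, h2⟩
  · refine ⟨fun x => g (2 * x), hg.comp Primrec.nat_double.to_comp, fun S x => ?_⟩
    rw [← hd]
    have e1 : (2 * x) % 2 = 0 := by omega
    have e2 : (2 * x) / 2 = x := by omega
    simp [jn, e1, e2]
  · have : jn univ univ = univ := by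
      ext z
      simp only [jn, mem_ofPred_eq, mem_univ, and_true, iff_true]
      omega
    simp only [this]

theorem St.le_refl' (P : St) : P.le P :=
  ⟨Subset.rfl, Subset.rfl, Subset.rfl, Subset.rfl, subset_union_left⟩

theorem St.le_trans' {P Q R : St} (h : P.le Q) (h' : Q.le R) : P.le R := by
  obtain ⟨a1, a2, a3, a4, a5⟩ := h
  obtain ⟨b1, b2, b3, b4, b5⟩ := h'
  exact ⟨b1.trans a1, a2.trans b2, a3.trans b3, b4.trans a4,
    a5.trans (union_subset b5 (b3.trans subset_union_right))⟩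

theorem St.In_mono {U : ℕ → Set ℕ → Set ℕ → Set ℕ} (hU : Fam U) {P' P : St} (h : P'.le P) :
    P.In U ⊆ P'.In U := by
  obtain ⟨a1, -, a3, a4, -⟩ := h
  intro η hη
  refine Finite.subset hη ?_
  rintro k ⟨h1, h2⟩
  exact ⟨a3 h1, fun h3 => h2 (hU.mono k _ _ _ _ a1 (a4.trans (subset_insert _ _)) h3)⟩

theorem St.Out_mono {U : ℕ → Set ℕ → Set ℕ → Set ℕ} (hU : Fam U) {P' P : St} (h : P'.le P) :
    P.Out U ⊆ P'.Out U := by
  obtain ⟨-, a2, a3, -, a5⟩ := h
  intro η hη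
  refine Finite.subset hη ?_
  rintro k ⟨h1, h2⟩
  exact ⟨a3 h1, hU.mono k _ _ _ _ a2
    ((union_subset a5 (a3.trans subset_union_right)).trans (subset_insert _ _)) h2⟩

theorem seq_ex (G : ℕ → Finset ℕ → ℕ → ℕ → Prop)
    (h : ∀ s E N, ∃ i N', N ≤ i ∧ i < N' ∧ G s E i N') :
    ∃ i N' : ℕ → ℕ, StrictMono i ∧ (∀ s, G s ((Finset.range s).image i) (i s) (N' s)) ∧
      ∀ s r, s < r → N' s ≤ i r := by
  choose fi fN h1 h2 h3 using h
  let a : ℕ → Finset ℕ × ℕ := fun s => Nat.rec (∅, 0)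
    (fun s p => (insert (fi s p.1 p.2) p.1, fN s p.1 p.2)) s
  have hs : ∀ s, a (s + 1) = (insert (fi s (a s).1 (a s).2) (a s).1, fN s (a s).1 (a s).2) :=
    fun s => rfl
  have step : ∀ s, fN s (a s).1 (a s).2 ≤ fi (s + 1) (a (s + 1)).1 (a (s + 1)).2 := by
    intro s
    have := h1 (s + 1) (a (s + 1)).1 (a (s + 1)).2
    rw [hs s] at this ⊢
    exact this
  have hm : StrictMono (fun s => fi s (a s).1 (a s).2) :=
    strictMono_nat_of_lt_succ fun s => lt_of_lt_of_le (h2 s _ _) (step s)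
  have hE : ∀ s, (Finset.range s).image (fun s => fi s (a s).1 (a s).2) = (a s).1 := by
    intro s
    induction s with
    | zero => rfl
    | succ s ih => rw [Finset.range_add_one, Finset.image_insert, ih, hs s]
  refine ⟨fun s => fi s (a s).1 (a s).2, fun s => fN s (a s).1 (a s).2, hm, ?_, ?_⟩
  · intro s
    rw [hE s]
    exact h3 s _ _
  · intro s r hr
    exact (step s).trans (hm.monotone (Nat.succ_le_of_lt hr))

theorem unif_Fu (p : ℕ → ℕ → Prop) (hp : ∀ η N N', N ≤ N' → p η N → p η N') (s i : ℕ)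
    (h : ∀ η < s, ∃ N, p η N) : ∃ N, i < N ∧ ∀ η < s, p η N := by
  induction s with
  | zero => exact ⟨i + 1, Nat.lt_succ_self i, fun η h => absurd h (Nat.not_lt_zero η)⟩
  | succ s ih =>
    obtain ⟨N, h1, h2⟩ := ih fun η hη => h η (Nat.lt_succ_of_lt hη)
    obtain ⟨M, h3⟩ := h s (Nat.lt_succ_self s)
    refine ⟨max N M, lt_of_lt_of_le h1 (le_max_left _ _), fun η hη => ?_⟩
    rcases Nat.lt_succ_iff_lt_or_eq.1 hη with h4 | rfl
    · exact hp _ _ _ (le_max_left _ _) (h2 η h4)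
    · exact hp _ _ _ (le_max_right _ _) h3

theorem pick_Fu {Y : Set ℕ} (hY : Y.Infinite) (Q : Set ℕ) (B : ℕ → Set ℕ)
    (hB : ∀ η ∈ Q, (B η).Finite) (s N : ℕ) (E : Finset ℕ) :
    ∃ i ∈ Y, N ≤ i ∧ i ∉ E ∧ ∀ η ∈ Q, η < s → i ∉ B η := by
  have hf : ((⋃ η ∈ Q ∩ Iio s, B η) ∪ (Iio N ∪ ↑E)).Finite :=
    (((finite_Iio s).inter_of_right Q).biUnion fun η hη => hB η hη.1).union
      ((finite_Iio N).union E.finite_toSet)
  obtain ⟨i, hi, hn⟩ := (hY.sdiff hf).nonempty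
  refine ⟨i, hi, not_lt.1 fun h => hn (Or.inr (Or.inl h)), fun h => hn (Or.inr (Or.inr h)),
    fun η hη h1 h2 => hn (Or.inl ?_)⟩
  exact mem_biUnion (show η ∈ Q ∩ Iio s from ⟨hη, h1⟩) h2

theorem mkIn_Fu {U : ℕ → Set ℕ → Set ℕ → Set ℕ} (hU : Fam U) (m Z0 Y0 Q : Set ℕ)
    (h : ∀ (s : ℕ) (E : Finset ℕ) (N : ℕ), ∃ i ∈ Y0, N ≤ i ∧
      ∀ η ∈ Q, η < s → η ∈ U i m (Z0 ∪ (Y0 \ ↑E))) :
    ∃ I, I ⊆ Y0 ∧ I.Infinite ∧ ∀ η ∈ Q, {k | k ∈ I ∧ η ∉ U k m (Z0 ∪ (Y0 \ I))}.Finite := by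
  obtain ⟨i, N', hm, hG, hN⟩ := seq_ex (fun s E i N' => i ∈ Y0 ∧
      ∀ η < s, η ∈ Q → η ∈ U i m ((Z0 ∪ (Y0 \ ↑E)) ∩ Iio N')) (by
    intro s E N
    obtain ⟨i, h1, h2, h3⟩ := h s E N
    obtain ⟨N', h4, h5⟩ := unif_Fu (fun η N' => η ∈ Q → η ∈ U i m ((Z0 ∪ (Y0 \ ↑E)) ∩ Iio N'))
      (fun η N N' hN hp hQ => hU.mono i _ _ _ _ Subset.rfl
        ((inter_subset_inter_right _ (Iio_subset_Iio hN)).trans (subset_insert _ _)) (hp hQ))
      s i (fun η hη => by
        by_cases hQ : η ∈ Q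
        · obtain ⟨N, hN⟩ := hU.fin _ _ _ _ (h3 η hQ hη)
          exact ⟨N, fun _ => hN⟩
        · exact ⟨0, fun h => absurd h hQ⟩)
    exact ⟨i, N', h2, h4, h1, h5⟩)
  refine ⟨range i, ?_, infinite_range_of_injective hm.injective, fun η hη => ?_⟩
  · rintro _ ⟨s, rfl⟩
    exact (hG s).1
  · refine ((finite_Iic η).image i).subset ?_
    rintro _ ⟨⟨s, rfl⟩, hs⟩
    refine ⟨s, mem_Iic.2 (not_lt.1 fun hlt => hs ?_), rfl⟩
    refine hU.mono _ _ _ _ _ Subset.rfl ?_ ((hG s).2 η hlt hη)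
    rintro z ⟨hz | ⟨hz1, hz2⟩, hz3⟩
    · exact Or.inr (Or.inl hz)
    · by_cases hI : z ∈ range i
      · obtain ⟨r, rfl⟩ := hI
        rcases lt_trichotomy r s with h1 | rfl | h1
        · exact absurd (Finset.mem_coe.2 (Finset.mem_image_of_mem i (Finset.mem_range.2 h1))) hz2
        · exact Or.inl rfl
        · exact absurd hz3 (not_lt.2 (hN s r h1))
      · exact Or.inr (Or.inr ⟨hz1, hI⟩)

theorem FLp {U : ℕ → Set ℕ → Set ℕ → Set ℕ} (hU : Fam U) (P : St) (Q : Set ℕ)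
    (h : ∀ η ∈ Q, ∀ P' : St, P'.le P → η ∉ P'.Out U) : ∃ P' : St, P'.le P ∧ Q ⊆ P'.In U := by
  obtain ⟨m, hm1, hm2⟩ := iv_split P.iv
  have hbad : ∀ E : Finset ℕ, ∀ η ∈ Q,
      {i | i ∈ P.Y \ ↑E ∧ η ∉ U i m (P.Z ∪ (P.Y \ ↑E))}.Finite := by
    intro E η hη
    by_contra hinf
    obtain ⟨B, hB⟩ : ∃ B, B = {i | i ∈ P.Y \ ↑E ∧ η ∉ U i m (P.Z ∪ (P.Y \ ↑E))} := ⟨_, rfl⟩
    rw [← hB] at hinf
    have hB1 : ∀ i ∈ B, i ∈ P.Y \ ↑E ∧ η ∉ U i m (P.Z ∪ (P.Y \ ↑E)) := fun i hi => by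
      rw [hB] at hi; exact hi
    refine h η hη ⟨P.lo, m, B, P.Z ∪ ((P.Y \ ↑E) \ B), hm1, hinf, ?_⟩ ?_ ?_
    · refine disjoint_left.2 ?_
      rintro z hz (h1 | h1)
      · exact disjoint_left.1 P.disj (hB1 z hz).1.1 h1
      · exact h1.2 hz
    · exact ⟨Subset.rfl, iv_sub hm2, fun z hz => (hB1 z hz).1.1, subset_union_left,
        union_subset_union_right _ fun z hz => hz.1.1⟩
    · refine finite_empty.subset ?_
      rintro k ⟨h1, h2⟩
      refine (hB1 k h1).2 (hU.mono _ _ _ _ _ Subset.rfl ?_ h2)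
      rintro z ((hz | hz) | hz)
      · exact Or.inr (Or.inl hz)
      · exact Or.inr (Or.inr hz.1)
      · exact Or.inr (Or.inr (hB1 z hz).1)
  obtain ⟨I, hI1, hI2, hI3⟩ := mkIn_Fu hU m P.Z P.Y Q (by
    intro s E N
    obtain ⟨i, h1, h2, h3, h4⟩ := pick_Fu P.inf Q _ (hbad E) s N E
    refine ⟨i, h1, h2, fun η hη hs => ?_⟩
    by_contra h5
    exact h4 η hη hs ⟨⟨h1, h3⟩, h5⟩)
  refine ⟨⟨m, P.hi, I, P.Z ∪ (P.Y \ I), hm2, hI2, ?_⟩, ?_, hI3⟩
  · refine disjoint_left.2 ?_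
    rintro z hz (h1 | h1)
    · exact disjoint_left.1 P.disj (hI1 hz) h1
    · exact h1.2 hz
  · exact ⟨iv_sub hm1, Subset.rfl, hI1, subset_union_left,
      union_subset_union_right _ fun z hz => hz.1⟩

theorem FLm {U : ℕ → Set ℕ → Set ℕ → Set ℕ} (hU : Fam U) (P : St) (Q : Set ℕ)
    (h : ∀ η ∈ Q, ∀ P' : St, P'.le P → η ∉ P'.In U) : ∃ P' : St, P'.le P ∧ Q ⊆ P'.Out U := by
  obtain ⟨m, hm1, hm2⟩ := iv_split P.iv
  have hbad : ∀ E : Finset ℕ, ∀ η ∈ Q,
      {i | i ∈ P.Y ∧ ∀ N', η ∈ U i m (P.Z ∪ (↑E ∩ P.Y) ∪ (P.Y \ Iio N'))}.Finite := by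
    intro E η hη
    by_contra hinf
    obtain ⟨I, hI1, hI2, hI3⟩ := mkIn_Fu hU m (P.Z ∪ (↑E ∩ P.Y)) (P.Y \ ↑E) {η} (by
      intro s E' N
      obtain ⟨i, ⟨h1, h2⟩, h3, h4, -⟩ := pick_Fu hinf ∅ (fun _ => ∅) (fun _ _ => finite_empty) 0 N E
      refine ⟨i, ⟨h1, h4⟩, h3, ?_⟩
      rintro _ rfl -
      refine hU.mono _ _ _ _ _ Subset.rfl ?_ (h2 ((E ∪ E').sup id + 1))
      rintro z (hz | ⟨hz1, hz2⟩)
      · exact Or.inr (Or.inl hz)
      · have hz3 : z ∉ E ∪ E' := fun h5 =>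
          hz2 (Nat.lt_succ_of_le (Finset.le_sup (f := id) h5))
        exact Or.inr (Or.inr ⟨⟨hz1, fun h5 => hz3 (Finset.mem_union_left _ h5)⟩,
          fun h5 => hz3 (Finset.mem_union_right _ h5)⟩))
    refine h η hη ⟨m, P.hi, I, P.Z ∪ (↑E ∩ P.Y) ∪ ((P.Y \ ↑E) \ I), hm2, hI2, ?_⟩ ?_ (hI3 η rfl)
    · refine disjoint_left.2 ?_
      rintro z hz ((h1 | h1) | h1)
      · exact disjoint_left.1 P.disj (hI1 hz).1 h1
      · exact (hI1 hz).2 h1.1
      · exact h1.2 hz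
    · refine ⟨iv_sub hm1, Subset.rfl, fun z hz => (hI1 hz).1,
        subset_union_left.trans subset_union_left, ?_⟩
      rintro z ((h1 | h1) | h1)
      · exact Or.inl h1
      · exact Or.inr h1.2
      · exact Or.inr h1.1.1
  obtain ⟨i, N', hm, hG, hN⟩ := seq_ex (fun s E i N' => i ∈ P.Y ∧
      ∀ η < s, η ∈ Q → η ∉ U i m (P.Z ∪ (↑E ∩ P.Y) ∪ (P.Y \ Iio N'))) (by
    intro s E N
    obtain ⟨i, h1, h2, -, h4⟩ := pick_Fu P.inf Q _ (hbad E) s N E
    obtain ⟨N', h5, h6⟩ := unif_Fu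
      (fun η N' => η ∈ Q → η ∉ U i m (P.Z ∪ (↑E ∩ P.Y) ∪ (P.Y \ Iio N')))
      (fun η N N' hN hp hQ h7 => hp hQ (hU.mono i _ _ _ _ Subset.rfl
        ((union_subset_union_right _ (sdiff_subset_sdiff_right (Iio_subset_Iio hN))).trans
          (subset_insert _ _)) h7))
      s i (fun η hη => by
        by_cases hQ : η ∈ Q
        · by_contra h7
          refine h4 η hQ hη ⟨h1, fun N' => ?_⟩
          by_contra h8
          exact h7 ⟨N', fun _ => h8⟩
        · exact ⟨0, fun h => absurd h hQ⟩)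
    exact ⟨i, N', h2, h5, h1, h6⟩)
  have hI : range i ⊆ P.Y := by
    rintro _ ⟨s, rfl⟩
    exact (hG s).1
  refine ⟨⟨P.lo, m, range i, P.Z, hm1, infinite_range_of_injective hm.injective,
    P.disj.mono_left hI⟩, ⟨Subset.rfl, iv_sub hm2, hI, Subset.rfl, subset_union_left⟩,
    fun η hη => ?_⟩
  refine ((finite_Iic η).image i).subset ?_
  rintro _ ⟨⟨s, rfl⟩, hs⟩
  refine ⟨s, not_lt.1 fun hlt => (hG s).2 η hlt hη ?_, rfl⟩
  refine hU.mono _ _ _ _ _ Subset.rfl ?_ hs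
  rintro z (hz | ⟨r, rfl⟩)
  · exact Or.inr (Or.inl (Or.inl hz))
  · rcases lt_trichotomy r s with h1 | rfl | h1
    · exact Or.inr (Or.inl (Or.inr
        ⟨Finset.mem_coe.2 (Finset.mem_image_of_mem i (Finset.mem_range.2 h1)), (hG r).1⟩))
    · exact Or.inl rfl
    · exact Or.inr (Or.inr ⟨(hG r).1, not_lt.2 (hN s r h1)⟩)

theorem DL {U : ℕ → Set ℕ → Set ℕ → Set ℕ} (hU : Fam U) (P : St) (η : ℕ) :
    ∃ P' : St, P'.le P ∧ (η ∈ P'.In U ∨ η ∈ P'.Out U) := by
  by_cases h : ∃ P' : St, P'.le P ∧ η ∈ P'.Out U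
  · obtain ⟨P', h1, h2⟩ := h
    exact ⟨P', h1, Or.inr h2⟩
  · obtain ⟨P', h1, h2⟩ := FLp hU P {η} (by
      rintro _ rfl P' h1 h2
      exact h ⟨P', h1, h2⟩)
    exact ⟨P', h1, Or.inl (h2 rfl)⟩

end Pool.Agent.MP_750bb3_lc

end

section

set_option autoImplicit false

namespace Pool.Agent.MP_750bb3_lc

open Set

theorem choose_inj {Y : Set ℕ} (hY : Y.Infinite) (B : ℕ → Set ℕ) (hB : ∀ m, (B m).Finite) :
    ∃ g : ℕ → ℕ, StrictMono g ∧ ∀ m, g m ∈ Y ∧ g m ∉ B m := by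
  obtain ⟨i, N', h1, h2, _⟩ := seq_ex (fun s _ i _ => i ∈ Y ∧ i ∉ B s) (by
    intro s E N
    obtain ⟨i, hi, hN⟩ := (hY.diff (hB s)).exists_gt N
    exact ⟨i, i + 1, hN.le, Nat.lt_succ_self _, hi.1, hi.2⟩)
  exact ⟨i, h1, h2⟩

open Classical in
noncomputable def mk (g : ℕ → ℕ) (act : ℕ → Prop) (π : ℕ → ℕ) (H : ℕ → ℕ → ℕ) (c : Cfg) :
    ℕ → Loc := fun j =>
  if h : ∃ m, act m ∧ g m = j then .via (π h.choose) (H h.choose) else .const (c j)

section
variable {g : ℕ → ℕ} {act : ℕ → Prop} {π : ℕ → ℕ} {H : ℕ → ℕ → ℕ} {c : Cfg}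

theorem mk_act (hg : Function.Injective g) {m : ℕ} (hm : act m) :
    mk g act π H c (g m) = .via (π m) (H m) := by
  have h : ∃ m', act m' ∧ g m' = g m := ⟨m, hm, rfl⟩
  have h1 : h.choose = m := hg h.choose_spec.2
  unfold mk
  rw [dif_pos h, h1]

theorem mk_cases (hg : Function.Injective g) (j : ℕ) :
    (∃ m, act m ∧ g m = j ∧ mk g act π H c j = .via (π m) (H m)) ∨
      ((∀ m, act m → g m ≠ j) ∧ mk g act π H c j = .const (c j)) := by
  by_cases h : ∃ m, act m ∧ g m = j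
  · obtain ⟨m, hm, rfl⟩ := h
    exact Or.inl ⟨m, hm, rfl, mk_act hg hm⟩
  · refine Or.inr ⟨fun m hm h1 => h ⟨m, hm, h1⟩, ?_⟩
    unfold mk
    rw [dif_neg h]

variable {L : Type} [Lattice L] [BoundedOrder L] {d : ℕ → ℕ → L}

omit [BoundedOrder L] in
theorem thin_mk (hg : Function.Injective g) {b b' : ℕ → ℕ}
    (h1 : ∀ m, act m → End d (H m) ∧ ∀ x < b' (π m), H m x < b (g m))
    (h2 : InB b c) (h3 : {j | ∃ x, c j = .mid x}.Finite)
    (h4 : ∀ k, {m | act m ∧ π m = k}.Finite) (h5 : ∀ k, ∃ m, act m ∧ π m = k ∧ H m = id)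
    (h6 : Unb b') : Thin d b b' (mk g act π H c) where
  hom := by
    intro j k h hj
    rcases mk_cases (act := act) (π := π) (H := H) (c := c) hg j with ⟨m, hm, rfl, e⟩ | ⟨_, e⟩
    · rw [e] at hj
      simp only [Loc.via.injEq] at hj
      obtain ⟨rfl, rfl⟩ := hj
      exact h1 m hm
    · rw [e] at hj; simp at hj
  cb := by
    intro j c' hj
    rcases mk_cases (act := act) (π := π) (H := H) (c := c) hg j with ⟨m, hm, rfl, e⟩ | ⟨_, e⟩
    · rw [e] at hj; simp at hj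
    · rw [e] at hj
      simp only [Loc.const.injEq] at hj
      rw [← hj]; exact h2 j
  cfin := by
    refine h3.subset ?_
    rintro j ⟨x, hj⟩
    rcases mk_cases (act := act) (π := π) (H := H) (c := c) hg j with ⟨m, hm, rfl, e⟩ | ⟨_, e⟩
    · rw [e] at hj; simp at hj
    · rw [e] at hj
      simp only [Loc.const.injEq] at hj
      exact ⟨x, hj⟩
  ffin := by
    intro k
    refine ((h4 k).image g).subset ?_
    rintro j ⟨h, hj⟩
    rcases mk_cases (act := act) (π := π) (H := H) (c := c) hg j with ⟨m, hm, rfl, e⟩ | ⟨_, e⟩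
    · rw [e] at hj
      simp only [Loc.via.injEq] at hj
      exact ⟨m, ⟨hm, hj.1⟩, rfl⟩
    · rw [e] at hj; simp at hj
  main := by
    intro k
    obtain ⟨m, hm, rfl, e⟩ := h5 k
    exact ⟨g m, by rw [mk_act hg hm, e]⟩
  unb := h6

/-- a configuration below the image of a thinning -/
theorem le_app_mk (hd : IsTab d) (hg : Function.Injective g) {n : L} {V T : Cfg}
    (h1 : ∀ m, act m → Th.rel (fun x y => n ≤ d x y) (V (g m)) ((T (π m)).map (H m)))
    (h2 : cle d n V c) : cle d n V (app (mk g act π H c) T) := by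
  intro j
  rcases mk_cases (act := act) (π := π) (H := H) (c := c) hg j with ⟨m, hm, rfl, e⟩ | ⟨_, e⟩
  · rw [app_via e]; exact h1 m hm
  · rw [app_const e]; exact h2 j

theorem app_mk_le (hd : IsTab d) (hg : Function.Injective g) {n : L} {V T : Cfg}
    (h1 : ∀ m, act m → Th.rel (fun x y => n ≤ d x y) ((T (π m)).map (H m)) (V (g m)))
    (h2 : ∀ j, (∀ m, act m → g m ≠ j) → Th.rel (fun x y => n ≤ d x y) (c j) (V j)) :
    cle d n (app (mk g act π H c) T) V := by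
  intro j
  rcases mk_cases (act := act) (π := π) (H := H) (c := c) hg j with ⟨m, hm, rfl, e⟩ | ⟨h0, e⟩
  · rw [app_via e]; exact h1 m hm
  · rw [app_const e]; exact h2 j h0

end

open Classical in
noncomputable def zc (Z : Set ℕ) : Cfg := fun j => if j ∈ Z then Th.top else Th.bot

theorem zc_inb (b : ℕ → ℕ) (Z : Set ℕ) : InB b (zc Z) := by
  intro j; unfold zc; split_ifs <;> trivial

theorem zc_fin (Z : Set ℕ) : {j | ∃ x, zc Z j = .mid x}.Finite := by
  refine finite_empty.subset ?_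
  rintro j ⟨x, hx⟩
  unfold zc at hx
  split_ifs at hx

section
variable {g : ℕ → ℕ} {act : ℕ → Prop} {π : ℕ → ℕ} {H : ℕ → ℕ → ℕ}
variable {L : Type} [Lattice L] [BoundedOrder L] {d : ℕ → ℕ → L}

theorem cfg_le_mk (hd : IsTab d) (hg : Function.Injective g) {Y Z : Set ℕ} (hYZ : Disjoint Y Z)
    (hY : ∀ m, g m ∈ Y) {m : ℕ} (hm : act m) {T : Cfg} {η : ℕ}
    (h : Th.rel (fun x y => ⊤ ≤ d x y) (.mid η) ((T (π m)).map (H m))) :
    cle d ⊤ (cfg (g m) η Z) (app (mk g act π H (zc Z)) T) := by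
  intro j
  rcases mk_cases (act := act) (π := π) (H := H) (c := zc Z) hg j with ⟨m', hm', rfl, e⟩ | ⟨h0, e⟩
  · rw [app_via e]
    by_cases h1 : g m' = g m
    · obtain rfl := hg h1
      rw [cfg_self]; exact h
    · rw [cfg_nmem η h1 (disjoint_left.1 hYZ (hY m'))]; simp
  · rw [app_const e]
    have h1 : j ≠ g m := fun h2 => h0 m hm h2.symm
    by_cases h2 : j ∈ Z
    · simp [zc, h2]
    · rw [cfg_nmem η h1 h2]; simp

theorem mk_le_cfg (hd : IsTab d) (hg : Function.Injective g) {Y Z : Set ℕ}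
    (hY : ∀ m, g m ∈ Y) {m : ℕ} (hm : act m) {T : Cfg} {η : ℕ}
    (h : Th.rel (fun x y => ⊤ ≤ d x y) ((T (π m)).map (H m)) (.mid η)) :
    cle d ⊤ (app (mk g act π H (zc Z)) T) (cfg (g m) η (Z ∪ Y)) := by
  refine app_mk_le hd hg ?_ ?_
  · intro m' _
    by_cases h1 : g m' = g m
    · obtain rfl := hg h1
      rw [cfg_self]; exact h
    · rw [cfg_mem η h1 (Or.inr (hY m'))]; simp
  · intro j h0
    have h1 : j ≠ g m := fun h2 => h0 m hm h2.symm
    by_cases h2 : j ∈ Z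
    · rw [cfg_mem η h1 (Or.inl h2)]; simp
    · simp [zc, h2]

end

theorem Unb.comp {b g : ℕ → ℕ} (hb : Unb b) (hg : Function.Injective g) : Unb (fun k => b (g k)) :=
  fun r => (hb r).preimage hg.injOn

theorem unb_id : Unb (fun k => k) := fun r => finite_Iic r

end Pool.Agent.MP_750bb3_lc

end

section

set_option autoImplicit false

namespace Pool.Agent.MP_750bb3_lc

open Set

variable {L : Type} [Lattice L] [BoundedOrder L] {d : ℕ → ℕ → L}

open Classical in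
noncomputable def pk (d : ℕ → ℕ → L) (l : L) (η θ : ℕ) : ℕ := if l ≤ d η θ then θ else η

noncomputable def mu (d : ℕ → ℕ → L) (l : L) : Th → Th → Th
  | _, .bot => .bot
  | _, .top => .top
  | .mid η, .mid θ => .mid (pk d l η θ)
  | .bot, .mid _ => .bot
  | .top, .mid _ => .bot

omit [BoundedOrder L] in
@[simp] theorem mu_bot (l : L) (a : Th) : mu d l a .bot = .bot := by cases a <;> rfl
omit [BoundedOrder L] in
@[simp] theorem mu_top (l : L) (a : Th) : mu d l a .top = .top := by cases a <;> rfl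
omit [BoundedOrder L] in
@[simp] theorem mu_mid (l : L) (η θ : ℕ) : mu d l (.mid η) (.mid θ) = .mid (pk d l η θ) := rfl
omit [BoundedOrder L] in
@[simp] theorem mu_bot_mid (l : L) (θ : ℕ) : mu d l .bot (.mid θ) = .bot := rfl
omit [BoundedOrder L] in
@[simp] theorem mu_top_mid (l : L) (θ : ℕ) : mu d l .top (.mid θ) = .bot := rfl

theorem pk_rel (hd : IsTab d) (l : L) (η θ : ℕ) : l ≤ d η (pk d l η θ) := by
  unfold pk
  split_ifs with h
  · exact h
  · exact hd.rrefl _ _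

omit [BoundedOrder L] in
theorem pk_lt (l : L) {η θ r : ℕ} (h1 : η < r) (h2 : θ < r) : pk d l η θ < r := by
  unfold pk
  split_ifs <;> assumption

theorem pk_mono (hd : IsTab d) (l : L) (η : ℕ) {θ θ' : ℕ} (h : ⊤ ≤ d θ θ') :
    ⊤ ≤ d (pk d l η θ) (pk d l η θ') := by
  unfold pk
  split_ifs with h1 h2 h2
  · exact h
  · exact absurd (hd.rtrans l _ _ _ h1 (le_top.trans h)) h2
  · exact absurd (hd.rtrans l _ _ _ h2 (le_top.trans (hd.rsymm h))) h1
  · exact hd.rrefl _ _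

theorem mu_mono (hd : IsTab d) (l : L) (β : Th) {a a' : Th}
    (h : Th.rel (fun x y => ⊤ ≤ d x y) a a') :
    Th.rel (fun x y => ⊤ ≤ d x y) (mu d l β a) (mu d l β a') := by
  cases a with
  | bot => simp
  | top => cases a' <;> simp_all
  | mid θ =>
    cases a' with
    | bot => simp at h
    | top => simp
    | mid θ' =>
      cases β with
      | bot => simp
      | top => simp
      | mid η => exact pk_mono hd l η h

theorem mu_le (hd : IsTab d) {l : L} {β a : Th} (h : Th.rel (fun x y => l ≤ d x y) β a) :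
    Th.rel (fun x y => ⊤ ≤ d x y) (mu d l β a) a := by
  cases a with
  | bot => simp
  | top => simp
  | mid θ =>
    cases β with
    | bot => simp
    | top => simp
    | mid η =>
      have h1 : l ≤ d η θ := h
      simp [pk, h1, hd.refl]

theorem mu_self (hd : IsTab d) (l : L) (a : Th) : mu d l a a = a := by
  cases a with
  | bot => simp
  | top => simp
  | mid θ => simp [pk]

omit [BoundedOrder L] in
theorem mu_inb (l : L) {β a : Th} {r : ℕ} (h1 : β.inb r) (h2 : a.inb r) : (mu d l β a).inb r := by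
  cases a with
  | bot => simp [Th.inb]
  | top => simp [Th.inb]
  | mid θ =>
    cases β with
    | bot => trivial
    | top => trivial
    | mid η => exact pk_lt l h1 h2

def lc (β : List Th) : Cfg := fun j => β.getD j .bot

noncomputable def Tm (d : ℕ → ℕ → L) (l : L) (β T : Cfg) : Cfg := fun j => mu d l (β j) (T j)

def kap (x : ℕ) (β : List Th) : ℕ := Encodable.encode (x, β.map Th.code)

theorem kap_inj {x x' : ℕ} {β β' : List Th} (h : kap x β = kap x' β') : x = x' ∧ β = β' := by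
  have h1 := Encodable.encode_injective h
  simp only [Prod.mk.injEq] at h1
  exact ⟨h1.1, List.map_injective_iff.2 (fun _ _ => Th.code_inj) h1.2⟩

theorem lc_range (N : ℕ) (T : Cfg) : lc ((List.range N).map T) = trunc N T := by
  funext j
  unfold lc trunc
  split_ifs with h
  · rw [List.getD_eq_getElem _ _ (by simpa using h)]; simp
  · rw [List.getD_eq_default _ _ (by simpa using h)]

theorem Tm_mono (hd : IsTab d) (l : L) (β : Cfg) {T T' : Cfg} (h : cle d ⊤ T T') :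
    cle d ⊤ (Tm d l β T) (Tm d l β T') := fun j => mu_mono hd l _ (h j)

def Gam (d : ℕ → ℕ → L) (l : L) (c : ℕ → ℕ) (O : Op) (S : Set ℕ) (T : Cfg) (K : Set ℕ) : Set ℕ :=
  {z | ∃ x β, InB c (lc β) ∧ z = kap x β ∧ x ∈ O (jn K S) (Tm d l (lc β) T)}

def KK (d : ℕ → ℕ → L) (l : L) (c : ℕ → ℕ) (O : Op) : Op :=
  fun S T => ⋂₀ {K | Gam d l c O S T K ⊆ K}

variable {l : L} {c : ℕ → ℕ} {O : Op}

theorem Gam_mono (hd : IsTab d) (hO : Cont d O) {S S' K K' : Set ℕ} {T T' : Cfg} (h1 : S ⊆ S')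
    (h2 : cle d ⊤ T T') (h3 : K ⊆ K') : Gam d l c O S T K ⊆ Gam d l c O S' T' K' := by
  rintro z ⟨x, β, e1, e2, e3⟩
  exact ⟨x, β, e1, e2, hO.mono _ _ _ _ (jn_mono h3 h1) (Tm_mono hd l _ h2) e3⟩

omit [BoundedOrder L] in
theorem KK_min {S K : Set ℕ} {T : Cfg} (h : Gam d l c O S T K ⊆ K) : KK d l c O S T ⊆ K :=
  sInter_subset_of_mem h

theorem KK_pre (hd : IsTab d) (hO : Cont d O) (S : Set ℕ) (T : Cfg) :
    Gam d l c O S T (KK d l c O S T) ⊆ KK d l c O S T :=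
  subset_sInter fun _ hK => (Gam_mono hd hO subset_rfl (cle_refl hd _ _) (KK_min hK)).trans hK

theorem KK_post (hd : IsTab d) (hO : Cont d O) (S : Set ℕ) (T : Cfg) :
    KK d l c O S T ⊆ Gam d l c O S T (KK d l c O S T) :=
  KK_min (Gam_mono hd hO subset_rfl (cle_refl hd _ _) (KK_pre hd hO S T))

theorem KK_mono (hd : IsTab d) (hO : Cont d O) {S S' : Set ℕ} {T T' : Cfg} (h1 : S ⊆ S')
    (h2 : cle d ⊤ T T') : KK d l c O S T ⊆ KK d l c O S' T' :=
  KK_min ((Gam_mono hd hO h1 h2 subset_rfl).trans (KK_pre hd hO S' T'))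

theorem chain_fin {C : ℕ → Set ℕ} (hC : Monotone C) (N0 : ℕ) :
    ∃ N, N0 ≤ N ∧ (⋃ N, C N) ∩ Iio N0 ⊆ C N := by
  induction N0 with
  | zero => exact ⟨0, le_rfl, by intro x hx; simp at hx⟩
  | succ n ih =>
    obtain ⟨N, h0, hN⟩ := ih
    by_cases hn : n ∈ ⋃ N, C N
    · obtain ⟨N1, h1⟩ := mem_iUnion.1 hn
      refine ⟨max (N + 1) N1, by omega, fun x hx => ?_⟩
      rcases Nat.lt_succ_iff_lt_or_eq.1 hx.2 with hl | rfl
      · exact hC (by omega) (hN ⟨hx.1, hl⟩)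
      · exact hC (le_max_right _ _) h1
    · refine ⟨N + 1, by omega, fun x hx => ?_⟩
      rcases Nat.lt_succ_iff_lt_or_eq.1 hx.2 with hl | rfl
      · exact hC (by omega) (hN ⟨hx.1, hl⟩)
      · exact absurd hx.1 hn

theorem cont_KK (hd : IsTab d) (hO : Cont d O) : Cont d (KK d l c O) where
  mono := fun _ _ _ _ h1 h2 => KK_mono hd hO h1 h2
  fin := by
    intro S T
    have hC : Monotone (fun N => KK d l c O (S ∩ Iio N) (trunc N T)) := fun N N' h =>
      KK_mono hd hO (inter_subset_inter_right _ (Iio_subset_Iio h)) (trunc_mono hd ⊤ h T)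
    have key : KK d l c O S T ⊆ ⋃ N, KK d l c O (S ∩ Iio N) (trunc N T) := by
      refine KK_min ?_
      rintro z ⟨x, β, e1, rfl, e3⟩
      obtain ⟨N0, h0⟩ := hO.fin _ _ _ e3
      obtain ⟨N, h1, h2⟩ := chain_fin hC N0
      refine mem_iUnion.2 ⟨N, KK_pre hd hO _ _ ⟨x, β, e1, rfl, hO.mono _ _ _ _ ?_ ?_ h0⟩⟩
      · rintro z ⟨hz, hz'⟩
        have hz'' : z < N0 := hz'
        rcases jn_cases hz with ⟨y, rfl, hy⟩ | ⟨y, rfl, hy⟩
        · exact mem_jn_left.2 (h2 ⟨hy, show y < N0 by omega⟩)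
        · exact mem_jn_right.2 ⟨hy, show y < N by omega⟩
      · intro j
        by_cases a1 : j < N0
        · have a2 : j < N := by omega
          simp only [trunc, Tm, if_pos a1, if_pos a2]
          exact Th.rel_refl (r := fun x y => ⊤ ≤ d x y) (hd.rrefl ⊤) _
        · simp only [trunc, if_neg a1]
          simp
    intro z hz
    exact mem_iUnion.1 (key hz)

theorem cont_jnK {A K : Op} (hd : IsTab d) (hA : Cont d A) (hK : Cont d K) :
    Cont d (fun S T => A (jn (K S T) S) T) where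
  mono := fun _ _ _ _ h1 h2 => hA.mono _ _ _ _ (jn_mono (hK.mono _ _ _ _ h1 h2) h1) h2
  fin := by
    intro S T x hx
    obtain ⟨N0, h0⟩ := hA.fin _ _ _ hx
    have hC : Monotone (fun N => K (S ∩ Iio N) (trunc N T)) := fun N N' h =>
      hK.mono _ _ _ _ (inter_subset_inter_right _ (Iio_subset_Iio h)) (trunc_mono hd ⊤ h T)
    obtain ⟨N, h1, h2⟩ := chain_fin hC N0
    refine ⟨N, hA.mono _ _ _ _ ?_ (trunc_mono hd ⊤ h1 T) h0⟩
    rintro z ⟨hz, hz'⟩
    have hz'' : z < N0 := hz'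
    rcases jn_cases hz with ⟨y, rfl, hy⟩ | ⟨y, rfl, hy⟩
    · exact mem_jn_left.2 (h2 ⟨mem_iUnion.2 (hK.fin _ _ _ hy), show y < N0 by omega⟩)
    · exact mem_jn_right.2 ⟨hy, show y < N by omega⟩

theorem det_promise (hd : IsTab d) (hO : Cont d O) :
    Det (fun w : Set ℕ × Cfg => InB c w.2) (fun w => O (jn (KK d l c O w.1 w.2) w.1) w.2)
      (fun w => jn (KK d l c O w.1 w.2) (X d l w.2)) := by
  rintro ⟨S, T⟩ hT x hx
  obtain ⟨N, hN⟩ := hO.fin _ _ _ hx
  refine ⟨2 * kap x ((List.range N).map T) ::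
    (List.range N).map (fun j => 2 * Nat.pair j (T j).code + 1), ?_, ?_⟩
  · intro y hy
    rcases List.mem_cons.1 hy with rfl | hy
    · rw [mem_jn_left]
      refine KK_pre hd hO _ _ ⟨x, _, ?_, rfl, hO.mono _ _ _ _ inter_subset_left ?_ hN⟩
      · rw [lc_range]
        intro j
        unfold trunc
        split_ifs
        · exact hT j
        · trivial
      · rw [lc_range]
        intro j
        by_cases a1 : j < N
        · simp only [trunc, Tm, if_pos a1, mu_self hd]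
          exact Th.rel_refl (r := fun x y => ⊤ ≤ d x y) (hd.rrefl ⊤) _
        · simp only [trunc, if_neg a1]
          simp
    · obtain ⟨j, _, rfl⟩ := List.mem_map.1 hy
      rw [mem_jn_right, mem_X]
      exact Th.rel_refl (hd.rrefl _) _
  · rintro ⟨S', T'⟩ _ h
    have h1 := h _ (List.mem_cons_self ..)
    rw [mem_jn_left] at h1
    obtain ⟨x', β', _, e2, e3⟩ := KK_post hd hO _ _ h1
    obtain ⟨rfl, rfl⟩ := kap_inj e2
    refine hO.mono _ _ _ _ subset_rfl (fun j => mu_le hd ?_) e3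
    rw [lc_range]
    unfold trunc
    split_ifs with hj
    · have h2 := h _ (List.mem_cons_of_mem _ (List.mem_map.2 ⟨j, List.mem_range.2 hj, rfl⟩))
      rw [mem_jn_right, mem_X] at h2
      exact h2
    · simp

end Pool.Agent.MP_750bb3_lc

end

section

set_option autoImplicit false

namespace Pool.Agent.MP_750bb3_lc

open Set

variable {L : Type} [Lattice L] [BoundedOrder L] {d : ℕ → ℕ → L}

def Ex (d : ℕ → ℕ → L) (U : ℕ → Set ℕ → Set ℕ → Set ℕ) (P : St) : Set L :=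
  {c | ∃ ξ ∈ P.In U, ∃ ξ' ∈ P.Out U, c ≤ d ξ ξ'}

theorem sep_homs [Finite L] (hd : IsTab d) {U : ℕ → Set ℕ → Set ℕ → Set ℕ} (hU : Fam U)
    (htop : ∀ P : St, (⊤ : L) ∉ Ex d U P) (P0 : St) {l : L} (hl : l ∈ Ex d U P0) :
    ∃ n, ¬ n ≤ l ∧ ∃ P : St, P.le P0 ∧ ∀ η η', ¬ n ≤ d η η' →
      ∃ h, End d h ∧ h η ∈ P.In U ∧ h η' ∈ P.Out U := by
  classical
  have hmono : ∀ P' P : St, P'.le P → Ex d U P ⊆ Ex d U P' := by
    rintro P' P h c ⟨ξ, h1, ξ', h2, h3⟩
    exact ⟨ξ, St.In_mono hU h h1, ξ', St.Out_mono hU h h2, h3⟩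
  obtain ⟨P, hP0, hmax⟩ : ∃ P : St, P.le P0 ∧ ∀ P' : St, P'.le P → Ex d U P' ⊆ Ex d U P := by
    obtain ⟨E, ⟨P, hP, rfl⟩, hE⟩ := (wellFounded_gt (α := Set L)).has_min
      {E | ∃ P : St, P.le P0 ∧ E = Ex d U P} ⟨_, P0, St.le_refl' P0, rfl⟩
    refine ⟨P, hP, fun P' h => ?_⟩
    by_contra hc
    exact hE _ ⟨P', St.le_trans' h hP, rfl⟩ (lt_of_le_not_ge (hmono _ _ h) hc)
  have hdown : ∀ a c : L, a ≤ c → c ∈ Ex d U P → a ∈ Ex d U P := by
    rintro a c h ⟨ξ, h1, ξ', h2, h3⟩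
    exact ⟨ξ, h1, ξ', h2, h.trans h3⟩
  have hmeet : ∀ a c : L, a ∉ Ex d U P → c ∉ Ex d U P → a ⊓ c ∉ Ex d U P := by
    rintro a c ha hc ⟨ξ, h1, ξ', h2, h3⟩
    obtain ⟨u, v, w, e1, e2, e3, e4⟩ := hd.chain ξ ξ' a c h3
    obtain ⟨P1, l1, d1⟩ := DL hU P u
    obtain ⟨P2, l2, d2⟩ := DL hU P1 v
    obtain ⟨P3, l3, d3⟩ := DL hU P2 w
    have l32 := St.le_trans' l3 l2
    have l31 := St.le_trans' l32 l1
    have i0 := St.In_mono hU l31 h1
    have o0 := St.Out_mono hU l31 h2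
    rcases d1 with d1 | d1
    · rcases d2 with d2 | d2
      · rcases d3 with d3 | d3
        · exact hc (hmax P3 l31 ⟨w, d3, ξ', o0, e4⟩)
        · exact ha (hmax P3 l31 ⟨v, St.In_mono hU l3 d2, w, d3, e3⟩)
      · exact hc (hmax P3 l31 ⟨u, St.In_mono hU l32 d1, v, St.Out_mono hU l3 d2, e2⟩)
    · exact ha (hmax P3 l31 ⟨ξ, i0, u, St.Out_mono hU l32 d1, e1⟩)
  obtain ⟨n, hn, hmin⟩ := (wellFounded_lt (α := L)).has_min {c | c ∉ Ex d U P} ⟨⊤, htop P⟩
  have hleast : ∀ c, ¬ n ≤ c → c ∈ Ex d U P := by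
    intro c hc
    by_contra h
    exact hmin _ (hmeet n c hn h) (lt_of_le_of_ne inf_le_left fun e => hc (inf_eq_left.1 e))
  refine ⟨n, fun h => hn (hdown _ _ h (hmono _ _ hP0 hl)), ?_⟩
  obtain ⟨P1, l1, q1⟩ := FLp hU P {η | ∃ ξ ∈ P.In U, n ≤ d ξ η} (by
    rintro η ⟨ξ, h1, h2⟩ P' hP' h3
    exact hn (hmax P' hP' ⟨ξ, St.In_mono hU hP' h1, η, h3, h2⟩))
  obtain ⟨P2, l2, q2⟩ := FLm hU P1 {η | ∃ ξ ∈ P.Out U, n ≤ d η ξ} (by
    rintro η ⟨ξ, h1, h2⟩ P' hP' h3
    have h4 := St.le_trans' hP' l1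
    exact hn (hmax P' h4 ⟨η, h3, ξ, St.Out_mono hU h4 h1, h2⟩))
  refine ⟨P2, St.le_trans' l2 (St.le_trans' l1 hP0), fun η η' h => ?_⟩
  obtain ⟨x', y', c, e1, e2, e3, e4⟩ := hd.core n η η' h
  obtain ⟨ξ, i1, ξ', o1, e5⟩ := hleast c e3
  obtain ⟨g, hg, rfl, rfl⟩ := e4 ξ ξ' e5
  exact ⟨g, hg, St.In_mono hU l2 (q1 ⟨_, i1, hd.rsymm (hg.rel n _ _ e1)⟩),
    q2 ⟨_, o1, hg.rel n _ _ e2⟩⟩

/-- From separating endomorphisms to a thinning on which `X n` is determined. -/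
theorem det_of_sep (hd : IsTab d) {O : Op} (hO : Cont d O) {b : ℕ → ℕ} (hb : Unb b) (x : ℕ → ℕ)
    {n : L} (P : St)
    (hP : ∀ η η', ¬ n ≤ d η η' → ∃ h, End d h ∧
      h η ∈ P.In (fun k S Z => {η | x k ∈ O S (cfg k η Z)}) ∧
      h η' ∈ P.Out (fun k S Z => {η | x k ∈ O S (cfg k η Z)})) :
    ∃ σ b' t, Good σ ∧ Thin d b b' t ∧
      Det (fun w : Set ℕ × Cfg => InB b' w.2) (fun w => X d n w.2)
        (fun w => jn (O (σ w.1) (app t w.2)) (X d ⊥ w.2)) := by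
  classical
  obtain ⟨σ, hσ, hlo, hhi⟩ := P.iv
  choose! H0 hH0 hIn hOut using hP
  let H : ℕ → ℕ → ℕ := fun m =>
    if (Nat.unpair m).2 ≠ 0 ∧ ¬ n ≤ d (Nat.unpair ((Nat.unpair m).2 - 1)).1
      (Nat.unpair ((Nat.unpair m).2 - 1)).2 then
      H0 (Nat.unpair ((Nat.unpair m).2 - 1)).1 (Nat.unpair ((Nat.unpair m).2 - 1)).2 else id
  have hH : ∀ m, End d (H m) := by
    intro m
    simp only [H]
    split_ifs with h
    · exact hH0 _ _ h.2
    · exact End.id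
  have hHe : ∀ k η η', ¬ n ≤ d η η' → H (Nat.pair k (Nat.pair η η' + 1)) = H0 η η' := by
    intro k η η' h
    simp [H, h]
  let B : ℕ → Set ℕ := fun m => ⋃ θ ∈ Iio (Nat.unpair m).1, ({j | b j ≤ H m θ} ∪
    {j | {k | k ∈ P.Y ∧ x k ∉ O P.lo (cfg k (H m θ) P.Z)}.Finite ∧
      j ∈ P.Y ∧ x j ∉ O P.lo (cfg j (H m θ) P.Z)} ∪
    {j | {k | k ∈ P.Y ∧ x k ∈ O P.hi (cfg k (H m θ) (P.Z ∪ P.Y))}.Finite ∧
      j ∈ P.Y ∧ x j ∈ O P.hi (cfg j (H m θ) (P.Z ∪ P.Y))})
  have aux : ∀ p : ℕ → Prop, {j | {k | p k}.Finite ∧ p j}.Finite := by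
    intro p
    by_cases h : {k | p k}.Finite
    · exact h.subset fun j hj => hj.2
    · simp [h]
  have hB : ∀ m, (B m).Finite := fun m =>
    (finite_Iio _).biUnion fun θ _ => ((hb _).union (aux _)).union (aux _)
  obtain ⟨g, hg, hgB⟩ := choose_inj P.inf B hB
  have hginj := hg.injective
  have hY : ∀ m, g m ∈ P.Y := fun m => (hgB m).1
  have hnB : ∀ m θ, θ < (Nat.unpair m).1 → H m θ < b (g m) ∧
      ({k | k ∈ P.Y ∧ x k ∉ O P.lo (cfg k (H m θ) P.Z)}.Finite →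
        x (g m) ∈ O P.lo (cfg (g m) (H m θ) P.Z)) ∧
      ({k | k ∈ P.Y ∧ x k ∈ O P.hi (cfg k (H m θ) (P.Z ∪ P.Y))}.Finite →
        x (g m) ∉ O P.hi (cfg (g m) (H m θ) (P.Z ∪ P.Y))) := by
    intro m θ hθ
    have h := (hgB m).2
    refine ⟨?_, fun h1 => ?_, fun h1 h2 => ?_⟩
    · by_contra hc
      exact h (mem_biUnion (x := θ) hθ (Or.inl (Or.inl (not_lt.1 hc))))
    · by_contra hc
      exact h (mem_biUnion (x := θ) hθ (Or.inl (Or.inr ⟨h1, hY m, hc⟩)))
    · exact h (mem_biUnion (x := θ) hθ (Or.inr ⟨h1, hY m, h2⟩))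
  let act : ℕ → Prop := fun m => (Nat.unpair m).2 ≤ Nat.pair (Nat.unpair m).1 (Nat.unpair m).1
  have hact : ∀ k η η', η < k → η' < k → act (Nat.pair k (Nat.pair η η' + 1)) := by
    intro k η η' h1 h2
    simp only [act, Nat.unpair_pair]
    exact (Nat.pair_lt_pair_left η' h1).trans (Nat.pair_lt_pair_right k h2)
  refine ⟨σ, fun k => k, mk g act (fun m => (Nat.unpair m).1) H (zc P.Z), hσ, ?_, ?_⟩
  · refine thin_mk hginj (fun m _ => ⟨hH m, fun θ hθ => (hnB m θ hθ).1⟩) (zc_inb _ _)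
      (zc_fin _) (fun k => ?_) (fun k => ⟨Nat.pair k 0, by simp [act], by simp, by simp [H]⟩)
      unb_id
    refine ((finite_Iic (Nat.pair k k)).image (Nat.pair k)).subset ?_
    rintro m ⟨h1, rfl⟩
    exact ⟨_, h1, Nat.pair_unpair m⟩
  · rintro ⟨S, T⟩ hT z ⟨k, θ0, rfl, h0⟩
    have hTk : (T k).inb k := hT k
    cases e : T k with
    | bot =>
      refine ⟨[], by simp, fun w _ _ => mem_X.2 ?_⟩
      simp only [e] at h0
      cases θ0 <;> simp_all
    | top =>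
      refine ⟨[2 * Nat.pair k Th.top.code + 1], ?_, fun w _ h => mem_X.2 ?_⟩
      · intro y hy
        rw [List.mem_singleton.1 hy, mem_jn_right, mem_X]
        simp [e]
      · have h1 := h _ (List.mem_singleton.2 rfl)
        rw [mem_jn_right, mem_X] at h1
        cases e' : w.2 k <;> simp_all
    | mid θ =>
      rw [e] at hTk
      simp only [e] at h0
      have hθ : θ < k := hTk
      refine ⟨(2 * Nat.pair k (Th.mid θ).code + 1) ::
        (((List.range k).filter (fun η' => ¬ n ≤ d θ η')).map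
          (fun η' => 2 * x (g (Nat.pair k (Nat.pair θ η' + 1))))), ?_, fun w hw h => mem_X.2 ?_⟩
      · intro y hy
        rcases List.mem_cons.1 hy with rfl | hy
        · rw [mem_jn_right, mem_X]; simp [e]
        · obtain ⟨η', h1, rfl⟩ := List.mem_map.1 hy
          rw [List.mem_filter, List.mem_range] at h1
          have h2 : ¬ n ≤ d θ η' := by simpa using h1.2
          rw [mem_jn_left]
          have h3 := (hnB (Nat.pair k (Nat.pair θ η' + 1)) θ (by simpa using hθ)).2.1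
            (by rw [hHe k θ η' h2]; exact hIn θ η' h2)
          refine hO.mono _ _ _ _ (by rw [← hlo]; exact hσ.mono _ _ (empty_subset _))
            (cfg_le_mk hd hginj P.disj hY (hact k θ η' hθ h1.1) ?_) h3
          simp [e, hd.refl]
      · have h1 := h _ (List.mem_cons_self ..)
        rw [mem_jn_right, mem_X] at h1
        have hwk : (w.2 k).inb k := hw k
        cases e' : w.2 k with
        | bot => rw [e'] at h1; simp at h1
        | top => simp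
        | mid θ' =>
          rw [e'] at hwk
          have hθ' : θ' < k := hwk
          refine Th.rel_trans (hd.rtrans n) h0 ?_
          rw [Th.rel_mid]
          by_contra h2
          have h4 := h (2 * x (g (Nat.pair k (Nat.pair θ θ' + 1)))) (List.mem_cons_of_mem _
            (List.mem_map.2 ⟨θ', List.mem_filter.2 ⟨List.mem_range.2 hθ', by simpa using h2⟩, rfl⟩))
          rw [mem_jn_left] at h4
          have h3 := (hnB (Nat.pair k (Nat.pair θ θ' + 1)) θ' (by simpa using hθ')).2.2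
            (by rw [hHe k θ θ' h2]; exact hOut θ θ' h2)
          refine h3 (hO.mono _ _ _ _ (by rw [← hhi]; exact hσ.mono _ _ (subset_univ _))
            (mk_le_cfg hd hginj hY (hact k θ θ' hθ hθ') ?_) h4)
          simp [e', hd.refl]

theorem CT [Finite L] (hd : IsTab d) {O : Op} (hO : Cont d O) {b : ℕ → ℕ} {l : L}
    (h : Test d b O l) : ∃ n, ¬ n ≤ l ∧ ∃ σ b' t, Good σ ∧ Thin d b b' t ∧
      Det (fun w : Set ℕ × Cfg => InB b' w.2) (fun w => X d n w.2)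
        (fun w => jn (O (σ w.1) (app t w.2)) (X d ⊥ w.2)) := by
  classical
  obtain ⟨lo, hi, b0, t0, ζ, ζ', hiv, ht0, hl, hY⟩ := h
  have hO' : Cont d (fun S T => O S (app t0 T)) := hO.comp hd good_id ht0
  have hx : ∀ k, ∃ x, ¬ O lo (app t0 (cfg k ζ ∅)) ⊆ O hi (app t0 (cfg k ζ' univ)) →
      x ∈ O lo (app t0 (cfg k ζ ∅)) ∧ x ∉ O hi (app t0 (cfg k ζ' univ)) := by
    intro k
    by_cases hk : O lo (app t0 (cfg k ζ ∅)) ⊆ O hi (app t0 (cfg k ζ' univ))
    · exact ⟨0, fun h => absurd hk h⟩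
    · obtain ⟨x, hx⟩ := not_subset.1 hk
      exact ⟨x, fun _ => hx⟩
  choose x hx using hx
  have hU := fam_of_cont hd hO' x
  let P0 : St := ⟨lo, hi, _, ∅, hiv, hY, disjoint_empty _⟩
  obtain ⟨n, hn, P, _, hP⟩ := sep_homs hd hU (by
    rintro P ⟨ξ, h1, ξ', h2, h3⟩
    obtain ⟨k, hk, hk'⟩ := (P.inf.diff (Set.Finite.union h1 h2)).nonempty
    simp only [mem_union, mem_setOf_eq, not_or, not_and, not_not] at hk'
    exact hk'.2 hk (hO'.mono _ _ _ _ (iv_sub P.iv)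
      (cfg_cle h3 (subset_union_left.trans (subset_insert _ _))) (hk'.1 hk))) P0 (l := l) (by
    refine ⟨ζ, finite_empty.subset ?_, ζ', finite_empty.subset ?_, hl⟩
    · rintro k ⟨h1, h2⟩
      exact h2 (hx k h1).1
    · rintro k ⟨h1, h2⟩
      exact (hx k h1).2 (hO'.mono _ _ _ _ subset_rfl
        (cfg_cle (hd.rrefl ⊤ ζ') ((subset_univ _).trans (subset_insert _ _))) h2))
  obtain ⟨σ, b', t, h1, h2, h3⟩ := det_of_sep hd hO' ht0.unb x P hP
  exact ⟨n, hn, σ, b', cmp t0 t, h1, ht0.cmp h2, by simpa only [app_cmp] using h3⟩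

/-- ascent: reach a level that is determined and has no test -/
theorem ascend [Finite L] (hd : IsTab d) (l : L) : ∀ (O : Op) (b : ℕ → ℕ), Cont d O → Unb b →
    Det (fun w : Set ℕ × Cfg => InB b w.2) (fun w => X d l w.2)
      (fun w => jn (O w.1 w.2) (X d ⊥ w.2)) →
    ∃ l' σ b' t, Good σ ∧ Thin d b b' t ∧
      Det (fun w : Set ℕ × Cfg => InB b' w.2) (fun w => X d l' w.2)
        (fun w => jn (O (σ w.1) (app t w.2)) (X d ⊥ w.2)) ∧
      ¬ Test d b' (fun S T => O (σ S) (app t T)) l' := by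
  induction l using (wellFounded_gt (α := L)).induction with
  | _ l ih =>
  intro O b hO hb hD
  by_cases h : Test d b O l
  · obtain ⟨n, hn, σ, b', t, h1, h2, h3⟩ := CT hd hO h
    have h4 : Det (fun w : Set ℕ × Cfg => InB b' w.2) (fun w => X d l w.2)
        (fun w => jn (O (σ w.1) (app t w.2)) (X d ⊥ w.2)) := by
      refine (det_X_main h2 l _ Prod.snd).trans
        ((hD.comp (fun w : Set ℕ × Cfg => (σ w.1, app t w.2)) fun w hw => h2.app_inb hw).trans ?_)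
      exact Det.pair Det.left ((det_X_app hd h2 ⊥ _ Prod.snd).trans Det.right)
    obtain ⟨l', σ', b'', t', e1, e2, e3, e4⟩ := ih (l ⊔ n)
      (lt_of_le_of_ne le_sup_left fun e => hn (sup_eq_left.1 e.symm))
      (fun S T => O (σ S) (app t T)) b' (hO.comp hd h1 h2) h2.unb
      ((h4.inter h3).congr (fun w _ => (X_sup l n w.2).symm) fun _ _ => rfl)
    exact ⟨l', fun S => σ (σ' S), b'', cmp t t', h1.comp e1, h2.cmp e2,
      by simpa only [app_cmp] using e3, by simpa only [app_cmp] using e4⟩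
  · exact ⟨l, fun S => S, b, idL, good_id, thin_idL (fun _ => le_rfl) hb,
      by simpa only [app_idL] using hD, by simpa only [app_idL] using h⟩

end Pool.Agent.MP_750bb3_lc

end

section

/-! Transitivity and joins for enumeration reducibility. -/

set_option autoImplicit false

namespace Pool.Agent.MP_750bb3_lc

open Nat.Partrec (Code)
open Encodable

theorem rep_or {α : Type} [Primcodable α] {P Q : α → Prop} (hP : REPred P) (hQ : REPred Q) :
    REPred fun a => P a ∨ Q a := by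
  obtain ⟨k, hk, h⟩ := Partrec.merge' hP hQ
  refine hk.dom_re.of_eq fun a => ?_
  rw [(h a).2]
  simp [Part.dom_iff_mem]

theorem rep_all {α : Type} [Primcodable α] {P : α → Prop} (hP : REPred P) :
    REPred fun l : List α => ∀ a ∈ l, P a := by
  obtain ⟨c, hc⟩ := rep_code hP
  have h1 : PrimrecRel fun (a : α) (s : ℕ) => (Code.evaln s c (encode a)).isSome = true :=
    Primrec.eq.comp (Primrec.option_isSome.comp (Code.primrec_evaln.comp
      ((Primrec.snd.pair (Primrec.const c)).pair (Primrec.encode.comp Primrec.fst))))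
      (Primrec.const true)
  have h2 : PrimrecPred fun q : List α × ℕ =>
      ∀ a ∈ q.1, (Code.evaln q.2 c (encode a)).isSome = true := h1.forall_mem_list
  refine (rep_ex h2.computablePred.to_re).of_eq fun l => ?_
  constructor
  · rintro ⟨s, hs⟩ a ha
    obtain ⟨x, hx⟩ := Option.isSome_iff_exists.1 (hs a ha)
    exact (hc a).2 (Part.dom_iff_mem.2 ⟨x, Code.evaln_sound hx⟩)
  · intro h
    induction l with
    | nil => exact ⟨0, by simp⟩
    | cons a l ih =>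
      obtain ⟨s, hs⟩ := ih fun b hb => h b (List.mem_cons_of_mem _ hb)
      obtain ⟨x, hx⟩ := Part.dom_iff_mem.1 ((hc a).1 (h a (by simp)))
      obtain ⟨k, hk⟩ := Code.evaln_complete.mp hx
      refine ⟨max s k, fun b hb => ?_⟩
      rcases List.mem_cons.1 hb with rfl | hb
      · exact Option.isSome_iff_exists.2 ⟨x, Code.evaln_mono (le_max_right _ _) hk⟩
      · obtain ⟨y, hy⟩ := Option.isSome_iff_exists.1 (hs b hb)
        exact Option.isSome_iff_exists.2 ⟨y, Code.evaln_mono (le_max_left _ _) hy⟩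

theorem red_trans {A B C : Set ℕ} : Red A B → Red B C → Red A C := by
  rintro ⟨W, hW, hA⟩ ⟨V, hV, hB⟩
  refine ⟨fun p => ∃ q : List (ℕ × List ℕ), W (p.1, q.map fun r => r.1) ∧
    p.2 = (q.flatMap fun r => r.2) ∧ ∀ r ∈ q, V r, re_iff.2 ?_, fun x => ?_⟩
  · refine rep_ex (P := fun t : (ℕ × List ℕ) × List (ℕ × List ℕ) =>
      W (t.1.1, t.2.map fun r => r.1) ∧ t.1.2 = (t.2.flatMap fun r => r.2) ∧ ∀ r ∈ t.2, V r)
      (rep_and ?_ (rep_and ?_ ?_))
    · exact rep_comp (re_iff.1 hW) ((Primrec.fst.comp Primrec.fst).pair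
        (Primrec.list_map Primrec.snd (Primrec.fst.comp Primrec.snd).to₂)).to_comp
    · refine (PrimrecPred.computablePred ?_).to_re
      exact Primrec.eq.comp (Primrec.snd.comp Primrec.fst)
        (Primrec.list_flatMap Primrec.snd (Primrec.snd.comp Primrec.snd).to₂)
    · exact rep_comp (rep_all (re_iff.1 hV)) Computable.snd
  · rw [hA]
    constructor
    · rintro ⟨D, hD, h⟩
      have h1 : ∀ y, ∃ E : List ℕ, y ∈ B → (∀ z ∈ E, z ∈ C) ∧ V (y, E) := by
        intro y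
        by_cases hy : y ∈ B
        · obtain ⟨E, hE⟩ := (hB y).1 hy
          exact ⟨E, fun _ => hE⟩
        · exact ⟨[], fun h => absurd h hy⟩
      choose E hE using h1
      refine ⟨(D.map fun y => (y, E y)).flatMap fun r => r.2, fun z hz => ?_,
        D.map fun y => (y, E y), ?_, rfl, fun r hr => ?_⟩
      · obtain ⟨r, hr, hz⟩ := List.mem_flatMap.1 hz
        obtain ⟨y, hy, rfl⟩ := List.mem_map.1 hr
        exact (hE y (hD y hy)).1 z hz
      · rw [List.map_map]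
        exact (List.map_id D).symm ▸ h
      · obtain ⟨y, hy, rfl⟩ := List.mem_map.1 hr
        exact (hE y (hD y hy)).2
    · rintro ⟨E, hE, q, h1, h2, h3⟩
      refine ⟨q.map fun r => r.1, fun y hy => ?_, h1⟩
      obtain ⟨r, hr, rfl⟩ := List.mem_map.1 hy
      refine (hB _).2 ⟨r.2, fun z hz => hE z ?_, h3 r hr⟩
      have h4 : E = q.flatMap fun r => r.2 := h2
      rw [h4]
      exact List.mem_flatMap.2 ⟨r, hr, hz⟩

theorem red_jn {A B C : Set ℕ} : Red A C → Red B C → Red (jn A B) C := by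
  rintro ⟨W, hW, hA⟩ ⟨V, hV, hB⟩
  have h1 : ∀ i : ℕ, REPred fun p : ℕ × List ℕ => p.1 % 2 = i := fun i =>
    (PrimrecPred.computablePred (Primrec.eq.comp
      (Primrec.nat_mod.comp Primrec.fst (Primrec.const 2)) (Primrec.const i))).to_re
  have h2 : Computable fun p : ℕ × List ℕ => (p.1 / 2, p.2) :=
    ((Primrec.nat_div.comp Primrec.fst (Primrec.const 2)).pair Primrec.snd).to_comp
  refine ⟨fun p => (p.1 % 2 = 0 ∧ W (p.1 / 2, p.2)) ∨ (p.1 % 2 = 1 ∧ V (p.1 / 2, p.2)),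
    re_iff.2 (rep_or (rep_and (h1 0) (rep_comp (re_iff.1 hW) h2))
      (rep_and (h1 1) (rep_comp (re_iff.1 hV) h2))), fun z => ?_⟩
  constructor
  · rintro (⟨a, b⟩ | ⟨a, b⟩)
    · obtain ⟨D, hD, h⟩ := (hA _).1 b
      exact ⟨D, hD, Or.inl ⟨a, h⟩⟩
    · obtain ⟨D, hD, h⟩ := (hB _).1 b
      exact ⟨D, hD, Or.inr ⟨a, h⟩⟩
  · rintro ⟨D, hD, ⟨a, h⟩ | ⟨a, h⟩⟩
    · exact Or.inl ⟨a, (hA _).2 ⟨D, hD, h⟩⟩
    · exact Or.inr ⟨a, (hB _).2 ⟨D, hD, h⟩⟩

theorem red_of_iff {A B : Set ℕ} {g : ℕ → ℕ} (hg : Primrec g) (h : ∀ x, x ∈ A ↔ g x ∈ B) :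
    Red A B := by
  refine ⟨fun p => p.2 = [g p.1], re_iff.2 ?_, fun x => ?_⟩
  · refine (PrimrecPred.computablePred ?_).to_re
    exact Primrec.eq.comp Primrec.snd
      (Primrec.list_cons.comp (hg.comp Primrec.fst) (Primrec.const []))
  · rw [h]
    constructor
    · intro hx
      exact ⟨[g x], by simpa using hx, rfl⟩
    · rintro ⟨D, hD, h⟩
      dsimp only at h
      subst h
      exact hD _ (by simp)

theorem red_left (A B : Set ℕ) : Red A (jn A B) :=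
  red_of_iff (g := fun x => 2 * x) (Primrec.nat_mul.comp (Primrec.const 2) Primrec.id)
    fun _ => mem_jn_left.symm

theorem red_right (A B : Set ℕ) : Red B (jn A B) :=
  red_of_iff (g := fun x => 2 * x + 1)
    (Primrec.succ.comp (Primrec.nat_mul.comp (Primrec.const 2) Primrec.id))
    fun _ => mem_jn_right.symm

end Pool.Agent.MP_750bb3_lc

end
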