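import Pool.Agent.Mg.F750bb3.G51b7fc
import Pool.Agent.Mg.F750bb3.G3e050f
import Pool.Agent.Mg.F750bb3.G5bc40e

set_option linter.all false

section

set_option autoImplicit false

namespace Pool.Agent.MP_750bb3_lc

open Set

variable {L : Type} [Lattice L] [BoundedOrder L] {d : ℕ → ℕ → L}

theorem pigeon {α : Type} {Y : Set ℕ} (hY : Y.Infinite) {F : Set α} (hF : F.Finite) (f : ℕ → α)
    (h : ∀ k ∈ Y, f k ∈ F) : ∃ V, {k | k ∈ Y ∧ f k = V}.Infinite := by
  by_contra hc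
  push Not at hc
  exact hY ((hF.biUnion fun V _ => hc V).subset fun k hk => mem_biUnion (h k hk) ⟨hk, rfl⟩)

theorem inb_finite (r : ℕ) : {θ : Th | θ.inb r}.Finite := by
  refine (((finite_Iio r).image Th.mid).insert Th.bot |>.insert Th.top).subset ?_
  intro θ h
  cases θ with
  | bot => simp
  | mid x => exact Or.inr (Or.inr ⟨x, h, rfl⟩)
  | top => simp

open Classical in
noncomputable def nl (d : ℕ → ℕ → L) (l : L) (t : ℕ → Loc) (e : ℕ → ℕ) (β : ℕ → Cfg) (ζ ζ' : ℕ)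
    (H : ℕ → ℕ → ℕ → ℕ) : ℕ → Loc := fun j =>
  match t j with
  | .const c => .const (mu d l (β (e 0) j) c)
  | .via k h =>
    if ∃ r, k = e r then
      if Function.invFun e k % 2 = 1 then .via (Function.invFun e k / 2) h
      else match β k j with
        | .mid η => .via (Function.invFun e k / 2) (H (pk d l η (h ζ)) (pk d l η (h ζ')))
        | .bot => .const .bot
        | .top => .const .bot
    else .const .bot

omit [BoundedOrder L] in
theorem nl_cases (l : L) (t : ℕ → Loc) {e : ℕ → ℕ} (he : Function.Injective e) (β : ℕ → Cfg)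
    (ζ ζ' : ℕ) (H : ℕ → ℕ → ℕ → ℕ) (j : ℕ) :
    (∃ c, t j = .const c ∧ nl d l t e β ζ ζ' H j = .const (mu d l (β (e 0) j) c)) ∨
    (∃ r h, t j = .via (e (2 * r + 1)) h ∧ nl d l t e β ζ ζ' H j = .via r h) ∨
    (∃ r h η, t j = .via (e (2 * r)) h ∧ β (e (2 * r)) j = .mid η ∧
      nl d l t e β ζ ζ' H j = .via r (H (pk d l η (h ζ)) (pk d l η (h ζ')))) ∨
    (∃ k h, t j = .via k h ∧ nl d l t e β ζ ζ' H j = .const .bot ∧ (∀ r, k ≠ e (2 * r + 1)) ∧
      ∀ r η, k = e (2 * r) → β k j ≠ .mid η) := by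
  cases hj : t j with
  | const c => exact Or.inl ⟨c, rfl, by simp only [nl, hj]⟩
  | via k h =>
    right
    by_cases hk : ∃ r, k = e r
    · obtain ⟨r, rfl⟩ := hk
      have h1 : Function.invFun e (e r) = r := Function.leftInverse_invFun he r
      have hk : ∃ r', e r = e r' := ⟨r, rfl⟩
      rcases Nat.even_or_odd' r with ⟨s, rfl | rfl⟩
      · right
        have h2 : ¬ (2 * s % 2 = 1) := by omega
        have h3 : 2 * s / 2 = s := by omega
        cases hb : β (e (2 * s)) j with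
        | mid η =>
          exact Or.inl ⟨s, h, η, rfl, hb, by simp only [nl, hj, if_pos hk, h1, if_neg h2, hb, h3]⟩
        | bot =>
          refine Or.inr ⟨_, h, rfl, by simp only [nl, hj, if_pos hk, h1, if_neg h2, hb],
            fun r hr => ?_, fun r η _ => by simp [hb]⟩
          have := he hr; omega
        | top =>
          refine Or.inr ⟨_, h, rfl, by simp only [nl, hj, if_pos hk, h1, if_neg h2, hb],
            fun r hr => ?_, fun r η _ => by simp [hb]⟩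
          have := he hr; omega
      · have h2 : (2 * s + 1) % 2 = 1 := by omega
        have h3 : (2 * s + 1) / 2 = s := by omega
        exact Or.inl ⟨s, h, rfl, by simp only [nl, hj, if_pos hk, h1, if_pos h2, h3]⟩
    · exact Or.inr (Or.inr ⟨k, h, rfl, by simp only [nl, hj, if_neg hk],
        fun r hr => hk ⟨_, hr⟩, fun r _ hr => absurd ⟨_, hr⟩ hk⟩)

/-- masked separations give a genuine test at level `l` -/
theorem test_of_masked (hd : IsTab d) {O : Op} (hO : Cont d O) {l : L} {b c b' : ℕ → ℕ}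
    (hcb : ∀ i, c i ≤ b i) (hc : Unb c) {ε ε' : ℕ} (hε : l ≤ d ε ε') {H : ℕ → ℕ → ℕ → ℕ}
    (hH : ∀ u v, l ≤ d u v → End d (H u v) ∧ H u v ε = u ∧ H u v ε' = v)
    (hHb : ∀ i u v x, u < c i → v < c i → x < c i → H u v x < b i)
    {t : ℕ → Loc} (ht : Thin d c b' t) {lo hi : Set ℕ} (hiv : Iv lo hi) {ζ ζ' : ℕ}
    {Y : Set ℕ} (hY : Y.Infinite) (x : ℕ → ℕ) (β : ℕ → Cfg)
    (h : ∀ k ∈ Y, InB c (β k) ∧ x k ∈ O lo (Tm d l (β k) (app t (cfg k ζ ∅))) ∧
      x k ∉ O hi (Tm d l (β k) (app t (cfg k ζ' univ)))) : Test d b O l := by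
  classical
  have hY1 : (Y \ ({k | b' k ≤ ζ} ∪ {k | b' k ≤ ζ'})).Infinite :=
    hY.diff ((ht.unb ζ).union (ht.unb ζ'))
  haveI : Finite {j | ∃ x, t j = .const (.mid x)} := ht.cfin
  obtain ⟨V, hV⟩ := pigeon hY1
    (Set.Finite.pi' (fun j : {j | ∃ x, t j = .const (.mid x)} => inb_finite (c j)))
    (fun k j => mu d l (β k j) (app t (fun _ => Th.bot) j)) (by
      intro k hk j
      exact mu_inb l ((h k hk.1).1 j) (ht.app_inb (T := fun _ => Th.bot) (fun _ => trivial) j))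
  obtain ⟨e, he, heY⟩ := choose_inj hV (fun _ => ∅) (fun _ => finite_empty)
  have hei := he.injective
  have hk1 : ∀ r, e r ∈ Y := fun r => (heY r).1.1.1
  have hk2 : ∀ r, ζ < b' (e r) := fun r => by
    by_contra hh
    exact (heY r).1.1.2 (Or.inl (not_lt.1 hh))
  have hk3 : ∀ r, ζ' < b' (e r) := fun r => by
    by_contra hh
    exact (heY r).1.1.2 (Or.inr (not_lt.1 hh))
  have hk4 : ∀ r j c', t j = .const c' → mu d l (β (e r) j) c' = mu d l (β (e 0) j) c' := by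
    intro r j c' hj
    cases c' with
    | bot => simp
    | top => simp
    | mid y =>
      have h1 := congrFun ((heY r).1.2.trans (heY 0).1.2.symm) ⟨j, y, hj⟩
      simpa only [app_const hj] using h1
  let b2 : ℕ → ℕ := fun r => sInf (insert (b' (e (2 * r + 1)))
    {y | ∃ j g, t j = .via (e (2 * r)) g ∧ y = c j})
  have hb1 : ∀ r, b2 r ≤ b' (e (2 * r + 1)) := fun r => Nat.sInf_le (mem_insert _ _)
  have hb2 : ∀ r j g, t j = .via (e (2 * r)) g → b2 r ≤ c j := fun r j g hj =>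
    Nat.sInf_le (mem_insert_of_mem _ ⟨j, g, hj, rfl⟩)
  have hub : Unb b2 := by
    intro R
    have i1 : Function.Injective (fun r => e (2 * r + 1)) := fun a a' haa => by
      have := hei haa; omega
    have i2 : Function.Injective (fun r => e (2 * r)) := fun a a' haa => by
      have := hei haa; omega
    refine ((ht.unb.comp i1 R).union
      ((((hc R).image (fun j => (t j).src))).preimage i2.injOn)).subset ?_
    intro r hr
    have hr' : b2 r ≤ R := hr
    rcases Nat.sInf_mem (insert_nonempty (b' (e (2 * r + 1)))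
      {y | ∃ j g, t j = .via (e (2 * r)) g ∧ y = c j}) with h1 | ⟨j, g, h1, h2⟩
    · exact Or.inl (show b' (e (2 * r + 1)) ≤ R from h1 ▸ hr')
    · exact Or.inr ⟨j, show c j ≤ R from h2 ▸ hr', by simp only [h1, Loc.src]⟩
  have huv : ∀ η a a', l ≤ d (pk d l η a) (pk d l η a') := fun η a a' =>
    hd.rtrans l _ _ _ (hd.rsymm (pk_rel hd l η a)) (pk_rel hd l η a')
  have hcs := nl_cases (d := d) l t hei β ζ ζ' H
  have hthin : Thin d b b2 (nl d l t e β ζ ζ' H) := by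
    refine ⟨?_, ?_, ?_, ?_, ?_, hub⟩
    · intro j r g hj
      rcases hcs j with ⟨c', _, e2⟩ | ⟨r', h', e1, e2⟩ | ⟨r', h', η, e1, e3, e2⟩ | ⟨k, h', _, e2, _⟩ <;>
        rw [e2] at hj
      · simp at hj
      · simp only [Loc.via.injEq] at hj
        obtain ⟨rfl, rfl⟩ := hj
        exact ⟨(ht.hom j _ _ e1).1, fun y hy =>
          lt_of_lt_of_le ((ht.hom j _ _ e1).2 y (lt_of_lt_of_le hy (hb1 _))) (hcb j)⟩
      · simp only [Loc.via.injEq] at hj
        obtain ⟨rfl, rfl⟩ := hj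
        have hη : η < c j := by
          have := (h _ (hk1 (2 * r'))).1 j
          rw [e3] at this
          exact this
        exact ⟨(hH _ _ (huv _ _ _)).1, fun y hy => hHb j _ _ _
          (pk_lt l hη ((ht.hom j _ _ e1).2 _ (hk2 _))) (pk_lt l hη ((ht.hom j _ _ e1).2 _ (hk3 _)))
          (lt_of_lt_of_le hy (hb2 _ _ _ e1))⟩
      · simp at hj
    · intro j c0 hj
      rcases hcs j with ⟨c', e1, e2⟩ | ⟨r', h', e1, e2⟩ | ⟨r', h', η, e1, e3, e2⟩ | ⟨k, h', _, e2, _⟩ <;>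
        rw [e2] at hj
      · simp only [Loc.const.injEq] at hj
        rw [← hj]
        exact Th.inb_mono (hcb j) (mu_inb l ((h _ (hk1 0)).1 j) (ht.cb j _ e1))
      · simp at hj
      · simp at hj
      · simp only [Loc.const.injEq] at hj
        rw [← hj]; trivial
    · refine ht.cfin.subset ?_
      rintro j ⟨y, hj⟩
      rcases hcs j with ⟨c', e1, e2⟩ | ⟨r', h', e1, e2⟩ | ⟨r', h', η, e1, e3, e2⟩ | ⟨k, h', _, e2, _⟩ <;>
        rw [e2] at hj
      · cases c' with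
        | bot => simp at hj
        | top => simp at hj
        | mid y' => exact ⟨y', e1⟩
      all_goals simp at hj
    · intro r
      refine ((ht.ffin (e (2 * r))).union (ht.ffin (e (2 * r + 1)))).subset ?_
      rintro j ⟨g, hj⟩
      rcases hcs j with ⟨c', e1, e2⟩ | ⟨r', h', e1, e2⟩ | ⟨r', h', η, e1, e3, e2⟩ | ⟨k, h', _, e2, _⟩ <;>
        rw [e2] at hj
      · simp at hj
      · simp only [Loc.via.injEq] at hj
        obtain ⟨rfl, rfl⟩ := hj
        exact Or.inr ⟨_, e1⟩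
      · simp only [Loc.via.injEq] at hj
        obtain ⟨rfl, _⟩ := hj
        exact Or.inl ⟨_, e1⟩
      · simp at hj
    · intro r
      obtain ⟨j, hj⟩ := ht.main (e (2 * r + 1))
      refine ⟨j, ?_⟩
      rcases hcs j with ⟨c', e1, e2⟩ | ⟨r', h', e1, e2⟩ | ⟨r', h', η, e1, e3, e2⟩ |
        ⟨k, h', e1, e2, e3, _⟩ <;> rw [hj] at e1
      · simp at e1
      · simp only [Loc.via.injEq] at e1
        obtain ⟨e4, rfl⟩ := e1
        have := hei e4
        rw [e2, show r' = r by omega]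
      · simp only [Loc.via.injEq] at e1
        have := hei e1.1
        omega
      · simp only [Loc.via.injEq] at e1
        exact absurd e1.1.symm (e3 r)
  refine ⟨lo, hi, b2, _, ε, ε', hiv, hthin, hε, infinite_univ.mono fun r _ hsub => ?_⟩
  obtain ⟨_, h2, h3⟩ := h _ (hk1 (2 * r))
  refine h3 (hO.mono _ _ _ _ subset_rfl ?_ (hsub (hO.mono _ _ _ _ subset_rfl ?_ h2)))
  · intro j
    unfold Tm
    rcases hcs j with ⟨c', e1, e2⟩ | ⟨r', h', e1, e2⟩ | ⟨r', h', η, e1, e3, e2⟩ |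
      ⟨k, h', e1, e2, e3, e4⟩
    · rw [app_const e1, app_const e2, hk4 (2 * r) j c' e1]
      exact Th.rel_refl (r := fun x y => ⊤ ≤ d x y) (hd.rrefl ⊤) _
    · rw [app_via e1, cfg_mem ζ' (fun hh => by have := hei hh; omega) (mem_univ _)]
      simp
    · rw [app_via e1, app_via e2]
      by_cases hr : r' = r
      · subst hr
        rw [cfg_self, cfg_self, e3]
        simp [(hH _ _ (huv η (h' ζ) (h' ζ'))).2.2, hd.refl]
      · rw [cfg_mem (k := e (2 * r)) ζ' (fun hh => by have := hei hh; omega) (mem_univ _)]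
        simp
    · rw [app_const e2]; simp
  · intro j
    unfold Tm
    rcases hcs j with ⟨c', e1, e2⟩ | ⟨r', h', e1, e2⟩ | ⟨r', h', η, e1, e3, e2⟩ |
      ⟨k, h', e1, e2, e3, e4⟩
    · rw [app_const e1, app_const e2, hk4 (2 * r) j c' e1]
      exact Th.rel_refl (r := fun x y => ⊤ ≤ d x y) (hd.rrefl ⊤) _
    · rw [app_via e1, cfg_nmem ζ (fun hh => by have := hei hh; omega) (notMem_empty _)]
      simp
    · rw [app_via e1, app_via e2]
      by_cases hr : r' = r
      · subst hr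
        rw [cfg_self, cfg_self, e3]
        simp [(hH _ _ (huv η (h' ζ) (h' ζ'))).2.1, hd.refl]
      · rw [cfg_nmem (k := e (2 * r)) ζ (fun hh => by have := hei hh; omega) (notMem_empty _)]
        simp
    · rw [app_const e2, app_via e1]
      by_cases hk : k = e (2 * r)
      · subst hk
        rw [cfg_self]
        cases hb : β (e (2 * r)) j with
        | bot => simp
        | top => simp
        | mid η => exact absurd hb (e4 r η rfl)
      · rw [cfg_nmem ζ hk (notMem_empty _)]; simp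

omit [BoundedOrder L] in
theorem cfg_cross {n : L} {k k' : ℕ} (h : k ≠ k') (ζ ζ' : ℕ) :
    cle d n (cfg k ζ ∅) (cfg k' ζ' univ) := by
  intro j
  by_cases hj : j = k'
  · rw [cfg_nmem ζ (fun hh => h (hh.symm.trans hj)) (notMem_empty _)]; simp
  · rw [cfg_mem ζ' hj (mem_univ _)]; simp

theorem slack (H : ℕ → ℕ → ℕ → ℕ) {b : ℕ → ℕ} (hb : Unb b) :
    ∃ c : ℕ → ℕ, (∀ i, c i ≤ b i) ∧ Unb c ∧
      ∀ i u v x, u < c i → v < c i → x < c i → H u v x < b i := by
  classical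
  refine ⟨fun i => Nat.findGreatest (fun r => ∀ u < r, ∀ v < r, ∀ x < r, H u v x < b i) (b i),
    fun i => Nat.findGreatest_le _, fun R => ?_, fun i u v x hu hv hx => ?_⟩
  · obtain ⟨C, hC⟩ := (((finite_Iic R).prod ((finite_Iic R).prod (finite_Iic R))).image
      (fun p => H p.1 p.2.1 p.2.2)).bddAbove
    refine (hb (max C R)).subset fun i hi => ?_
    by_contra hc
    have hc' : max C R < b i := not_le.1 hc
    have := Nat.le_findGreatest (P := fun r => ∀ u < r, ∀ v < r, ∀ x < r, H u v x < b i)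
      (m := R + 1) (n := b i) (by omega) (by
        intro u hu v hv x hx
        have := hC ⟨(u, v, x), ⟨Nat.lt_succ_iff.1 hu, Nat.lt_succ_iff.1 hv, Nat.lt_succ_iff.1 hx⟩, rfl⟩
        simp only at this
        omega)
    have hi' : Nat.findGreatest (fun r => ∀ u < r, ∀ v < r, ∀ x < r, H u v x < b i) (b i) ≤ R := hi
    omega
  · exact Nat.findGreatest_spec (P := fun r => ∀ u < r, ∀ v < r, ∀ x < r, H u v x < b i)
      (Nat.zero_le _) (by simp) u hu v hv x hx

theorem promise (hd : IsTab d) {A O : Op} (hA : Cont d A) (hO : Cont d O) {b : ℕ → ℕ} (hb : Unb b)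
    {l : L} (h1 : ¬ Test d b A ⊥) (h2 : ¬ Test d b O l) :
    ∃ (c : ℕ → ℕ) (K : Op), (∀ i, c i ≤ b i) ∧ Unb c ∧ Cont d K ∧
      ¬ Test d c (fun S T => A (jn (K S T) S) T) ⊥ ∧
      Det (fun w : Set ℕ × Cfg => InB c w.2) (fun w => O (jn (K w.1 w.2) w.1) w.2)
        (fun w => jn (K w.1 w.2) (X d l w.2)) := by
  classical
  obtain ⟨ε, ε', hε, hfree⟩ := hd.gen l
  choose! H hH using hfree
  obtain ⟨c, hcb, hc, hHb⟩ := slack H hb
  refine ⟨c, KK d l c O, hcb, hc, cont_KK hd hO, ?_, det_promise hd hO⟩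
  rintro ⟨lo, hi, b', t, ζ, ζ', hiv, ht, _, hY⟩
  set Y := {k | ¬ A (jn (KK d l c O lo (app t (cfg k ζ ∅))) lo) (app t (cfg k ζ ∅)) ⊆
    A (jn (KK d l c O hi (app t (cfg k ζ' univ))) hi) (app t (cfg k ζ' univ))} with hYdef
  let Ks : Set ℕ := ⋂ k, KK d l c O hi (app t (cfg k ζ' univ))
  have hcross : ∀ k k', k ≠ k' → KK d l c O lo (app t (cfg k ζ ∅)) ⊆
      KK d l c O hi (app t (cfg k' ζ' univ)) := fun k k' hk =>
    KK_mono hd hO (iv_sub hiv) (ht.app_cle hd (cfg_cross hk ζ ζ'))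
  have hiv' : Iv (jn Ks lo) (jn Ks hi) := hiv.map (good_jn Ks)
  by_cases hα : {k | k ∈ Y ∧ KK d l c O lo (app t (cfg k ζ ∅)) ⊆
      KK d l c O hi (app t (cfg k ζ' univ))}.Infinite
  · refine h1 ⟨_, _, b', cmp idL t, ζ, ζ', hiv', (thin_idL hcb hc).cmp ht, bot_le, hα.mono ?_⟩
    rintro k ⟨hk1, hk2⟩ hsub
    simp only [app_cmp, app_idL] at hsub
    refine hk1 ((hA.mono _ _ _ _ (jn_mono ?_ subset_rfl) (cle_refl hd _ _)).trans (hsub.trans
      (hA.mono _ _ _ _ (jn_mono (iInter_subset _ k) subset_rfl) (cle_refl hd _ _))))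
    refine subset_iInter fun k' => ?_
    by_cases hk : k = k'
    · subst hk; exact hk2
    · exact hcross k k' hk
  · have hY' := hY.diff (not_infinite.1 hα)
    have hex : ∀ k, ∃ x, ∃ β : Cfg, k ∈ Y \ {k | k ∈ Y ∧ KK d l c O lo (app t (cfg k ζ ∅)) ⊆
        KK d l c O hi (app t (cfg k ζ' univ))} → InB c β ∧
        x ∈ O (jn Ks lo) (Tm d l β (app t (cfg k ζ ∅))) ∧
        x ∉ O (jn Ks hi) (Tm d l β (app t (cfg k ζ' univ))) := by
      intro k
      by_cases hk : KK d l c O lo (app t (cfg k ζ ∅)) ⊆ KK d l c O hi (app t (cfg k ζ' univ))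
      · exact ⟨0, fun _ => Th.bot, fun h => absurd ⟨h.1, hk⟩ h.2⟩
      · have h3 : ¬ Gam d l c O lo (app t (cfg k ζ ∅)) (KK d l c O lo (app t (cfg k ζ ∅)) ∩
            KK d l c O hi (app t (cfg k ζ' univ))) ⊆ KK d l c O lo (app t (cfg k ζ ∅)) ∩
            KK d l c O hi (app t (cfg k ζ' univ)) :=
          fun h4 => hk ((KK_min h4).trans inter_subset_right)
        obtain ⟨z, hz, hz'⟩ := not_subset.1 h3
        have hz1 : z ∈ KK d l c O lo (app t (cfg k ζ ∅)) :=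
          KK_pre hd hO _ _ (Gam_mono hd hO subset_rfl (cle_refl hd _ _) inter_subset_left hz)
        obtain ⟨x, β, e1, rfl, e3⟩ := hz
        refine ⟨x, lc β, fun _ => ⟨e1, hO.mono _ _ _ _ (jn_mono ?_ subset_rfl) (cle_refl hd _ _) e3,
          fun h5 => hz' ⟨hz1, KK_pre hd hO _ _ ⟨x, β, e1, rfl, hO.mono _ _ _ _
            (jn_mono (iInter_subset _ k) subset_rfl) (cle_refl hd _ _) h5⟩⟩⟩⟩
        refine subset_iInter fun k' => ?_
        by_cases hk' : k = k'
        · subst hk'; exact inter_subset_right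
        · exact inter_subset_left.trans (hcross k k' hk')
    choose x β hx using hex
    exact h2 (test_of_masked hd hO hcb hc hε.ge hH hHb ht hiv' hY' x β hx)

end Pool.Agent.MP_750bb3_lc

end

section

set_option autoImplicit false

namespace Pool.Agent.MP_750bb3_lc

open Set

structure PreThin (b b' : ℕ → ℕ) (t : ℕ → Loc) : Prop where
  hom : ∀ j k h, t j = .via k h → ∀ x < b' k, h x < b j
  cb : ∀ j c, t j = .const c → c.inb (b j)
  cfin : {j | ∃ x, t j = .const (.mid x)}.Finite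
  ffin : ∀ k, {j | ∃ h, t j = .via k h}.Finite
  main : ∀ k, ∃ j h, t j = .via k h
  unb : Unb b'

theorem PreThin.app_inb {b b' : ℕ → ℕ} {t : ℕ → Loc} (ht : PreThin b b' t) {T : Cfg}
    (h : InB b' T) : InB b (app t T) := by
  intro j
  cases hj : t j with
  | const c => rw [app_const hj]; exact ht.cb j c hj
  | via k g => rw [app_via hj]; exact Th.inb_map (ht.hom j k g hj) (h k)

theorem PreThin.cmp {b b' b'' : ℕ → ℕ} {t t' : ℕ → Loc} (ht : PreThin b b' t)
    (ht' : PreThin b' b'' t') : PreThin b b'' (cmp t t') where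
  hom := by
    intro j k' g h
    obtain ⟨k, h0, h', h1, h2, rfl⟩ := cmp_via h
    exact fun x hx => ht.hom j k h0 h1 _ (ht'.hom k k' h' h2 x hx)
  cb := by
    intro j c h
    rcases cmp_const h with h1 | ⟨k, h0, c', h1, h2, rfl⟩
    · exact ht.cb j c h1
    · exact Th.inb_map (ht.hom j k h0 h1) (ht'.cb k c' h2)
  cfin := by
    refine (ht.cfin.union (ht'.cfin.biUnion fun k _ => ht.ffin k)).subset ?_
    rintro j ⟨x, h⟩
    rcases cmp_const h with h1 | ⟨k, h0, c', h1, h2, h3⟩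
    · exact Or.inl ⟨x, h1⟩
    · refine Or.inr (mem_biUnion (x := k) ?_ ⟨h0, h1⟩)
      cases c' with
      | bot => simp at h3
      | mid y => exact ⟨y, h2⟩
      | top => simp at h3
  ffin := by
    intro k'
    refine ((ht'.ffin k').biUnion fun k _ => ht.ffin k).subset ?_
    rintro j ⟨g, h⟩
    obtain ⟨k, h0, h', h1, h2, _⟩ := cmp_via h
    exact mem_biUnion (x := k) ⟨h', h2⟩ ⟨h0, h1⟩
  main := by
    intro k'
    obtain ⟨k, g, hk⟩ := ht'.main k'
    obtain ⟨j, g', hj⟩ := ht.main k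
    exact ⟨j, g' ∘ g, by simp [MP_750bb3_lc.cmp, hj, hk, Loc.cmp]⟩
  unb := ht'.unb

variable {L : Type} [Lattice L] [BoundedOrder L] {d : ℕ → ℕ → L}

omit [BoundedOrder L] in
theorem Thin.pre {b b' : ℕ → ℕ} {t : ℕ → Loc} (ht : Thin d b b' t) : PreThin b b' t :=
  ⟨fun j k h hj => (ht.hom j k h hj).2, ht.cb, ht.cfin, ht.ffin,
    fun k => (ht.main k).imp fun _ h => ⟨_, h⟩, ht.unb⟩

def Loc.fn : Loc → ℕ → ℕ
  | .const _ => id
  | .via _ h => h

theorem test_of_pre (hd : IsTab d) {A : Op} (hA : Cont d A) {b c b' : ℕ → ℕ}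
    (hb : Unb b) (hcb : ∀ i, c i ≤ b i) (hc : Unb c) {ε ε' : ℕ} {H : ℕ → ℕ → ℕ → ℕ}
    (hH : ∀ u v, End d (H u v) ∧ H u v ε = u ∧ H u v ε' = v)
    (hHb : ∀ i u v x, u < c i → v < c i → x < c i → H u v x < b i)
    {s : ℕ → Loc} (hs : PreThin c b' s) {lo hi : Set ℕ} (hiv : Iv lo hi) {ζ ζ' : ℕ}
    (hY : {k | ¬ A lo (app s (cfg k ζ ∅)) ⊆ A hi (app s (cfg k ζ' univ))}.Infinite) :
    Test d b A ⊥ := by
  classical
  obtain ⟨e, he, heY⟩ := choose_inj hY (fun _ => {k | b' k ≤ ζ} ∪ {k | b' k ≤ ζ'})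
    (fun _ => (hs.unb ζ).union (hs.unb ζ'))
  have hei := he.injective
  have hinv : ∀ r, Function.invFun e (e r) = r := Function.leftInverse_invFun hei
  have hk2 : ∀ r, ζ < b' (e r) := fun r => by
    by_contra hh
    exact (heY r).2 (Or.inl (not_lt.1 hh))
  have hk3 : ∀ r, ζ' < b' (e r) := fun r => by
    by_contra hh
    exact (heY r).2 (Or.inr (not_lt.1 hh))
  choose mj mg hm using hs.main
  let act : ℕ → Prop := fun j => ∃ r, (∃ g, s j = .via (e (2 * r)) g) ∨ j = mj (e (2 * r + 1))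
  let π : ℕ → ℕ := fun j => Function.invFun e (s j).src / 2
  let G : ℕ → ℕ → ℕ := fun j => if Function.invFun e (s j).src % 2 = 0 then
    H ((s j).fn ζ) ((s j).fn ζ') else id
  have hact : ∀ j, act j → (∃ g, s j = .via (e (2 * π j)) g ∧ G j = H (g ζ) (g ζ')) ∨
      (j = mj (e (2 * π j + 1)) ∧ G j = id) := by
    rintro j ⟨r, ⟨g, hj⟩ | hj⟩
    · have h1 : π j = r := by simp only [π, hj, Loc.src, hinv]; omega
      refine Or.inl ⟨g, by rw [h1]; exact hj, ?_⟩
      simp only [G, hj, Loc.src, hinv, Loc.fn]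
      rw [if_pos (by omega)]
    · have h0 : s j = .via (e (2 * r + 1)) (mg (e (2 * r + 1))) := by rw [hj]; exact hm _
      have h1 : π j = r := by simp only [π, h0, Loc.src, hinv]; omega
      refine Or.inr ⟨by rw [h1]; exact hj, ?_⟩
      simp only [G, h0, Loc.src, hinv]
      rw [if_neg (by omega)]
  let b2 : ℕ → ℕ := fun r => sInf (insert (b (mj (e (2 * r + 1))))
    {y | ∃ j g, s j = .via (e (2 * r)) g ∧ y = c j})
  have hb1 : ∀ r, b2 r ≤ b (mj (e (2 * r + 1))) := fun r => Nat.sInf_le (mem_insert _ _)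
  have hb2 : ∀ r j g, s j = .via (e (2 * r)) g → b2 r ≤ c j := fun r j g hj =>
    Nat.sInf_le (mem_insert_of_mem _ ⟨j, g, hj, rfl⟩)
  have hub : Unb b2 := by
    intro R
    have i1 : Function.Injective (fun r => mj (e (2 * r + 1))) := fun a a' haa => by
      have h1 := hm (e (2 * a + 1))
      have h2 := hm (e (2 * a' + 1))
      simp only at haa
      rw [haa, h2] at h1
      simp only [Loc.via.injEq] at h1
      have := hei h1.1; omega
    have i2 : Function.Injective (fun r => e (2 * r)) := fun a a' haa => by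
      have := hei haa; omega
    refine ((hb.comp i1 R).union
      ((((hc R).image (fun j => (s j).src))).preimage i2.injOn)).subset ?_
    intro r hr
    have hr' : b2 r ≤ R := hr
    rcases Nat.sInf_mem (insert_nonempty (b (mj (e (2 * r + 1))))
      {y | ∃ j g, s j = .via (e (2 * r)) g ∧ y = c j}) with h1 | ⟨j, g, h1, h2⟩
    · exact Or.inl (show b (mj (e (2 * r + 1))) ≤ R from h1 ▸ hr')
    · exact Or.inr ⟨j, show c j ≤ R from h2 ▸ hr', by simp only [h1, Loc.src]⟩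
  have hid : Function.Injective (id : ℕ → ℕ) := Function.injective_id
  have hthin : Thin d b b2 (mk id act π G (app s fun _ => Th.bot)) := by
    refine thin_mk hid (fun j hj => ?_)
      (fun j => Th.inb_mono (hcb j) (hs.app_inb (T := fun _ => Th.bot) (fun _ => trivial) j))
      (hs.cfin.subset ?_) (fun r => ?_) (fun r => ?_) hub
    · rcases hact j hj with ⟨g, h1, h2⟩ | ⟨h1, h2⟩
      · rw [h2]
        exact ⟨(hH _ _).1, fun x hx => hHb j _ _ _ (hs.hom j _ _ h1 _ (hk2 _))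
          (hs.hom j _ _ h1 _ (hk3 _)) (lt_of_lt_of_le hx (hb2 _ _ _ h1))⟩
      · rw [h2]
        refine ⟨End.id, fun x hx => ?_⟩
        have := lt_of_lt_of_le hx (hb1 (π j))
        rw [← h1] at this
        exact this
    · rintro j ⟨x, hx⟩
      cases hj : s j with
      | const c0 => rw [app_const hj] at hx; exact ⟨x, by rw [← hx]; exact hj⟩
      | via k g => rw [app_via hj] at hx; simp at hx
    · refine ((hs.ffin (e (2 * r))).insert (mj (e (2 * r + 1)))).subset ?_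
      rintro j ⟨hj, rfl⟩
      rcases hact j hj with ⟨g, h1, _⟩ | ⟨h1, _⟩
      · exact Or.inr ⟨g, h1⟩
      · exact Or.inl h1
    · have h0 := hm (e (2 * r + 1))
      refine ⟨mj (e (2 * r + 1)), ⟨r, Or.inr rfl⟩, ?_, ?_⟩
      · simp only [π, h0, Loc.src, hinv]; omega
      · simp only [G, h0, Loc.src, hinv]
        rw [if_neg (by omega)]
  refine ⟨lo, hi, b2, _, ε, ε', hiv, hthin, bot_le, infinite_univ.mono fun r _ hsub => ?_⟩
  refine (heY (2 * r)).1 ((hA.mono _ _ _ _ subset_rfl ?_).trans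
    (hsub.trans (hA.mono _ _ _ _ subset_rfl ?_)))
  · intro j
    rcases mk_cases (act := act) (π := π) (H := G) (c := app s fun _ => Th.bot) hid j with
      ⟨m, hm', rfl, e1⟩ | ⟨h0, e1⟩
    · rw [app_via e1]
      rcases hact m hm' with ⟨g, h1, h2⟩ | ⟨h1, h2⟩
      · simp only [id, app_via h1]
        by_cases hr : π m = r
        · rw [hr, cfg_self, cfg_self, h2]
          simp [(hH _ _).2.1, hd.refl]
        · rw [cfg_nmem (k := e (2 * r)) ζ (fun hh => by have := hei hh; omega) (notMem_empty _)]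
          simp
      · have h3 : s m = .via (e (2 * π m + 1)) (mg (e (2 * π m + 1))) := by
          conv_lhs => rw [h1]
          exact hm _
        simp only [id, app_via h3]
        rw [cfg_nmem (k := e (2 * r)) ζ (fun hh => by have := hei hh; omega) (notMem_empty _)]
        simp
    · rw [app_const e1]
      cases hj : s j with
      | const c0 =>
        rw [app_const hj, app_const hj]
        exact Th.rel_refl (r := fun x y => ⊤ ≤ d x y) (hd.rrefl ⊤) _
      | via k g =>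
        have hk : k ≠ e (2 * r) := fun hh => h0 j ⟨r, Or.inl ⟨g, by rw [hj, hh]⟩⟩ rfl
        rw [app_via hj, cfg_nmem ζ hk (notMem_empty _)]
        simp
  · refine app_mk_le hd hid (fun m hm' => ?_) (fun j _ => ?_)
    · rcases hact m hm' with ⟨g, h1, h2⟩ | ⟨h1, h2⟩
      · simp only [id, app_via h1]
        by_cases hr : π m = r
        · rw [hr, cfg_self, cfg_self, h2]
          simp [(hH _ _).2.2, hd.refl]
        · rw [cfg_mem (k := e (2 * r)) ζ' (fun hh => by have := hei hh; omega) (mem_univ _)]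
          simp
      · have h3 : s m = .via (e (2 * π m + 1)) (mg (e (2 * π m + 1))) := by
          conv_lhs => rw [h1]
          exact hm _
        simp only [id, app_via h3]
        rw [cfg_mem (k := e (2 * r)) ζ' (fun hh => by have := hei hh; omega) (mem_univ _)]
        simp
    · cases hj : s j with
      | const c0 =>
        rw [app_const hj, app_const hj]
        exact Th.rel_refl (r := fun x y => ⊤ ≤ d x y) (hd.rrefl ⊤) _
      | via k g => rw [app_via hj]; simp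

end Pool.Agent.MP_750bb3_lc

end

section

set_option autoImplicit false

namespace Pool.Agent.MP_750bb3_lc

open Set

variable {K K' : Type} [Lattice K] [BoundedOrder K] [Lattice K'] [BoundedOrder K']
  {d : ℕ → ℕ → K} {d' : ℕ → ℕ → K'}

theorem raise [Finite K] (hd : IsTab d) (hd' : IsTab d') (jj : K → K')
    (hsep : ∀ a p q, ¬ jj a ≤ d' p q → ∃ g : ℕ → ℕ,
      (∀ a' z w, jj a' ≤ d' z w → a' ≤ d (g z) (g w)) ∧ ¬ a ≤ d (g p) (g q))
    {A : Op} (hA : Cont d A) {b : ℕ → ℕ} (hb : Unb b) (hI : ¬ Test d b A ⊥) :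
    ∃ (t : ℕ → Loc) (b' : ℕ → ℕ), Unb b' ∧ (∀ T, InB b' T → InB b (app t T)) ∧
      (∀ a T T', cle d' (jj a) T T' → cle d a (app t T) (app t T')) ∧
      (∀ a, Det (InB b') (fun T => X d a (app t T)) (fun T => X d' (jj a) T)) ∧
      (∀ a, Det (InB b') (fun T => X d' (jj a) T) (fun T => X d a (app t T))) ∧
      ¬ Test d' b' (fun S T => A S (app t T)) ⊥ := by
  classical
  obtain ⟨ε, ε', _, hfree⟩ := hd.gen ⊥
  choose H0 hH0 using fun u v => hfree u v bot_le
  obtain ⟨c0, hcb0, hc0, hHb0⟩ := slack H0 hb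
  obtain ⟨n, ⟨en⟩⟩ := Finite.exists_equiv_fin K
  let dec : ℕ → K := fun r => if h : r < n then en.symm ⟨r, h⟩ else ⊥
  have hdec : ∀ a, dec (en a) = a := fun a => by simp [dec]
  choose! G hG1 hG2 using hsep
  let H : ℕ → ℕ → ℕ := fun m =>
    if (Nat.unpair m).2 ≠ 0 ∧ ¬ jj (dec (Nat.unpair ((Nat.unpair m).2 - 1)).2) ≤
      d' (Nat.unpair (Nat.unpair ((Nat.unpair m).2 - 1)).1).1
        (Nat.unpair (Nat.unpair ((Nat.unpair m).2 - 1)).1).2 then
      G (dec (Nat.unpair ((Nat.unpair m).2 - 1)).2)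
        (Nat.unpair (Nat.unpair ((Nat.unpair m).2 - 1)).1).1
        (Nat.unpair (Nat.unpair ((Nat.unpair m).2 - 1)).1).2 else fun _ => 0
  have hH : ∀ m a' z w, jj a' ≤ d' z w → a' ≤ d (H m z) (H m w) := by
    intro m a' z w h
    simp only [H]
    split_ifs with h1
    · exact hG1 _ _ _ h1.2 a' z w h
    · exact hd.rrefl _ _
  have hHe : ∀ k η η' a, ¬ jj a ≤ d' η η' →
      H (Nat.pair k (Nat.pair (Nat.pair η η') (en a) + 1)) = G a η η' := by
    intro k η η' a h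
    simp [H, hdec, h]
  obtain ⟨g, hg, hgB⟩ := choose_inj infinite_univ
    (fun m => ⋃ θ ∈ Iio (Nat.unpair m).1, {j | c0 j ≤ H m θ})
    (fun m => (finite_Iio _).biUnion fun θ _ => hc0 _)
  have hgi := hg.injective
  have hnB : ∀ m θ, θ < (Nat.unpair m).1 → H m θ < c0 (g m) := by
    intro m θ hθ
    by_contra hc
    exact (hgB m).2 (mem_biUnion (x := θ) hθ (not_lt.1 hc))
  let act : ℕ → Prop := fun m =>
    (Nat.unpair m).2 ≤ Nat.pair (Nat.pair (Nat.unpair m).1 (Nat.unpair m).1) n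
  have hact : ∀ k η η' (a : K), η < k → η' < k →
      act (Nat.pair k (Nat.pair (Nat.pair η η') (en a) + 1)) := by
    intro k η η' a h1 h2
    simp only [act, Nat.unpair_pair]
    exact (Nat.pair_lt_pair_left _ ((Nat.pair_lt_pair_left η' h1).trans
      (Nat.pair_lt_pair_right k h2))).trans (Nat.pair_lt_pair_right _ (en a).2)
  have hact0 : ∀ k, act (Nat.pair k 0) := fun k => by simp [act]
  set t := mk g act (fun m => (Nat.unpair m).1) H (fun _ => Th.bot) with ht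
  have hcs := mk_cases (act := act) (π := fun m => (Nat.unpair m).1) (H := H)
    (c := fun _ => Th.bot) hgi
  have hvia : ∀ m, act m → t (g m) = .via (Nat.unpair m).1 (H m) := fun m hm => mk_act hgi hm
  have hpre : PreThin c0 (fun k => k) t := by
    refine ⟨?_, ?_, ?_, ?_, fun k => ⟨g (Nat.pair k 0), _, by simpa using hvia _ (hact0 k)⟩, unb_id⟩
    · intro j k h hj
      rcases hcs j with ⟨m, hm, rfl, e⟩ | ⟨_, e⟩ <;> rw [← ht, hj] at e
      · simp only [Loc.via.injEq] at e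
        obtain ⟨rfl, rfl⟩ := e
        exact hnB m
      · simp at e
    · intro j c hj
      rcases hcs j with ⟨m, hm, rfl, e⟩ | ⟨_, e⟩ <;> rw [← ht, hj] at e
      · simp at e
      · simp only [Loc.const.injEq] at e
        rw [e]; trivial
    · refine finite_empty.subset ?_
      rintro j ⟨x, hj⟩
      rcases hcs j with ⟨m, hm, rfl, e⟩ | ⟨_, e⟩ <;> rw [← ht, hj] at e <;> simp at e
    · intro k
      refine (((finite_Iic (Nat.pair (Nat.pair k k) n)).image (Nat.pair k)).image g).subset ?_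
      rintro j ⟨h, hj⟩
      rcases hcs j with ⟨m, hm, rfl, e⟩ | ⟨_, e⟩ <;> rw [← ht, hj] at e
      · simp only [Loc.via.injEq] at e
        obtain ⟨rfl, _⟩ := e
        exact ⟨m, ⟨_, hm, Nat.pair_unpair m⟩, rfl⟩
      · simp at e
  refine ⟨t, fun k => k, unb_id, fun T hT j => Th.inb_mono (hcb0 j) (hpre.app_inb hT j),
    ?_, ?_, ?_, ?_⟩
  · intro a T T' h j
    rcases hcs j with ⟨m, hm, rfl, e⟩ | ⟨_, e⟩ <;> rw [← ht] at e
    · rw [app_via e, app_via e]
      have := h (Nat.unpair m).1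
      revert this
      cases T (Nat.unpair m).1 <;> cases T' (Nat.unpair m).1 <;> simp
      exact hH m a _ _
    · rw [app_const e]; simp
  · intro a
    refine Det.of_one ?_
    rintro T _ z ⟨j, θ, rfl, h1⟩
    rcases hcs j with ⟨m, hm, rfl, e⟩ | ⟨_, e⟩ <;> rw [← ht] at e
    · refine Or.inr ⟨Nat.pair (Nat.unpair m).1 (T (Nat.unpair m).1).code,
        mem_X.2 (Th.rel_refl (hd'.rrefl _) _), fun T' _ h2 => ?_⟩
      rw [mem_X] at h2 ⊢
      rw [app_via e] at h1 ⊢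
      refine Th.rel_trans (hd.rtrans a) h1 ?_
      revert h2
      cases T (Nat.unpair m).1 <;> cases T' (Nat.unpair m).1 <;> simp
      exact hH m a _ _
    · refine Or.inl fun T' _ => mem_X.2 ?_
      rw [app_const e] at h1 ⊢
      exact h1
  · rintro a T hT z ⟨k, θ0, rfl, h0⟩
    have hTk : (T k).inb k := hT k
    have e0 : ∀ T' : Cfg, app t T' (g (Nat.pair k 0)) = (T' k).map (H (Nat.pair k 0)) := by
      intro T'
      rw [app_via (hvia _ (hact0 k))]; simp
    cases e : T k with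
    | bot =>
      refine ⟨[], by simp, fun w _ _ => mem_X.2 ?_⟩
      simp only [e] at h0
      cases θ0 <;> simp_all
    | top =>
      refine ⟨[Nat.pair (g (Nat.pair k 0)) Th.top.code], ?_, fun w _ h => mem_X.2 ?_⟩
      · intro y hy
        rw [List.mem_singleton.1 hy, mem_X, e0, e]
        simp
      · have h1 := h _ (List.mem_singleton.2 rfl)
        rw [mem_X, e0] at h1
        cases e' : w k <;> simp_all
    | mid θ =>
      rw [e] at hTk
      simp only [e] at h0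
      have hθ : θ < k := hTk
      refine ⟨Nat.pair (g (Nat.pair k 0)) (Th.mid (H (Nat.pair k 0) θ)).code ::
        (((List.range k).filter (fun η' => ¬ jj a ≤ d' θ η')).map
          (fun η' => Nat.pair (g (Nat.pair k (Nat.pair (Nat.pair θ η') (en a) + 1)))
            (Th.mid (G a θ η' θ)).code)), ?_, fun w hw h => mem_X.2 ?_⟩
      · intro y hy
        rcases List.mem_cons.1 hy with rfl | hy
        · rw [mem_X, e0, e]; exact hd.rrefl _ _
        · obtain ⟨η', h1, rfl⟩ := List.mem_map.1 hy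
          rw [List.mem_filter, List.mem_range] at h1
          have h2 : ¬ jj a ≤ d' θ η' := by simpa using h1.2
          rw [mem_X, app_via (hvia _ (hact k θ η' a hθ h1.1)), hHe k θ η' a h2]
          simp only [Nat.unpair_pair, e]
          exact hd.rrefl _ _
      · have h1 := h _ (List.mem_cons_self ..)
        rw [mem_X, e0] at h1
        have hwk : (w k).inb k := hw k
        cases e' : w k with
        | bot => rw [e'] at h1; simp at h1
        | top => simp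
        | mid θ' =>
          rw [e'] at hwk
          have hθ' : θ' < k := hwk
          refine Th.rel_trans (hd'.rtrans _) h0 ?_
          rw [Th.rel_mid]
          by_contra h2
          have h4 := h _ (List.mem_cons_of_mem _
            (List.mem_map.2 ⟨θ', List.mem_filter.2 ⟨List.mem_range.2 hθ', by simpa using h2⟩, rfl⟩))
          rw [mem_X, app_via (hvia _ (hact k θ θ' a hθ hθ')), hHe k θ θ' a h2] at h4
          simp only [Nat.unpair_pair, e'] at h4
          exact hG2 a θ θ' h2 h4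
  · rintro ⟨lo, hi, b'', t', ζ, ζ', hiv, ht', _, hY⟩
    refine hI (test_of_pre hd hA hb hcb0 hc0 hH0 hHb0 (hpre.cmp ht'.pre) hiv (ζ := ζ) (ζ' := ζ') ?_)
    simpa only [app_cmp] using hY

end Pool.Agent.MP_750bb3_lc

end

section

set_option autoImplicit false

namespace Pool.Agent.MP_750bb3_lc

open Set

/-- a finite sub-semilattice of `L` together with its table -/
structure Lv (L : Type) [SemilatticeSup L] [BoundedOrder L] : Type 1 where
  K : Type
  lat : Lattice K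
  bo : BoundedOrder K
  fin : Finite K
  ι : K → L
  hle : ∀ a b, ι a ≤ ι b ↔ a ≤ b
  hsup : ∀ a b, ι (a ⊔ b) = ι a ⊔ ι b
  hbot : ι ⊥ = ⊥
  htop : ι ⊤ = ⊤
  d : ℕ → ℕ → K
  gad : ∃ x y a b, TableAux.Gad d x y a b

variable {L : Type} [SemilatticeSup L] [BoundedOrder L]

instance Lv.instLat (v : Lv L) : Lattice v.K := v.lat
instance Lv.instBo (v : Lv L) : BoundedOrder v.K := v.bo
instance Lv.instFin (v : Lv L) : Finite v.K := v.fin

theorem Lv.tab (v : Lv L) : IsTab v.d := by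
  obtain ⟨x, y, a, b, G⟩ := v.gad
  exact G.isTab

theorem Lv.inj (v : Lv L) : Function.Injective v.ι := fun a b h =>
  le_antisymm ((v.hle a b).1 h.le) ((v.hle b a).1 h.ge)

open Classical in
@[reducible] noncomputable def latOf (K : Type) [s : SemilatticeSup K] [OrderBot K] [Fintype K] :
    Lattice K :=
  { s with
    inf := fun a b => (Finset.univ.filter (fun c => c ≤ a ∧ c ≤ b)).sup id
    inf_le_left := fun _ _ => Finset.sup_le fun _ hc => (Finset.mem_filter.1 hc).2.1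
    inf_le_right := fun _ _ => Finset.sup_le fun _ hc => (Finset.mem_filter.1 hc).2.2
    le_inf := fun a _ _ h1 h2 =>
      Finset.le_sup (f := id) (Finset.mem_filter.2 ⟨Finset.mem_univ a, h1, h2⟩) }

theorem lv_exists (s : Set L) (hs : s.Finite) : ∃ v : Lv L, ∀ x ∈ s, ∃ a, v.ι a = x := by
  classical
  let F : Set L := supClosure (insert ⊥ (insert ⊤ s))
  have hF : F.Finite := ((hs.insert ⊤).insert ⊥).supClosure
  have hb : (⊥ : L) ∈ F := subset_supClosure (mem_insert _ _)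
  have ht : (⊤ : L) ∈ F := subset_supClosure (mem_insert_of_mem _ (mem_insert _ _))
  letI s1 : SemilatticeSup F := Subtype.semilatticeSup fun _ _ hx hy => supClosed_supClosure hx hy
  letI s2 : BoundedOrder F := Subtype.boundedOrder hb ht
  letI s3 : Fintype F := hF.fintype
  letI s4 : Lattice F := latOf F
  obtain ⟨e, he⟩ := exists_surjective_nat (F × F)
  refine ⟨⟨F, s4, s2, inferInstance, Subtype.val, fun _ _ => Iff.rfl, fun _ _ => rfl, rfl, rfl,
    _, _, _, _, _, TableAux.gad e he⟩, fun x hx => ?_⟩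
  exact ⟨⟨x, subset_supClosure (mem_insert_of_mem _ (mem_insert_of_mem _ hx))⟩, rfl⟩

theorem Lv.sep (v v' : Lv L) (jj : v.K → v'.K) (hj : ∀ a, v'.ι (jj a) = v.ι a) (a : v.K)
    (p q : ℕ) (h : ¬ jj a ≤ v'.d p q) : ∃ g : ℕ → ℕ,
      (∀ a' z w, jj a' ≤ v'.d z w → a' ≤ v.d (g z) (g w)) ∧ ¬ a ≤ v.d (g p) (g q) := by
  classical
  letI : Fintype v.K := Fintype.ofFinite _
  let π : v'.K → v.K := fun c => (Finset.univ.filter (fun a => jj a ≤ c)).sup id
  have adj : ∀ a c, a ≤ π c ↔ jj a ≤ c := by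
    intro a c
    refine ⟨fun h => ?_, fun h =>
      Finset.le_sup (f := id) (Finset.mem_filter.2 ⟨Finset.mem_univ a, h⟩)⟩
    have h1 : v.ι (π c) ≤ v'.ι c := by
      refine Finset.sup_induction (p := fun a => v.ι a ≤ v'.ι c) ?_ ?_ ?_
      · simp only [v.hbot]; exact bot_le
      · intro a1 h1 a2 h2
        simp only [v.hsup]
        exact sup_le h1 h2
      · intro a1 h1
        have := (v'.hle _ _).2 (Finset.mem_filter.1 h1).2
        rw [hj] at this
        exact this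
    rw [← v'.hle, hj]
    exact ((v.hle _ _).2 h).trans h1
  obtain ⟨x, y, a0, b0, G⟩ := v'.gad
  obtain ⟨p', q', c, h1, h2, h3, h4⟩ := gad_core G v.tab π
    (fun c c' hc => (adj _ _).2 (((adj _ _).1 le_rfl).trans hc))
    (fun u w => (adj _ _).2 (le_inf ((adj _ _).1 inf_le_left) ((adj _ _).1 inf_le_right)))
    (jj a) p q h
  obtain ⟨u, w, huw, _⟩ := v.tab.gen (π c)
  obtain ⟨g, hg, rfl, rfl⟩ := h4 u w huw.ge
  have hom : ∀ a' z w, jj a' ≤ v'.d z w → a' ≤ v.d (g z) (g w) := fun a' z w h =>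
    ((adj _ _).2 h).trans (hg z w)
  refine ⟨g, hom, fun h5 => h3 ((adj _ _).1 ?_)⟩
  rw [← huw]
  exact v.tab.rtrans a _ _ _ (v.tab.rtrans a _ _ _ (v.tab.rsymm (hom _ _ _ h1)) h5) (hom _ _ _ h2)

end Pool.Agent.MP_750bb3_lc

end

section

set_option autoImplicit false

namespace Pool.Agent.MP_750bb3_lc

open Set

variable {L : Type} [Lattice L] [BoundedOrder L] {d : ℕ → ℕ → L}

structure Cond (d : ℕ → ℕ → L) : Type where
  A : Op
  b : ℕ → ℕ
  t : ℕ → Loc
  cont : Cont d A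
  dec : ∃ g : ℕ → ℕ, Computable g ∧ ∀ S T x, x ∈ S ↔ g x ∈ A S T
  thin : Thin d (fun i => i) b t
  inv : ¬ Test d b A ⊥

def Ext (q p : Cond d) : Prop :=
  ∃ (σ : Set ℕ → Cfg → Set ℕ) (t : ℕ → Loc), (∀ S S' T, S ⊆ S' → σ S T ⊆ σ S' T) ∧
    Thin d p.b q.b t ∧ (∀ S T, q.A S T = p.A (σ S T) (app t T)) ∧
    ∀ T, app q.t T = app p.t (app t T)

def Forces (p : Cond d) (φ : Set ℕ → Cfg → Prop) : Prop :=
  ∀ S T, InB p.b T → φ (p.A S T) (app p.t T)

theorem Ext.refl (p : Cond d) : Ext p p :=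
  ⟨fun S _ => S, idL, fun _ _ _ h => h, thin_idL (fun _ => le_rfl) p.thin.unb, by simp, by simp⟩

theorem Ext.trans {r q p : Cond d} (h1 : Ext r q) (h2 : Ext q p) : Ext r p := by
  obtain ⟨σ, t, a1, a2, a3, a4⟩ := h1
  obtain ⟨σ', t', b1, b2, b3, b4⟩ := h2
  exact ⟨fun S T => σ' (σ S T) (app t T), cmp t' t, fun _ _ _ h => b1 _ _ _ (a1 _ _ _ h), b2.cmp a2,
    fun S T => by rw [a3, b3, app_cmp], fun T => by rw [a4, b4, app_cmp]⟩

theorem Forces.ext {q p : Cond d} {φ : Set ℕ → Cfg → Prop} (h : Forces p φ) (hq : Ext q p) :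
    Forces q φ := by
  obtain ⟨σ, t, _, a2, a3, a4⟩ := hq
  intro S T hT
  rw [a3, a4]
  exact h _ _ (a2.app_inb hT)

def Cond.thinExt (hd : IsTab d) (p : Cond d) {σ : Set ℕ → Set ℕ} (hσ : Good σ) {b' : ℕ → ℕ}
    {t : ℕ → Loc} (ht : Thin d p.b b' t) : Cond d where
  A := fun S T => p.A (σ S) (app t T)
  b := b'
  t := cmp p.t t
  cont := p.cont.comp hd hσ ht
  dec := by
    obtain ⟨g, hg, hg'⟩ := p.dec
    obtain ⟨g', hh, hh'⟩ := hσ.dec
    exact ⟨fun x => g (g' x), hg.comp hh, fun S T x => (hh' S x).trans (hg' _ _ _)⟩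
  thin := p.thin.cmp ht
  inv := fun h => p.inv (Test.of_ext ht hσ h)

theorem Cond.thinExt_ext (hd : IsTab d) (p : Cond d) {σ : Set ℕ → Set ℕ} (hσ : Good σ)
    {b' : ℕ → ℕ} {t : ℕ → Loc} (ht : Thin d p.b b' t) : Ext (p.thinExt hd hσ ht) p :=
  ⟨fun S _ => σ S, t, fun _ _ _ h => hσ.mono _ _ h, ht, fun _ _ => rfl, fun T => app_cmp _ _ T⟩

def cond0 (d : ℕ → ℕ → L) : Cond d where
  A := fun S _ => S
  b := fun i => i
  t := idL
  cont := cont_S
  dec := ⟨id, Computable.id, fun _ _ _ => Iff.rfl⟩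
  thin := thin_idL (fun _ => le_rfl) unb_id
  inv := by
    rintro ⟨lo, hi, b', t, ζ, ζ', h1, _, _, h2⟩
    obtain ⟨k, hk⟩ := h2.nonempty
    exact hk (iv_sub h1)

def DetF (p : Cond d) (I : Set ℕ → Cfg → Prop) (Y Z : Set ℕ → Cfg → Set ℕ) : Prop :=
  Det (fun w : Set ℕ × Cfg => InB p.b w.2 ∧ I (p.A w.1 w.2) (app p.t w.2))
    (fun w => Y (p.A w.1 w.2) (app p.t w.2)) (fun w => Z (p.A w.1 w.2) (app p.t w.2))

theorem DetF.ext {q p : Cond d} {I : Set ℕ → Cfg → Prop} {Y Z : Set ℕ → Cfg → Set ℕ}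
    (h : DetF p I Y Z) (hq : Ext q p) : DetF q I Y Z := by
  obtain ⟨σ, t, _, a2, a3, a4⟩ := hq
  unfold DetF
  simp only [a3, a4]
  exact Det.comp h (fun w : Set ℕ × Cfg => (σ w.1 w.2, app t w.2))
    fun w hw => ⟨a2.app_inb hw.1, hw.2⟩

theorem comp_two : Computable (fun x : ℕ => 2 * x) :=
  (Primrec.nat_mul.comp (Primrec.const 2) Primrec.id).to_comp

theorem advice (hd : IsTab d) {p : Cond d} {I : Set ℕ → Cfg → Prop} {Y Z : Set ℕ → Cfg → Set ℕ}
    (h : DetF p I Y Z) : ∃ q, Ext q p ∧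
      Forces q (fun A T => I A T → ∀ B, Red (jn A B) (Z A T) → Red (Y A T) (Z A T)) := by
  let W : Set ℕ := {z | ∃ x D, z = Encodable.encode ((x, D) : ℕ × List ℕ) ∧
    ∀ w : Set ℕ × Cfg, (InB p.b w.2 ∧ I (p.A w.1 w.2) (app p.t w.2)) →
      (∀ y ∈ D, y ∈ Z (p.A w.1 w.2) (app p.t w.2)) → x ∈ Y (p.A w.1 w.2) (app p.t w.2)}
  refine ⟨p.thinExt hd (good_jn W) (thin_idL (fun _ => le_rfl) p.thin.unb),
    p.thinExt_ext hd _ _, ?_⟩
  intro S T hT
  simp only [Cond.thinExt, app_cmp, app_idL]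
  intro hI B hB
  obtain ⟨g, hg, hg'⟩ := p.dec
  refine red_adv _ _ _ (fun z => 2 * g (2 * z)) (comp_two.comp (hg.comp comp_two)) hB fun x => ?_
  simp only [mem_jn_left, ← hg']
  constructor
  · intro hx
    obtain ⟨D, h1, h2⟩ := h (jn W S, T) ⟨hT, hI⟩ x hx
    exact ⟨D, h1, x, D, rfl, h2⟩
  · rintro ⟨D, h1, x', D', e, h2⟩
    obtain ⟨rfl, rfl⟩ := Prod.mk.inj (Encodable.encode_injective e)
    exact h2 (jn W S, T) ⟨hT, hI⟩ h1

def ff (d : ℕ → ℕ → L) (n : L) (A : Set ℕ) (T : Cfg) : Set ℕ := jn A (X d n T)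

def Dense' (d : ℕ → ℕ → L) (φ : Set ℕ → Cfg → Prop) : Prop :=
  ∀ p : Cond d, ∃ q, Ext q p ∧ Forces q φ

theorem Dense'.and {φ ψ : Set ℕ → Cfg → Prop} (h1 : Dense' d φ) (h2 : Dense' d ψ) :
    Dense' d (fun A T => φ A T ∧ ψ A T) := by
  intro p
  obtain ⟨q, a1, a2⟩ := h1 p
  obtain ⟨r, b1, b2⟩ := h2 q
  exact ⟨r, b1.trans a1, fun S T hT => ⟨a2.ext b1 S T hT, b2 S T hT⟩⟩

theorem dense_le (hd : IsTab d) (n m : L) :
    Dense' d (fun A T => n ≤ m → Red (ff d n A T) (ff d m A T)) := by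
  intro p
  by_cases h : n ≤ m
  · obtain ⟨q, h1, h2⟩ := advice hd (p := p) (I := fun _ _ => True) (Y := ff d n) (Z := ff d m)
      (Det.pair Det.left ((det_X_le hd h _ _).trans Det.right))
    exact ⟨q, h1, fun S T hT _ => h2 S T hT trivial _ (red_refl _)⟩
  · exact ⟨p, Ext.refl p, fun _ _ _ h' => absurd h' h⟩

theorem dense_ne (hd : IsTab d) (R : Set ℕ) : Dense' d (fun A T => ff d ⊥ A T ≠ R) := by
  intro p
  obtain ⟨g, _, hg⟩ := p.dec
  refine ⟨p.thinExt hd (good_jn {x | 2 * g (2 * x) ∉ R}) (thin_idL (fun _ => le_rfl) p.thin.unb),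
    p.thinExt_ext hd _ _, ?_⟩
  intro S T _ h
  have h1 : 2 * g (2 * 0) ∈ R ↔ 2 * g (2 * 0) ∉ R := by
    conv_lhs => rw [← h]
    simp only [ff, Cond.thinExt, mem_jn_left, ← hg]
    rfl
  tauto

theorem cont_obs (hd : IsTab d) (p : Cond d) (W : ℕ × List ℕ → Prop) (n : L) :
    Cont d (fun S T => App W (ff d n (p.A S T) (app p.t T))) :=
  (p.cont.jn ((cont_X hd n).comp hd good_id p.thin)).appW hd W

theorem dense_R [Finite L] (hd : IsTab d) (W1 W2 : ℕ × List ℕ → Prop) :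
    Dense' d (fun A T => ff d ⊥ A T = App W2 (App W1 (ff d ⊤ A T)) →
      Red (ff d ⊥ A T) (App W1 (ff d ⊤ A T)) →
      ∃ l, Red (App W1 (ff d ⊤ A T)) (ff d l A T) ∧ Red (ff d l A T) (App W1 (ff d ⊤ A T))) := by
  intro p
  obtain ⟨l, σ, b', t, h1, h2, h3, h4⟩ := ascend hd ⊥ _ p.b (cont_obs hd p W1 ⊤) p.thin.unb Det.right
  let q1 := p.thinExt hd h1 h2
  have e1 : Ext q1 p := p.thinExt_ext hd h1 h2
  have hO : (fun S T => App W1 (ff d ⊤ (q1.A S T) (app q1.t T))) =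
      fun S T => App W1 (ff d ⊤ (p.A (σ S) (app t T)) (app p.t (app t T))) := by
    funext S T
    simp only [q1, Cond.thinExt, app_cmp]
  have d1 : DetF q1 (fun A T => ff d ⊥ A T = App W2 (App W1 (ff d ⊤ A T))) (ff d l)
      (fun A T => App W1 (ff d ⊤ A T)) := by
    have a0 : DetF q1 (fun A T => ff d ⊥ A T = App W2 (App W1 (ff d ⊤ A T))) (ff d ⊥)
        (fun A T => App W1 (ff d ⊤ A T)) :=
      (Det.app W2).congr (fun _ hw => hw.2.symm) fun _ _ => rfl
    refine Det.pair (Det.left.trans a0) ((det_X_app hd q1.thin l _ Prod.snd).trans ?_)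
    refine ((h3.comp id fun w hw => hw.1).trans (Det.pair ?_ ?_))
    · exact Det.refl.congr (fun _ _ => rfl) fun w _ => (congrFun (congrFun hO w.1) w.2).symm
    · exact (det_X_main q1.thin ⊥ _ Prod.snd).trans (Det.right.trans a0)
  obtain ⟨c, K, k1, k2, k3, k4, k5⟩ := promise hd q1.cont (cont_obs hd q1 W1 ⊤) q1.thin.unb q1.inv
    (l := l) (by rw [hO]; exact h4)
  obtain ⟨g, hg, hg'⟩ := q1.dec
  let q2 : Cond d :=
    { A := fun S T => q1.A (jn (K S T) S) T
      b := c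
      t := cmp q1.t idL
      cont := cont_jnK hd q1.cont k3
      dec := ⟨fun x => g (2 * x + 1), hg.comp (Computable.succ.comp comp_two),
        fun S T x => mem_jn_right.symm.trans (hg' _ _ _)⟩
      thin := q1.thin.cmp (thin_idL k1 k2)
      inv := k4 }
  have e2 : Ext q2 q1 := ⟨fun S T => jn (K S T) S, idL,
    fun _ _ T h => jn_mono (k3.mono _ _ _ _ h (cle_refl hd _ T)) h, thin_idL k1 k2,
    fun S T => by simp [q2], fun T => app_cmp q1.t idL T⟩
  have d2 : DetF q2 (fun _ _ => True) (fun A T => App W1 (ff d ⊤ A T)) (ff d l) := by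
    refine Det.trans ((k5.comp id fun w hw => hw.1).congr (fun w _ => ?_) fun _ _ => rfl)
      (Det.pair ?_ ((det_X_main q2.thin l _ Prod.snd).trans Det.right))
    · simp only [q2, app_cmp, app_idL, id]
    · exact Det.trans (Det.of_iff (fun x => g (2 * x)) fun w _ x =>
        mem_jn_left.symm.trans (hg' _ _ _)) Det.left
  obtain ⟨q3, e3, f3⟩ := advice hd d2
  obtain ⟨q4, e4, f4⟩ := advice hd (d1.ext (e3.trans e2))
  refine ⟨q4, e4.trans (e3.trans (e2.trans e1)), fun S T hT a1 a2 => ⟨l, ?_, ?_⟩⟩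
  · exact f3.ext e4 S T hT trivial _ (red_refl _)
  · exact f4 S T hT a1 _ a2

end Pool.Agent.MP_750bb3_lc

end

section

set_option autoImplicit false

namespace Pool.Agent.MP_750bb3_lc

open Set

variable {L : Type} [Lattice L] [BoundedOrder L] {d : ℕ → ℕ → L}

theorem fix_thin (hd : IsTab d) {b : ℕ → ℕ} (hb : Unb b) (P : St) {k η : ℕ} (hk : k ∈ P.Y)
    (hη : η < b k) : ∃ b' t, Thin d b b' t ∧ ∀ T, cle d ⊤ (cfg k η P.Z) (app t T) ∧
      cle d ⊤ (app t T) (cfg k η (P.Z ∪ P.Y)) ∧ app t T k = .mid η := by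
  obtain ⟨g, hg, hgB⟩ := choose_inj P.inf (fun _ => {k}) (fun _ => finite_singleton k)
  have hgi := hg.injective
  have hne : ∀ m, g m ≠ k := fun m => (hgB m).2
  refine ⟨fun m => b (g m), mk g (fun _ => True) id (fun _ => id) (cfg k η P.Z), ?_, fun T => ?_⟩
  · refine thin_mk hgi (fun m _ => ⟨End.id, fun x hx => hx⟩) (fun j => ?_) ?_
      (fun m => (finite_singleton m).subset fun _ h => h.2) (fun m => ⟨m, trivial, rfl, rfl⟩)
      (hb.comp hgi)
    · by_cases hj : j = k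
      · subst hj; rw [cfg_self]; exact hη
      · by_cases h1 : j ∈ P.Z
        · rw [cfg_mem η hj h1]; trivial
        · rw [cfg_nmem η hj h1]; trivial
    · refine (finite_singleton k).subset ?_
      rintro j ⟨x, hx⟩
      by_contra hj
      by_cases h1 : j ∈ P.Z
      · rw [cfg_mem η hj h1] at hx; simp at hx
      · rw [cfg_nmem η hj h1] at hx; simp at hx
  · refine ⟨le_app_mk hd hgi (fun m _ => ?_) (cle_refl hd _ _), app_mk_le hd hgi (fun m _ => ?_)
      (fun j _ => cfg_cle (hd.rrefl ⊤ η) (subset_union_left.trans (subset_insert _ _)) j), ?_⟩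
    · rw [cfg_nmem η (hne m) (disjoint_left.1 P.disj (hgB m).1)]; simp
    · rw [cfg_mem η (hne m) (Or.inr (hgB m).1)]; simp
    · rcases mk_cases (act := fun _ => True) (π := id) (H := fun _ => id) (c := cfg k η P.Z) hgi k
        with ⟨m, _, h, _⟩ | ⟨_, e⟩
      · exact absurd h (hne m)
      · rw [app_const e, cfg_self]

theorem test_of_stream (hd : IsTab d) {A : Op} (hA : Cont d A) {b : ℕ → ℕ} (hb : Unb b) (P : St)
    {ε ε' : ℕ} {l : L} (hl : l ≤ d ε ε')
    (h : {k | k ∈ P.Y ∧ A P.lo (cfg k ε P.Z) ⊆ A P.hi (cfg k ε' (P.Z ∪ P.Y))}.Finite) :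
    Test d b A l := by
  obtain ⟨g, hg, hgB⟩ := choose_inj P.inf _ (fun _ => h)
  have hgi := hg.injective
  have hY : ∀ m, g m ∈ P.Y := fun m => (hgB m).1
  refine ⟨P.lo, P.hi, fun m => b (g m), mk g (fun _ => True) id (fun _ => id) (zc P.Z), ε, ε', P.iv,
    thin_mk hgi (fun m _ => ⟨End.id, fun x hx => hx⟩) (zc_inb _ _) (zc_fin _)
      (fun m => (finite_singleton m).subset fun _ h => h.2) (fun m => ⟨m, trivial, rfl, rfl⟩)
      (hb.comp hgi), hl, infinite_univ.mono fun r _ hsub => (hgB r).2 ⟨hY r, ?_⟩⟩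
  refine (hA.mono _ _ _ _ subset_rfl (cfg_le_mk hd hgi P.disj hY (m := r) trivial ?_)).trans
    (hsub.trans (hA.mono _ _ _ _ subset_rfl (mk_le_cfg hd hgi hY (m := r) trivial ?_)))
  · simp [cfg_self, hd.refl]
  · simp [cfg_self, hd.refl]

theorem dense_T (hd : IsTab d) (n m : L) (W : ℕ × List ℕ → Prop) :
    Dense' d (fun A T => ¬ n ≤ m → ff d n A T ≠ App W (ff d m A T)) := by
  intro p
  by_cases hnm : n ≤ m
  · exact ⟨p, Ext.refl p, fun _ _ _ h => absurd hnm h⟩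
  obtain ⟨ε, ε', hε, _⟩ := hd.gen m
  choose j hj using p.thin.main
  have hO := cont_obs hd p W m
  let z : ℕ → ℕ := fun k => 2 * Nat.pair (j k) (Th.mid ε).code + 1
  have hz : ∀ k A T, z k ∈ ff d n A (app p.t T) ↔
      Th.rel (fun x y => n ≤ d x y) (.mid ε) (T k) := by
    intro k A T
    simp only [z, ff, mem_jn_right, mem_X, app_via (hj k), Th.map_id']
  have hU := fam_of_cont hd hO z
  obtain ⟨P1, _, d1⟩ := DL hU ⟨∅, univ, univ, ∅, iv_all, infinite_univ, disjoint_empty _⟩ ε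
  obtain ⟨P, l2, d2⟩ := DL hU P1 ε'
  obtain ⟨σ, hσ, hlo, hhi⟩ := P.iv
  have hs1 : ∀ S, P.lo ⊆ σ S := fun S => by rw [← hlo]; exact hσ.mono _ _ (empty_subset _)
  have hs2 : ∀ S, σ S ⊆ P.hi := fun S => by rw [← hhi]; exact hσ.mono _ _ (subset_univ _)
  rcases d1 with d1 | d1
  · rcases d2 with d2 | d2
    · obtain ⟨k, hk, hk'⟩ := (P.inf.diff (Set.Finite.union d2 (p.thin.unb ε'))).nonempty
      simp only [mem_union, mem_setOf_eq, not_or, not_and, not_not, not_le] at hk'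
      obtain ⟨b', t, ht, h⟩ := fix_thin hd p.thin.unb P hk hk'.2
      refine ⟨p.thinExt hd hσ ht, p.thinExt_ext hd hσ ht, fun S T _ _ he => ?_⟩
      simp only [Cond.thinExt, app_cmp] at he
      have h1 := hO.mono _ _ _ _ (hs1 S) (h T).1 (hk'.1 hk)
      rw [← he, hz, (h T).2.2, Th.rel_mid, hε] at h1
      exact hnm h1
    · refine absurd (test_of_stream hd p.cont p.thin.unb P (ε := ε) (ε' := ε') bot_le
        ((Set.Finite.union (St.In_mono hU l2 d1) d2).subset ?_)) p.inv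
      rintro k ⟨hk, hsub⟩
      by_contra hc
      simp only [mem_union, mem_setOf_eq, not_or, not_and, not_not] at hc
      refine hc.2 hk (App_mono W (jn_mono hsub (X_mono hd (p.thin.app_cle hd
        (cfg_cle hε.ge (subset_union_left.trans (subset_insert _ _)))))) (hc.1 hk))
  · obtain ⟨k, hk, hk'⟩ :=
      (P.inf.diff (Set.Finite.union (St.Out_mono hU l2 d1) (p.thin.unb ε))).nonempty
    simp only [mem_union, mem_setOf_eq, not_or, not_and, not_le] at hk'
    obtain ⟨b', t, ht, h⟩ := fix_thin hd p.thin.unb P hk hk'.2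
    refine ⟨p.thinExt hd hσ ht, p.thinExt_ext hd hσ ht, fun S T _ _ he => ?_⟩
    simp only [Cond.thinExt, app_cmp] at he
    refine hk'.1 hk (hO.mono _ _ _ _ (hs2 S) (h T).2.1 ?_)
    rw [← he, hz, (h T).2.2, Th.rel_mid]
    exact hd.rrefl _ _

end Pool.Agent.MP_750bb3_lc

end

section

set_option autoImplicit false

namespace Pool.Agent.MP_750bb3_lc

open Set

theorem stabilise (u : ℕ → Th) (h : ∀ r, Th.rel Eq (u r) (u (r + 1))) :
    ∃ R, ∀ r, R ≤ r → u r = u R := by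
  have hm : ∀ R r, R ≤ r → Th.rel Eq (u R) (u r) := by
    intro R r hr
    induction r, hr using Nat.le_induction with
    | base => exact Th.rel_refl (fun _ => rfl) _
    | succ r _ ih => exact Th.rel_trans (r := Eq) (fun _ _ _ => Eq.trans) ih (h r)
  by_cases h1 : ∃ R, u R = .top
  · obtain ⟨R, hR⟩ := h1
    refine ⟨R, fun r hr => ?_⟩
    have := hm R r hr
    rw [hR] at this ⊢
    cases e : u r <;> simp_all
  · push Not at h1
    by_cases h2 : ∃ R x, u R = .mid x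
    · obtain ⟨R, x, hR⟩ := h2
      refine ⟨R, fun r hr => ?_⟩
      have := hm R r hr
      have h3 := h1 r
      rw [hR] at this ⊢
      cases e : u r <;> simp_all
    · push Not at h2
      have h3 : ∀ r, u r = .bot := fun r => by
        cases e : u r with
        | bot => rfl
        | mid x => exact absurd e (h2 r x)
        | top => exact absurd e (h1 r)
      exact ⟨0, fun r _ => by rw [h3, h3]⟩

def FF (t : ℕ → ℕ → Loc) : ℕ → ℕ → Cfg
  | 0, _ => fun _ => .bot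
  | r + 1, s => app (t s) (FF t r (s + 1))

theorem FF_mono (t : ℕ → ℕ → Loc) (r : ℕ) : ∀ s j, Th.rel Eq (FF t r s j) (FF t (r + 1) s j) := by
  induction r with
  | zero => intro s j; simp [FF]
  | succ r ih =>
    intro s j
    show Th.rel Eq (app (t s) (FF t r (s + 1)) j) (app (t s) (FF t (r + 1) (s + 1)) j)
    cases e : t s j with
    | const c => rw [app_const e, app_const e]; exact Th.rel_refl (fun _ => rfl) _
    | via k h =>
      rw [app_via e, app_via e]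
      exact Th.rel_map (r := Eq) (fun _ _ hh => congrArg h hh) (ih (s + 1) k)

variable {L : Type} [Lattice L] [BoundedOrder L] {d : ℕ → ℕ → L}

theorem limit_pt (p : ℕ → Cond d) (h : ∀ s, Ext (p (s + 1)) (p s)) :
    ∃ A T0, ∀ s, ∃ S T, InB (p s).b T ∧ (p s).A S T = A ∧ app (p s).t T = T0 := by
  choose σ t h1 h2 h3 h4 using h
  choose R hR using fun s j => stabilise (fun r => FF t r s j) fun r => FF_mono t r s j
  let T : ℕ → Cfg := fun s j => FF t (R s j) s j
  have hin : ∀ r s, InB (p s).b (FF t r s) := by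
    intro r
    induction r with
    | zero => intro s j; trivial
    | succ r ih => intro s; exact (h2 s).app_inb (ih (s + 1))
  have hT : ∀ s, app (t s) (T (s + 1)) = T s := by
    intro s
    funext j
    cases e : t s j with
    | const c =>
      have := hR s j (R s j + 1) (Nat.le_succ _)
      simp only [FF, app_const e] at this
      rw [app_const e]; exact this
    | via k g =>
      have a1 := hR s j (max (R s j) (R (s + 1) k) + 1) (by omega)
      have a2 := hR (s + 1) k (max (R s j) (R (s + 1) k)) (le_max_right _ _)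
      simp only [FF, app_via e] at a1
      rw [app_via e]
      show Th.map g (FF t (R (s + 1) k) (s + 1) k) = FF t (R s j) s j
      rw [← a1, a2]
  let Φ : (ℕ → Set ℕ) →o (ℕ → Set ℕ) :=
    ⟨fun S s => σ s (S (s + 1)) (T (s + 1)), fun S S' hS s => h1 s _ _ _ (hS (s + 1))⟩
  have hS : ∀ s, σ s (Φ.lfp (s + 1)) (T (s + 1)) = Φ.lfp s := fun s => congrFun Φ.map_lfp s
  refine ⟨(p 0).A (Φ.lfp 0) (T 0), app (p 0).t (T 0), fun s =>
    ⟨Φ.lfp s, T s, fun j => hin _ s j, ?_⟩⟩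
  induction s with
  | zero => exact ⟨rfl, rfl⟩
  | succ s ih => rw [h3, h4, hS, hT]; exact ih

theorem generic {ι : Type} [Countable ι] [Nonempty ι] (φ : ι → Set ℕ → Cfg → Prop)
    (h : ∀ i, Dense' d (φ i)) : ∃ A T, ∀ i, φ i A T := by
  obtain ⟨e, he⟩ := exists_surjective_nat ι
  choose F h1 h2 using h
  let p : ℕ → Cond d := fun s => Nat.rec (cond0 d) (fun s q => F (e s) q) s
  obtain ⟨A, T0, hA⟩ := limit_pt p fun s => h1 (e s) (p s)
  refine ⟨A, T0, fun i => ?_⟩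
  obtain ⟨s, rfl⟩ := he i
  obtain ⟨S, T, a1, rfl, rfl⟩ := hA (s + 1)
  exact h2 (e s) (p s) S T a1

theorem main_thm (L : Type) [Lattice L] [BoundedOrder L] [Finite L] :
    ∃ f : L → Set ℕ, ¬ Red (f ⊥) ∅ ∧ (∀ x y, x ≤ y ↔ Red (f x) (f y)) ∧
      ∀ C, Red (f ⊥) C → Red C (f ⊤) → ∃ x, Red C (f x) ∧ Red (f x) C := by
  obtain ⟨d, hd⟩ := tab_exists L
  obtain ⟨Wn, hW⟩ := re_enum
  obtain ⟨A, T, h⟩ := generic (d := d) (ι := L × L × ℕ × ℕ) _ fun i =>
    ((dense_le hd i.1 i.2.1).and (dense_ne hd (App (Wn i.2.2.1) ∅))).and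
      ((dense_T hd i.1 i.2.1 (Wn i.2.2.1)).and (dense_R hd (Wn i.2.2.1) (Wn i.2.2.2)))
  refine ⟨fun n => ff d n A T, ?_, fun x y => ⟨(h (x, y, 0, 0)).1.1, ?_⟩, ?_⟩
  · rintro ⟨W, h1, h2⟩
    obtain ⟨e, rfl⟩ := hW W h1
    exact (h (⊥, ⊥, e, 0)).1.2 (Set.ext h2)
  · rintro ⟨W, h1, h2⟩
    obtain ⟨e, rfl⟩ := hW W h1
    by_contra hc
    exact (h (x, y, e, 0)).2.1 hc (Set.ext h2)
  · rintro C hC ⟨W1, a1, a2⟩
    obtain ⟨W2, b1, b2⟩ := id hC
    obtain ⟨e1, rfl⟩ := hW W1 a1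
    obtain ⟨e2, rfl⟩ := hW W2 b1
    obtain rfl : C = _ := Set.ext a2
    exact (h (⊥, ⊥, e1, e2)).2.2 (Set.ext b2) hC

end Pool.Agent.MP_750bb3_lc

end

section

set_option autoImplicit false

namespace Pool.Agent.MP_750bb3_lc

open Set

structure CU (L : Type) [SemilatticeSup L] [BoundedOrder L] : Type 1 where
  v : Lv L
  A : Op
  b : ℕ → ℕ
  out : Cfg → L → Set ℕ
  cont : Cont v.d A
  dec : ∃ g : ℕ → ℕ, Computable g ∧ ∀ S T x, x ∈ S ↔ g x ∈ A S T
  unb : Unb b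
  inv : ¬ Test v.d b A ⊥
  omono : ∀ a T T', cle v.d a T T' → out T (v.ι a) ⊆ out T' (v.ι a)
  ofin : ∀ a T x, x ∈ out T (v.ι a) → ∃ N, x ∈ out (trunc N T) (v.ι a)
  od1 : ∀ a, Det (InB b) (fun T => out T (v.ι a)) (fun T => X v.d a T)
  od2 : ∀ a, Det (InB b) (fun T => X v.d a T) (fun T => out T (v.ι a))

variable {L : Type} [SemilatticeSup L] [BoundedOrder L]

namespace CU

def Ext (q p : CU L) : Prop :=
  ∃ (σ : Set ℕ → Cfg → Set ℕ) (t : ℕ → Loc), (∀ S S' T, S ⊆ S' → σ S T ⊆ σ S' T) ∧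
    (∀ T, InB q.b T → InB p.b (app t T)) ∧ (∀ S T, q.A S T = p.A (σ S T) (app t T)) ∧
    (∀ a, ∃ a', q.v.ι a' = p.v.ι a) ∧ ∀ a T, q.out T (p.v.ι a) = p.out (app t T) (p.v.ι a)

def Pt (p : CU L) (w : Set ℕ × Cfg × (L → Set ℕ)) : Prop :=
  InB p.b w.2.1 ∧ ∀ a, w.2.2 (p.v.ι a) = p.out w.2.1 (p.v.ι a)

def Forces (p : CU L) (φ : Set ℕ → (L → Set ℕ) → Prop) : Prop :=
  ∀ w, p.Pt w → φ (p.A w.1 w.2.1) w.2.2

def Has (p : CU L) (x : L) : Prop := ∃ a, p.v.ι a = x

theorem Ext.refl (p : CU L) : Ext p p :=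
  ⟨fun S _ => S, idL, fun _ _ _ h => h, by simp, by simp, fun a => ⟨a, rfl⟩, by simp⟩

theorem Ext.trans {r q p : CU L} (h1 : Ext r q) (h2 : Ext q p) : Ext r p := by
  obtain ⟨σ, t, a1, a2, a3, a4, a5⟩ := h1
  obtain ⟨σ', t', b1, b2, b3, b4, b5⟩ := h2
  refine ⟨fun S T => σ' (σ S T) (app t T), cmp t' t, fun _ _ _ h => b1 _ _ _ (a1 _ _ _ h),
    fun T hT => by rw [app_cmp]; exact b2 _ (a2 _ hT), fun S T => by rw [a3, b3, app_cmp],
    fun a => ?_, fun a T => ?_⟩
  · obtain ⟨a', e⟩ := b4 a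
    obtain ⟨a'', e'⟩ := a4 a'
    exact ⟨a'', e'.trans e⟩
  · obtain ⟨a', e⟩ := b4 a
    rw [app_cmp, ← b5, ← e, a5]

theorem Has.ext {q p : CU L} {x : L} (h : p.Has x) (hq : Ext q p) : q.Has x := by
  obtain ⟨σ, t, _, _, _, a4, _⟩ := hq
  obtain ⟨a, rfl⟩ := h
  exact a4 a

theorem Ext.pt {q p : CU L} (hq : Ext q p) :
    ∃ m : Set ℕ × Cfg × (L → Set ℕ) → Set ℕ × Cfg × (L → Set ℕ), ∀ w, (q.Pt w → p.Pt (m w)) ∧
      p.A (m w).1 (m w).2.1 = q.A w.1 w.2.1 ∧ (m w).2.2 = w.2.2 := by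
  obtain ⟨σ, t, _, a2, a3, a4, a5⟩ := hq
  refine ⟨fun w => (σ w.1 w.2.1, app t w.2.1, w.2.2), fun w => ⟨fun hw => ⟨a2 _ hw.1, fun a => ?_⟩,
    (a3 _ _).symm, rfl⟩⟩
  obtain ⟨a', e⟩ := a4 a
  simp only
  rw [← a5, ← e, hw.2]

theorem Forces.ext {q p : CU L} {φ : Set ℕ → (L → Set ℕ) → Prop} (h : Forces p φ) (hq : Ext q p) :
    Forces q φ := by
  obtain ⟨m, hm⟩ := hq.pt
  intro w hw
  have := h (m w) ((hm w).1 hw)
  rwa [(hm w).2.1, (hm w).2.2] at this

def thinExt (p : CU L) {σ : Set ℕ → Set ℕ} (hσ : Good σ) {b' : ℕ → ℕ}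
    {t : ℕ → Loc} (ht : Thin p.v.d p.b b' t) : CU L where
  v := p.v
  A := fun S T => p.A (σ S) (app t T)
  b := b'
  out := fun T => p.out (app t T)
  cont := p.cont.comp p.v.tab hσ ht
  dec := by
    obtain ⟨g, hg, hg'⟩ := p.dec
    obtain ⟨g', hh, hh'⟩ := hσ.dec
    exact ⟨fun x => g (g' x), hg.comp hh, fun S T x => (hh' S x).trans (hg' _ _ _)⟩
  unb := ht.unb
  inv := fun h => p.inv (Test.of_ext ht hσ h)
  omono := fun a _ _ h => p.omono a _ _ (ht.app_cle p.v.tab h)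
  ofin := by
    intro a T x hx
    obtain ⟨N0, h0⟩ := p.ofin a _ x hx
    obtain ⟨N, hN⟩ := trunc_app p.v.tab a t T N0
    exact ⟨N, p.omono a _ _ hN h0⟩
  od1 := fun a => ((p.od1 a).comp (app t) fun _ h => ht.app_inb h).trans
    (det_X_app p.v.tab ht a _ id)
  od2 := fun a => (det_X_main ht a _ id).trans ((p.od2 a).comp (app t) fun _ h => ht.app_inb h)

theorem thinExt_ext (p : CU L) {σ : Set ℕ → Set ℕ} (hσ : Good σ)
    {b' : ℕ → ℕ} {t : ℕ → Loc} (ht : Thin p.v.d p.b b' t) : Ext (p.thinExt hσ ht) p :=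
  ⟨fun S _ => σ S, t, fun _ _ _ h => hσ.mono _ _ h, fun _ h => ht.app_inb h, fun _ _ => rfl,
    fun a => ⟨a, rfl⟩, fun _ _ => rfl⟩

theorem exists_cu (L : Type) [SemilatticeSup L] [BoundedOrder L] : Nonempty (CU L) := by
  classical
  obtain ⟨v, _⟩ := lv_exists (∅ : Set L) finite_empty
  have hinv : ∀ a, Function.invFun v.ι (v.ι a) = a := Function.leftInverse_invFun v.inj
  refine ⟨⟨v, fun S _ => S, fun i => i, fun T x => X v.d (Function.invFun v.ι x) T, cont_S,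
    ⟨id, Computable.id, fun _ _ _ => Iff.rfl⟩, unb_id, (cond0 v.d).inv, ?_, ?_, ?_, ?_⟩⟩
  · intro a T T' h
    simp only [hinv]
    exact X_mono v.tab h
  · intro a T x hx
    exact (cont_X v.tab _).fin ∅ T x hx
  · intro a
    simp only [hinv]
    exact Det.refl
  · intro a
    simp only [hinv]
    exact Det.refl

theorem dense_has (p : CU L) (x : L) : ∃ q, Ext q p ∧ q.Has x := by
  classical
  obtain ⟨v', hv'⟩ := lv_exists (insert x (range p.v.ι)) ((finite_range _).insert x)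
  choose jj hj using fun a => hv' (p.v.ι a) (mem_insert_of_mem _ ⟨a, rfl⟩)
  obtain ⟨t, b', h1, h2, h3, h4, h5, h6⟩ :=
    raise p.v.tab v'.tab jj (p.v.sep v' jj hj) p.cont p.unb p.inv
  have hinv : ∀ a, Function.invFun v'.ι (v'.ι a) = a := Function.leftInverse_invFun v'.inj
  have htop : jj ⊤ = ⊤ := v'.inj (by rw [hj, p.v.htop, v'.htop])
  let out : Cfg → L → Set ℕ := fun T y =>
    if ∃ a, p.v.ι a = y then p.out (app t T) y else X v'.d (Function.invFun v'.ι y) T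
  have hc : ∀ a', (∃ a, a' = jj a ∧ ∀ T, out T (v'.ι a') = p.out (app t T) (p.v.ι a)) ∨
      ∀ T, out T (v'.ι a') = X v'.d a' T := by
    intro a'
    by_cases h : ∃ a, p.v.ι a = v'.ι a'
    · obtain ⟨a, e⟩ := id h
      exact Or.inl ⟨a, v'.inj (by rw [hj, e]), fun T => by simp only [out, if_pos h, e]⟩
    · exact Or.inr fun T => by simp only [out, if_neg h, hinv]
  obtain ⟨g, hg, hg'⟩ := p.dec
  refine ⟨⟨v', fun S T => p.A S (app t T), b', out, ⟨?_, ?_⟩, ⟨g, hg, fun S T x => hg' _ _ _⟩, h1, h6,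
    ?_, ?_, ?_, ?_⟩, ⟨fun S _ => S, t, fun _ _ _ h => h, h2, fun _ _ => rfl, fun a => ⟨jj a, hj a⟩,
    fun a T => if_pos ⟨a, rfl⟩⟩, hv' x (mem_insert _ _)⟩
  · intro S S' T T' e1 e2
    exact p.cont.mono _ _ _ _ e1 (h3 ⊤ _ _ (by rw [htop]; exact e2))
  · intro S T y hy
    obtain ⟨N0, h0⟩ := p.cont.fin _ _ y hy
    obtain ⟨N, hN⟩ := trunc_app p.v.tab ⊤ t T N0
    refine ⟨max N0 N, p.cont.mono _ _ _ _
      (inter_subset_inter_right _ (Iio_subset_Iio (le_max_left _ _)))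
      (cle_trans p.v.tab hN (h3 ⊤ _ _ (trunc_mono v'.tab _ (le_max_right _ _) T))) h0⟩
  · intro a' T T' h
    rcases hc a' with ⟨a, rfl, e⟩ | e <;> simp only [e]
    · exact p.omono a _ _ (h3 a _ _ h)
    · exact X_mono v'.tab h
  · intro a' T y hy
    rcases hc a' with ⟨a, rfl, e⟩ | e <;> simp only [e] at hy ⊢
    · obtain ⟨N0, h0⟩ := p.ofin a _ y hy
      obtain ⟨N, hN⟩ := trunc_app p.v.tab a t T N0
      exact ⟨N, p.omono a _ _ hN h0⟩
    · exact (cont_X v'.tab _).fin ∅ T y hy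
  · intro a'
    rcases hc a' with ⟨a, rfl, e⟩ | e <;> simp only [e]
    · exact ((p.od1 a).comp (app t) h2).trans (h4 a)
    · exact Det.refl
  · intro a'
    rcases hc a' with ⟨a, rfl, e⟩ | e <;> simp only [e]
    · exact (h5 a).trans ((p.od2 a).comp (app t) h2)
    · exact Det.refl

def DetF (p : CU L) (I : Set ℕ → (L → Set ℕ) → Prop) (Y Z : Set ℕ → (L → Set ℕ) → Set ℕ) : Prop :=
  Det (fun w => p.Pt w ∧ I (p.A w.1 w.2.1) w.2.2)
    (fun w => Y (p.A w.1 w.2.1) w.2.2) (fun w => Z (p.A w.1 w.2.1) w.2.2)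

theorem DetF.ext {q p : CU L} {I : Set ℕ → (L → Set ℕ) → Prop}
    {Y Z : Set ℕ → (L → Set ℕ) → Set ℕ} (h : DetF p I Y Z) (hq : Ext q p) : DetF q I Y Z := by
  obtain ⟨m, hm⟩ := hq.pt
  refine (Det.comp h m fun w hw => ⟨(hm w).1 hw.1, ?_⟩).congr (fun w _ => ?_) (fun w _ => ?_)
  · rw [(hm w).2.1, (hm w).2.2]; exact hw.2
  · simp only [(hm w).2.1, (hm w).2.2]
  · simp only [(hm w).2.1, (hm w).2.2]

theorem advice {p : CU L} {I : Set ℕ → (L → Set ℕ) → Prop} {Y Z : Set ℕ → (L → Set ℕ) → Set ℕ}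
    (h : DetF p I Y Z) : ∃ q, Ext q p ∧
      Forces q (fun A T => I A T → ∀ B, Red (jn A B) (Z A T) → Red (Y A T) (Z A T)) := by
  let W : Set ℕ := {z | ∃ x D, z = Encodable.encode ((x, D) : ℕ × List ℕ) ∧
    ∀ w : Set ℕ × Cfg × (L → Set ℕ), (p.Pt w ∧ I (p.A w.1 w.2.1) w.2.2) →
      (∀ y ∈ D, y ∈ Z (p.A w.1 w.2.1) w.2.2) → x ∈ Y (p.A w.1 w.2.1) w.2.2}
  refine ⟨p.thinExt (good_jn W) (thin_idL (fun _ => le_rfl) p.unb), p.thinExt_ext _ _, ?_⟩
  rintro ⟨S, T, V⟩ hw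
  have hw' : p.Pt (jn W S, T, V) := by simpa only [Pt, thinExt, app_idL] using hw
  simp only [thinExt, app_idL]
  intro hI B hB
  obtain ⟨g, hg, hg'⟩ := p.dec
  refine red_adv _ _ _ (fun z => 2 * g (2 * z)) (comp_two.comp (hg.comp comp_two)) hB fun x => ?_
  simp only [mem_jn_left, ← hg']
  constructor
  · intro hx
    obtain ⟨D, h1, h2⟩ := h (jn W S, T, V) ⟨hw', hI⟩ x hx
    exact ⟨D, h1, x, D, rfl, h2⟩
  · rintro ⟨D, h1, x', D', e, h2⟩
    obtain ⟨rfl, rfl⟩ := Prod.mk.inj (Encodable.encode_injective e)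
    exact h2 (jn W S, T, V) ⟨hw', hI⟩ h1

theorem det1 (p : CU L) (a : p.v.K) (I : Set ℕ × Cfg × (L → Set ℕ) → Prop) :
    Det (fun w => p.Pt w ∧ I w) (fun w => w.2.2 (p.v.ι a)) (fun w => X p.v.d a w.2.1) :=
  ((p.od1 a).comp (fun w : Set ℕ × Cfg × (L → Set ℕ) => w.2.1) fun _ hw => hw.1.1).congr
    (fun _ hw => (hw.1.2 a).symm) fun _ _ => rfl

theorem det2 (p : CU L) (a : p.v.K) (I : Set ℕ × Cfg × (L → Set ℕ) → Prop) :
    Det (fun w => p.Pt w ∧ I w) (fun w => X p.v.d a w.2.1) (fun w => w.2.2 (p.v.ι a)) :=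
  ((p.od2 a).comp (fun w : Set ℕ × Cfg × (L → Set ℕ) => w.2.1) fun _ hw => hw.1.1).congr
    (fun _ _ => rfl) fun _ hw => (hw.1.2 a).symm

def Dn (φ : Set ℕ → (L → Set ℕ) → Prop) : Prop := ∀ p : CU L, ∃ q, Ext q p ∧ Forces q φ

theorem Dn.and {φ ψ : Set ℕ → (L → Set ℕ) → Prop} (h1 : Dn φ) (h2 : Dn ψ) :
    Dn (fun A T => φ A T ∧ ψ A T) := by
  intro p
  obtain ⟨q, a1, a2⟩ := h1 p
  obtain ⟨r, b1, b2⟩ := h2 q
  exact ⟨r, b1.trans a1, fun w hw => ⟨a2.ext b1 w hw, b2 w hw⟩⟩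

theorem Dn.of_has {φ : Set ℕ → (L → Set ℕ) → Prop} (x y : L)
    (h : ∀ p : CU L, p.Has x → p.Has y → ∃ q, Ext q p ∧ Forces q φ) : Dn φ := by
  intro p
  obtain ⟨q, a1, a2⟩ := p.dense_has x
  obtain ⟨r, b1, b2⟩ := q.dense_has y
  obtain ⟨s, c1, c2⟩ := h r (a2.ext b1) b2
  exact ⟨s, c1.trans (b1.trans a1), c2⟩

theorem dn_le (n m : L) : Dn (fun A V => n ≤ m → Red (jn A (V n)) (jn A (V m))) := by
  refine Dn.of_has n m ?_
  rintro p ⟨a, rfl⟩ ⟨c, rfl⟩
  by_cases h : a ≤ c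
  · obtain ⟨q, h1, h2⟩ := advice (p := p) (I := fun _ _ => True)
      (Y := fun A V => jn A (V (p.v.ι a))) (Z := fun A V => jn A (V (p.v.ι c)))
      (Det.pair Det.left ((p.det1 a _).trans ((det_X_le p.v.tab h _ _).trans
        ((p.det2 c _).trans Det.right))))
    exact ⟨q, h1, fun w hw _ => h2 w hw trivial _ (red_refl _)⟩
  · exact ⟨p, Ext.refl p, fun _ _ h' => absurd ((p.v.hle _ _).1 h') h⟩

theorem dn_above (C : Set ℕ) : Dn (fun A (V : L → Set ℕ) => Red C (jn A (V ⊥))) := by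
  intro p
  obtain ⟨q, h1, h2⟩ := advice (p := p) (I := fun _ _ => True)
    (Y := fun _ _ => C) (Z := fun A V => jn A (V ⊥)) (Det.of_one fun _ _ _ hx => Or.inl fun _ _ => hx)
  exact ⟨q, h1, fun w hw => h2 w hw trivial _ (red_refl _)⟩

theorem dn_ne (R : Set ℕ) : Dn (fun A (V : L → Set ℕ) => jn A (V ⊥) ≠ R) := by
  intro p
  obtain ⟨g, _, hg⟩ := p.dec
  refine ⟨p.thinExt (good_jn {x | 2 * g (2 * x) ∉ R}) (thin_idL (fun _ => le_rfl) p.unb),
    p.thinExt_ext _ _, ?_⟩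
  intro w _ h
  have h1 : 2 * g (2 * 0) ∈ R ↔ 2 * g (2 * 0) ∉ R := by
    conv_lhs => rw [← h]
    simp only [thinExt, mem_jn_left, ← hg]
    rfl
  tauto

theorem cont_obs (p : CU L) (W : ℕ × List ℕ → Prop) (a : p.v.K) :
    Cont p.v.d (fun S T => App W (jn (p.A S T) (p.out T (p.v.ι a)))) :=
  (p.cont.jn (G := fun _ T => p.out T (p.v.ι a))
    ⟨fun _ _ _ _ _ h => p.omono a _ _ (cle_imp le_top h), fun _ T x hx => p.ofin a T x hx⟩).appW
    p.v.tab W

theorem dn_R (W1 W2 : ℕ × List ℕ → Prop) :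
    Dn (fun A (V : L → Set ℕ) => jn A (V ⊥) = App W2 (App W1 (jn A (V ⊤))) →
      Red (jn A (V ⊥)) (App W1 (jn A (V ⊤))) →
      ∃ l, Red (App W1 (jn A (V ⊤))) (jn A (V l)) ∧ Red (jn A (V l)) (App W1 (jn A (V ⊤)))) := by
  intro p
  have hd := p.v.tab
  obtain ⟨l, σ, b', t, h1, h2, h3, h4⟩ := ascend hd ⊥ _ p.b (p.cont_obs W1 ⊤) p.unb Det.right
  let q1 := p.thinExt h1 h2
  have e1 : Ext q1 p := p.thinExt_ext h1 h2
  have hV : ∀ (q : CU L) w, q.Pt w → w.2.2 ⊤ = q.out w.2.1 (q.v.ι ⊤) := fun q w hw => by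
    rw [← hw.2, q.v.htop]
  have d1 : DetF q1 (fun A V => jn A (V ⊥) = App W2 (App W1 (jn A (V ⊤))))
      (fun A V => jn A (V (p.v.ι l))) (fun A V => App W1 (jn A (V ⊤))) := by
    have a0 : DetF q1 (fun A V => jn A (V ⊥) = App W2 (App W1 (jn A (V ⊤))))
        (fun A V => jn A (V (p.v.ι ⊥))) (fun A V => App W1 (jn A (V ⊤))) :=
      (Det.app W2).congr (fun _ hw => by rw [p.v.hbot]; exact hw.2.symm) fun _ _ => rfl
    refine Det.pair (Det.left.trans a0) ((q1.det1 l _).trans ?_)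
    refine ((h3.comp (fun w : Set ℕ × Cfg × (L → Set ℕ) => (w.1, w.2.1))
      fun w hw => hw.1.1).trans (Det.pair ?_ ?_))
    · exact Det.refl.congr (fun _ _ => rfl) fun w hw => by simp only [hV q1 w hw.1]; rfl
    · exact (q1.det2 ⊥ _).trans (Det.right.trans a0)
  obtain ⟨c, K, k1, k2, k3, k4, k5⟩ := promise hd q1.cont (q1.cont_obs W1 ⊤) q1.unb q1.inv
    (l := l) h4
  obtain ⟨g, hg, hg'⟩ := q1.dec
  have hin : ∀ T, InB c T → InB q1.b T := fun T h i => Th.inb_mono (k1 i) (h i)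
  let q2 : CU L :=
    { v := p.v
      A := fun S T => q1.A (jn (K S T) S) T
      b := c
      out := q1.out
      cont := cont_jnK hd q1.cont k3
      dec := ⟨fun x => g (2 * x + 1), hg.comp (Computable.succ.comp comp_two),
        fun S T x => mem_jn_right.symm.trans (hg' _ _ _)⟩
      unb := k2
      inv := k4
      omono := q1.omono
      ofin := q1.ofin
      od1 := fun a => (q1.od1 a).comp id hin
      od2 := fun a => (q1.od2 a).comp id hin }
  have e2 : Ext q2 q1 := ⟨fun S T => jn (K S T) S, idL,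
    fun _ _ T h => jn_mono (k3.mono _ _ _ _ h (cle_refl hd _ T)) h,
    fun T h => by rw [app_idL]; exact hin T h,
    fun S T => by rw [app_idL], fun a => ⟨a, rfl⟩, fun a T => by rw [app_idL]⟩
  have d2 : DetF q2 (fun _ _ => True) (fun A V => App W1 (jn A (V ⊤)))
      (fun A V => jn A (V (p.v.ι l))) := by
    refine Det.trans ((k5.comp (fun w : Set ℕ × Cfg × (L → Set ℕ) => (w.1, w.2.1))
      fun w hw => hw.1.1).congr (fun w hw => ?_) fun _ _ => rfl)
      (Det.pair ?_ ((q2.det2 l _).trans Det.right))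
    · simp only [hV q2 w hw.1]; rfl
    · exact Det.trans (Det.of_iff (fun x => g (2 * x)) fun w _ x =>
        mem_jn_left.symm.trans (hg' _ _ _)) Det.left
  obtain ⟨q3, e3, f3⟩ := advice d2
  obtain ⟨q4, e4, f4⟩ := advice (d1.ext (e3.trans e2))
  refine ⟨q4, e4.trans (e3.trans (e2.trans e1)), fun w hw a1 a2 => ⟨p.v.ι l, ?_, ?_⟩⟩
  · exact f3.ext e4 w hw trivial _ (red_refl _)
  · exact f4 w hw a1 _ a2

end CU

end Pool.Agent.MP_750bb3_lc

end

section

set_option autoImplicit false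

namespace Pool.Agent.MP_750bb3_lc

open Set

variable {L : Type} [SemilatticeSup L] [BoundedOrder L]

namespace CU

theorem dn_T (n m : L) (W : ℕ × List ℕ → Prop) :
    Dn (fun A (V : L → Set ℕ) => ¬ n ≤ m → jn A (V n) ≠ App W (jn A (V m))) := by
  refine Dn.of_has n m ?_
  rintro p ⟨a, rfl⟩ ⟨c, rfl⟩
  have hd := p.v.tab
  by_cases hnm : a ≤ c
  · exact ⟨p, Ext.refl p, fun _ _ h => absurd ((p.v.hle _ _).2 hnm) h⟩
  obtain ⟨ε, ε', hε, _⟩ := hd.gen c
  let U : ℕ × List ℕ → Prop := fun q => ∀ T, InB p.b T →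
    (∀ y ∈ q.2, y ∈ p.out T (p.v.ι a)) → q.1 ∈ X p.v.d a T
  have hU0 : ∀ T, InB p.b T → App U (p.out T (p.v.ι a)) = X p.v.d a T := by
    intro T hT
    ext x
    constructor
    · rintro ⟨D, h1, h2⟩
      exact h2 T hT h1
    · intro hx
      exact p.od2 a T hT x hx
  have hO0 := p.cont_obs W c
  have hO : Cont p.v.d (fun S T =>
      App U {y | 2 * y + 1 ∈ App W (jn (p.A S T) (p.out T (p.v.ι c)))}) :=
    Cont.appW hd (F := fun S T => {y | 2 * y + 1 ∈ App W (jn (p.A S T) (p.out T (p.v.ι c)))})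
      ⟨fun _ _ _ _ h1 h2 _ hy => hO0.mono _ _ _ _ h1 h2 hy, fun S T y hy => hO0.fin S T _ hy⟩ U
  let z : ℕ → ℕ := fun k => Nat.pair k (Th.mid ε).code
  have key : ∀ {σ : Set ℕ → Set ℕ} (hσ : Good σ) {b' : ℕ → ℕ} {t : ℕ → Loc}
      (ht : Thin p.v.d p.b b' t) w, (p.thinExt hσ ht).Pt w →
      jn ((p.thinExt hσ ht).A w.1 w.2.1) (w.2.2 (p.v.ι a)) =
        App W (jn ((p.thinExt hσ ht).A w.1 w.2.1) (w.2.2 (p.v.ι c))) →
      App U {y | 2 * y + 1 ∈ App W (jn (p.A (σ w.1) (app t w.2.1))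
        (p.out (app t w.2.1) (p.v.ι c)))} = X p.v.d a (app t w.2.1) := by
    intro σ hσ b' t ht w hw he
    have e1 : w.2.2 (p.v.ι a) = p.out (app t w.2.1) (p.v.ι a) := hw.2 a
    have e2 : w.2.2 (p.v.ι c) = p.out (app t w.2.1) (p.v.ι c) := hw.2 c
    rw [e1, e2] at he
    simp only [thinExt] at he
    rw [← hU0 _ (ht.app_inb hw.1), ← he]
    simp only [mem_jn_right, setOf_mem_eq]
  have hU := fam_of_cont hd hO z
  obtain ⟨P1, _, d1⟩ := DL hU ⟨∅, univ, univ, ∅, iv_all, infinite_univ, disjoint_empty _⟩ ε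
  obtain ⟨P, l2, d2⟩ := DL hU P1 ε'
  obtain ⟨σ, hσ, hlo, hhi⟩ := P.iv
  have hs1 : ∀ S, P.lo ⊆ σ S := fun S => by rw [← hlo]; exact hσ.mono _ _ (empty_subset _)
  have hs2 : ∀ S, σ S ⊆ P.hi := fun S => by rw [← hhi]; exact hσ.mono _ _ (subset_univ _)
  rcases d1 with d1 | d1
  · rcases d2 with d2 | d2
    · obtain ⟨k, hk, hk'⟩ := (P.inf.diff (Set.Finite.union d2 (p.unb ε'))).nonempty
      simp only [mem_union, mem_setOf_eq, not_or, not_and, not_not, not_le] at hk'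
      obtain ⟨b', t, ht, h⟩ := fix_thin hd p.unb P hk hk'.2
      refine ⟨p.thinExt hσ ht, p.thinExt_ext hσ ht, fun w hw _ he => ?_⟩
      have h1 := hO.mono _ _ _ _ (hs1 w.1) (h w.2.1).1 (hk'.1 hk)
      rw [key hσ ht w hw he, mem_X, (h w.2.1).2.2, Th.rel_mid, hε] at h1
      exact hnm h1
    · refine absurd (test_of_stream hd p.cont p.unb P (ε := ε) (ε' := ε') bot_le
        ((Set.Finite.union (St.In_mono hU l2 d1) d2).subset ?_)) p.inv
      rintro k ⟨hk, hsub⟩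
      by_contra hc
      simp only [mem_union, mem_setOf_eq, not_or, not_and, not_not] at hc
      refine hc.2 hk (App_mono U ?_ (hc.1 hk))
      intro y hy
      exact App_mono W (jn_mono hsub (p.omono c _ _
        (cfg_cle hε.ge (subset_union_left.trans (subset_insert _ _))))) hy
  · obtain ⟨k, hk, hk'⟩ :=
      (P.inf.diff (Set.Finite.union (St.Out_mono hU l2 d1) (p.unb ε))).nonempty
    simp only [mem_union, mem_setOf_eq, not_or, not_and, not_le] at hk'
    obtain ⟨b', t, ht, h⟩ := fix_thin hd p.unb P hk hk'.2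
    refine ⟨p.thinExt hσ ht, p.thinExt_ext hσ ht, fun w hw _ he => ?_⟩
    refine hk'.1 hk (hO.mono _ _ _ _ (hs2 w.1) (h w.2.1).2.1 ?_)
    rw [key hσ ht w hw he, mem_X, (h w.2.1).2.2, Th.rel_mid]
    exact hd.rrefl _ _

theorem limit_cu (p : ℕ → CU L) (h : ∀ s, Ext (p (s + 1)) (p s)) :
    ∃ A V, ∀ s, ∃ S T, (p s).Pt (S, T, V) ∧ (p s).A S T = A := by
  classical
  choose σ t h1 h2 h3 h4 h5 using h
  choose R hR using fun s j => stabilise (fun r => FF t r s j) fun r => FF_mono t r s j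
  let T : ℕ → Cfg := fun s j => FF t (R s j) s j
  have hin : ∀ r s, InB (p s).b (FF t r s) := by
    intro r
    induction r with
    | zero => intro s j; trivial
    | succ r ih => intro s; exact h2 s _ (ih (s + 1))
  have hT : ∀ s, app (t s) (T (s + 1)) = T s := by
    intro s
    funext j
    cases e : t s j with
    | const c =>
      have := hR s j (R s j + 1) (Nat.le_succ _)
      simp only [FF, app_const e] at this
      rw [app_const e]; exact this
    | via k g =>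
      have a1 := hR s j (max (R s j) (R (s + 1) k) + 1) (by omega)
      have a2 := hR (s + 1) k (max (R s j) (R (s + 1) k)) (le_max_right _ _)
      simp only [FF, app_via e] at a1
      rw [app_via e]
      show Th.map g (FF t (R (s + 1) k) (s + 1) k) = FF t (R s j) s j
      rw [← a1, a2]
  let Φ : (ℕ → Set ℕ) →o (ℕ → Set ℕ) :=
    ⟨fun S s => σ s (S (s + 1)) (T (s + 1)), fun S S' hS s => h1 s _ _ _ (hS (s + 1))⟩
  have hS : ∀ s, σ s (Φ.lfp (s + 1)) (T (s + 1)) = Φ.lfp s := fun s => congrFun Φ.map_lfp s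
  have hout : ∀ s x, (p s).Has x → ∀ s', s ≤ s' →
      (p s').Has x ∧ (p s').out (T s') x = (p s).out (T s) x := by
    intro s x hx s' hs
    induction s', hs using Nat.le_induction with
    | base => exact ⟨hx, rfl⟩
    | succ r _ ih =>
      obtain ⟨⟨a, rfl⟩, e⟩ := ih
      exact ⟨h4 r a, by rw [h5, hT, e]⟩
  let V : L → Set ℕ := fun x =>
    if hx : ∃ s, (p s).Has x then (p hx.choose).out (T hx.choose) x else ∅
  refine ⟨(p 0).A (Φ.lfp 0) (T 0), V, fun s =>
    ⟨Φ.lfp s, T s, ⟨fun j => hin _ s j, fun a => ?_⟩, ?_⟩⟩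
  · have hx : ∃ s', (p s').Has ((p s).v.ι a) := ⟨s, a, rfl⟩
    simp only [V, dif_pos hx]
    rw [← (hout _ _ hx.choose_spec _ (le_max_left _ s)).2,
      ← (hout s _ ⟨a, rfl⟩ _ (le_max_right hx.choose s)).2]
  · induction s with
    | zero => rfl
    | succ s ih => rw [h3, hS, hT]; exact ih

theorem generic_cu {ι : Type} [Countable ι] [Nonempty ι] (φ : ι → Set ℕ → (L → Set ℕ) → Prop)
    (h : ∀ i, Dn (φ i)) : ∃ A V, ∀ i, φ i A V := by
  obtain ⟨e, he⟩ := exists_surjective_nat ι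
  choose F h1 h2 using h
  obtain ⟨p0⟩ := exists_cu L
  let p : ℕ → CU L := fun s => Nat.rec p0 (fun s q => F (e s) q) s
  obtain ⟨A, V, hA⟩ := limit_cu p fun s => h1 (e s) (p s)
  refine ⟨A, V, fun i => ?_⟩
  obtain ⟨s, rfl⟩ := he i
  obtain ⟨S, T, a1, rfl⟩ := hA (s + 1)
  exact h2 (e s) (p s) _ a1

end CU

theorem main_usl (L : Type) [SemilatticeSup L] [BoundedOrder L] [Countable L] (C0 : Set ℕ) :
    ∃ f : L → Set ℕ, Red C0 (f ⊥) ∧ ¬ Red (f ⊥) ∅ ∧ (∀ x y, x ≤ y ↔ Red (f x) (f y)) ∧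
      ∀ C, Red (f ⊥) C → Red C (f ⊤) → ∃ x, Red C (f x) ∧ Red (f x) C := by
  obtain ⟨Wn, hW⟩ := re_enum
  obtain ⟨A, V, h⟩ := CU.generic_cu (L := L) (ι := L × L × ℕ × ℕ) _ fun i =>
    ((CU.dn_le i.1 i.2.1).and (CU.dn_ne (App (Wn i.2.2.1) ∅))).and
      (((CU.dn_T i.1 i.2.1 (Wn i.2.2.1)).and (CU.dn_R (Wn i.2.2.1) (Wn i.2.2.2))).and
        (CU.dn_above C0))
  refine ⟨fun n => jn A (V n), (h (⊥, ⊥, 0, 0)).2.2, ?_,
    fun x y => ⟨(h (x, y, 0, 0)).1.1, ?_⟩, ?_⟩
  · rintro ⟨W, h1, h2⟩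
    obtain ⟨e, rfl⟩ := hW W h1
    exact (h (⊥, ⊥, e, 0)).1.2 (Set.ext h2)
  · rintro ⟨W, h1, h2⟩
    obtain ⟨e, rfl⟩ := hW W h1
    by_contra hc
    exact (h (x, y, e, 0)).2.1.1 hc (Set.ext h2)
  · rintro C hC ⟨W1, a1, a2⟩
    obtain ⟨W2, b1, b2⟩ := id hC
    obtain ⟨e1, rfl⟩ := hW W1 a1
    obtain ⟨e2, rfl⟩ := hW W2 b1
    obtain rfl : C = _ := Set.ext a2
    exact (h (⊥, ⊥, e1, e2)).2.1.2 (Set.ext b2) hC

theorem main_iff (L : Type) [PartialOrder L] (C0 : Set ℕ) :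
    (Countable L ∧ (∃ z : L, ∀ x, z ≤ x) ∧ (∃ t : L, ∀ x, x ≤ t) ∧
      ∀ x y : L, ∃ s, ∀ u, s ≤ u ↔ x ≤ u ∧ y ≤ u) ↔
    ∃ A B : Set ℕ, Red C0 A ∧ ¬ Red A ∅ ∧ Red A B ∧ ∃ f : L → Set ℕ,
      (∀ x y : L, x ≤ y ↔ Red (f x) (f y)) ∧ (∀ x : L, Red A (f x) ∧ Red (f x) B) ∧
      (∀ C : Set ℕ, Red A C → Red C B → ∃ x : L, Red C (f x) ∧ Red (f x) C) := by
  constructor
  · rintro ⟨hc, ⟨z, hz⟩, ⟨t, ht⟩, hs⟩
    choose sp hsp using hs
    letI : SemilatticeSup L :=
      { sup := sp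
        le_sup_left := fun a b => ((hsp a b _).1 le_rfl).1
        le_sup_right := fun a b => ((hsp a b _).1 le_rfl).2
        sup_le := fun a b c h1 h2 => (hsp a b c).2 ⟨h1, h2⟩ }
    letI : BoundedOrder L := { top := t, le_top := ht, bot := z, bot_le := hz }
    obtain ⟨f, h0, h1, h2, h3⟩ := main_usl L C0
    exact ⟨f ⊥, f ⊤, h0, h1, (h2 _ _).1 bot_le, f, h2,
      fun x => ⟨(h2 _ _).1 bot_le, (h2 _ _).1 le_top⟩, h3⟩
  · rintro ⟨A, B, _, _, hAB, f, h1, h2, h3⟩
    refine ⟨?_, ?_, ?_, fun x y => ?_⟩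
    · obtain ⟨Wn, hW⟩ := re_enum
      have : ∀ x, ∃ e, f x = App (Wn e) B := by
        intro x
        obtain ⟨W, a1, a2⟩ := (h2 x).2
        obtain ⟨e, rfl⟩ := hW W a1
        exact ⟨e, Set.ext a2⟩
      choose e he using this
      refine Function.Injective.countable (f := e) fun x y hxy => ?_
      have h4 : f x = f y := by rw [he, he, hxy]
      exact le_antisymm ((h1 _ _).2 (h4 ▸ red_refl _)) ((h1 _ _).2 (h4 ▸ red_refl _))
    · obtain ⟨z, _, hz⟩ := h3 A (red_refl A) hAB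
      exact ⟨z, fun x => (h1 _ _).2 (red_trans hz (h2 x).1)⟩
    · obtain ⟨t, ht, _⟩ := h3 B hAB (red_refl B)
      exact ⟨t, fun x => (h1 _ _).2 (red_trans (h2 x).2 ht)⟩
    · obtain ⟨s, a1, a2⟩ := h3 (jn (f x) (f y)) (red_trans (h2 x).1 (red_left _ _))
        (red_jn (h2 x).2 (h2 y).2)
      refine ⟨s, fun u => ⟨fun h => ?_, fun h => ?_⟩⟩
      · have := red_trans a1 ((h1 _ _).1 h)
        exact ⟨(h1 _ _).2 (red_trans (red_left _ _) this), (h1 _ _).2 (red_trans (red_right _ _) this)⟩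
      · exact (h1 _ _).2 (red_trans a2 (red_jn ((h1 _ _).1 h.1) ((h1 _ _).1 h.2)))

end Pool.Agent.MP_750bb3_lc

end
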