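import Pool.Agent.Mg.F750bb3.G53feb3

set_option linter.all false

section

/-! The steps of the proof, as propositions. -/

set_option autoImplicit false

namespace MP750S

variable {M : Type} [Lattice M] [BoundedOrder M] [Primcodable M]

/-- A computable list of labelled structures on `ℕ` with base points that contains every finite
one. -/
def StCodes (M : Type) [Lattice M] [BoundedOrder M] [Primcodable M] : Prop :=
  ∃ (l : ℕ → ℕ → ℕ → M) (base : ℕ → ℕ),
    (Computable fun z : ℕ × ℕ × ℕ => l z.1 z.2.1 z.2.2) ∧ Computable base ∧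
    (∀ c p, l c p p = ⊤) ∧ (∀ c p q r, l c p q ⊓ l c q r ≤ l c p r) ∧
    (∀ c p q, l c p q ≠ ⊥ → l c q p ≠ ⊥ → p = q) ∧
    ∀ (Q : Type) [Fintype Q] (m : Q → Q → M) (q0 : Q), (∀ q, m q q = ⊤) →
      (∀ p q r, m p q ⊓ m q r ≤ m p r) → (∀ p q, m p q ≠ ⊥ → m q p ≠ ⊥ → p = q) →
      ∃ (c : ℕ) (i : Q → ℕ), base c = i q0 ∧ ∀ p q, l c (i p) (i q) = m p q

def StUni (M : Type) [Lattice M] [BoundedOrder M] [Primcodable M] : Prop :=
  (⊥ : M) ≠ ⊤ → (∀ x y : M, x ⊓ y = ⊥ → x = ⊥ ∨ y = ⊥) → Nonempty (Uni M)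

variable (U : Uni M)

def StV0 : Prop := ∀ d : M, ∃ b s t, U.inU b s ∧ U.inU b t ∧ U.lab s t = d

def StV1 : Prop := ∀ b' s, U.inU b' s → ∃ n, ∀ b, n ≤ b → ∃ k : ℕ → ℕ, U.Hom b' b k ∧
  (∀ v, U.inU (b - 2) v → U.lab v (k s) = ⊤) ∧
  ∀ q, U.inU b' q → U.lab (U.top 0) (k q) = U.lab s q

def StV2 : Prop := ∀ i b s t v0 t0 (d : M), U.inU i s → U.inU i t → U.inU b v0 → U.inU b t0 →
  U.lab s t ⊓ U.lab v0 t0 ≤ d → ∃ (b1 : ℕ) (h1 h2 : ℕ → ℕ) (s' t' : ℕ), U.Hom i b1 h1 ∧
    U.Hom b b1 h2 ∧ U.inU b1 s' ∧ U.inU b1 t' ∧ U.lab s' (h1 s) = ⊤ ∧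
    U.lab (h1 t) (h2 v0) = ⊤ ∧ U.lab (h2 t0) t' = ⊤ ∧ U.lab s' t' = d

def StV3 : Prop := ∀ b1 i x y s' t', U.inU b1 x → U.inU b1 y → U.inU i s' → U.inU i t' →
  U.lab y x = ⊥ → U.lab s' t' ≤ U.lab x y → ∃ (b2 : ℕ) (κ h : ℕ → ℕ), U.Emb b1 b2 κ ∧
    U.Hom i b2 h ∧ U.lab (κ x) (h s') = ⊤ ∧ U.lab (h t') (κ y) = ⊤

def StRef : Prop := ∀ (S : Sys U) (R : RefD S), ∃ T, RefSpec S R T

def StCom : Prop := ∀ (S : Sys U) (W : List ℕ) (n : ℕ), S.PV 0 W → W.length ≤ n →
  S.Leg ∅ (S.mkW (tb W)) → ∃ T, ComSpec S W n T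

def StCopy : Prop := ∀ S : Sys U, ∃ (T : Sys U) (c : ℕ → ℕ), Ext T S ∧ Computable c ∧
  (∀ v, T.Live v → S.Free (c v) ∧ T.bud v ≤ S.bud (c v)) ∧
  ∀ v w, T.Live v → T.World w → w (c v) = w v

def StAct : Prop := ∀ (S : Sys U) (P : ℕ × List ℕ → Prop) (a : M), REPred P → a ≠ ⊥ →
  ∃ T, ActSpec S P a T

def StActW : Prop := ∀ (S T : Sys U) (P : ℕ × List ℕ → Prop) (a : M), ActSpec S P a T →
  WExt T S ∧ ∀ w, T.Lim ∅ w → T.Closed w → Red (app P (U.B ⊤ w)) (U.B a w)

def StRel : Prop := ∀ (S S1 S' : Sys U) (P : ℕ × List ℕ → Prop) (a : M), ActSpec S P a S1 →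
  Ext S' S1 → ∃ T, RelSpec S S' T

/-- The supply of answers asked by a fusion. -/
def Supply {U : Uni M} (S : Sys U) {β : Type} [Primcodable β]
    (Q : (ℕ × ℕ) × List (List ℕ) × List ℕ × β → Prop) : Prop :=
  ∀ z n, ∃ A K x, Q (z, A, K, x) ∧ S.Fam z.1 n A ∧ S.PV n K ∧
    ∀ m, tb K m ≠ 0 → S.Mark m ∧ row A m = []

def StFusA : Prop := ∀ (S : Sys U) (β : Type) [Primcodable β]
  (Q : (ℕ × ℕ) × List (List ℕ) × List ℕ × β → Prop), REPred Q → Supply S Q →
  ∃ D u st r R, Stage S Q D u st r R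

def StFusB : Prop := ∀ (S : Sys U) (β : Type) [Primcodable β]
  (Q : (ℕ × ℕ) × List (List ℕ) × List ℕ × β → Prop) D u st r R, Stage S Q D u st r R →
  ∃ T, FusSpec S Q T r

def StFus : Prop := ∀ (S : Sys U) (β : Type) [Primcodable β]
  (Q : (ℕ × ℕ) × List (List ℕ) × List ℕ × β → Prop), REPred Q → Supply S Q →
  ∃ T r, FusSpec S Q T r

def StDF : Prop := ∀ (S : Sys U) (P : ℕ × List ℕ → Prop) (d : M)
  (Qa : (ℕ × ℕ × ℕ) × List (List ℕ) × List ℕ → Prop), REPred P → REPred Qa →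
  (∀ i s t n, U.inU i s → U.inU i t → U.lab s t = d → ∃ A E, Qa ((i, s, t), A, E) ∧
    S.Fam i n A ∧ Sub E (app P (U.B ⊤ (S.mkW (cut A s))))) →
  (∀ i s t A E w, Qa ((i, s, t), A, E) → U.inU i s → U.inU i t → U.lab s t = d → S.Fam i 0 A →
    S.FL ∅ w → (∀ g, row A g ≠ [] → w g = cut A t g) → ¬ Sub E (app P (U.B ⊤ w))) →
  ∃ T, Ext T S ∧ T.Dec P d

def StEasy : Prop := ∀ (S : Sys U) b s (G : ℕ × List ℕ × List ℕ → Prop), U.inU b s →
  (s = 0 ∨ ∀ m, S.Mark m → S.sup (m, [])) → S.Hyp b s G → S.Con b s G 0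

def StConN : Prop := ∀ (S : Sys U) b s (G : ℕ × List ℕ × List ℕ → Prop) n, Sat S → REPred G →
  U.inU b s → S.Hyp b s G → S.Con b s G n

def StT : Prop := ∀ (S : Sys U) (c d : M) (Φ : ℕ × List ℕ → Prop), Sat S → ¬ c ≤ d → REPred Φ →
  ∃ T, Ext T S ∧ ∀ w, T.Lim ∅ w → U.B c w ≠ app Φ (U.B d w)

def StSerA : Prop := ∀ (S : Sys U) (P Q : ℕ × List ℕ → Prop) (d d2 : M), Sat S → REPred P →
  REPred Q → S.DecN P Q d → SerA S P Q d d2 → ∃ T, Ext T S ∧ T.Dec P d2

def StSerB : Prop := ∀ (S : Sys U) (P Q : ℕ × List ℕ → Prop) (d d1 d2 : M), REPred P →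
  REPred Q → S.DecP P Q d → d1 ⊓ d2 ≤ d → ¬ SerA S P Q d d2 → ∃ T, Ext T S ∧ T.Dec P d1

def StLevel : Prop := ∀ (S : Sys U) (P : ℕ × List ℕ → Prop), Sat S → REPred P →
  ∃ (S1 : Sys U) (a : M), Ext S1 S ∧ (∀ d, ¬ a ≤ d → S1.Dec P d) ∧
    ∀ d, a ≤ d → ∀ T, Ext T S1 → ¬ T.Dec P d

def StDecode : Prop := ∀ (S : Sys U) (P : ℕ × List ℕ → Prop) (a : M),
  (∀ d, ¬ a ≤ d → S.Dec P d) →
  ∃ T, Ext T S ∧ ∀ w, T.Lim ∅ w → Red (U.B a w) (app P (U.B ⊤ w))

def StInitR : Prop := ∀ (S T0 : Sys U) (P : ℕ × List ℕ → Prop) (a : M) b s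
  (G : ℕ × List ℕ × List ℕ → Prop), REPred P → REPred G → a ≠ ⊥ →
  REPred fun z : ℕ × List (List ℕ) × AnT => QI S T0 P a b s G z.1 z.2.1 z.2.2

def StInitA : Prop := ∀ (S S1 S' T0 : Sys U) (P : ℕ × List ℕ → Prop) (a : M) b s
  (G : ℕ × List ℕ × List ℕ → Prop), ActSpec S P a S1 → Ext S' S1 → RelSpec S S' T0 →
  U.inU b s → S'.Hyp b s G → Supply T0 (QF U b (QI S T0 P a b s G))

/-- The clause `sl` of `Ann`. -/
def SL {U : Uni M} (S' : Sys U) (P : ℕ × List ℕ → Prop) (a : M) (b s : ℕ) (T : Sys U)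
    (an : ℕ → AnT) : Prop :=
  ∀ w, T.FL ∅ w → (∀ j, (an j).1 ≠ [] →
    (∃ p, U.inU b p ∧ ¬ a ≤ U.lab s p ∧ U.lab (w (T.fr j)) (tb (an j).1 p) = ⊤) ∨
      Sub (aE (an j)) (app P (U.B ⊤ w))) → S'.Lim ∅ w

def StInitC : Prop := ∀ (S S1 S' T0 T : Sys U) (P : ℕ × List ℕ → Prop) (a : M) b s
  (G : ℕ × List ℕ × List ℕ → Prop) r, ActSpec S P a S1 → Ext S' S1 → RelSpec S S' T0 →
  U.inU b s → s ≠ 0 → FusSpec T0 (QF U b (QI S T0 P a b s G)) T r →
  SL S' P a b s T fun j => (r (j, 0)).2.2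

def StInitB : Prop := ∀ (S S' T0 T : Sys U) (P : ℕ × List ℕ → Prop) (a : M) b s
  (G : ℕ × List ℕ × List ℕ → Prop) r, RelSpec S S' T0 → U.inU b s →
  FusSpec T0 (QF U b (QI S T0 P a b s G)) T r → SL S' P a b s T (fun j => (r (j, 0)).2.2) →
  Ann S S' P a b s G T fun j => (r (j, 0)).2.2

def StAtt0 : Prop := ∀ (S S' T : Sys U) (P : ℕ × List ℕ → Prop) (a : M) b s
  (G : ℕ × List ℕ × List ℕ → Prop) an, U.inU b s → Ann S S' P a b s G T an → Att T an b s TgF

def StAbsR : Prop := ∀ (T : Sys U) (an : ℕ → AnT) b p (Tg : List ℕ × List ℕ × List ℕ → Prop),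
  Computable an → REPred Tg →
  REPred fun z : ℕ × List (List ℕ) × AnT => QA T an b p Tg z.1 z.2.1 z.2.2

/-- Before normalisation: a family whose row at an annotated unit extends its table. -/
def StAbsH : Prop := ∀ (T : Sys U) (an : ℕ → AnT) b p (Tg : List ℕ × List ℕ × List ℕ → Prop)
  i e n, Sat T → Computable an → REPred Tg → U.inU b p → Att T an b p Tg → U.Emb b i (tb e) →
  ∃ j A F', (an j).1 ≠ [] ∧ T.Fam i n A ∧ row A (T.fr j) ≠ [] ∧
    (∀ q, U.inU b q → cut A (tb e q) (T.fr j) = tb (an j).1 q) ∧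
    Sub F' (U.B ⊤ (T.mkW (cut A (tb e p)))) ∧ Tg (aE (an j), aF (an j), F')

def StAbsA : Prop := ∀ (S S' T : Sys U) (P : ℕ × List ℕ → Prop) (a : M) b s
  (G : ℕ × List ℕ × List ℕ → Prop) an p (Tg : List ℕ × List ℕ × List ℕ → Prop), Sat S →
  REPred Tg → U.inU b s → U.inU b p → Ann S S' P a b s G T an → Att T an b p Tg →
  Supply T (QF U b (QA T an b p Tg))

def StAbsC : Prop := ∀ (S S' T T' : Sys U) (P : ℕ × List ℕ → Prop) (a : M) b s
  (G : ℕ × List ℕ × List ℕ → Prop) an p (Tg : List ℕ × List ℕ × List ℕ → Prop) r, a ≠ ⊥ →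
  s ≠ 0 → U.inU b s → Ann S S' P a b s G T an → FusSpec T (QF U b (QA T an b p Tg)) T' r →
  SL S' P a b s T' fun j => (r (j, 0)).2.2

def StAbsB : Prop := ∀ (S S' T T' : Sys U) (P : ℕ × List ℕ → Prop) (a : M) b s
  (G : ℕ × List ℕ × List ℕ → Prop) an p (Tg : List ℕ × List ℕ × List ℕ → Prop) r,
  U.inU b s → U.inU b p → Ann S S' P a b s G T an →
  ((∀ j, aK (an j) = []) ∨ (p = s ∧ ∀ z, Tg z → Sub z.2.1 (lset z.2.2))) →
  FusSpec T (QF U b (QA T an b p Tg)) T' r → SL S' P a b s T' (fun j => (r (j, 0)).2.2) →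
  Ann S S' P a b s G T' (fun j => (r (j, 0)).2.2) ∧ (∀ j, aK (r (j, 0)).2.2 = []) ∧
    Done T' (fun j => (r (j, 0)).2.2) p Tg ∧
    ∀ p' Tg', U.inU b p' → Done T an p' Tg' → Done T' (fun j => (r (j, 0)).2.2) p' Tg'

def StFail : Prop := ∀ (S S' T : Sys U) (P : ℕ × List ℕ → Prop) (a : M) b s
  (G : ℕ × List ℕ × List ℕ → Prop) an p, REPred P → U.inU b s → U.inU b p → p ≠ s →
  U.lab s p ≠ ⊥ → Ann S S' P a b s G T an → (∀ j, aK (an j) = []) → ¬ Att T an b p (TgE P) →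
  ∃ T', Ext T' T ∧ T'.Dec P (U.lab s p)

/-- From limit worlds `w p` of `S'` to a legal family. -/
def StFamily : Prop := ∀ (S' : Sys U) (b n : ℕ) (c : ℕ → ℕ) (w : ℕ → ℕ → ℕ), S'.Lim ∅ c →
  (∀ p, U.inU b p → S'.Lim ∅ (w p) ∧ U.Le c (w p) ∧ ∀ g, n ≤ g → S'.Live g → w p g = c g) →
  (∀ p q g, U.inU b p → U.inU b q → U.lab p q ≤ U.lab (w p g) (w q g)) →
  ∃ A, S'.Fam b 0 A ∧ (∀ g, g < n → S'.Live g → row A g ≠ []) ∧
    ∀ p g, U.inU b p → g < n → S'.Live g → cut A p g = w p g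

def StExtract : Prop := ∀ (S S' T : Sys U) (P : ℕ × List ℕ → Prop) (a : M) b s
  (G : ℕ × List ℕ × List ℕ → Prop) an, a ≠ ⊥ → s ≠ 0 → U.inU b s → Ann S S' P a b s G T an →
  (∀ j, aK (an j) = []) → (∀ p, U.inU b p → a ≤ U.lab s p → Done T an p (TgE P)) →
  S'.Con b s G 0

def StActSat : Prop := ∀ (S S1 : Sys U) (P : ℕ × List ℕ → Prop) (a : M), Sat S → REPred P →
  ActSpec S P a S1 → (∀ d, a ≤ d → ∀ T, Ext T S → ¬ T.Dec P d) → Sat S1

def StM : Prop := ∀ (S : Sys U) (P : ℕ × List ℕ → Prop) (a0 : M), Sat S → REPred P → a0 ≠ ⊥ →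
  ∃ T, Sat T ∧ WExt T S ∧ ∀ w, T.Lim ∅ w → T.Closed w → Red (app P (U.B ⊤ w)) (U.B a0 w) ∨
    ∃ a, a ≠ ⊥ ∧ Red (app P (U.B ⊤ w)) (U.B a w) ∧ Red (U.B a w) (app P (U.B ⊤ w))

def StStep : Prop := ∀ (S : Sys U) (n c : ℕ), ∃ T, Ext T S ∧
  (∀ w w' g, T.World w → T.World w' → g < n → w g = w' g) ∧
  ((∃ m, S.Mark m ∧ S.grp m = c ∧ m ∈ app S.sup (U.B ⊤ (S.mkW fun _ => 0))) →
    ∃ m, S.Mark m ∧ S.grp m = c ∧ ∀ w, T.World w → U.lab (U.top 0) (w m) = ⊤)

def StGen : Prop := ∀ (S0 : Sys U) (ρ : ℕ → (ℕ → ℕ) → Prop), Sat S0 →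
  (∀ n S, Sat S → ∃ T : Sys U, Sat T ∧ WExt T S ∧ ∀ w, T.Lim ∅ w → T.Closed w → ρ n w) →
  ∃ w, ∀ n, ρ n w

def StBase : Prop := ∃ S : Sys U, ∀ m, ¬ S.Mark m

def StMain : Prop := ∀ a0 : M, a0 ≠ ⊥ → ∃ w : ℕ → ℕ,
  (∀ c d, c ≤ d ↔ Red (U.B c w) (U.B d w)) ∧
  ∀ C, Red C (U.B ⊤ w) → Red C (U.B a0 w) ∨ ∃ a, a ≠ ⊥ ∧ Red C (U.B a w) ∧ Red (U.B a w) C

end MP750S

end

section

/-! Facts shared by the steps on activation, release and annotated fusions. -/

set_option autoImplicit false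

namespace MP750S

variable {M : Type} [Lattice M] [BoundedOrder M] [Primcodable M] {U : Uni M}

theorem Uni.eq_of_top {u v : ℕ} (h : U.lab u v = ⊤) (h' : U.lab v u = ⊤) : u = v :=
  U.anti u v (h ▸ U.bot_ne.symm) (h' ▸ U.bot_ne.symm)

/-- The point `0` is not above `s` at level `a`. -/
theorem Uni.not_le_zero {a : M} {s : ℕ} (ha : a ≠ ⊥) (hs : s ≠ 0) : ¬ a ≤ U.lab s 0 :=
  fun h => ha (le_bot_iff.1 (U.lab_zero hs ▸ h))

theorem Uni.le_nil (w : ℕ → ℕ) : U.Le (tb []) w := fun g => by rw [tb_nil]; exact U.zero_le _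

theorem Sys.valid_one {S : Sys U} {v p : ℕ} (hp : U.inU (S.bud v) p) :
    S.Valid (Function.update (fun _ => 0) v p) := fun g _ => by
  by_cases e : g = v
  · subst e; rwa [Function.update_self]
  · rw [Function.update_of_ne e]; exact U.in_zero _

variable {S S1 S' T0 T : Sys U} {P : ℕ × List ℕ → Prop} {a : M}

theorem RelSpec.free (h : RelSpec S S' T0) (g : ℕ) : T0.Free g ↔ S'.Free g := by
  unfold Dat.Free; rw [h.fr, h.idx]

theorem RelSpec.mark (h : RelSpec S S' T0) (g : ℕ) : T0.Mark g ↔ S'.Mark g := by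
  unfold Dat.Mark; rw [h.lev]

theorem RelSpec.live (h : RelSpec S S' T0) (g : ℕ) : T0.Live g ↔ S'.Live g :=
  or_congr (h.free g) (h.mark g)

theorem RelSpec.mkW (h : RelSpec S S' T0) (x : ℕ → ℕ) : T0.mkW x = S'.mkW x := by
  funext g; unfold Dat.mkW; rw [h.hom, h.par]

theorem RelSpec.valid (h : RelSpec S S' T0) (x : ℕ → ℕ) : T0.Valid x ↔ S'.Valid x := by
  unfold Sys.Valid; simp only [h.live, h.bud]

theorem RelSpec.world (h : RelSpec S S' T0) (w : ℕ → ℕ) : T0.World w ↔ S'.World w := by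
  unfold Sys.World; rw [h.valid, h.hom, h.par]

theorem RelSpec.pv (h : RelSpec S S' T0) (n : ℕ) (W : List ℕ) : T0.PV n W ↔ S'.PV n W := by
  unfold Sys.PV; simp only [h.live, h.free, h.mark, h.bud]

/-- A new marker that is still a marker of an extension has level `a` and support `P`. -/
theorem ActSpec.newMark (h : ActSpec S P a S1) (he : Ext S' S1) {z : ℕ} (hz : S.InZ z)
    (hm : S'.Mark z) : S'.lev z = a ∧ ∀ F, S'.sup (z, F) ↔ P (S.xof z, F) := by
  rcases he.mark z hm with ⟨_, h2, h3⟩ | ⟨h1, _⟩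
  · exact ⟨h2.trans (h.inZ z hz).1, fun F => (h3 F).trans ((h.inZ z hz).2.2 F)⟩
  · have := ((h.free z).1 h1).2
    have := hz.2
    omega

section
variable {b : ℕ} {R : ℕ → List (List ℕ) → AnT → Prop}
  {r : ℕ × ℕ → List (List ℕ) × List ℕ × AnT}

theorem FusSpec.aK (h : FusSpec S (QF U b R) T r) (z : ℕ × ℕ) : aK (r z).2.2 = (r z).2.1 :=
  (h.ans z).1

theorem FusSpec.on (h : FusSpec S (QF U b R) T r) {j : ℕ} (hj : (r (j, 0)).2.2.1 ≠ []) :
    On U b (j, 0) := by
  by_contra h'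
  exact hj ((h.ans (j, 0)).2.2 h').2.2

theorem FusSpec.of_on (h : FusSpec S (QF U b R) T r) {j : ℕ} (hj : On U b (j, 0)) :
    (r (j, 0)).2.2.1 ≠ [] ∧ (r (j, 0)).2.2.1 = eof j := by
  have e : (r (j, 0)).2.2.1 = eof j := ((h.ans (j, 0)).2.1 hj).1
  exact ⟨e ▸ hj.2.2.ne_nil, e⟩

/-- What holds of an annotated unit. -/
theorem FusSpec.unit (h : FusSpec S (QF U b R) T r) {j : ℕ} (hj : (r (j, 0)).2.2.1 ≠ []) :
    j % 2 = 1 ∧ U.Emb b j (tb (r (j, 0)).2.2.1) ∧ R j (r (j, 0)).1 (r (j, 0)).2.2 ∧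
      S.Fam j 0 (r (j, 0)).1 := by
  have h1 := h.on hj
  have h2 := (h.ans (j, 0)).2.1 h1
  obtain ⟨n, _, h3, _⟩ := h.fam (j, 0)
  exact ⟨h1.2.1, (h.of_on h1).2 ▸ h1.2.2, h2.2, h3.mono (Nat.zero_le n)⟩

/-- Nonempty rows occur only in annotated units. -/
theorem FusSpec.of_row (h : FusSpec S (QF U b R) T r) {z : ℕ × ℕ} {g : ℕ}
    (hz : row (r z).1 g ≠ []) : ∃ j, z = (j, 0) ∧ (r (j, 0)).2.2.1 ≠ [] := by
  have h1 : On U b z := by
    by_contra h'
    exact hz (by rw [show (r z).1 = [] from ((h.ans z).2.2 h').1, row_nil])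
  obtain ⟨j, t⟩ := z
  obtain rfl : t = 0 := h1.1
  exact ⟨j, rfl, (h.of_on h1).1⟩

/-- Kept markers occur only in annotated units. -/
theorem FusSpec.of_kept (h : FusSpec S (QF U b R) T r) {z : ℕ × ℕ} {g : ℕ}
    (hz : tb (r z).2.1 g ≠ 0) : ∃ j, z = (j, 0) ∧ (r (j, 0)).2.2.1 ≠ [] := by
  have h1 : On U b z := by
    by_contra h'
    exact hz (by rw [show (r z).2.1 = [] from ((h.ans z).2.2 h').2.1, tb_nil])
  obtain ⟨j, t⟩ := z
  obtain rfl : t = 0 := h1.1
  exact ⟨j, rfl, (h.of_on h1).1⟩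

/-- The state of unit `j` lies in `U_j`. -/
theorem FusSpec.inU (h : FusSpec S (QF U b R) T r) {w : ℕ → ℕ} (hw : T.World w) (j : ℕ) :
    U.inU j (w (T.fr j)) := by
  have := hw.1 _ (Or.inl (T.free_fr j))
  rwa [(h.main j).1] at this

/-- Every embedding is the table of arbitrarily large annotated units. -/
theorem FusSpec.rich (h : FusSpec S (QF U b R) T r) {b1 : ℕ} {e : List ℕ} (n : ℕ)
    (he : U.Emb b b1 (tb e)) : ∃ j k1, (r (j, 0)).2.2.1 ≠ [] ∧ n ≤ T.fr j ∧
      U.Hom b1 (T.bud (T.fr j)) (tb k1) ∧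
      U.Agr b (tb (r (j, 0)).2.2.1) (fun p => tb k1 (tb e p)) ∧ T.PV n (r (j, 0)).2.1 := by
  obtain ⟨i0, hi⟩ := T.fr_big n
  obtain ⟨j, h1, h2, h3⟩ := exists_unit e (max i0 (max b1 n))
  have ho : On U b (j, 0) := ⟨rfl, h2, h3 ▸ he.mono (by show b1 ≤ j; omega)⟩
  obtain ⟨n', h4, _, h5⟩ := h.fam (j, 0)
  have h6 : S.PV n (r (j, 0)).2.1 := h5.mono (by have : j ≤ n' := h4; omega)
  refine ⟨j, tab (U.bd b1) fun p => p, (h.of_on ho).1, hi j (by omega), ?_, fun p hp => ?_,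
    fun g hg => ⟨(h6.1 g hg).1, Or.inr (h.kept _ g hg)⟩, fun g hg => ?_, fun g hg => ?_⟩
  · rw [(h.main j).1]
    exact (Uni.emb_id (by omega)).hom.congr (Uni.agr_tab b1 _)
  · rw [(h.of_on ho).2, h3]
    exact (Uni.agr_tab b1 (fun p => p) _ (he.1 p hp)).symm
  · by_cases e0 : tb (r (j, 0)).2.1 g = 0
    · rw [e0]; exact U.in_zero _
    · exact absurd (h.kept _ g e0) (Sys.not_mark hg)
  · rw [(h.mark g hg).2.2.1]; exact h6.2.2 g (h.mark g hg).1

/-- A world whose unit `j` is above `q` is above the world of the family at `q`. -/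
theorem FusSpec.cut_le (h : FusSpec S (QF U b R) T r) {w : ℕ → ℕ} (hw : T.World w) {j q : ℕ}
    (hq : U.inU j q) (hle : U.lab q (w (T.fr j)) = ⊤) :
    U.Le (S.mkW (cut (r (j, 0)).1 q)) w := by
  obtain ⟨n, _, h3, _⟩ := h.fam (j, 0)
  refine Sys.mkW_le (h3.valid hq) (h.ext.world w hw) fun g _ => ?_
  by_cases e : row (r (j, 0)).1 g = []
  · rw [cut_of_row e]; exact U.zero_le _
  · rw [h.dep w (j, 0) g hw e]
    exact top_unique (hle ▸ h3.lab hq (h.inU hw j) g)

/-- Finitely many old live gadgets depend on a new live gadget. -/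
theorem FusSpec.dep_fin (h : FusSpec S (QF U b R) T r) (v : ℕ) : ∃ n, ∀ g p q, S.Live g →
    U.inU (T.bud v) p → U.inU (T.bud v) q → T.mkW (Function.update (fun _ => 0) v p) g ≠
      T.mkW (Function.update (fun _ => 0) v q) g → g < n := by
  refine ⟨max (v + 1) (r (T.idx v, 0)).1.length, fun g p q hg hp hq hne => ?_⟩
  have vp := Sys.valid_one hp
  have vq := Sys.valid_one hq
  have key : ∀ u, T.Live u → u ≠ v → T.mkW (Function.update (fun _ => 0) v p) u =
      T.mkW (Function.update (fun _ => 0) v q) u := fun u hu e => by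
    rw [Sys.mkW_live vp hu, Sys.mkW_live vq hu, Function.update_of_ne e, Function.update_of_ne e]
  by_cases hl : T.Live g
  · have : g = v := by
      by_contra e
      exact hne (key g hl e)
    omega
  have : ∃ z, row (r z).1 g ≠ [] := by
    by_cases e : T.mkW (Function.update (fun _ => 0) v p) g = 0
    · exact (h.rest _ g (Sys.mkW_world vq) hg fun e' => hne (e.trans e'.symm)).resolve_left hl
    · exact (h.rest _ g (Sys.mkW_world vp) hg e).resolve_left hl
  obtain ⟨z, hz⟩ := this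
  obtain ⟨j, rfl, _⟩ := h.of_row hz
  have : T.fr j = v := by
    by_contra e
    apply hne
    rw [h.dep _ _ g (Sys.mkW_world vp) hz, h.dep _ _ g (Sys.mkW_world vq) hz,
      key _ (Or.inl (T.free_fr j)) e]
  have h1 := lt_of_row_ne hz
  rw [← this, T.idx_fr]
  omega

end

end MP750S

end

section

/-! Four uses of the universality of the labelled structure. -/

set_option autoImplicit false
set_option linter.unusedSectionVars false

namespace MP750S

variable {M : Type} [Lattice M] [BoundedOrder M] [Primcodable M] [Finite M] {U : Uni M}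

/-- The points of `U_b`. -/
abbrev v_Ub (U : Uni M) (b : ℕ) : Type := {q : ℕ // U.inU b q}

omit [Finite M] in
theorem v_fin (b : ℕ) : Finite (v_Ub U b) :=
  Finite.of_injective (fun q : v_Ub U b => (⟨q.1, U.in_lt b q.1 q.2⟩ : Fin (U.bd b)))
    fun _ _ h => Subtype.ext (congrArg Fin.val h)

open Classical in
/-- Extension by `0` of a map on `U_b`. -/
noncomputable def v_ext {b : ℕ} (i : v_Ub U b → ℕ) (p : ℕ) : ℕ :=
  if h : U.inU b p then i ⟨p, h⟩ else 0

omit [Finite M] in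
theorem v_ext_eq {b : ℕ} (i : v_Ub U b → ℕ) {p : ℕ} (h : U.inU b p) :
    v_ext i p = i ⟨p, h⟩ := by
  simp [v_ext, h]

omit [Finite M] in
theorem v_emb {b b' : ℕ} (i : v_Ub U b → ℕ) (h1 : ∀ q, U.inU b' (i q))
    (h2 : ∀ p q, U.lab (i p) (i q) = U.lab p.1 q.1) : U.Emb b b' (v_ext i) :=
  ⟨fun p hp => by rw [v_ext_eq i hp]; exact h1 _,
    fun p q hp hq => by rw [v_ext_eq i hp, v_ext_eq i hq, h2]⟩

omit [Finite M] in
theorem v_hom {b b' : ℕ} {f : ℕ → ℕ} (h : U.Emb b b' f) : U.Hom b b' f :=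
  ⟨h.1, fun p q hp hq => (h.2 p q hp hq).ge⟩

/-- A labelled structure. -/
structure v_Str {Q : Type} (l : Q → Q → M) : Prop where
  refl : ∀ q, l q q = ⊤
  trans : ∀ p q r, l p q ⊓ l q r ≤ l p r
  anti : ∀ p q, l p q ≠ ⊥ → l q p ≠ ⊥ → p = q

omit [Finite M] in
theorem v_real {Q : Type} [Finite Q] {l : Q → Q → M} (h : v_Str l) (q0 : Q) :
    ∃ (b : ℕ) (i : Q → ℕ), (∀ q, U.inU b (i q)) ∧ ∀ p q, U.lab (i p) (i q) = l p q := by
  have := Fintype.ofFinite Q
  obtain ⟨b0, hb⟩ := U.univ Q l q0 h.refl h.trans h.anti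
  obtain ⟨i, h1, h2, -⟩ := hb b0 le_rfl
  exact ⟨b0 + 2, i, h1, h2⟩

omit [Finite M] in
theorem v_str (b : ℕ) : v_Str fun p q : v_Ub U b => U.lab p.1 q.1 :=
  ⟨fun _ => U.refl _, fun _ _ _ => U.trans _ _ _, fun _ _ h h' => Subtype.ext (U.anti _ _ h h')⟩

/-- Labels on a disjoint union. -/
def v_glue {P Q : Type} (lP : P → P → M) (lQ : Q → Q → M) (f : P → Q → M) (g : Q → P → M) :
    P ⊕ Q → P ⊕ Q → M
  | .inl p, .inl p' => lP p p'
  | .inl p, .inr q => f p q
  | .inr q, .inl p => g q p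
  | .inr q, .inr q' => lQ q q'

omit [Primcodable M] [Finite M] in
theorem v_glue_str {P Q : Type} {lP : P → P → M} {lQ : Q → Q → M} {f : P → Q → M}
    {g : Q → P → M} (hP : v_Str lP) (hQ : v_Str lQ)
    (f1 : ∀ p p' q, lP p p' ⊓ f p' q ≤ f p q) (f2 : ∀ p q q', f p q ⊓ lQ q q' ≤ f p q')
    (g1 : ∀ q q' p, lQ q q' ⊓ g q' p ≤ g q p) (g2 : ∀ q p p', g q p ⊓ lP p p' ≤ g q p')
    (fg : ∀ p q p', f p q ⊓ g q p' ≤ lP p p') (gf : ∀ q p q', g q p ⊓ f p q' ≤ lQ q q')
    (an : ∀ p q, f p q = ⊥ ∨ g q p = ⊥) : v_Str (v_glue lP lQ f g) := by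
  refine ⟨?_, ?_, ?_⟩
  · rintro (p | p)
    exacts [hP.refl p, hQ.refl p]
  · rintro (p | p) (q | q) (r | r)
    exacts [hP.trans p q r, f1 p q r, fg p q r, f2 p q r, g2 p q r, gf p q r, g1 p q r,
      hQ.trans p q r]
  · rintro (p | p) (q | q) h h'
    · exact congrArg _ (hP.anti p q h h')
    · exact ((an p q).elim h h').elim
    · exact ((an q p).elim h' h).elim
    · exact congrArg _ (hQ.anti p q h h')

omit [Primcodable M] [Finite M] in
/-- One-way gluing. -/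
theorem v_series {P Q : Type} {lP : P → P → M} {lQ : Q → Q → M} {f : P → Q → M}
    (hP : v_Str lP) (hQ : v_Str lQ) (f1 : ∀ p p' q, lP p p' ⊓ f p' q ≤ f p q)
    (f2 : ∀ p q q', f p q ⊓ lQ q q' ≤ f p q') : v_Str (v_glue lP lQ f fun _ _ => ⊥) :=
  v_glue_str hP hQ f1 f2 (fun _ _ _ => inf_le_right) (fun _ _ _ => inf_le_left)
    (fun _ _ _ => inf_le_right.trans bot_le) (fun _ _ _ => inf_le_left.trans bot_le)
    fun _ _ => Or.inr rfl

omit [Primcodable M] [Finite M] in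
theorem v_unit : v_Str fun _ _ : Unit => (⊤ : M) :=
  ⟨fun _ => rfl, fun _ _ _ => le_top, fun _ _ _ _ => rfl⟩

omit [Primcodable M] [Finite M] in
/-- A new point below `a` and a new point above `c`, joined by the label `d`. -/
theorem v_cap {R : Type} {l : R → R → M} (h : v_Str l) (a c : R) {d : M} (hd : l a c ≤ d) :
    v_Str (v_glue (v_glue (fun _ _ : Unit => (⊤ : M)) l (fun _ r => l a r) fun _ _ => ⊥)
      (fun _ _ : Unit => (⊤ : M)) (fun r _ => Sum.elim (fun _ => d) (fun r => l r c) r)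
      fun _ _ => ⊥) := by
  refine v_series (v_series v_unit h (fun _ _ _ => inf_le_right) fun _ q q' => h.trans a q q')
    v_unit ?_ fun _ _ _ => inf_le_left
  rintro (p | p) (q | q) _
  · exact inf_le_right
  · exact (h.trans a q c).trans hd
  · exact inf_le_left.trans bot_le
  · exact h.trans p q c

omit [Finite M] in
theorem v_tA (u v w : ℕ) (z : M) : U.lab u v ⊓ (U.lab v w ⊓ z) ≤ U.lab u w ⊓ z := by
  rw [← inf_assoc]
  exact inf_le_inf_right z (U.trans u v w)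

omit [Finite M] in
theorem v_tB (u v w : ℕ) (z : M) : (z ⊓ U.lab u v) ⊓ U.lab v w ≤ z ⊓ U.lab u w := by
  rw [inf_assoc]
  exact inf_le_inf_left z (U.trans u v w)

omit [Finite M] in
theorem v_tC (u v w : ℕ) (y z : M) :
    (y ⊓ U.lab u v) ⊓ (U.lab v w ⊓ z) ≤ y ⊓ U.lab u w ⊓ z := by
  rw [← inf_assoc]
  exact inf_le_inf_right z (v_tB u v w y)

theorem stV0 : StV0 U := by
  intro d
  have h := v_series (f := fun _ _ => d) (v_unit (M := M)) v_unit
    (fun _ _ _ => inf_le_right) fun _ _ _ => inf_le_left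
  obtain ⟨b, i, h1, h2⟩ := v_real (U := U) h (.inl ())
  exact ⟨b, i (.inl ()), i (.inr ()), h1 _, h1 _, h2 _ _⟩

theorem stV1 : StV1 U := by
  intro b' s hs
  have := v_fin (U := U) b'
  have := Fintype.ofFinite (v_Ub U b')
  have h := v_str (U := U) b'
  obtain ⟨b0, hb⟩ := U.univ (v_Ub U b') _ ⟨s, hs⟩ h.refl h.trans h.anti
  refine ⟨b0 + 2, fun b hle => ?_⟩
  obtain ⟨i, h1, h2, h3⟩ := hb (b - 2) (by omega)
  rw [show b - 2 + 2 = b by omega] at h1
  refine ⟨v_ext i, v_hom (v_emb i h1 h2), fun v hv => ?_, fun q hq => ?_⟩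
  · by_cases h0 : v = 0
    · rw [h0]; exact U.zero_le _
    · rw [v_ext_eq i hs, h3 v _ hv h0]; exact U.refl s
  · rw [v_ext_eq i hq, h3 _ _ (U.in_mono 0 _ _ (Nat.zero_le _) (U.in_top 0)) U.top_ne]

theorem stV2 : StV2 U := by
  intro i b s t v0 t0 d hs ht hv0 ht0 hd
  have := v_fin (U := U) i
  have := v_fin (U := U) b
  have hR := v_series (f := fun (x : v_Ub U i) (y : v_Ub U b) => U.lab x.1 t ⊓ U.lab v0 y.1)
    (v_str (U := U) i) (v_str b) (fun _ _ _ => v_tA _ _ _ _) fun _ _ _ => v_tB _ _ _ _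
  have hT := v_cap hR (.inl ⟨s, hs⟩) (.inr ⟨t0, ht0⟩) hd
  obtain ⟨b1, j, h1, h2⟩ := v_real (U := U) hT (.inr ())
  refine ⟨b1, v_ext fun x => j (.inl (.inr (.inl x))), v_ext fun y => j (.inl (.inr (.inr y))),
    j (.inl (.inl ())), j (.inr ()), v_hom (v_emb _ (fun _ => h1 _) fun _ _ => h2 _ _),
    v_hom (v_emb _ (fun _ => h1 _) fun _ _ => h2 _ _), h1 _, h1 _, ?_, ?_, ?_, h2 _ _⟩
  · rw [v_ext_eq _ hs, h2]
    exact U.refl s
  · rw [v_ext_eq _ ht, v_ext_eq _ hv0, h2]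
    exact inf_eq_top_iff.2 ⟨U.refl t, U.refl v0⟩
  · rw [v_ext_eq _ ht0, h2]
    exact U.refl t0

theorem stV3 : StV3 U := by
  intro b1 i x y s' t' hx hy hs ht h0 hle
  have := v_fin (U := U) b1
  have := v_fin (U := U) i
  have h := v_glue_str (f := fun (u : v_Ub U b1) (q : v_Ub U i) => U.lab u.1 x ⊓ U.lab s' q.1)
    (g := fun q u => U.lab q.1 t' ⊓ U.lab y u.1) (v_str (U := U) b1) (v_str i)
    (fun _ _ _ => v_tA _ _ _ _) (fun _ _ _ => v_tB _ _ _ _)
    (fun _ _ _ => v_tA _ _ _ _) (fun _ _ _ => v_tB _ _ _ _)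
    (fun u _ u' => (v_tC _ _ _ _ _).trans ((inf_le_inf_right _
      ((inf_le_inf_left _ hle).trans (U.trans u.1 x y))).trans (U.trans u.1 y u'.1)))
    (fun _ _ _ => (v_tC _ _ _ _ _).trans
      ((inf_le_left.trans inf_le_right).trans (h0.le.trans bot_le)))
    (fun u q => by
      rcases U.prime _ _ (le_bot_iff.1 ((U.trans y u.1 x).trans h0.le)) with h | h
      · exact Or.inr (by rw [h, inf_bot_eq])
      · exact Or.inl (by rw [h, bot_inf_eq]))
  obtain ⟨b2, j, h1, h2⟩ := v_real (U := U) h (.inl ⟨x, hx⟩)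
  refine ⟨b2, v_ext fun u => j (.inl u), v_ext fun q => j (.inr q),
    v_emb _ (fun _ => h1 _) fun _ _ => h2 _ _,
    v_hom (v_emb _ (fun _ => h1 _) fun _ _ => h2 _ _), ?_, ?_⟩
  · rw [v_ext_eq _ hx, v_ext_eq _ hs, h2]
    exact inf_eq_top_iff.2 ⟨U.refl x, U.refl s'⟩
  · rw [v_ext_eq _ ht, v_ext_eq _ hy, h2]
    exact inf_eq_top_iff.2 ⟨U.refl t', U.refl y⟩

end MP750S

end

section

set_option autoImplicit false
set_option linter.unusedSectionVars false

namespace MP750S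

open Classical

variable {M : Type} [Lattice M] [BoundedOrder M] [Primcodable M] [Finite M] {U : Uni M}

/-- Live gadgets after a commitment. -/
def com_L (S : Sys U) (i0 n g : ℕ) : Prop :=
  (S.Free g ∧ ¬ S.idx g < i0) ∨ (S.Mark g ∧ ¬ g < n)

omit [Finite M] in
theorem com_free (S : Sys U) (i0 g : ℕ) :
    S.fr (S.idx g - i0 + i0) = g ↔ S.Free g ∧ ¬ S.idx g < i0 := by
  constructor
  · intro h
    have h1 := congrArg S.idx h
    rw [S.idx_fr] at h1
    rw [h1] at h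
    exact ⟨h, by omega⟩
  · rintro ⟨h1, h2⟩
    rw [Nat.sub_add_cancel (not_lt.1 h2)]
    exact h1

omit [Finite M] in
theorem com_mark (S : Sys U) (n g : ℕ) :
    (if g < n then ⊥ else S.lev g) ≠ ⊥ ↔ S.Mark g ∧ ¬ g < n := by
  split_ifs with h
  · simp [h]
  · exact ⟨fun h1 => ⟨h1, h⟩, fun h1 => h1.1⟩

theorem stCom (h : StRef U) : StCom U := by
  intro S W n hW hn hl
  obtain ⟨i0, hi⟩ := S.fr_big n
  have key : ∀ g, (S.fr (S.idx g - i0 + i0) = g ∨ (if g < n then ⊥ else S.lev g) ≠ ⊥) ↔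
      com_L S i0 n g := fun g => or_congr (com_free S i0 g) (com_mark S n g)
  have big : ∀ g, com_L S i0 n g → n ≤ g := fun g hg =>
    hg.elim (fun h1 => by
      have := hi _ (not_lt.1 h1.2)
      rwa [show S.fr (S.idx g) = g from h1.1] at this) fun h1 => not_lt.1 h1.2
  have bl : ∀ g, (if S.Mark g then S.bud g - n else S.bud g) ≤ S.bud g := fun g => by
    split_ifs <;> omega
  have cL : ComputablePred (com_L S i0 n) := by
    unfold com_L
    fun_prop
  let R : RefD S :=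
    { fr := fun i => S.fr (i + i0)
      idx := fun g => S.idx g - i0
      lev := fun g => if g < n then ⊥ else S.lev g
      bud := fun g => if S.Mark g then S.bud g - n else S.bud g
      par := fun g => if com_L S i0 n g then g else S.fr i0
      hom := fun g u => if com_L S i0 n g then u else tb W g
      c_fr := by fun_prop
      c_idx := by fun_prop
      c_lev := by fun_prop
      c_bud := by fun_prop
      c_par := by fun_prop
      c_hom := by fun_prop
      idx_fr := fun i => by rw [S.idx_fr]; omega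
      free := fun i => S.free_fr _
      mark := fun g hg => if_neg ((com_mark S n g).1 hg).2
      bud_le := fun g _ => bl g
      bud_fr := fun i => by
        rw [if_neg (Sys.not_mark (S.free_fr _))]
        exact (Nat.le_add_right _ _).trans (S.bud_fr _)
      bud_big := fun k => by
        obtain ⟨n', h1⟩ := S.bud_big (k + n)
        refine ⟨n', fun g h2 h3 => ?_⟩
        have h4 := ((com_mark S n g).1 h3).1
        have := h1 g h2 (Or.inr h4)
        rw [if_pos h4]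
        omega
      par_live := fun g _ => (key _).2 (by
        split_ifs with h1
        · exact h1
        · exact Or.inl ⟨S.free_fr _, by rw [S.idx_fr]; omega⟩)
      hom_hom := fun g hg => by
        by_cases h1 : com_L S i0 n g
        · simp only [if_pos h1]
          exact (Uni.emb_id (bl g)).hom
        · simp only [if_neg h1]
          exact Uni.hom_const (hW.valid g hg)
      keep := fun g hg => ⟨if_pos ((key g).1 hg), fun _ _ => if_pos ((key g).1 hg)⟩
      grp_inf := fun c k hc => by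
        obtain ⟨m, h1, h2, h3⟩ := S.grp_inf c (max k n) hc
        exact ⟨m, by omega, (com_mark S n m).2 ⟨h2, by omega⟩, h3⟩
      legal := fun x _ m hm h0 _ => by
        have h1 : ¬ com_L S i0 n m := fun h1 =>
          (com_mark S n m).2 ⟨hm, not_lt.2 (big m h1)⟩ h0
        refine ⟨W.length, tb W, fun g => ?_, (if_neg h1).symm, fun g hg => tb_ge hg, hl⟩
        by_cases e : tb W g = 0
        · exact Or.inl e
        · refine Or.inr ⟨(hW.1 g e).2, (if_neg fun h2 => ?_).symm⟩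
          have := big g h2
          have := lt_of_tb_ne e
          omega }
  obtain ⟨T, hT⟩ := h S R
  have tf : ∀ g, T.Free g ↔ S.Free g ∧ ¬ S.idx g < i0 := fun g => by
    unfold Dat.Free
    rw [hT.fr, hT.idx]
    exact com_free S i0 g
  have tm : ∀ g, T.Mark g ↔ S.Mark g ∧ ¬ g < n := fun g => by
    unfold Dat.Mark
    rw [hT.lev]
    exact com_mark S n g
  have tl : ∀ g, T.Live g ↔ com_L S i0 n g := fun g => or_congr (tf g) (tm g)
  refine ⟨T, hT.ext, hT.sup, fun g => by rw [tm, not_lt], fun g hg => ?_, fun g hg => ?_, ?_,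
    fun w => ?_⟩
  · rw [hT.lev, hT.bud]
    exact ⟨if_neg ((tm g).1 hg).2, if_pos ((tm g).1 hg).1⟩
  · rw [hT.bud]
    exact ⟨big g (Or.inl ((tf g).1 hg)), if_neg (Sys.not_mark ((tf g).1 hg).1)⟩
  · obtain ⟨g0, h1⟩ := S.idx_big i0
    exact ⟨g0, fun g h2 h3 => (tf g).2 ⟨h3, not_lt.2 (h1 _ (by
      rwa [show S.fr (S.idx g) = g from h3]))⟩⟩
  · rw [hT.world]
    refine and_congr_right fun _ => and_congr_right fun _ =>
      forall_congr' fun g => imp_congr_right fun _ => ?_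
    rw [tl]
    by_cases h1 : com_L S i0 n g
    · simp [R, h1]
    · simp [R, h1]

/-- Live gadgets of the copy. -/
def com_K (S : Sys U) (g : ℕ) : Prop := (S.Free g ∧ S.idx g % 2 = 0) ∨ S.Mark g

/-- Gadgets that copy a marker. -/
def com_C (S : Sys U) (g : ℕ) : Prop := S.Free g ∧ S.Mark (S.idx g / 2).unpair.1 ∧
  (S.idx g / 2).unpair.2 = S.bud (S.idx g / 2).unpair.1

omit [Finite M] in
theorem com_even (S : Sys U) (g : ℕ) :
    S.fr (2 * (S.idx g / 2)) = g ↔ S.Free g ∧ S.idx g % 2 = 0 := by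
  constructor
  · intro h
    have h1 := congrArg S.idx h
    rw [S.idx_fr] at h1
    rw [h1] at h
    exact ⟨h, by omega⟩
  · rintro ⟨h1, h2⟩
    rw [show 2 * (S.idx g / 2) = S.idx g by omega]
    exact h1

theorem stCopy (h : StRef U) : StCopy U := by
  intro S
  have key : ∀ g, (S.fr (2 * (S.idx g / 2)) = g ∨ S.lev g ≠ ⊥) ↔ com_K S g := fun g =>
    or_congr (com_even S g) Iff.rfl
  have cK : ComputablePred (com_K S) := by
    unfold com_K
    fun_prop
  have cC : ComputablePred (com_C S) := by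
    unfold com_C
    fun_prop
  let R : RefD S :=
    { fr := fun i => S.fr (2 * i)
      idx := fun g => S.idx g / 2
      lev := S.lev
      bud := S.bud
      par := fun g => if com_K S g then g else if com_C S g then (S.idx g / 2).unpair.1 else S.fr 0
      hom := fun g u => if com_K S g then u else if com_C S g then u else 0
      c_fr := by fun_prop
      c_idx := by fun_prop
      c_lev := S.c_lev
      c_bud := S.c_bud
      c_par := by fun_prop
      c_hom := by fun_prop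
      idx_fr := fun i => by rw [S.idx_fr]; omega
      free := fun i => S.free_fr _
      mark := fun _ _ => rfl
      bud_le := fun _ _ => le_rfl
      bud_fr := fun i => le_trans (by omega) (S.bud_fr _)
      bud_big := fun k => (S.bud_big k).imp fun _ h1 g h2 h3 => h1 g h2 (Or.inr h3)
      par_live := fun g _ => (key _).2 (by
        split_ifs with h1 h2
        · exact h1
        · exact Or.inr h2.2.1
        · exact Or.inl ⟨S.free_fr _, by rw [S.idx_fr]⟩)
      hom_hom := fun g hg => by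
        by_cases h1 : com_K S g
        · simp only [if_pos h1]
          exact (Uni.emb_id le_rfl).hom
        by_cases h2 : com_C S g
        · simp only [if_neg h1, if_pos h2]
          refine (Uni.emb_id ?_).hom
          have a := S.bud_fr (S.idx g)
          rw [show S.fr (S.idx g) = g from h2.1] at a
          have b := Nat.unpair_right_le (S.idx g / 2)
          have c := h2.2.2
          omega
        · simp only [if_neg h1, if_neg h2]
          exact Uni.hom_const (U.in_zero _)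
      keep := fun g hg => ⟨if_pos ((key g).1 hg), fun _ _ => if_pos ((key g).1 hg)⟩
      grp_inf := S.grp_inf
      legal := fun _ _ m hm h0 _ => absurd h0 hm }
  obtain ⟨T, hT⟩ := h S R
  refine ⟨T, fun v => if S.Mark v then S.fr (2 * Nat.pair v (S.bud v) + 1) else v, hT.ext,
    by fun_prop, fun v hv => ?_, fun v w _ hw => ?_⟩
  · rw [hT.bud]
    beta_reduce
    split_ifs with h1
    · refine ⟨S.free_fr _, le_trans ?_ (S.bud_fr _)⟩
      have := Nat.right_le_pair v (S.bud v)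
      show S.bud v ≤ _
      omega
    · exact ⟨(hT.ext.live hv).resolve_right h1, le_rfl⟩
  · beta_reduce
    split_ifs with h1
    · have e : (2 * Nat.pair v (S.bud v) + 1) / 2 = Nat.pair v (S.bud v) := by omega
      have h2 : ¬ com_K S (S.fr (2 * Nat.pair v (S.bud v) + 1)) := fun h2 =>
        h2.elim (fun h3 => by
          have := h3.2
          rw [S.idx_fr] at this
          omega) (Sys.not_mark (S.free_fr _))
      have h3 : com_C S (S.fr (2 * Nat.pair v (S.bud v) + 1)) := by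
        refine ⟨S.free_fr _, ?_, ?_⟩ <;> rw [S.idx_fr, e, Nat.unpair_pair]
        exact h1
      rw [((hT.world w).1 hw).2.2 _ (Or.inl (S.free_fr _))]
      simp only [R, if_neg h2, if_pos h3, S.idx_fr, e, Nat.unpair_pair]
    · rfl

theorem stStep (h : StCom U) : StStep U := by
  intro S n c
  obtain ⟨W, h1, h2, h3⟩ : ∃ W, S.PV 0 W ∧ S.Leg ∅ (S.mkW (tb W)) ∧
      ((∃ m, S.Mark m ∧ S.grp m = c ∧ m ∈ app S.sup (U.B ⊤ (S.mkW fun _ => 0))) →
        ∃ m, S.Mark m ∧ S.grp m = c ∧ m < W.length ∧ U.lab (U.top 0) (tb W m) = ⊤) := by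
    by_cases e : ∃ m, S.Mark m ∧ S.grp m = c ∧ m ∈ app S.sup (U.B ⊤ (S.mkW fun _ => 0))
    · obtain ⟨m, a1, a2, a3⟩ := e
      have e1 : tb (tab (m + 1) fun g => if g = m then U.top (S.bud m) else 0) =
          fun g => if g = m then U.top (S.bud m) else 0 :=
        tb_tab_eq fun g hg => if_neg (by omega)
      have e2 : ∀ g, U.inU (S.bud g) (if g = m then U.top (S.bud m) else 0) := fun g => by
        split_ifs with a4
        · rw [a4]; exact U.in_top _
        · exact U.in_zero _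
      refine ⟨tab (m + 1) fun g => if g = m then U.top (S.bud m) else 0,
        ⟨fun g hg => ⟨Nat.zero_le _, ?_⟩, fun g _ => ?_, fun g _ => ?_⟩, ?_,
        fun _ => ⟨m, a1, a2, by rw [tab_length]; omega, ?_⟩⟩
      all_goals rw [e1] at *
      · by_cases a4 : g = m
        · exact a4 ▸ Or.inr a1
        · exact absurd (if_neg a4) hg
      · exact e2 g
      · exact e2 g
      · refine Sys.leg_mkW (fun g _ => e2 g) fun g hg _ hf => ?_
        by_cases a4 : g = m
        · rw [a4]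
          exact app_mono ((Sys.mkW_mono Sys.valid_zero (fun g _ => e2 g)
            fun _ _ => U.zero_le _).B ⊤) a3
        · rw [if_neg a4] at hf
          exact absurd hf (U.not_fired_zero hg)
      · show U.lab _ (if m = m then _ else _) = ⊤
        rw [if_pos rfl]
        exact U.le_top _ _ (U.in_mono 0 _ _ (Nat.zero_le _) (U.in_top 0))
    · exact ⟨[], Sys.pv_nil 0, Sys.leg_of_zero (Sys.pv_nil 0).valid fun _ _ => tb_nil _,
        fun a => absurd a e⟩
  obtain ⟨T, hT⟩ := h S W (max W.length ((Finset.range n).sup S.par + 1)) h1 (le_max_left _ _) h2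
  refine ⟨T, hT.ext, fun w w' g hw hw' hg => ?_, fun a => ?_⟩
  · have a1 : ¬ T.Live (S.par g) := fun a1 => by
      have b1 := hT.live a1
      have b2 := Finset.le_sup (f := S.par) (Finset.mem_range.2 hg)
      omega
    obtain ⟨b1, -, b2⟩ := (hT.world w).1 hw
    obtain ⟨c1, -, c2⟩ := (hT.world w').1 hw'
    rw [b1.2 g, c1.2 g, b2 _ (S.par_live g) a1, c2 _ (S.par_live g) a1]
  · obtain ⟨m, a1, a2, a3, a4⟩ := h3 a
    refine ⟨m, a1, a2, fun w hw => ?_⟩
    rw [((hT.world w).1 hw).2.2 m (Or.inr a1) fun b => by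
      have := hT.live b
      omega]
    exact a4

end MP750S

end

section

/-! Activation of an operator and release of the new markers. -/

set_option autoImplicit false

namespace MP750S

open Classical

variable {M : Type} [Lattice M] [BoundedOrder M] [Primcodable M] [Finite M] {U : Uni M}

section
omit [Finite M]

theorem act_notProt (N x : ℕ) : ¬ Prot N (Nat.pair N x + 1) := fun h => by
  have := h.2
  simp at this

theorem act_prot (N x : ℕ) : Prot (N + 1) (Nat.pair N x + 1) := ⟨by omega, by simp⟩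

theorem act_notZ {S : Sys U} {m : ℕ} (h : S.Mark m) : ¬ S.InZ m :=
  fun hz => Sys.not_mark hz.1 h

theorem act_notZ_grp {S : Sys U} {m : ℕ} (h : S.grp m ≠ 0) : ¬ S.InZ m :=
  fun hz => h (S.grp_free m hz.1)

/-- The new marker attached to `x` with index `k`. -/
theorem act_unit (S : Sys U) (x k : ℕ) : S.InZ (S.fr (2 * Nat.pair x k + 1)) ∧
    S.xof (S.fr (2 * Nat.pair x k + 1)) = x := by
  refine ⟨⟨S.free_fr _, by rw [S.idx_fr]; omega⟩, ?_⟩
  unfold Sys.xof
  rw [S.idx_fr, show (2 * Nat.pair x k + 1) / 2 = Nat.pair x k by omega, Nat.unpair_pair]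

theorem act_mark_of {S : Sys U} {D : Dat M} {a : M} (ha : a ≠ ⊥)
    (h1 : ∀ g, S.InZ g → D.lev g = a) (h2 : ∀ g, ¬ S.InZ g → D.lev g = S.lev g) (g : ℕ) :
    D.Mark g ↔ S.InZ g ∨ S.Mark g := by
  unfold Dat.Mark
  by_cases hz : S.InZ g
  · rw [h1 g hz]
    exact ⟨fun _ => Or.inl hz, fun _ => ha⟩
  · rw [h2 g hz]
    exact ⟨Or.inr, fun h => h.resolve_left hz⟩

theorem act_live_of {S : Sys U} {D : Dat M}
    (hf : ∀ g, D.Free g ↔ S.Free g ∧ S.idx g % 2 = 0)
    (hm : ∀ g, D.Mark g ↔ S.InZ g ∨ S.Mark g) (g : ℕ) : D.Live g ↔ S.Live g := by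
  unfold Dat.Live
  rw [hf, hm]
  refine ⟨fun h => h.elim (fun h1 => Or.inl h1.1) fun h1 => h1.elim (fun h2 => Or.inl h2.1) Or.inr,
    fun h => h.elim (fun h1 => ?_) fun h1 => Or.inr (Or.inr h1)⟩
  rcases Nat.mod_two_eq_zero_or_one (S.idx g) with e | e
  · exact Or.inl ⟨h1, e⟩
  · exact Or.inr (Or.inl ⟨h1, e⟩)

/-- The data of an activation. -/
noncomputable def act_dat (S : Sys U) (P : ℕ × List ℕ → Prop) (a : M) : Dat M where
  fr i := S.fr (2 * i)
  idx g := S.idx g / 2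
  lev g := if S.InZ g then a else S.lev g
  bud := S.bud
  par := S.par
  hom := S.hom
  sup z := (S.InZ z.1 ∧ P (S.xof z.1, z.2)) ∨ (¬ S.InZ z.1 ∧ S.sup (z.1, z.2))
  grp g := if S.InZ g then Nat.pair S.N (S.xof g) + 1 else S.grp g
  N := S.N + 1

theorem act_dat_free (S : Sys U) (P : ℕ × List ℕ → Prop) (a : M) (g : ℕ) :
    (act_dat S P a).Free g ↔ S.Free g ∧ S.idx g % 2 = 0 := by
  show S.fr (2 * (S.idx g / 2)) = g ↔ _
  refine ⟨fun h => ⟨h ▸ S.free_fr _, ?_⟩, fun h => ?_⟩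
  · have := S.idx_fr (2 * (S.idx g / 2))
    rw [h] at this
    omega
  · rw [show 2 * (S.idx g / 2) = S.idx g by have := h.2; omega]
    exact h.1

theorem act_dat_in (S : Sys U) (P : ℕ × List ℕ → Prop) (a : M) {g : ℕ} (hz : S.InZ g) :
    (act_dat S P a).lev g = a ∧ (act_dat S P a).grp g = Nat.pair S.N (S.xof g) + 1 ∧
      ∀ F, (act_dat S P a).sup (g, F) ↔ P (S.xof g, F) :=
  ⟨if_pos hz, if_pos hz, fun _ =>
    ⟨fun h => h.elim (fun h1 => h1.2) fun h1 => absurd hz h1.1, fun h => Or.inl ⟨hz, h⟩⟩⟩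

theorem act_dat_off (S : Sys U) (P : ℕ × List ℕ → Prop) (a : M) {g : ℕ} (hz : ¬ S.InZ g) :
    (act_dat S P a).lev g = S.lev g ∧ (act_dat S P a).grp g = S.grp g ∧
      ∀ F, (act_dat S P a).sup (g, F) ↔ S.sup (g, F) :=
  ⟨if_neg hz, if_neg hz, fun _ =>
    ⟨fun h => h.elim (fun h1 => absurd h1.1 hz) fun h1 => h1.2, fun h => Or.inr ⟨hz, h⟩⟩⟩

theorem act_dat_mark (S : Sys U) (P : ℕ × List ℕ → Prop) {a : M} (ha : a ≠ ⊥) (g : ℕ) :
    (act_dat S P a).Mark g ↔ S.InZ g ∨ S.Mark g :=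
  act_mark_of ha (fun _ hz => (act_dat_in S P a hz).1) (fun _ hz => (act_dat_off S P a hz).1) g

theorem act_dat_live (S : Sys U) (P : ℕ × List ℕ → Prop) {a : M} (ha : a ≠ ⊥) (g : ℕ) :
    (act_dat S P a).Live g ↔ S.Live g :=
  act_live_of (act_dat_free S P a) (act_dat_mark S P ha) g

theorem act_dat_even (S : Sys U) (P : ℕ × List ℕ → Prop) (a : M) {g : ℕ}
    (hg : (act_dat S P a).Free g) : ¬ S.InZ g := fun hz => by
  have := ((act_dat_free S P a g).1 hg).2
  have := hz.2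
  omega

/-- The activated system. -/
noncomputable def act_sys (S : Sys U) (P : ℕ × List ℕ → Prop) (a : M) (hP : REPred P)
    (ha : a ≠ ⊥) : Sys U where
  toDat := act_dat S P a
  c_fr := by
    show Computable fun i => S.fr (2 * i)
    fun_prop
  c_idx := by
    show Computable fun g => S.idx g / 2
    fun_prop
  c_lev := by
    show Computable fun g => if S.InZ g then a else S.lev g
    fun_prop
  c_bud := S.c_bud
  c_par := S.c_par
  c_hom := S.c_hom
  c_grp := by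
    show Computable fun g => if S.InZ g then Nat.pair S.N (S.xof g) + 1 else S.grp g
    fun_prop
  re_sup := by
    show REPred fun z : ℕ × List ℕ =>
      (S.InZ z.1 ∧ P (S.xof z.1, z.2)) ∨ (¬ S.InZ z.1 ∧ S.sup (z.1, z.2))
    exact r_or (r_and (by fun_prop) (r_comp hP (by fun_prop))) (by fun_prop)
  idx_fr i := by
    show S.idx (S.fr (2 * i)) / 2 = i
    rw [S.idx_fr]
    omega
  disj g hg := ((act_dat_off S P a (act_dat_even S P a hg)).1).trans
    (S.disj g ((act_dat_free S P a g).1 hg).1)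
  bud_fr i := (show i ≤ 2 * i by omega).trans (S.bud_fr _)
  bud_big k := by
    obtain ⟨n, hn⟩ := S.bud_big k
    exact ⟨n, fun g h1 h2 => hn g h1 ((act_dat_live S P ha g).1 h2)⟩
  par_live g := (act_dat_live S P ha _).2 (S.par_live g)
  par_self g hg := S.par_self g ((act_dat_live S P ha g).1 hg)
  hom_self g u hg := S.hom_self g u ((act_dat_live S P ha g).1 hg)
  hom_lab := S.hom_lab
  grp_free g hg := ((act_dat_off S P a (act_dat_even S P a hg)).2.1).trans
    (S.grp_free g ((act_dat_free S P a g).1 hg).1)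
  grp_lt g hg := by
    by_cases hz : S.InZ g
    · rw [(act_dat_in S P a hz).2.1]
      exact act_prot _ _
    · rw [(act_dat_off S P a hz).2.1] at hg ⊢
      exact (S.grp_lt g hg).mono (Nat.le_succ _)
  grp_inf c n hc := by
    by_cases h : (c - 1).unpair.1 < S.N
    · obtain ⟨m, h1, h2, h3⟩ := S.grp_inf c n ⟨hc.1, h⟩
      exact ⟨m, h1, (act_dat_mark S P ha m).2 (Or.inr h2),
        (act_dat_off S P a (act_notZ h2)).2.1.trans h3⟩
    · have h1 : (c - 1).unpair.1 < S.N + 1 := hc.2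
      have h2 : (c - 1).unpair.1 = S.N := by omega
      obtain ⟨i0, hi⟩ := S.fr_big n
      obtain ⟨h3, h4⟩ := act_unit S (c - 1).unpair.2 i0
      refine ⟨_, hi _ ?_, (act_dat_mark S P ha _).2 (Or.inl h3), ?_⟩
      · have := Nat.right_le_pair (c - 1).unpair.2 i0
        omega
      · rw [(act_dat_in S P a h3).2.1, h4, ← h2, Nat.pair_unpair]
        have := hc.1
        omega
  grp_sup m m' F hm hm' h0 he hs := by
    by_cases hz : S.InZ m
    · rw [(act_dat_in S P a hz).2.1] at he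
      by_cases hz' : S.InZ m'
      · rw [(act_dat_in S P a hz').2.1] at he
        have e : S.xof m = S.xof m' := (Nat.pair_eq_pair.1 (Nat.add_right_cancel he)).2
        exact ((act_dat_in S P a hz').2.2 F).2 (e ▸ ((act_dat_in S P a hz).2.2 F).1 hs)
      · rw [(act_dat_off S P a hz').2.1] at he
        exact absurd (he ▸ S.grp_lt m' (by omega)) (act_notProt S.N (S.xof m))
    · rw [(act_dat_off S P a hz).2.1] at he h0
      by_cases hz' : S.InZ m'
      · rw [(act_dat_in S P a hz').2.1] at he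
        exact absurd (he ▸ S.grp_lt m h0) (act_notProt S.N (S.xof m'))
      · rw [(act_dat_off S P a hz').2.1] at he
        exact ((act_dat_off S P a hz').2.2 F).2 (S.grp_sup m m' F
          (((act_dat_mark S P ha m).1 hm).resolve_left hz)
          (((act_dat_mark S P ha m').1 hm').resolve_left hz') h0 he
          (((act_dat_off S P a hz).2.2 F).1 hs))

variable {S T : Sys U} {P : ℕ × List ℕ → Prop} {a : M}

theorem act_mark (h : ActSpec S P a T) (g : ℕ) : T.Mark g ↔ S.InZ g ∨ S.Mark g :=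
  act_mark_of h.a_ne (fun g hz => (h.inZ g hz).1) (fun g hz => (h.off g hz).1) g

theorem act_live (h : ActSpec S P a T) (g : ℕ) : T.Live g ↔ S.Live g :=
  act_live_of h.free (act_mark h) g

theorem act_world (h : ActSpec S P a T) (w : ℕ → ℕ) : T.World w ↔ S.World w := by
  unfold Sys.World Sys.Valid
  simp only [act_live h, h.bud, h.hom, h.par]

/-- Legal worlds of the activated system are legal for the old one. -/
theorem act_fl (h : ActSpec S P a T) {Z Z' : Set ℕ} (hZ : ∀ m ∈ Z', m ∈ Z ∨ S.InZ m)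
    {w : ℕ → ℕ} (hw : T.FL Z' w) : S.FL Z w := by
  obtain ⟨h1, ⟨n, hn⟩, h2⟩ := hw
  refine ⟨(act_world h w).1 h1, ⟨n, fun g h3 h4 => hn g h3 ((act_live h g).2 h4)⟩,
    fun m hm hz hf => ?_⟩
  have h3 := act_notZ hm
  obtain ⟨F, h4, h5⟩ := h2 m ((act_mark h m).2 (Or.inr hm))
    (fun h4 => (hZ m h4).elim hz h3) (by rwa [(h.off m h3).1])
  exact ⟨F, h4, ((h.off m h3).2.2 F).1 h5⟩

/-- A gadget whose new group is protected below `S.N` is not a new marker. -/
theorem act_old (h : ActSpec S P a T) {m : ℕ} (hp : Prot S.N (T.grp m)) : ¬ S.InZ m :=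
  fun hz => act_notProt S.N (S.xof m) ((h.inZ m hz).2.1 ▸ hp)

/-- A gadget in the new group of `x` is a new marker attached to `x`. -/
theorem act_new (h : ActSpec S P a T) {m x : ℕ} (he : T.grp m = Nat.pair S.N x + 1) :
    S.InZ m ∧ S.xof m = x := by
  have hz : S.InZ m := by
    by_contra hz
    rw [(h.off m hz).2.1] at he
    exact act_notProt S.N x (he ▸ S.grp_lt m (by omega))
  rw [(h.inZ m hz).2.1] at he
  exact ⟨hz, (Nat.pair_eq_pair.1 (Nat.add_right_cancel he)).2⟩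

/-- The released system. -/
def act_rel {S1 S' : Sys U} (h : ActSpec S P a S1) (he : Ext S' S1) : Sys U where
  fr := S'.fr
  idx := S'.idx
  lev := S'.lev
  bud := S'.bud
  par := S'.par
  hom := S'.hom
  sup z := S'.sup (z.1, z.2) ∨ S.InZ z.1
  grp := S.grp
  N := S.N
  c_fr := S'.c_fr
  c_idx := S'.c_idx
  c_lev := S'.c_lev
  c_bud := S'.c_bud
  c_par := S'.c_par
  c_hom := S'.c_hom
  c_grp := S.c_grp
  re_sup := by fun_prop
  idx_fr := S'.idx_fr
  disj := S'.disj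
  bud_fr := S'.bud_fr
  bud_big := S'.bud_big
  par_live := S'.par_live
  par_self := S'.par_self
  hom_self := S'.hom_self
  hom_lab := S'.hom_lab
  grp_free g hg := S.grp_free g ((h.free g).1 (he.free g hg)).1
  grp_lt := S.grp_lt
  grp_inf c n hc := by
    obtain ⟨m, h1, h2, h3⟩ := S'.grp_inf c n (hc.mono (by rw [he.N, h.N]; omega))
    rw [he.grp] at h3
    exact ⟨m, h1, h2, (h.off m (act_old h (h3 ▸ hc))).2.1.symm.trans h3⟩
  grp_sup m m' F hm hm' h0 hg hs := by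
    have hz := act_notZ_grp h0
    have hz' : ¬ S.InZ m' := act_notZ_grp (hg ▸ h0)
    have e : S'.grp m = S.grp m := by rw [he.grp]; exact (h.off m hz).2.1
    have e' : S'.grp m' = S.grp m' := by rw [he.grp]; exact (h.off m' hz').2.1
    exact Or.inl (S'.grp_sup m m' F hm hm' (e ▸ h0) (e.trans (hg.trans e'.symm))
      (hs.resolve_right hz))

theorem act_rel_ext {S1 S' : Sys U} (h : ActSpec S P a S1) (he : Ext S' S1) :
    Ext (act_rel h he) S where
  free g hg := ((h.free g).1 (he.free g hg)).1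
  mark g hg := by
    by_cases hz : S.InZ g
    · exact Or.inr ⟨hz.1, Or.inr hz⟩
    · rcases he.mark g hg with ⟨h1, h2, h3⟩ | ⟨h1, h2⟩
      · refine Or.inl ⟨((act_mark h g).1 h1).resolve_left hz, h2.trans (h.off g hz).1,
          fun F => Iff.trans ?_ ((h3 F).trans ((h.off g hz).2.2 F))⟩
        exact ⟨fun h4 => Or.resolve_right h4 hz, Or.inl⟩
      · exact Or.inr ⟨((h.free g).1 h1).1, Or.inl h2⟩
  bud g hg := h.bud ▸ he.bud g hg
  world w hw := (act_world h w).1 (he.world w hw)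
  lim Z w hw := by
    have h1 : S'.FL (Z ∪ {m | S.InZ m}) w := ⟨hw.1, hw.2.1, fun m hm hz hf => by
      obtain ⟨F, h2, h3⟩ := hw.2.2 m hm (fun h2 => hz (Or.inl h2)) hf
      exact ⟨F, h2, Or.resolve_right h3 fun h4 => hz (Or.inr h4)⟩⟩
    have h2 := he.lim _ w h1
    refine ⟨(act_world h w).1 h2.1, fun n => ?_⟩
    obtain ⟨w', h3, h4⟩ := h2.2 n
    exact ⟨w', act_fl h (fun m hm => hm) h3, h4⟩
  grp := rfl
  N := rfl

end

theorem stAct : StAct U := fun S P a hP ha =>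
  ⟨act_sys S P a hP ha, ha, act_dat_free S P a, rfl, rfl, rfl, rfl,
    fun _ hz => act_dat_in S P a hz, fun _ hz => act_dat_off S P a hz⟩

theorem stActW : StActW U := fun S T P a h => by
  refine ⟨⟨fun w hw => (act_world h w).1 hw,
    fun w hw => (act_fl h (fun m hm => Or.inl hm) hw).lim, by rw [h.N]; omega,
    fun m hm hp => ?_⟩, fun w hw hc => ?_⟩
  · have hz := act_old h hp
    exact ⟨((act_mark h m).1 hm).resolve_left hz, (h.off m hz).2.1.symm, (h.off m hz).2.2⟩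
  refine ⟨fun y => ∃ z, S.InZ z ∧ S.xof z = y.1 ∧ y.2 = [Nat.pair z (U.top 0)], by fun_prop,
    Set.ext fun x => ⟨fun ⟨F, h1, h2⟩ => ?_, fun ⟨D, h1, z, h2, h3, h4⟩ => ?_⟩⟩
  · obtain ⟨h3, h4⟩ := act_unit S x 0
    have h5 := h.inZ _ h3
    rw [h4] at h5
    obtain ⟨m', _, h7, h8⟩ := hc _ ((act_mark h _).2 (Or.inl h3)) (by rw [h5.2.1]; omega)
      ⟨F, h1, (h5.2.2 F).2 h2⟩
    obtain ⟨h9, h10⟩ := act_new h (h7.trans h5.2.1)
    refine ⟨[Nat.pair m' (U.top 0)], fun y hy => ?_, m', h9, h10, rfl⟩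
    rw [List.mem_singleton.1 hy, Uni.mem_B, h8]
    exact le_top
  · have h5 : D = [Nat.pair z (U.top 0)] := h4
    have h6 : S.xof z = x := h3
    have h7 : a ≤ U.lab (U.top 0) (w z) :=
      Uni.mem_B.1 (h1 _ (by rw [h5]; exact List.mem_singleton_self _))
    obtain ⟨F, h8, h9⟩ := hw.leg z ((act_mark h z).2 (Or.inl h2)) (Set.notMem_empty _)
      (by rw [(h.inZ z h2).1]; exact h7)
    exact ⟨F, h8, h6 ▸ ((h.inZ z h2).2.2 F).1 h9⟩

theorem stRel : StRel U := fun _ _ _ _ _ h he =>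
  ⟨act_rel h he, act_rel_ext h he, rfl, rfl, rfl, rfl, rfl, rfl, fun _ _ => Iff.rfl⟩

end MP750S

end

section

/-! The stage data of a fusion. -/

set_option autoImplicit false

namespace MP750S

variable {M : Type} [Lattice M] [BoundedOrder M] [Primcodable M] [Finite M] {U : Uni M}

/-- One stage: from `(n, D0)` to `(u, D1, R)` and the answer `a`. -/
def FusaRel (S : Sys U) {β : Type} [Primcodable β]
    (Q : (ℕ × ℕ) × List (List ℕ) × List ℕ × β → Prop) (n D0 u D1 : ℕ) (R : List ℕ)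
    (a : List (List ℕ) × List ℕ × β) : Prop :=
  (S.Free u ∧ S.idx u % 2 = 0 ∧ n ≤ S.bud u ∧ D0 ≤ u ∧ u < D1) ∧ Q (n.unpair, a) ∧
    (S.Fam n.unpair.1 (u + 1) a.1 ∧ S.PV (u + 1) a.2.1) ∧
    (a.1.length ≤ D1 ∧ a.2.1.length ≤ D1) ∧
    (∀ m, tb a.2.1 m ≠ 0 → S.Mark m ∧ row a.1 m = []) ∧
    (Lall R fun m => S.Mark m ∧ S.grp m ≠ 0 ∧ D0 ≤ m ∧ m < D1 ∧ row a.1 m = []) ∧
    Ball n fun c => Prot S.N c → ∃ m, m ∈ R ∧ S.grp m = c

theorem fusa_re (S : Sys U) {β : Type} [Primcodable β]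
    {Q : (ℕ × ℕ) × List (List ℕ) × List ℕ × β → Prop} (hQ : REPred Q) {α : Type} [Primcodable α]
    {n D0 u D1 : α → ℕ} {R : α → List ℕ} {a : α → List (List ℕ) × List ℕ × β}
    (hn : Computable n) (h0 : Computable D0) (hu : Computable u) (h1 : Computable D1)
    (hR : Computable R) (ha : Computable a) :
    REPred fun z => FusaRel S Q (n z) (D0 z) (u z) (D1 z) (R z) (a z) := by
  unfold FusaRel
  refine r_and (by fun_prop) (r_and (r_comp hQ (by fun_prop)) (r_and (by fun_prop)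
    (r_and (by fun_prop) (r_and (r_allNZ (by fun_prop) (by fun_prop))
      (r_and (by fun_prop) (by fun_prop))))))

omit [Finite M] in
theorem fusa_res (S : Sys U) (k n : ℕ) : ∃ R : List ℕ,
    (∀ m ∈ R, S.Mark m ∧ S.grp m ≠ 0 ∧ k ≤ m) ∧
      ∀ c < n, Prot S.N c → ∃ m, m ∈ R ∧ S.grp m = c := by
  induction n with
  | zero => exact ⟨[], by simp, by simp⟩
  | succ n ih =>
    obtain ⟨R, h1, h2⟩ := ih
    by_cases hp : Prot S.N n
    · obtain ⟨m, a1, a2, a3⟩ := S.grp_inf n k hp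
      refine ⟨m :: R, fun x hx => ?_, fun c hc hc' => ?_⟩
      · rcases List.mem_cons.1 hx with rfl | hx
        · exact ⟨a2, a3 ▸ hp.1, a1⟩
        · exact h1 x hx
      · rcases Nat.lt_succ_iff_lt_or_eq.1 hc with h | rfl
        · obtain ⟨x, b1, b2⟩ := h2 c h hc'
          exact ⟨x, List.mem_cons_of_mem _ b1, b2⟩
        · exact ⟨m, List.mem_cons_self, a3⟩
    · refine ⟨R, h1, fun c hc hc' => ?_⟩
      rcases Nat.lt_succ_iff_lt_or_eq.1 hc with h | rfl
      · exact h2 c h hc'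
      · exact absurd hc' hp

omit [Finite M] in
theorem fusa_total (S : Sys U) {β : Type} [Primcodable β]
    {Q : (ℕ × ℕ) × List (List ℕ) × List ℕ × β → Prop} (hS : Supply S Q) (n D0 : ℕ) :
    ∃ u D1 R a, FusaRel S Q n D0 u D1 R a := by
  obtain ⟨i0, hi⟩ := S.fr_big D0
  obtain ⟨A, K, x, q1, q2, q3, q4⟩ := hS n.unpair (S.fr (2 * (i0 + n)) + 1)
  obtain ⟨R, r1, r2⟩ := fusa_res S (D0 + A.length) n
  refine ⟨S.fr (2 * (i0 + n)), S.fr (2 * (i0 + n)) + 1 + A.length + K.length + R.sum, R,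
    (A, K, x), ⟨S.free_fr _, ?_, ?_, hi _ (by omega), by omega⟩, q1, ⟨q2, q3⟩,
    ⟨?_, ?_⟩, q4, fun m hm => ?_, r2⟩
  · rw [S.idx_fr]; omega
  · have := S.bud_fr (2 * (i0 + n)); omega
  · show A.length ≤ _
    omega
  · show K.length ≤ _
    omega
  · obtain ⟨a1, a2, a3⟩ := r1 m hm
    have := List.le_sum_of_mem hm
    exact ⟨a1, a2, by omega, by omega, row_ge (show A.length ≤ m by omega)⟩

theorem stFusA : StFusA U := by
  intro S β _ Q hQ hS
  obtain ⟨F, cF, hF⟩ := uniformize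
    (R := fun z : (ℕ × ℕ) × (ℕ × ℕ × List ℕ) × List (List ℕ) × List ℕ × β =>
      FusaRel S Q z.1.1 z.1.2 z.2.1.1 z.2.1.2.1 z.2.1.2.2 z.2.2)
    (fusa_re S hQ (by fun_prop) (by fun_prop) (by fun_prop) (by fun_prop) (by fun_prop)
      (by fun_prop))
    fun z => by
      obtain ⟨u, D1, R, a, h⟩ := fusa_total S hS z.1 z.2
      exact ⟨((u, D1, R), a), h⟩
  obtain ⟨D, cD, D0, Ds⟩ : ∃ D : ℕ → ℕ, Computable D ∧ D 0 = 0 ∧
      ∀ n, D (n + 1) = (F (n, D n)).1.2.1 :=
    ⟨fun n => Nat.rec (motive := fun _ => ℕ) 0 (fun k d => (F (k, d)).1.2.1) n,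
      c_rec (n := fun n => n) (b := fun _ => 0) (h := fun _ k d => (F (k, d)).1.2.1)
        (by fun_prop) (by fun_prop) (by fun_prop), rfl, fun _ => rfl⟩
  have hG : ∀ n, FusaRel S Q n (D n) (F (n, D n)).1.1 (D (n + 1)) (F (n, D n)).1.2.2
      (F (n, D n)).2 := fun n => by
    rw [Ds]
    exact hF (n, D n)
  have hlt : ∀ n, D n < D (n + 1) := fun n => lt_of_le_of_lt (hG n).1.2.2.2.1 (hG n).1.2.2.2.2
  have hm : StrictMono D := strictMono_nat_of_lt_succ hlt
  have hex : ∀ g, ∃ n, g < D (n + 1) := fun g => ⟨g, hm.le_apply (x := g + 1)⟩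
  have hst : ∀ g n, Nat.find (hex g) = n ↔ D n ≤ g ∧ g < D (n + 1) := fun g n => by
    rw [Nat.find_eq_iff]
    constructor
    · rintro ⟨h1, h2⟩
      refine ⟨?_, h1⟩
      rcases n with _ | n
      · omega
      · exact not_lt.1 (h2 n (Nat.lt_succ_self n))
    · rintro ⟨h1, h2⟩
      exact ⟨h2, fun k hk => not_lt.2 ((hm.monotone hk).trans h1)⟩
  refine ⟨D, fun n => (F (n, D n)).1.1, fun g => Nat.find (hex g),
    fun z => (F (Nat.pair z.1 z.2, D (Nat.pair z.1 z.2))).2, fun n => (F (n, D n)).1.2.2,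
    by fun_prop, Computable.find (P := fun g n => g < D (n + 1)) (by fun_prop) hex, by fun_prop,
    by fun_prop, hst, fun n => hm.le_apply, fun n => ?_, fun z => ?_, fun z => ?_,
    fun z => (hG _).2.2.2.1, fun z => (hG _).2.2.2.2.1, fun n m hm' => ?_,
    fun n c hc hp => (hG n).2.2.2.2.2.2 c hc hp⟩
  · obtain ⟨a1, a2, a3, a4⟩ := (hG n).1
    exact ⟨a1, a2, a3, (hst _ _).2 a4⟩
  · have := (hG (Nat.pair z.1 z.2)).2.1
    rwa [Nat.unpair_pair] at this
  · have := (hG (Nat.pair z.1 z.2)).2.2.1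
    rwa [Nat.unpair_pair] at this
  · obtain ⟨a1, a2, a3, a4, a5⟩ := (hG n).2.2.2.2.2.1 m hm'
    refine ⟨a1, a2, (hst _ _).2 ⟨a3, a4⟩, ?_⟩
    rw [Nat.pair_unpair]
    exact a5

end MP750S

end

section

/-! The fused system from stage data. -/

set_option autoImplicit false

namespace MP750S

open Classical

variable {M : Type} [Lattice M] [BoundedOrder M] [Primcodable M] {U : Uni M}

theorem fusc (h : StRef U) : StFusB U := by
  intro S β _ Q D u st r R hs
  have cu := hs.c_u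
  have cst := hs.c_st
  have cr := hs.c_r
  have cR := hs.c_R
  have su : ∀ n, st (u n) = n := fun n => (hs.main n).2.2.2
  have Du : ∀ n, D n ≤ u n := fun n => ((hs.st_iff _ _).1 (su n)).1
  have stA : ∀ z g, row (r z).1 g ≠ [] → (st g).unpair = z := fun z g hg => by
    have h1 := ((hs.fam z).1.1 g hg).1
    have h2 := lt_of_row_ne hg
    have h3 := (hs.len z).1
    have h4 := Du (Nat.pair z.1 z.2)
    rw [(hs.st_iff g (Nat.pair z.1 z.2)).2 ⟨by omega, by omega⟩, Nat.unpair_pair]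
  have stK : ∀ z g, tb (r z).2.1 g ≠ 0 → (st g).unpair = z := fun z g hg => by
    have h1 := ((hs.fam z).2.1 g hg).1
    have h2 := lt_of_tb_ne hg
    have h3 := (hs.len z).2
    have h4 := Du (Nat.pair z.1 z.2)
    rw [(hs.st_iff g (Nat.pair z.1 z.2)).2 ⟨by omega, by omega⟩, Nat.unpair_pair]
  let Kp : ℕ → Prop := fun g => tb (r (st g).unpair).2.1 g ≠ 0 ∨ g ∈ R (st g)
  let lev : ℕ → M := fun g => if Kp g then S.lev g else ⊥
  let Lv : ℕ → Prop := fun g => u (st g) = g ∨ lev g ≠ ⊥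
  let bud : ℕ → ℕ := fun g => if u (st g) = g then st g else S.bud g
  let par : ℕ → ℕ := fun g => if row (r (st g).unpair).1 g ≠ [] then u (st g).unpair.1
    else if Lv g then g else u 0
  let hom : ℕ → ℕ → ℕ := fun g p => if row (r (st g).unpair).1 g ≠ [] then
    tb (row (r (st g).unpair).1 g) p else if Lv g then p else 0
  have kp : ∀ g, lev g ≠ ⊥ → Kp g ∧ lev g = S.lev g := fun g hg => by
    by_cases e : Kp g
    · exact ⟨e, if_pos e⟩
    · exact absurd (if_neg e) hg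
  have km : ∀ g, Kp g → S.Mark g ∧ row (r (st g).unpair).1 g = [] := fun g hg =>
    hg.elim (hs.km _ g) fun h1 => ⟨(hs.res _ g h1).1, (hs.res _ g h1).2.2.2⟩
  have lk : ∀ g, Kp g → lev g ≠ ⊥ := fun g hg => by
    rw [show lev g = S.lev g from if_pos hg]; exact (km g hg).1
  have bm : ∀ g, S.Mark g → bud g = S.bud g := fun g hg =>
    if_neg fun e : u (st g) = g => Sys.not_mark (hs.main (st g)).1 (by rwa [e])
  have bu : ∀ n, bud (u n) = n := fun n => by
    show (if u (st (u n)) = u n then st (u n) else _) = n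
    rw [su, if_pos rfl]
  have lu : ∀ n, Lv (u n) := fun n => Or.inl (by rw [su])
  have lr : ∀ g, Lv g → row (r (st g).unpair).1 g = [] := fun g hg => by
    rcases hg with e | e
    · by_contra h1
      have h2 := ((hs.fam _).1.1 g h1).1
      rw [Nat.pair_unpair, e] at h2
      omega
    · exact (km g (kp g e).1).2
  have ph : ∀ z g, row (r z).1 g ≠ [] → par g = u z.1 ∧ ∀ p, hom g p = cut (r z).1 p g :=
    fun z g hg => by
      have e := stA z g hg
      have h1 : row (r (st g).unpair).1 g ≠ [] := by rwa [e]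
      exact ⟨(if_pos h1).trans (by rw [e]), fun p => (if_pos h1).trans (by rw [e]; rfl)⟩
  have pl : ∀ g, Lv g → par g = g ∧ ∀ p, hom g p = p := fun g hg =>
    ⟨(if_neg (not_not.2 (lr g hg))).trans (if_pos hg),
      fun p => (if_neg (not_not.2 (lr g hg))).trans (if_pos hg)⟩
  have pd : ∀ g, row (r (st g).unpair).1 g = [] → ¬ Lv g → ∀ p, hom g p = 0 := fun g h1 h2 p =>
    (if_neg (not_not.2 h1)).trans (if_neg h2)
  have ble : ∀ g, Lv g → bud g ≤ S.bud g := fun g _ => by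
    show (if u (st g) = g then st g else S.bud g) ≤ _
    split_ifs with e
    · have := (hs.main (st g)).2.2.1
      rwa [e] at this
    · exact le_rfl
  have cKp : ComputablePred Kp := by fun_prop
  have clev : Computable lev := by fun_prop
  have cLv : ComputablePred Lv := by fun_prop
  let RD : RefD S :=
    { fr := u, idx := st, lev := lev, bud := bud, par := par, hom := hom, c_fr := cu
      c_idx := cst, c_lev := clev, c_bud := by fun_prop, c_par := by fun_prop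
      c_hom := by fun_prop, idx_fr := su, free := fun i => (hs.main i).1
      mark := fun g hg => (kp g hg).2, bud_le := ble, bud_fr := fun i => (bu i).ge
      bud_big := fun k => by
        obtain ⟨n, hn⟩ := S.bud_big k
        refine ⟨n, fun g hg hl => ?_⟩
        have hm := (km g (kp g hl).1).1
        rw [bm g hm]; exact hn g hg (Or.inr hm)
      par_live := fun g _ => by
        show Lv (par g)
        by_cases e : row (r (st g).unpair).1 g ≠ []
        · rw [(ph _ g e).1]; exact lu _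
        · by_cases e' : Lv g
          · rw [(pl g e').1]; exact e'
          · rw [show par g = u 0 from (if_neg e).trans (if_neg e')]; exact lu 0
      hom_hom := fun g _ => by
        by_cases e : row (r (st g).unpair).1 g ≠ []
        · rw [(ph _ g e).1, bu]
          exact ((hs.fam _).1.1 g e).2.2.congr fun p _ => (ph _ g e).2 p
        · by_cases e' : Lv g
          · rw [(pl g e').1]
            exact (Uni.emb_id (ble g e')).hom.congr fun p _ => (pl g e').2 p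
          · exact (Uni.hom_const (U.in_zero _)).congr fun p _ => pd g (not_not.1 e) e' p
      keep := fun g hg => ⟨(pl g hg).1, fun p _ => (pl g hg).2 p⟩
      grp_inf := fun c n hc => by
        obtain ⟨m, h1, h2⟩ := hs.grp (max n (c + 1)) c (by omega) hc
        have h3 := (hs.res _ m h1).2.2.1
        have h4 := ((hs.st_iff _ _).1 h3).1
        have h5 := hs.le_D (max n (c + 1))
        exact ⟨m, by omega, lk m (Or.inr (h3.symm ▸ h1)), h2⟩
      legal := fun x hx m hm hl hf => by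
        have e : row (r (st m).unpair).1 m ≠ [] := fun e => by
          rw [pd m e fun h1 => h1.elim
            (fun e => Sys.not_mark (hs.main (st m)).1 (by rwa [e])) fun h2 => h2 hl] at hf
          exact U.not_fired_zero hm hf
        have hi := hx _ (lu (st m).unpair.1)
        rw [bu] at hi
        refine ⟨(r (st m).unpair).1.length, cut (r (st m).unpair).1 (x (u (st m).unpair.1)),
          fun g => ?_, by rw [(ph _ m e).2, (ph _ m e).1],
          fun g hg => cut_of_row (row_ge hg) _, (hs.fam _).1.2 _ hi⟩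
        by_cases e' : row (r (st m).unpair).1 g = []
        · exact Or.inl (cut_of_row e' _)
        · exact Or.inr ⟨((hs.fam _).1.1 g e').2.1, by rw [(ph _ g e').2, (ph _ g e').1]⟩ }
  obtain ⟨T, hT⟩ := h S RD
  have tm : ∀ g, T.Mark g ↔ lev g ≠ ⊥ := fun g => by unfold Dat.Mark; rw [hT.lev]
  have tl : ∀ g, T.Live g ↔ Lv g := fun g => by
    unfold Dat.Live Dat.Free; rw [tm, hT.fr, hT.idx]
  refine ⟨T, hT.ext, cr, hT.sup, hs.ans, fun z => ⟨_, ?_, hs.fam z⟩, fun i => ?_,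
    fun z g hg => (tm g).2 (lk g (Or.inl (by rwa [stK z g hg]))), fun m hm => ?_,
    fun w z g hw hg => ?_, fun w g hw hg h0 => ?_⟩
  · have h1 := Du (Nat.pair z.1 z.2)
    have h2 := hs.le_D (Nat.pair z.1 z.2)
    have h3 := Nat.left_le_pair z.1 z.2
    omega
  · rw [hT.fr, hT.bud]; exact ⟨bu i, (hs.main i).2.1⟩
  · obtain ⟨h1, h2⟩ := kp m ((tm m).1 hm)
    refine ⟨(km m h1).1, by rw [hT.lev]; exact h2, by rw [hT.bud]; exact bm m (km m h1).1, ?_⟩
    exact h1.symm.imp (fun h3 => (hs.res _ m h3).2.1) fun h3 => ⟨_, h3⟩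
  · rw [((hT.world w).1 hw).2.2 g ((hs.fam z).1.1 g hg).2.1, hT.fr]
    show hom g (w (par g)) = _
    rw [(ph z g hg).2, (ph z g hg).1]
  · by_cases e : row (r (st g).unpair).1 g = []
    · refine Or.inl ((tl g).2 (by_contra fun e' => h0 ?_))
      rw [((hT.world w).1 hw).2.2 g hg]
      exact pd g e e' _
    · exact Or.inr ⟨_, e⟩

end MP750S

end

section

/-! Decoding by fusion, and the two cases of the series lemma. -/

set_option autoImplicit false

namespace MP750S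

variable {M : Type} [Lattice M] [BoundedOrder M] [Primcodable M] [Finite M] {U : Uni M}

/-- The supply handed to the fusion in `stDF`. -/
def ser_Q (S : Sys U) (P : ℕ × List ℕ → Prop) (d : M)
    (Qa : (ℕ × ℕ × ℕ) × List (List ℕ) × List ℕ → Prop)
    (y : (ℕ × ℕ) × List (List ℕ) × List ℕ × List ℕ) : Prop :=
  (U.inU y.1.1 y.1.2.unpair.1 ∧ U.inU y.1.1 y.1.2.unpair.2 ∧
      U.lab y.1.2.unpair.1 y.1.2.unpair.2 = d) →
    Qa ((y.1.1, y.1.2.unpair.1, y.1.2.unpair.2), y.2.1, y.2.2.2) ∧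
      Sub y.2.2.2 (app P (U.B ⊤ (S.mkW (cut y.2.1 y.1.2.unpair.1))))

theorem ser_Q_re (S : Sys U) {P : ℕ × List ℕ → Prop} (d : M)
    {Qa : (ℕ × ℕ × ℕ) × List (List ℕ) × List ℕ → Prop} (hP : REPred P) (hQ : REPred Qa) :
    REPred (ser_Q S P d Qa) := by
  unfold ser_Q
  refine r_imp (by fun_prop) (r_and (r_comp hQ (by fun_prop)) ?_)
  exact r_sub_app_B S
    (x := fun y : (ℕ × ℕ) × List (List ℕ) × List ℕ × List ℕ => cut y.2.1 y.1.2.unpair.1) hP
    (by fun_prop) (by fun_prop)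

theorem stDF (h : StFus U) : StDF U := by
  intro S P d Qa hP hQ hsup hneg
  obtain ⟨T, r, hT⟩ := h S (List ℕ) (ser_Q S P d Qa) (ser_Q_re S d hP hQ) (fun z n => by
    by_cases ok : U.inU z.1 z.2.unpair.1 ∧ U.inU z.1 z.2.unpair.2 ∧
        U.lab z.2.unpair.1 z.2.unpair.2 = d
    · obtain ⟨A, E, h1, h2, h3⟩ := hsup z.1 _ _ n ok.1 ok.2.1 ok.2.2
      exact ⟨A, [], E, fun _ => ⟨h1, h3⟩, h2, Sys.pv_nil n, fun m hm => absurd (tb_nil m) hm⟩
    · exact ⟨[], [], [], fun h' => absurd h' ok, Sys.fam_nil _ n, Sys.pv_nil n,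
        fun m hm => absurd (tb_nil m) hm⟩)
  have hans : ∀ i s t, U.inU i s → U.inU i t → U.lab s t = d →
      Qa ((i, s, t), (r (i, Nat.pair s t)).1, (r (i, Nat.pair s t)).2.2) ∧
      Sub (r (i, Nat.pair s t)).2.2
        (app P (U.B ⊤ (S.mkW (cut (r (i, Nat.pair s t)).1 s)))) := fun i s t hs ht hd => by
    have := hT.ans (i, Nat.pair s t)
    simp only [ser_Q, Nat.unpair_pair] at this
    exact this ⟨hs, ht, hd⟩
  have hr := hT.comp
  refine ⟨T, hT.ext, fun x => ∃ i s t, x.1 = cd (T.fr i) s t ∧ U.inU i s ∧ U.inU i t ∧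
    U.lab s t = d ∧ x.2 = (r (i, Nat.pair s t)).2.2, by fun_prop, ?_, ?_⟩
  · rintro w g s hw - - - ⟨D, hD, i, s', t, e, hs, ht, hd, eD⟩
    obtain ⟨e1, e2, e3⟩ := cd_inj e
    subst e1 e2
    have eD' : D = (r (i, Nat.pair s t)).2.2 := eD
    subst eD'
    obtain ⟨n, hn⟩ := Uni.use_app hD
    obtain ⟨w', h1, _, h2⟩ := (hT.ext.lim ∅ w hw).2 (max n (r (i, Nat.pair s t)).1.length)
    obtain ⟨m, _, hf, _⟩ := hT.fam (i, Nat.pair s t)
    refine hneg i s t _ _ w' (hans i s t hs ht hd).1 hs ht hd (hf.mono (Nat.zero_le m)) h1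
      (fun g hg => ?_) (hn w' fun g hg => h2 g (by omega))
    have := lt_of_row_ne hg
    rw [h2 g (by omega), hT.dep w _ g hw.1 hg]
    exact congrArg (fun u => cut _ u g) e3
  · intro w g s t hw hg hs ht hd hle
    have hg' : T.fr (T.idx g) = g := hg
    generalize T.idx g = i at hg'
    subst hg'
    rw [(hT.main i).1] at hs ht
    have hwi : U.inU i (w (T.fr i)) := by
      have := hw.1 _ (Or.inl (T.free_fr i))
      rwa [(hT.main i).1] at this
    obtain ⟨m, _, hf, _⟩ := hT.fam (i, Nat.pair s t)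
    have hL : U.Le (S.mkW (cut (r (i, Nat.pair s t)).1 s)) w := by
      refine Sys.mkW_le (hf.valid hs) (hT.ext.world w hw) fun g _ => ?_
      by_cases e : row (r (i, Nat.pair s t)).1 g = []
      · rw [cut_of_row e]; exact U.zero_le _
      · rw [hT.dep w (i, Nat.pair s t) g hw e]
        exact top_unique (hle ▸ hf.lab hs hwi g)
    exact ⟨_, (hans i s t hs ht hd).2.mono (app_mono (hL.B ⊤)), i, s, t, rfl, hs, ht, hd, rfl⟩

theorem stSerA (h1 : StConN U) (h2 : StDF U) : StSerA U := by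
  intro S P Q d d2 hS hP hQ hN hA
  refine h2 S P d2 (fun y => ∃ g s' t', S.Free g ∧ row y.2.1 g ≠ [] ∧ U.inU (S.bud g) s' ∧
    U.inU (S.bud g) t' ∧ U.lab s' t' = d ∧ U.lab (cut y.2.1 y.1.2.2 g) t' = ⊤ ∧
    Q (cd g s' t', y.2.2)) hP (by fun_prop) ?_ ?_
  · intro i v t n hv ht hd
    have hG : REPred fun y : ℕ × List ℕ × List ℕ => ∃ s' t' D, U.inU (S.bud y.1) s' ∧
        U.inU (S.bud y.1) t' ∧ U.lab s' t' = d ∧ U.lab (tb y.2.1 t) t' = ⊤ ∧
        Q (cd y.1 s' t', D) ∧ Sub D (app P (lset y.2.2)) := by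
      refine r_ex (r_ex (r_ex (r_and (by fun_prop) (r_and (by fun_prop) (r_and (by fun_prop)
        (r_and (by fun_prop) (r_and (by fun_prop) ?_)))))))
      exact r_sub_app_lset hP (by fun_prop) (by fun_prop)
    obtain ⟨g, k, A, F, hg, hf, hr, hk, hF, s', t', D, hs', ht', hd', hl, hq, hD⟩ :=
      h1 S i v _ n hS hG hv (fun b1 e n he => by
        obtain ⟨g, k1, s', t', W, a1, a2, a3, a4, a5, a6, a7, a8, a9, a10, D, a11, a12⟩ :=
          hA b1 (tb e v) (tb e t) n (he.1 v hv) (he.1 t ht) ((he.2 v t hv ht).trans hd)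
        obtain ⟨F, b1, b2⟩ := sub_app_use a11
        have ag := Uni.agr_tab (U := U) i fun p => tb k1 (tb e p)
        exact ⟨g, k1, tab (U.bd i) fun p => tb k1 (tb e p), W, F, a1, a2, a3, ag, a8, a9,
          a10.trans (ag v hv).symm, b1, s', t', D, a4, a5, a6,
          (congrArg (fun u => U.lab u t') (ag t ht)).trans a7, a12, b2⟩)
    exact ⟨A, D, ⟨g, s', t', hg, hr, hs', ht', hd',
      (congrArg (fun u => U.lab u t') (hk t ht)).trans hl, hq⟩, hf, hD.mono (app_mono hF.lset)⟩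
  · rintro i v t A E w ⟨g, s', t', hg, hr, hs', ht', hd', hl, hq⟩ - - - - hw he hE
    obtain ⟨w', b1, b2, b3, _⟩ := hw.raise hg ht'
      ((congrArg (fun u => U.lab u t') (he g hr)).trans hl)
    refine hN w' g s' b1 hg hs' (b3 ▸ hd') ⟨E, hE.mono (app_mono (b2.B ⊤)), ?_⟩
    rw [b3]
    exact hq

theorem stSerB (h1 : StV2 U) (h2 : StCom U) (h3 : StDF U) : StSerB U := by
  intro S P Q d d1 d2 hP hQ hD hle hA
  unfold SerA at hA
  simp only [not_forall] at hA
  obtain ⟨b, v0, t0, n, hv0, ht0, hd2, hA⟩ := hA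
  obtain ⟨T0, hT⟩ := h2 S [] n (Sys.pv_nil 0) (Nat.zero_le n)
    (Sys.leg_of_zero (Sys.pv_nil 0).valid fun m _ => tb_nil m)
  obtain ⟨T, e1, e2⟩ := h3 T0 P d1 (fun y => ∃ g k s' t', T0.Free g ∧ row y.2.1 g ≠ [] ∧
    U.Hom b (T0.bud g) (tb k) ∧ U.inU (T0.bud g) s' ∧ U.inU (T0.bud g) t' ∧ U.lab s' t' = d ∧
    U.lab (cut y.2.1 y.1.2.2 g) (tb k v0) = ⊤ ∧ U.lab (tb k t0) t' = ⊤ ∧
    Q (cd g s' t', y.2.2)) hP (by fun_prop) (by
      intro i s t m hs ht hd
      obtain ⟨b1, f1, f2, s', t', a1, a2, a3, a4, a5, a6, a7, a8⟩ :=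
        h1 i b s t v0 t0 d hs ht hv0 ht0 (by rw [hd, hd2]; exact hle)
      obtain ⟨g, hg, hm, hb⟩ := T0.exists_free m b1
      obtain ⟨A, c1, c2, c3, _⟩ := Sys.fam_one hg hm (a1.mono hb)
      have hb' : b1 ≤ S.bud g := hb.trans (hT.ext.bud g (Or.inl hg))
      obtain ⟨E, d1, d2⟩ := hD (T0.mkW (cut A s)) g s' t'
        (hT.ext.world _ (Sys.mkW_world (c1.valid hs))) (hT.ext.free g hg)
        (U.in_mono _ _ _ hb' a3) (U.in_mono _ _ _ hb' a4) a8
        (by rw [Sys.mkW_live (c1.valid hs) (Or.inl hg), c3 s hs]; exact a5)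
      have ag := Uni.agr_tab (U := U) b f2
      refine ⟨A, E, ⟨g, tab (U.bd b) f2, s', t', hg, c2, (a2.mono hb).congr ag,
        U.in_mono _ _ _ hb a3, U.in_mono _ _ _ hb a4, a8, ?_, ?_, d2⟩, c1, d1⟩
      · show U.lab (cut A t g) _ = ⊤
        rw [c3 t ht, ag v0 hv0]
        exact a6
      · rw [ag t0 ht0]
        exact a7) (by
      rintro i s t A E w ⟨g, k, s', t', hg, hr, hk, hs', ht', hd', hl, hl', hq⟩ - - - - hw he hE
      obtain ⟨w', b1, b2, b3, _⟩ := hw.raise hg (hk.1 v0 hv0)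
        ((congrArg (fun u => U.lab u (tb k v0)) (he g hr)).trans hl)
      obtain ⟨W, c1, c2, c3, c4⟩ := hT.list b1
      have hb := (hT.free g hg).2
      rw [hb] at hk hs' ht'
      refine hA ⟨g, k, s', t', W, hT.ext.free g hg, (hT.free g hg).1, hk, hs', ht', hd', hl', c1,
        c2 ▸ c3, (c4 g (Or.inl (hT.ext.free g hg))).trans b3, E, ?_, hq⟩
      rw [c2]
      exact hE.mono (app_mono (b2.B ⊤)))
  exact ⟨T, e1.trans hT.ext, e2⟩

end MP750S

end

section

/-! Attaining goals by families, and the separation step. -/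

set_option autoImplicit false

namespace MP750S

variable {M : Type} [Lattice M] [BoundedOrder M] [Primcodable M] [Finite M] {U : Uni M}

omit [Finite M] in
theorem con_leg_nil (S : Sys U) : S.Leg ∅ (S.mkW (tb [])) :=
  Sys.leg_of_zero (S.pv_nil 0).valid fun _ _ => tb_nil _

omit [Finite M] in
theorem stEasy : StEasy U := by
  classical
  intro S b s G hs h0 hH
  obtain ⟨g, k1, k, W, F, hg, -, hk1, hag, hW, hl, hWg, hF, hG⟩ :=
    hH b (tab (U.bd b) fun p => p) 0 ((Uni.emb_id le_rfl).congr (Uni.agr_tab b fun p => p))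
  have hk : U.Hom b (S.bud g) (tb k) := hk1.congr fun p hp => by
    rw [hag p hp]
    show tb k1 (tb (tab (U.bd b) fun p => p) p) = tb k1 p
    rw [Uni.agr_tab b (fun p => p) p hp]
  set R : ℕ → List ℕ := fun g' => if g' = g then tab (U.bd b) (tb k)
    else if tb W g' ≠ 0 then tab (U.bd b) (fun _ => tb W g') else [] with hR
  have hr : ∀ g', row (fam (max W.length (g + 1)) R) g' = R g' := fun g' => by
    rw [row_fam]
    split_ifs with h1
    · rfl
    · have h2 : g' ≠ g := by omega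
      have h3 : tb W g' = 0 := tb_ge (by omega)
      simp [hR, h2, h3]
  have hc : ∀ p, U.inU b p →
      cut (fam (max W.length (g + 1)) R) p = Function.update (tb W) g (tb k p) := fun p hp => by
    funext g'
    rw [cut, hr]
    by_cases e : g' = g
    · subst e
      rw [Function.update_self]
      simp only [hR, if_true]
      exact Uni.agr_tab b _ p hp
    · rw [Function.update_of_ne e]
      by_cases e0 : tb W g' = 0
      · simp [hR, e, e0]
      · simp only [hR, if_neg e, if_pos e0]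
        exact Uni.agr_tab b (fun _ => tb W g') p hp
  have hcs : cut (fam (max W.length (g + 1)) R) s = tb W := by
    rw [hc s hs, ← hWg, Function.update_eq_self]
  have hrow : ∀ g', row (fam (max W.length (g + 1)) R) g' ≠ [] →
      0 ≤ g' ∧ S.Live g' ∧ U.Hom b (S.bud g') (tb (row (fam (max W.length (g + 1)) R) g')) :=
    fun g' h => by
      rw [hr] at h ⊢
      by_cases e : g' = g
      · subst e
        simp only [hR, if_true]
        exact ⟨Nat.zero_le _, Or.inl hg, hk.congr (Uni.agr_tab b _)⟩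
      · by_cases e0 : tb W g' = 0
        · exact absurd (by simp [hR, e, e0]) h
        · simp only [hR, if_neg e, if_pos e0]
          exact ⟨Nat.zero_le _, (hW.1 g' e0).2,
            (Uni.hom_const (hW.valid g' (hW.1 g' e0).2)).congr (Uni.agr_tab b _)⟩
  have hv : ∀ p, U.inU b p → S.Valid (Function.update (tb W) g (tb k p)) := fun p hp g' hg' => by
    by_cases e : g' = g
    · subst e
      rw [Function.update_self]
      exact hk.1 p hp
    · rw [Function.update_of_ne e]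
      exact hW.valid g' hg'
  refine ⟨g, k, fam (max W.length (g + 1)) R, F, hg, ⟨hrow, fun p hp => ?_⟩, ?_, ?_,
    by rw [hcs]; exact hF, hG⟩
  · rw [hc p hp]
    rcases h0 with rfl | h0
    · refine hl.raise (Sys.mkW_mono hW.valid (hv p hp) fun g' _ => ?_) fun m hm => ?_
      · by_cases e : g' = g
        · subst e
          rw [Function.update_self, hWg]
          exact hk.top hs hp (U.zero_le p)
        · rw [Function.update_of_ne e]
          exact U.refl _
      · rw [Sys.mkW_live (hv p hp) (Or.inr hm), Sys.mkW_live hW.valid (Or.inr hm),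
          Function.update_of_ne fun e : m = g => Sys.not_mark hg (e ▸ hm)]
    · exact fun m hm _ _ => ⟨[], sub_nil _, h0 m hm⟩
  · rw [hr]
    simp only [hR, if_true]
    exact Uni.tab_ne b _
  · rw [hr]
    simp only [hR, if_true]
    exact Uni.agr_tab b _

omit [Finite M] in
theorem stConN (h : StCom U) : StConN U := by
  intro S b s G n hS hG hs hH
  obtain ⟨T, hT⟩ := h S [] n (S.pv_nil 0) (Nat.zero_le n) (con_leg_nil S)
  obtain ⟨n0, hn0⟩ := hT.big
  have hTH : T.Hyp b s G := by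
    intro b1 e n' he
    obtain ⟨g, k1, k, W, F, hg, hn, hk1, hag, hW, hl, hWg, hF, hGg⟩ := hH b1 e (n + n' + n0) he
    have hTg : T.Free g := hn0 g (by omega) hg
    have h1 : ∀ g', tb W g' ≠ 0 → n' ≤ g' ∧ T.Live g' := fun g' h0 => by
      obtain ⟨h2, h3⟩ := hW.1 g' h0
      exact ⟨by omega, h3.elim (fun h4 => Or.inl (hn0 g' (by omega) h4))
        fun h4 => Or.inr ((hT.mark g').2 ⟨h4, by omega⟩)⟩
    have hP : T.PV n' W := ⟨h1, fun g' h2 => by
        rw [(hT.free g' h2).2]; exact hW.2.1 g' (hT.ext.free g' h2), fun g' h2 => by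
        rw [(hT.lev g' h2).2]
        exact U.in_mono _ _ _ (by omega) (hW.2.2 g' ((hT.mark g').1 h2).1)⟩
    have e1 : T.mkW (tb W) = S.mkW (tb W) := hT.mkW hP.valid fun g' _ h3 => by
      by_contra h4
      exact h3 (h1 g' h4).2
    refine ⟨g, k1, k, W, F, hTg, by omega, by rw [(hT.free g hTg).2]; exact hk1, hag, hP, ?_, hWg,
      by rw [e1]; exact hF, hGg⟩
    intro m hm hz hf
    rw [e1, (hT.lev m hm).1] at hf
    rw [e1, hT.sup]
    exact hl m ((hT.mark m).1 hm).1 hz hf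
  obtain ⟨g, k, A, F, hg, hA, hr, hag, hF, hGg⟩ := hS T hT.ext b s G hG hs hTH
  have e1 : ∀ p, U.inU b p → T.mkW (cut A p) = S.mkW (cut A p) := fun p hp =>
    hT.mkW (hA.valid hp) fun g' _ h3 => cut_of_row (by
      by_contra h4
      exact h3 (hA.1 g' h4).2.1) p
  refine ⟨g, k, A, F, hT.ext.free g hg, ⟨fun g' h1 => ?_, fun p hp => ?_⟩, hr, hag,
    by rw [← e1 s hs]; exact hF, hGg⟩
  · obtain ⟨_, h2, h3⟩ := hA.1 g' h1
    exact ⟨hT.live h2, hT.ext.live h2, h3.mono (hT.ext.bud g' h2)⟩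
  · rw [← e1 p hp]
    exact (hT.ext.lim ∅ _ (hA.fl hp)).leg

/-- The goal of the separation step. -/
def con_G (U : Uni M) (Φ : ℕ × List ℕ → Prop) (d : M) (s t : ℕ)
    (z : ℕ × List ℕ × List ℕ) : Prop :=
  U.lab (tb z.2.1 s) (tb z.2.1 t) = d ∧ ∃ D : List ℕ, Φ (Nat.pair z.1 (tb z.2.1 s), D) ∧
    Lall D fun x => ∃ y : ℕ, y ∈ z.2.2 ∧ y.unpair.1 = x.unpair.1 ∧
      d ≤ U.lab x.unpair.2 y.unpair.2

theorem con_G_re {Φ : ℕ × List ℕ → Prop} (hΦ : REPred Φ) (d : M) (s t : ℕ) :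
    REPred (con_G U Φ d s t) := by
  unfold con_G
  refine r_and (by fun_prop) (r_ex (r_and (r_comp hΦ (by fun_prop)) (r_lall (by fun_prop)
    (r_ex (r_and (by fun_prop) (r_and (by fun_prop) (by fun_prop)))))))

theorem stT (h1 : StV0 U) (h2 : StCom U) : StT U := by
  classical
  intro S c d Φ hS hcd hΦ
  obtain ⟨b, s, t, hs, ht, hst⟩ := h1 d
  by_cases hH : S.Hyp b s (con_G U Φ d s t)
  · obtain ⟨g, k, A, F, hg, hA, hr, hag, hF, hd, D, hD, hDF⟩ :=
      hS S (Ext.refl S) b s _ (con_G_re hΦ d s t) hs hH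
    have hd' : U.lab (tb k s) (tb k t) = d := hd
    have hD1 : Sub D (U.B d (S.mkW (cut A t))) := fun x hx => by
      obtain ⟨y, hy, e1, h3⟩ := hDF x hx
      have h4 : U.lab y.unpair.2 (S.mkW (cut A s) y.unpair.1) = ⊤ := top_unique (hF y hy)
      rw [e1] at h4
      have h5 : d ≤ U.lab x.unpair.2 (S.mkW (cut A s) x.unpair.1) := h3.trans (U.le_right h4)
      have h6 : d ≤ U.lab (S.mkW (cut A s) x.unpair.1) (S.mkW (cut A t) x.unpair.1) :=
        (hst ▸ hA.lab hs ht (S.par x.unpair.1)).trans (S.hom_lab _ _ _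
          (hA.valid hs _ (S.par_live _)) (hA.valid ht _ (S.par_live _)))
      exact (le_inf h5 h6).trans (U.trans _ _ _)
    have eW : tb (tab A.length (cut A t)) = cut A t :=
      tb_tab_eq fun g' hg' => cut_of_row (row_ge hg') t
    have hP : S.PV 0 (tab A.length (cut A t)) := by
      refine ⟨fun g' h3 => ⟨Nat.zero_le _, ?_⟩, fun g' h3 => ?_, fun g' h3 => ?_⟩
      · rw [eW] at h3
        exact (hA.1 g' fun h4 => h3 (cut_of_row h4 t)).2.1
      · rw [eW]; exact hA.valid ht g' (Or.inl h3)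
      · rw [eW]; exact hA.valid ht g' (Or.inr h3)
    obtain ⟨T, hT⟩ := h2 S _ A.length hP (tab_length _ _).le (by rw [eW]; exact hA.2 t ht)
    refine ⟨T, hT.ext, fun w hw he => hcd ?_⟩
    obtain ⟨h3, _, h4⟩ := (hT.world w).1 hw.1
    rw [eW] at h4
    have h5 : U.Le (S.mkW (cut A t)) w := Sys.mkW_le (hA.valid ht) h3 fun g' hg' => by
      by_cases e : T.Live g'
      · rw [cut_of_row (row_ge (hT.live e))]; exact U.zero_le _
      · rw [h4 g' hg' e]; exact U.refl _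
    have h6 : w g = tb k t := by
      rw [h4 g (Or.inl hg) fun e => absurd (hT.live e) (not_le.2 (lt_of_row_ne hr))]
      exact hag t ht
    have h7 : Nat.pair g (tb k s) ∈ U.B c w := by
      rw [he]
      exact ⟨D, hD1.mono (h5.B d), hD⟩
    rw [Uni.mem_B, h6, hd'] at h7
    exact h7
  · obtain ⟨b1, e, n, he, hno⟩ : ∃ b1 e n, U.Emb b b1 (tb e) ∧ ¬ ∃ g k1 k W F, S.Free g ∧
        n ≤ g ∧ U.Hom b1 (S.bud g) (tb k1) ∧ U.Agr b (tb k) (fun p => tb k1 (tb e p)) ∧
        S.PV n W ∧ S.Leg ∅ (S.mkW (tb W)) ∧ tb W g = tb k s ∧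
        Sub F (U.B ⊤ (S.mkW (tb W))) ∧ con_G U Φ d s t (g, k, F) := by
      by_contra h3
      exact hH fun b1 e n he => by
        by_contra h4
        exact h3 ⟨b1, e, n, he, h4⟩
    obtain ⟨T0, hT0⟩ := h2 S [] n (S.pv_nil 0) (Nat.zero_le n) (con_leg_nil S)
    obtain ⟨g, hg, -, hb⟩ := T0.exists_free 0 b1
    have hes : U.inU (T0.bud g) (tb e s) := U.in_mono _ _ _ hb (he.1 s hs)
    have eW : tb (tab (g + 1) (Function.update (fun _ => 0) g (tb e s))) =
        Function.update (fun _ => 0) g (tb e s) :=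
      tb_tab_eq fun g' hg' => Function.update_of_ne (by omega) _ _
    have hm0 : ∀ m, T0.Mark m → Function.update (fun _ => 0) g (tb e s) m = 0 := fun m hm =>
      Function.update_of_ne (fun e' : m = g => Sys.not_mark hg (e' ▸ hm)) _ _
    have hP : T0.PV 0 (tab (g + 1) (Function.update (fun _ => 0) g (tb e s))) := by
      refine ⟨fun g' h3 => ⟨Nat.zero_le _, ?_⟩, fun g' h3 => ?_, fun g' h3 => ?_⟩
      · rw [eW] at h3
        by_cases e' : g' = g
        · exact e' ▸ Or.inl hg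
        · exact absurd (Function.update_of_ne e' _ _) h3
      · rw [eW]; exact Sys.valid_one hes g' (Or.inl h3)
      · rw [eW, hm0 g' h3]; exact U.in_zero _
    obtain ⟨T, hT⟩ := h2 T0 _ (g + 1) hP (tab_length _ _).le
      (by rw [eW]; exact Sys.leg_of_zero (Sys.valid_one hes) hm0)
    refine ⟨T, hT.ext.trans hT0.ext, fun w hw hEq => hno ?_⟩
    obtain ⟨_, _, h4⟩ := (hT.world w).1 hw.1
    have h5 : w g = tb e s := by
      rw [h4 g (Or.inl hg) fun e' => absurd (hT.live e') (by omega), eW, Function.update_self]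
    have h6 : Nat.pair g (tb e s) ∈ app Φ (U.B d w) := by
      rw [← hEq, Uni.mem_B, h5, U.refl]
      exact le_top
    obtain ⟨D, hD1, hD2⟩ := h6
    obtain ⟨n1, hn1⟩ := Uni.use_B hD1
    obtain ⟨w', h7, _, h8⟩ := (hT.ext.lim' hw).2 (max n1 (g + 1))
    have hD3 : Sub D (U.B d w') := hn1 w' fun g' hg' => h8 g' (by omega)
    obtain ⟨W, h9, h10, h11, h12⟩ := hT0.list h7
    have hSg : S.Free g := hT0.ext.free g hg
    refine ⟨g, tab (U.bd b1) fun p => p, e, W,
      D.map fun x => Nat.pair x.unpair.1 (w' x.unpair.1), hSg, (hT0.free g hg).1, ?_,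
      fun p hp => (Uni.agr_tab b1 (fun p => p) _ (he.1 p hp)).symm, h9, by rw [h10]; exact h11,
      by rw [h12 g (Or.inl hSg), h8 g (by omega), h5], fun y hy => ?_,
      (he.2 s t hs ht).trans hst, D, hD2, fun x hx => ?_⟩
    · rw [← (hT0.free g hg).2]
      exact (Uni.emb_id hb).hom.congr (Uni.agr_tab b1 _)
    · obtain ⟨x, _, rfl⟩ := List.mem_map.1 hy
      rw [h10, Uni.mem_B, U.refl]
    · refine ⟨Nat.pair x.unpair.1 (w' x.unpair.1), List.mem_map.2 ⟨x, hx, rfl⟩, ?_, ?_⟩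
      · rw [Nat.unpair_pair]
      · rw [Nat.unpair_pair]
        exact hD3 x hx

end MP750S

end

section

/-! The clause `sl` after the first fusion and after an absorption. -/

set_option autoImplicit false

namespace MP750S

variable {M : Type} [Lattice M] [BoundedOrder M] [Primcodable M] [Finite M] {U : Uni M}

omit [Finite M] in
/-- Finitely many lists of enumerated numbers have a common finite use. -/
theorem sl_use {a : M} (w : ℕ → ℕ) (P : ℕ × List ℕ → Prop) (E : ℕ → List ℕ) (L : ℕ) :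
    ∃ n, ∀ w' : ℕ → ℕ, (∀ g < n, w' g = w g) → ∀ i < L, Sub (E i) (app P (U.B a w)) →
      Sub (E i) (app P (U.B a w')) := by
  induction L with
  | zero => exact ⟨0, fun _ _ _ hi => absurd hi (Nat.not_lt_zero _)⟩
  | succ L ih =>
    obtain ⟨n, hn⟩ := ih
    by_cases h : Sub (E L) (app P (U.B a w))
    · obtain ⟨n', hn'⟩ := Uni.use_app h
      refine ⟨max n n', fun w' hw i hi hs => ?_⟩
      rcases Nat.lt_succ_iff_lt_or_eq.1 hi with h1 | rfl
      · exact hn w' (fun g hg => hw g (by omega)) i h1 hs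
      · exact hn' w' fun g hg => hw g (by omega)
    · refine ⟨n, fun w' hw i hi hs => ?_⟩
      rcases Nat.lt_succ_iff_lt_or_eq.1 hi with h1 | rfl
      · exact hn w' hw i h1 hs
      · exact absurd hs h

omit [Finite M] in
/-- In a finite world only finitely many units are not `0`. -/
theorem sl_units {T : Sys U} {Z : Set ℕ} {w : ℕ → ℕ} (hw : T.FL Z w) :
    ∃ i0, ∀ i, w (T.fr i) ≠ 0 → i < i0 := by
  obtain ⟨n, hn⟩ := hw.2.1
  obtain ⟨i0, hi⟩ := T.fr_big n
  exact ⟨i0, fun i h => lt_of_not_ge fun h' => h (hn _ (hi i h') (Or.inl (T.free_fr i)))⟩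

omit [Finite M] in
theorem sl_initC : StInitC U := by
  intro S S1 S' T0 T P a b s G r hA hE hR hs hs0 hF w hw H
  have hlim : T0.Lim ∅ w := hF.ext.lim ∅ w hw
  obtain ⟨i0, hi0⟩ := sl_units hw
  have key : ∀ z, S.InZ z → T0.Mark z → U.Fired a (w z) → ∃ j < i0,
      S.xof z ∈ aE (r (j, 0)).2.2 ∧ Sub (aE (r (j, 0)).2.2) (app P (U.B ⊤ w)) := by
    intro z hz hm hf
    have hnl : ¬ T.Live z := by
      rintro (h1 | h1)
      · exact Sys.not_mark (hF.ext.free z h1) hm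
      · rcases (hF.mark z h1).2.2.2 with h2 | ⟨y, h2⟩
        · exact h2 (by rw [hR.ext.grp]; exact S.grp_free z hz.1)
        · obtain ⟨j, rfl, hj⟩ := hF.of_kept h2
          exact ((hF.unit hj).2.2.1.1 z (by rw [hF.aK]; exact h2)).1 hz
    have h0 : w z ≠ 0 := fun e => U.not_fired_zero hA.a_ne (e ▸ hf)
    obtain ⟨y, hy⟩ := (hF.rest w z hw.1 (Or.inr hm) h0).resolve_left hnl
    obtain ⟨j, rfl, hj⟩ := hF.of_row hy
    obtain ⟨_, he, hQ, _⟩ := hF.unit hj
    have hd := hF.dep w (j, 0) z hw.1 hy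
    obtain ⟨h1, h2⟩ := hQ.2.2.2.2.2 z _ hz hm (hF.inU hw.1 j) (hd ▸ hf)
    refine ⟨j, hi0 j fun e => ?_, h1, (H j hj).resolve_left ?_⟩
    · exact Uni.not_le_zero hA.a_ne (he.ne_zero hs hs0) (e ▸ h2)
    · rintro ⟨p, hp, h3, h4⟩
      exact h3 (he.2 s p hs hp ▸ h2.trans (U.le_right h4))
  obtain ⟨n1, hn1⟩ := sl_use (U := U) (a := ⊤) w P (fun j => aE (r (j, 0)).2.2) i0
  refine ⟨(hR.world w).1 hlim.1, fun n0 => ?_⟩
  obtain ⟨w', h1, h2, h3⟩ := hlim.2 (max n0 n1)
  refine ⟨w', ⟨(hR.world w').1 h1.1, ?_, fun m hm hz hf => ?_⟩, h2,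
    fun g hg => h3 g (by omega)⟩
  · obtain ⟨n, hn⟩ := h1.2.1
    exact ⟨n, fun g hg hl => hn g hg ((hR.live g).2 hl)⟩
  by_cases hZ : S.InZ m
  · obtain ⟨h4, h5⟩ := hA.newMark hE hZ hm
    obtain ⟨j, hj, h6, h7⟩ := key m hZ ((hR.mark m).2 hm) (Uni.Fired.up (h4 ▸ hf) (h2 m))
    obtain ⟨D, h8, h9⟩ := hn1 w' (fun g hg => h3 g (by omega)) j hj h7 _ h6
    exact ⟨D, h8, (h5 D).2 h9⟩
  · obtain ⟨D, h8, h9⟩ := h1.2.2 m ((hR.mark m).2 hm) hz (by rw [hR.lev]; exact hf)
    exact ⟨D, h8, ((hR.sup m D).1 h9).resolve_right hZ⟩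

theorem stInitC : StInitC U := sl_initC

omit [Finite M] in
/-- Raising the non-zero units of an approximant that are at the top in `w`. -/
theorem sl_raise {S S' T : Sys U} {P : ℕ × List ℕ → Prop} {a : M} {b s : ℕ}
    {G : ℕ × List ℕ × List ℕ → Prop} {an : ℕ → AnT} (hs : U.inU b s)
    (hA : Ann S S' P a b s G T an) {w w' : ℕ → ℕ} (hw : T.World w) (hw' : T.FL ∅ w')
    (hle : U.Le w' w) : ∃ w'', T.FL ∅ w'' ∧ U.Le w' w'' ∧ U.Le w'' w ∧
      ∀ j, (an j).1 ≠ [] → w'' (T.fr j) = 0 ∨ Sub (aF (an j)) (U.B ⊤ w'') ∨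
        (w (T.fr j) ≠ 0 ∧ ¬ (w (T.fr j) = U.top (T.bud (T.fr j)) ∧
          ∀ m, tb (aK (an j)) m ≠ 0 → w m = U.top (T.bud m))) := by
  classical
  let Tp : ℕ → Prop := fun j => w (T.fr j) = U.top (T.bud (T.fr j)) ∧
    ∀ m, tb (aK (an j)) m ≠ 0 → w m = U.top (T.bud m)
  let X : ℕ → Prop := fun g => ∃ j, (an j).1 ≠ [] ∧ w' (T.fr j) ≠ 0 ∧ Tp j ∧
    (g = T.fr j ∨ tb (aK (an j)) g ≠ 0)
  let x : ℕ → ℕ := fun g => if X g then w g else w' g
  have x1 : ∀ g, X g → x g = w g := fun g hg => if_pos hg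
  have x2 : ∀ g, ¬ X g → x g = w' g := fun g hg => if_neg hg
  have hx : T.Valid x := fun g hg => by
    by_cases e : X g
    · rw [x1 g e]; exact hw.1 g hg
    · rw [x2 g e]; exact hw'.1.1 g hg
  have l1 : U.Le w' (T.mkW x) := by
    have := Sys.mkW_mono hw'.1.1 hx fun g _ => by
      by_cases e : X g
      · rw [x1 g e]; exact hle g
      · rw [x2 g e]; exact U.refl _
    rwa [hw'.1.mkW] at this
  have l2 : U.Le (T.mkW x) w := Sys.mkW_le hx hw fun g _ => by
    by_cases e : X g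
    · rw [x1 g e]; exact U.refl _
    · rw [x2 g e]; exact hle g
  have src : ∀ j, (an j).1 ≠ [] → w' (T.fr j) ≠ 0 → Tp j →
      Sub (aF (an j)) (U.B ⊤ (T.mkW x)) := fun j hj h0 ht => by
    refine hA.src j _ hj (Sys.mkW_world hx) ?_ fun g => ?_
    · rw [Sys.mkW_live hx (Or.inl (T.free_fr j)), x1 _ ⟨j, hj, h0, ht, Or.inl rfl⟩, ht.1]
      exact U.le_top _ _ ((hA.hom j hj).1 s hs)
    · by_cases e : tb (aK (an j)) g = 0
      · rw [e]; exact U.zero_le _
      · obtain ⟨h1, h2, _⟩ := hA.kmark j g hj e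
        rw [Sys.mkW_live hx (Or.inr h1), x1 _ ⟨j, hj, h0, ht, Or.inr e⟩, ht.2 g e]
        exact U.le_top _ _ h2
  obtain ⟨j0, hj0⟩ := sl_units hw'
  obtain ⟨n, hn⟩ := hw'.2.1
  refine ⟨T.mkW x, Sys.fl_mkW (n := max n ((Finset.range j0).sup fun j => (aK (an j)).length))
    hx (fun g hg hl => ?_) (Sys.leg_mkW hx fun m hm hz hf => ?_), l1, l2, fun j hj => ?_⟩
  · have e : ¬ X g := by
      rintro ⟨j, _, h0, _, rfl | h1⟩
      · exact h0 (hn _ (by omega) hl)
      · have h2 := lt_of_tb_ne h1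
        have h3 := Finset.le_sup (f := fun j => (aK (an j)).length)
          (Finset.mem_range.2 (hj0 j h0))
        omega
    rw [x2 g e, hn g (by omega) hl]
  · by_cases e : X m
    · obtain ⟨j, hj, h0, ht, rfl | h1⟩ := e
      · exact absurd hm (Sys.not_mark (T.free_fr j))
      · exact app_mono (src j hj h0 ht).lset (hA.kmark j m hj h1).2.2
    · exact app_mono (l1.B ⊤) (hw'.2.2 m hm hz (x2 m e ▸ hf))
  · by_cases h0 : w' (T.fr j) = 0
    · left
      have e : ¬ X (T.fr j) := by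
        rintro ⟨j', hj', h1, _, h2 | h2⟩
        · exact h1 (h2 ▸ h0)
        · exact Sys.not_mark (T.free_fr j) (hA.kmark j' _ hj' h2).1
      rw [Sys.mkW_live hx (Or.inl (T.free_fr j)), x2 _ e, h0]
    · by_cases ht : Tp j
      · exact Or.inr (Or.inl (src j hj h0 ht))
      · exact Or.inr (Or.inr ⟨fun e => h0 (U.eq_zero_of_top (e ▸ hle (T.fr j))), ht⟩)

omit [Finite M] in
theorem sl_absC : StAbsC U := by
  intro S S' T T' P a b s G an p Tg r ha hs0 hs hA hF w hw H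
  have hlim : T.Lim ∅ w := hF.ext.lim ∅ w hw
  obtain ⟨i0, hi0⟩ := sl_units hw
  obtain ⟨n1, hn1⟩ := sl_use (U := U) (a := ⊤) w P (fun i => aE (r (i, 0)).2.2) i0
  refine Sys.lim_of_lim (hA.wld w hlim.1) fun n0 => ?_
  obtain ⟨w', h1, h2, h3⟩ := hlim.2 (max n0 n1)
  obtain ⟨w'', h4, h5, h6, h7⟩ := sl_raise hs hA hlim.1 h1 h2
  refine ⟨w'', hA.sl w'' h4 fun j' hj' => ?_, h6, fun g hg =>
    Uni.eq_of_top (h6 g) (h3 g (by omega) ▸ h5 g)⟩
  rcases h7 j' hj' with h8 | h8 | ⟨h8, h9⟩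
  · exact Or.inl ⟨0, U.in_zero b, Uni.not_le_zero ha hs0, by rw [h8]; exact U.zero_le _⟩
  · exact Or.inr ((hA.esup j' hj').mono (app_mono h8.lset))
  have hnl : ¬ T'.Live (T.fr j') := by
    rintro (h | h)
    · have e1 := (hF.main (T'.idx (T.fr j'))).2
      have e2 := hA.odd j' hj'
      rw [show T'.fr (T'.idx (T.fr j')) = T.fr j' from h, T.idx_fr] at e1
      omega
    · exact Sys.not_mark (T.free_fr j') (hF.mark _ h).1
  obtain ⟨y, hy⟩ := (hF.rest w _ hw.1 (Or.inl (T.free_fr j')) h8).resolve_left hnl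
  obtain ⟨i, rfl, hi⟩ := hF.of_row hy
  obtain ⟨_, he, ⟨_, j, hj, eE, _, _, _, _, hag, _, hot⟩, hfam⟩ := hF.unit hi
  have hq := hF.inU hw.1 i
  have hd := hF.dep w (i, 0) _ hw.1 hy
  by_cases ej : j' = j
  · subst ej
    have bel : ∀ p', U.inU b p' → U.lab (w (T'.fr i)) (tb (r (i, 0)).2.2.1 p') = ⊤ →
        U.lab (w'' (T.fr j')) (tb (an j').1 p') = ⊤ := fun p' hp' h => by
      refine U.top_trans (h6 _) ?_
      rw [hd, ← hag p' hp']
      exact top_unique (h ▸ hfam.lab hq (he.1 p' hp') _)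
    by_cases h0 : w (T'.fr i) = 0
    · exact Or.inl ⟨0, U.in_zero b, Uni.not_le_zero ha hs0,
        bel 0 (U.in_zero b) (by rw [h0]; exact U.zero_le _)⟩
    rcases H i hi with ⟨p', hp', h10, h11⟩ | h10
    · exact Or.inl ⟨p', hp', h10, bel p' hp' h11⟩
    · have h11 := hn1 w' (fun g hg => h3 g (by omega)) i (hi0 i h0) h10
      exact Or.inr (eE ▸ h11.mono (app_mono (h5.B ⊤)))
  · obtain ⟨h10, h11⟩ := hot j' hj' ej hy
    refine absurd ⟨hd.trans (h10 _ hq), fun m hm => ?_⟩ h9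
    obtain ⟨h12, h13⟩ := h11 m hm
    exact (hF.dep w (i, 0) m hw.1 h12).trans (h13 _ hq)

theorem stAbsC : StAbsC U := sl_absC

end MP750S

end
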